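import Mathlib
set_option autoImplicit false
set_option linter.unusedSimpArgs false

/-! The one-dimensional Gaussian integral with a quadratic weight. -/

namespace Pool.Agent.U506.RR

open MeasureTheory Set Complex

/-- the complex time -/
noncomputable def zt (t : ℝ) : ℂ := 1 - t * I

lemma zt_re (t : ℝ) : (zt t).re = 1 := by simp [zt]

lemma zt_im (t : ℝ) : (zt t).im = -t := by simp [zt]

lemma zt_ne (t : ℝ) : zt t ≠ 0 := by
  intro h
  have := congrArg Complex.re h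
  rw [zt_re] at this
  norm_num at this

lemma zt_normSq (t : ℝ) : Complex.normSq (zt t) = 1 + t ^ 2 := by
  rw [normSq_apply, zt_re, zt_im]
  ring

lemma zt_norm (t : ℝ) : ‖zt t‖ = √(1 + t ^ 2) := by
  rw [Complex.norm_def, zt_normSq]

/-- the exponential in the radial variable -/
noncomputable def ex (u t r : ℝ) : ℂ := cexp (-(zt t) * (r : ℂ) ^ 2 + (u * I) * r + 0)

lemma ex_norm (u t r : ℝ) : ‖ex u t r‖ = Real.exp (-r ^ 2) := by
  unfold ex
  rw [norm_exp]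
  congr 1
  simp only [zt, add_re, mul_re, neg_re, sub_re, one_re, ofReal_re, I_re, mul_zero, ofReal_im,
    I_im, mul_one, sub_self, sub_zero, neg_im, sub_im, one_im, mul_im, zero_add, add_zero, zero_re]
  rw [← ofReal_pow, ofReal_re, ofReal_im]
  ring

lemma ex_cont (u t : ℝ) : Continuous (ex u t) := by
  unfold ex
  fun_prop

lemma ex_int (u t : ℝ) : Integrable (ex u t) := by
  unfold ex
  exact integrable_cexp_quadratic (by rw [zt_re]; norm_num) _ _

/-- the radial integral `∫ r² e^{-r²} e^{i(ru + t r²)} dr` -/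
noncomputable def Ph (u t : ℝ) : ℂ := ∫ r : ℝ, ((r ^ 2 : ℝ) : ℂ) * ex u t r

lemma sq_exp_le (r : ℝ) : r ^ 2 * Real.exp (-r ^ 2) ≤ 2 * Real.exp (-(1 / 2) * r ^ 2) := by
  have h1 : r ^ 2 / 2 ≤ Real.exp (r ^ 2 / 2) := by
    have := Real.add_one_le_exp (r ^ 2 / 2)
    linarith
  have h2 : Real.exp (-r ^ 2) = Real.exp (-(r ^ 2 / 2)) * Real.exp (-(1 / 2) * r ^ 2) := by
    rw [← Real.exp_add]
    congr 1
    ring
  rw [h2, ← mul_assoc]
  have h3 : Real.exp (r ^ 2 / 2) * Real.exp (-(r ^ 2 / 2)) = 1 := by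
    rw [← Real.exp_add]
    simp
  have h4 : 0 < Real.exp (-(r ^ 2 / 2)) := Real.exp_pos _
  have h5 : r ^ 2 * Real.exp (-(r ^ 2 / 2)) ≤ 2 := by nlinarith
  gcongr

lemma abs_exp_le (r : ℝ) : |r| * Real.exp (-r ^ 2) ≤ 2 * Real.exp (-(1 / 2) * r ^ 2) := by
  have h0 := sq_exp_le r
  have h1 : Real.exp (-r ^ 2) ≤ Real.exp (-(1 / 2) * r ^ 2) := by
    apply Real.exp_le_exp.2
    nlinarith [sq_nonneg r]
  have h2 : |r| ≤ (1 + r ^ 2) / 2 := by nlinarith [sq_nonneg (|r| - 1), sq_abs r]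
  have h3 := Real.exp_pos (-r ^ 2)
  nlinarith

lemma sq_ex_int (u t : ℝ) : Integrable fun r : ℝ => ((r ^ 2 : ℝ) : ℂ) * ex u t r := by
  have h := (integrable_exp_neg_mul_sq (b := 1 / 2) (by norm_num)).const_mul 2
  refine h.mono' (Continuous.aestronglyMeasurable ?_) (ae_of_all _ fun r => ?_)
  · exact (by fun_prop : Continuous fun r : ℝ => ((r ^ 2 : ℝ) : ℂ)).mul (ex_cont u t)
  · rw [norm_mul, ex_norm, norm_real, Real.norm_of_nonneg (sq_nonneg r)]
    exact sq_exp_le r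

lemma one_ex_int (u t : ℝ) : Integrable fun r : ℝ => (r : ℂ) * ex u t r := by
  have h := (integrable_exp_neg_mul_sq (b := 1 / 2) (by norm_num)).const_mul 2
  refine h.mono' (Continuous.aestronglyMeasurable ?_) (ae_of_all _ fun r => ?_)
  · exact (by fun_prop : Continuous fun r : ℝ => (r : ℂ)).mul (ex_cont u t)
  · rw [norm_mul, ex_norm, norm_real, Real.norm_eq_abs]
    exact abs_exp_le r

lemma ex_deriv (u t r : ℝ) : HasDerivAt (ex u t) ((-2 * zt t * r + u * I) * ex u t r) r := by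
  unfold ex
  have h1 : HasDerivAt (fun r : ℝ => (r : ℂ)) 1 r := ofRealCLM.hasDerivAt
  have h2 : HasDerivAt (fun r : ℝ => -(zt t) * (r : ℂ) ^ 2 + (u * I) * r + 0)
      (-(zt t) * ((2 : ℕ) * (r : ℂ) ^ (2 - 1) * 1) + (u * I) * 1) r :=
    (((h1.pow 2).const_mul _).add (h1.const_mul _)).add_const _
  refine h2.cexp.congr_deriv ?_
  push_cast
  ring

lemma ex_integral (u t : ℝ) : ∫ r, ex u t r =
    (Real.pi / zt t) ^ (1 / 2 : ℂ) * cexp (-(u : ℂ) ^ 2 / (4 * zt t)) := by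
  unfold ex
  have h := integral_cexp_quadratic (b := -(zt t)) (by rw [neg_re, zt_re]; norm_num) (u * I) 0
  rw [h, neg_neg]
  congr 2
  rw [mul_pow, I_sq]
  have := zt_ne t
  field_simp
  ring

/-- The exact formula. -/
theorem Ph_eq (u t : ℝ) : Ph u t = (2 * zt t)⁻¹ * (1 - (u : ℂ) ^ 2 / (2 * zt t)) *
    ((Real.pi / zt t) ^ (1 / 2 : ℂ) * cexp (-(u : ℂ) ^ 2 / (4 * zt t))) := by
  rw [← ex_integral]
  have hz := zt_ne t
  set c : ℂ := u * I / (2 * zt t) with hc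
  have h1 : ∀ r : ℝ, HasDerivAt (fun r : ℝ => ((r : ℂ) + c) * ex u t r)
      ((1 - (u : ℂ) ^ 2 / (2 * zt t)) * ex u t r - (2 * zt t) * (((r ^ 2 : ℝ) : ℂ) * ex u t r))
      r := by
    intro r
    have h2 : HasDerivAt (fun r : ℝ => (r : ℂ) + c) 1 r :=
      (ofRealCLM.hasDerivAt (x := r)).add_const c
    refine (h2.mul (ex_deriv u t r)).congr_deriv ?_
    have h3 : c * (u * I) = -((u : ℂ) ^ 2 / (2 * zt t)) := by
      rw [hc, div_mul_eq_mul_div]
      have : (u : ℂ) * I * (u * I) = -(u : ℂ) ^ 2 := by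
        rw [show (u : ℂ) * I * (u * I) = (u : ℂ) ^ 2 * I ^ 2 by ring, I_sq]
        ring
      rw [this, neg_div]
    have h4 : c * (-2 * zt t) = -(u * I) := by
      rw [hc]
      field_simp
    have h5 : ((r : ℂ) + c) * ((-2 * zt t * r + u * I) * ex u t r) =
        (-2 * zt t * r ^ 2 + r * (u * I) + (c * (-2 * zt t)) * r + c * (u * I)) * ex u t r := by
      ring
    rw [h5, h3, h4]
    push_cast
    ring
  have i1 : Integrable fun r : ℝ =>
      ((1 - (u : ℂ) ^ 2 / (2 * zt t)) * ex u t r - (2 * zt t) * (((r ^ 2 : ℝ) : ℂ) * ex u t r)) :=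
    ((ex_int u t).const_mul _).sub ((sq_ex_int u t).const_mul _)
  have i2 : Integrable fun r : ℝ => ((r : ℂ) + c) * ex u t r := by
    have : (fun r : ℝ => ((r : ℂ) + c) * ex u t r) = fun r : ℝ => (r : ℂ) * ex u t r +
        c * ex u t r := by
      ext r
      ring
    rw [this]
    exact (one_ex_int u t).add ((ex_int u t).const_mul _)
  have h6 := integral_eq_zero_of_hasDerivAt_of_integrable h1 i1 i2
  rw [integral_sub ((ex_int u t).const_mul _) ((sq_ex_int u t).const_mul _),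
    integral_const_mul, integral_const_mul, sub_eq_zero] at h6
  unfold Ph
  have h7 : (2 * zt t) ≠ 0 := mul_ne_zero two_ne_zero hz
  rw [mul_assoc, h6, inv_mul_cancel_left₀ h7]

/-- the constant in front -/
noncomputable def ct (t : ℝ) : ℂ := (zt t)⁻¹ * (Real.pi / zt t) ^ (1 / 2 : ℂ)

lemma ct_norm (t : ℝ) : ‖ct t‖ = √Real.pi * ‖zt t‖ ^ (-(3 / 2) : ℝ) := by
  unfold ct
  have h0 : 0 < ‖zt t‖ := norm_pos_iff.2 (zt_ne t)
  rw [norm_mul, norm_inv]
  have h1 : ‖((Real.pi : ℂ) / zt t) ^ (1 / 2 : ℂ)‖ = (Real.pi / ‖zt t‖) ^ (1 / 2 : ℝ) := by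
    have h2 : (1 / 2 : ℂ) = ((1 / 2 : ℝ) : ℂ) := by push_cast; rfl
    rw [h2, norm_cpow_real]
    congr 1
    rw [norm_div, norm_real, Real.norm_of_nonneg Real.pi_pos.le]
  rw [h1, Real.div_rpow Real.pi_pos.le h0.le, ← Real.sqrt_eq_rpow, ← Real.rpow_neg_one]
  rw [div_eq_mul_inv, ← Real.rpow_neg h0.le, ← mul_assoc, mul_comm _ (√Real.pi), mul_assoc,
    ← Real.rpow_add h0]
  norm_num

/-- The formula in the coordinates `u² = 4 (1+t²) a c`. -/
theorem Ph_eq2 {u t a c : ℝ} (h : u ^ 2 = 4 * (1 + t ^ 2) * (a * c)) :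
    Ph u t = ct t * ((1 / 2 - (a * c : ℝ) * (1 + t * I)) * cexp (-((a * c : ℝ) * (1 + t * I)))) := by
  rw [Ph_eq]
  have hz := zt_ne t
  have h1 : zt t * (1 + t * I) = ((1 + t ^ 2 : ℝ) : ℂ) := by
    unfold zt
    have : (1 - (t : ℂ) * I) * (1 + t * I) = 1 - (t : ℂ) ^ 2 * I ^ 2 := by ring
    rw [this, I_sq]
    push_cast
    ring
  have h2 : (u : ℂ) ^ 2 = 4 * (zt t * (1 + t * I)) * ((a * c : ℝ) : ℂ) := by
    rw [h1, ← ofReal_pow, h]
    push_cast
    ring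
  have h3 : (u : ℂ) ^ 2 / (2 * zt t) = 2 * (((a * c : ℝ) : ℂ) * (1 + t * I)) := by
    rw [h2]
    field_simp
    ring
  have h4 : -(u : ℂ) ^ 2 / (4 * zt t) = -(((a * c : ℝ) : ℂ) * (1 + t * I)) := by
    rw [h2]
    field_simp
  rw [h3, h4]
  unfold ct
  rw [mul_inv]
  ring

end Pool.Agent.U506.RR
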