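import Mathlib
import Pool.Agent.H249.CE2.Bess
set_option autoImplicit false

/-! Averages of characters over the circle; Gaussian integrals in the plane. -/

namespace Pool.Agent.U506.RR

open MeasureTheory Set Complex
open Pool.Agent.H249.CE2 (Bs Bs_abs Bs1 Eb Eb_anti Eb_one)

lemma Bs_decay {t : ℝ} (ht : 0 < t) : Bs t ^ 2 ≤ 28 * Real.pi ^ 2 / t := by
  have hpi := Real.pi_pos
  rw [le_div_iff₀ ht]
  rcases le_total t 1 with h | h
  · have h1 := Bs_abs t
    have h2 : Bs t ^ 2 ≤ (2 * Real.pi) ^ 2 := sq_le_sq' (abs_le.1 h1).1 (abs_le.1 h1).2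
    nlinarith [sq_nonneg (Bs t), sq_nonneg Real.pi]
  · have h1 := Eb_anti (Set.mem_Ici.2 le_rfl) (Set.mem_Ici.2 h) h
    have h2 := Eb_one
    have h3 : t / 2 * Bs t ^ 2 ≤ Eb t := by
      unfold Eb
      have h4 : 0 ≤ Bs t ^ 2 / (2 * t) := by positivity
      have h5 : -((Bs t ^ 2 + Bs1 t ^ 2) / 2) ≤ Bs t * Bs1 t := by
        nlinarith [sq_nonneg (Bs t + Bs1 t)]
      nlinarith [sq_nonneg (Bs t), sq_nonneg (Bs1 t)]
    linarith

lemma chr_per (r : ℝ) : Function.Periodic (fun α : ℝ => cexp (-(I * ((r * Real.cos α : ℝ) : ℂ))))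
    (2 * Real.pi) := by
  intro α
  simp only [Real.cos_add_two_pi]

/-- the average over a full period -/
lemma circ_avg (r a : ℝ) :
    ∫ α in a..(a + 2 * Real.pi), cexp (-(I * ((r * Real.cos α : ℝ) : ℂ))) = (Bs r : ℂ) := by
  have h1 := (chr_per r).intervalIntegral_add_eq a 0
  rw [h1, zero_add]
  have h2 : ∀ α : ℝ, cexp (-(I * ((r * Real.cos α : ℝ) : ℂ))) =
      ((Real.cos (r * Real.cos α) : ℝ) : ℂ) - ((Real.sin (r * Real.cos α) : ℝ) : ℂ) * I := by
    intro α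
    rw [show -(I * ((r * Real.cos α : ℝ) : ℂ)) = ((-(r * Real.cos α) : ℝ) : ℂ) * I by
      push_cast; ring]
    rw [exp_mul_I, ← ofReal_cos, ← ofReal_sin, Real.cos_neg, Real.sin_neg]
    push_cast
    ring
  simp only [h2]
  rw [intervalIntegral.integral_sub (Continuous.intervalIntegrable (by fun_prop) _ _)
    (Continuous.intervalIntegrable (by fun_prop) _ _), intervalIntegral.integral_mul_const,
    intervalIntegral.integral_ofReal, intervalIntegral.integral_ofReal]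
  have h3 : ∫ α in (0 : ℝ)..(2 * Real.pi), Real.sin (r * Real.cos α) = 0 := by
    have h4 : Function.Periodic (fun α : ℝ => Real.sin (r * Real.cos α)) (2 * Real.pi) := by
      intro α
      simp only [Real.cos_add_two_pi]
    have h5 := h4.intervalIntegral_add_eq Real.pi 0
    have h6 : ∫ α in (0 : ℝ)..(2 * Real.pi), Real.sin (r * Real.cos (α + Real.pi)) =
        ∫ α in (0 + Real.pi)..(2 * Real.pi + Real.pi), Real.sin (r * Real.cos α) :=
      intervalIntegral.integral_comp_add_right (fun α => Real.sin (r * Real.cos α)) Real.pi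
    have h7 : ∀ α : ℝ, Real.sin (r * Real.cos (α + Real.pi)) = -Real.sin (r * Real.cos α) := by
      intro α
      rw [Real.cos_add_pi, mul_neg, Real.sin_neg]
    simp only [h7] at h6
    rw [intervalIntegral.integral_neg, zero_add, add_comm (2 * Real.pi) Real.pi, h5, zero_add] at h6
    linarith
  rw [h3]
  unfold Bs
  simp

/-- the measure on the angles -/
noncomputable def Jm (ϑ : ℝ) : Measure ℝ := volume.restrict (Ioc (ϑ - Real.pi / 2) (ϑ + Real.pi / 2))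

instance (ϑ : ℝ) : IsFiniteMeasure (Jm ϑ) := by
  unfold Jm
  infer_instance

/-- the phase on the doubled circle -/
noncomputable def ph2 (y : ℝ × ℝ) (θ : ℝ) : ℝ := y.1 * Real.cos (2 * θ) + y.2 * Real.sin (2 * θ)

lemma ph2_cont : Continuous (Function.uncurry ph2) := by
  unfold ph2 Function.uncurry
  fun_prop

/-- the length -/
noncomputable def ln (y : ℝ × ℝ) : ℝ := √(y.1 ^ 2 + y.2 ^ 2)

lemma ph2_polar (r ψ θ : ℝ) :
    ph2 (r * Real.cos ψ, r * Real.sin ψ) θ = r * Real.cos (2 * θ - ψ) := by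
  unfold ph2
  rw [Real.cos_sub]
  ring

lemma exists_polar (y : ℝ × ℝ) : ∃ ψ : ℝ, y = (ln y * Real.cos ψ, ln y * Real.sin ψ) := by
  refine ⟨Complex.arg ⟨y.1, y.2⟩, ?_⟩
  have h1 : ln y = ‖(⟨y.1, y.2⟩ : ℂ)‖ := by
    rw [Complex.norm_def, normSq_apply]
    unfold ln
    congr 1
    ring
  have h2 := Complex.norm_mul_exp_arg_mul_I (⟨y.1, y.2⟩ : ℂ)
  rw [h1]
  have h3 : cexp ((Complex.arg ⟨y.1, y.2⟩ : ℝ) * I) =
      ⟨Real.cos (Complex.arg ⟨y.1, y.2⟩), Real.sin (Complex.arg ⟨y.1, y.2⟩)⟩ := by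
    apply Complex.ext
    · rw [exp_ofReal_mul_I_re]
    · rw [exp_ofReal_mul_I_im]
  rw [h3] at h2
  have h4 := congrArg Complex.re h2
  have h5 := congrArg Complex.im h2
  simp only [mul_re, mul_im, ofReal_re, ofReal_im, zero_mul, sub_zero, add_zero] at h4 h5
  ext
  · exact h4.symm
  · exact h5.symm

lemma Jm_avg (ϑ r ψ : ℝ) :
    ∫ θ, cexp (-(I * ((r * Real.cos (2 * θ - ψ) : ℝ) : ℂ))) ∂(Jm ϑ) = (Bs r : ℂ) / 2 := by
  unfold Jm
  have hpi := Real.pi_pos
  rw [← intervalIntegral.integral_of_le (by linarith)]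
  have h1 := intervalIntegral.integral_comp_mul_sub (a := ϑ - Real.pi / 2) (b := ϑ + Real.pi / 2)
    (fun α : ℝ => cexp (-(I * ((r * Real.cos α : ℝ) : ℂ)))) (c := 2) (by norm_num) ψ
  rw [h1]
  have h2 : 2 * (ϑ + Real.pi / 2) - ψ = (2 * (ϑ - Real.pi / 2) - ψ) + 2 * Real.pi := by ring
  rw [h2, circ_avg, Complex.real_smul]
  push_cast
  ring

lemma Jm_avg_ph (ϑ : ℝ) (y : ℝ × ℝ) (e : ℝ) (he : e = 1 ∨ e = -1) :
    ∫ θ, cexp (-(I * ((e * ph2 y θ : ℝ) : ℂ))) ∂(Jm ϑ) = (Bs (ln y) : ℂ) / 2 := by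
  obtain ⟨ψ, hψ⟩ := exists_polar y
  rcases he with rfl | rfl
  · rw [← Jm_avg ϑ (ln y) ψ]
    apply integral_congr_ae
    refine ae_of_all _ fun θ => ?_
    simp only
    conv_lhs => rw [hψ, ph2_polar, one_mul]
  · rw [← Jm_avg ϑ (ln y) (ψ + Real.pi)]
    apply integral_congr_ae
    refine ae_of_all _ fun θ => ?_
    simp only
    conv_lhs => rw [hψ, ph2_polar]
    rw [show 2 * θ - (ψ + Real.pi) = 2 * θ - ψ - Real.pi by ring, Real.cos_sub_pi]
    congr 4
    ring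

/-- the Gaussian weight -/
noncomputable def Wg (s : ℝ) (y : ℝ × ℝ) : ℝ := Real.exp (-(s * (y.1 ^ 2 + y.2 ^ 2)))

lemma Wg_int {s : ℝ} (hs : 0 < s) : Integrable (Wg s) := by
  have h := (integrable_exp_neg_mul_sq hs).mul_prod (integrable_exp_neg_mul_sq hs)
  refine h.congr (ae_of_all _ fun y => ?_)
  simp only [Wg]
  rw [← Real.exp_add]
  congr 1
  ring

/-- the Gaussian integral in the plane is nonnegative -/
lemma gauss_plane {s : ℝ} (hs : 0 < s) (S : ℝ × ℝ) :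
    ∃ K : ℝ, 0 ≤ K ∧ ∫ y : ℝ × ℝ, (Wg s y : ℂ) * cexp (-(I * ((y.1 * S.1 + y.2 * S.2 : ℝ) : ℂ))) =
      (K : ℂ) := by
  have key : ∀ u : ℝ, ∃ K : ℝ, 0 ≤ K ∧
      ∫ x : ℝ, cexp (-(s : ℂ) * (x : ℂ) ^ 2 + (-(I * u)) * x + 0) = (K : ℂ) := by
    intro u
    refine ⟨√(Real.pi / s) * Real.exp (-u ^ 2 / (4 * s)), by positivity, ?_⟩
    have h := integral_cexp_quadratic (b := -(s : ℂ)) (by simpa using hs) (-(I * u)) 0
    rw [h, neg_neg]
    have hs0 : (s : ℂ) ≠ 0 := by exact_mod_cast hs.ne'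
    have h1 : (0 : ℂ) - (-(I * u)) ^ 2 / (4 * -(s : ℂ)) = ((-u ^ 2 / (4 * s) : ℝ) : ℂ) := by
      rw [neg_sq, mul_pow, I_sq]
      push_cast
      field_simp
      ring
    rw [h1, Real.sqrt_eq_rpow]
    push_cast
    rw [ofReal_cpow (by positivity)]
    push_cast
    rfl
  obtain ⟨K1, hK1, e1⟩ := key S.1
  obtain ⟨K2, hK2, e2⟩ := key S.2
  refine ⟨K1 * K2, mul_nonneg hK1 hK2, ?_⟩
  push_cast
  rw [← e1, ← e2, ← integral_prod_mul, ← Measure.volume_eq_prod]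
  apply integral_congr_ae
  refine ae_of_all _ fun y => ?_
  simp only [Wg]
  push_cast
  rw [← Complex.exp_add, ← Complex.exp_add]
  congr 1
  ring

end Pool.Agent.U506.RR
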