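import Mathlib
import Pool.Agent.U506.RR.B1
set_option autoImplicit false

/-! The `L⁴` inequality for the circle with a Gaussian weight. -/

namespace Pool.Agent.U506.RR

open MeasureTheory Set Complex
open Pool.Agent.H249.CE2 (Bs Bs_abs)

/-- signs -/
def sg : Fin 4 → ℝ := ![1, 1, -1, -1]

lemma sg_pm (i : Fin 4) : sg i = 1 ∨ sg i = -1 := by
  fin_cases i <;> simp [sg]

/-- the sum of the four unit vectors -/
noncomputable def S4 (θ : Fin 4 → ℝ) : ℝ × ℝ :=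
  (∑ i, sg i * Real.cos (2 * θ i), ∑ i, sg i * Real.sin (2 * θ i))

/-- the character -/
noncomputable def chy (y : ℝ × ℝ) (e θ : ℝ) : ℂ := cexp (-(I * ((e * ph2 y θ : ℝ) : ℂ)))

lemma chy_norm (y : ℝ × ℝ) (e θ : ℝ) : ‖chy y e θ‖ = 1 := by
  unfold chy
  rw [show -(I * ((e * ph2 y θ : ℝ) : ℂ)) = ((-(e * ph2 y θ) : ℝ) : ℂ) * I by push_cast; ring]
  exact norm_exp_ofReal_mul_I _

lemma chy_cont (e : ℝ) : Continuous fun p : (ℝ × ℝ) × ℝ => chy p.1 e p.2 := by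
  unfold chy
  have := ph2_cont
  unfold Function.uncurry at this
  fun_prop

lemma prod_chr (a : Fin 4 → ℝ → ℂ) (y : ℝ × ℝ) (θ : Fin 4 → ℝ) :
    ∏ i, (a i (θ i) * chy y (sg i) (θ i)) = (∏ i, a i (θ i)) *
      cexp (-(I * ((y.1 * (S4 θ).1 + y.2 * (S4 θ).2 : ℝ) : ℂ))) := by
  rw [Finset.prod_mul_distrib]
  congr 1
  unfold chy
  rw [← Complex.exp_sum]
  congr 1
  rw [Finset.sum_neg_distrib, ← Finset.mul_sum]
  congr 2
  rw [← ofReal_sum]
  congr 1
  unfold S4 ph2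
  simp only
  rw [Finset.mul_sum, Finset.mul_sum, ← Finset.sum_add_distrib]
  apply Finset.sum_congr rfl
  intro i _
  ring

/-- the nonnegative kernel -/
lemma kern {s : ℝ} (hs : 0 < s) : ∃ K : (Fin 4 → ℝ) → ℝ, (∀ θ, 0 ≤ K θ) ∧
    ∀ θ, ∫ y : ℝ × ℝ, (Wg s y : ℂ) *
      cexp (-(I * ((y.1 * (S4 θ).1 + y.2 * (S4 θ).2 : ℝ) : ℂ))) = (K θ : ℂ) := by
  choose K h1 h2 using fun θ => gauss_plane hs (S4 θ)
  exact ⟨K, h1, h2⟩

lemma S4_cont : Continuous S4 := by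
  unfold S4
  fun_prop

/-- The four-linear identity. -/
lemma four_lin {s : ℝ} (hs : 0 < s) (μ : Measure ℝ) [IsFiniteMeasure μ] {K : (Fin 4 → ℝ) → ℝ}
    (hK : ∀ θ, ∫ y : ℝ × ℝ, (Wg s y : ℂ) *
      cexp (-(I * ((y.1 * (S4 θ).1 + y.2 * (S4 θ).2 : ℝ) : ℂ))) = (K θ : ℂ))
    (a : Fin 4 → ℝ → ℂ) (ha : ∀ i, Measurable (a i)) {B : ℝ} (hB : ∀ i θ, ‖a i θ‖ ≤ B) :
    Integrable (fun θ : Fin 4 → ℝ => (∏ i, a i (θ i)) * (K θ : ℂ)) (Measure.pi fun _ => μ) ∧
    ∫ y : ℝ × ℝ, (Wg s y : ℂ) * ∏ i, ∫ θ, a i θ * chy y (sg i) θ ∂μ =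
      ∫ θ : Fin 4 → ℝ, (∏ i, a i (θ i)) * (K θ : ℂ) ∂(Measure.pi fun _ => μ) := by
  set ν : Measure (Fin 4 → ℝ) := Measure.pi fun _ => μ with hν
  have hPm : Measurable fun θ : Fin 4 → ℝ => ∏ i, a i (θ i) :=
    Finset.measurable_fun_prod _ fun i _ => (ha i).comp (measurable_pi_apply i)
  have hPb : ∀ θ : Fin 4 → ℝ, ‖∏ i, a i (θ i)‖ ≤ B ^ 4 := by
    intro θ
    rw [norm_prod]
    calc ∏ i, ‖a i (θ i)‖ ≤ ∏ _i : Fin 4, B :=
          Finset.prod_le_prod (fun _ _ => norm_nonneg _) fun i _ => hB i _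
      _ = B ^ 4 := by simp
  set F : (ℝ × ℝ) × (Fin 4 → ℝ) → ℂ := fun p => (Wg s p.1 : ℂ) * ((∏ i, a i (p.2 i)) *
    cexp (-(I * ((p.1.1 * (S4 p.2).1 + p.1.2 * (S4 p.2).2 : ℝ) : ℂ)))) with hF
  have hWc : Continuous (Wg s) := by
    unfold Wg
    fun_prop
  have hcc : Continuous fun p : (ℝ × ℝ) × (Fin 4 → ℝ) =>
      cexp (-(I * ((p.1.1 * (S4 p.2).1 + p.1.2 * (S4 p.2).2 : ℝ) : ℂ))) := by
    have h1 : Continuous fun p : (ℝ × ℝ) × (Fin 4 → ℝ) => S4 p.2 := S4_cont.comp continuous_snd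
    fun_prop
  have hFm : Measurable F := by
    apply Measurable.mul
    · exact (by fun_prop : Measurable fun p : (ℝ × ℝ) × (Fin 4 → ℝ) => ((Wg s p.1 : ℝ) : ℂ))
    · exact (hPm.comp measurable_snd).mul hcc.measurable
  have hFi : Integrable F (volume.prod ν) := by
    have h1 : Integrable (fun p : (ℝ × ℝ) × (Fin 4 → ℝ) => Wg s p.1 * (B ^ 4 : ℝ))
        (volume.prod ν) := (Wg_int hs).mul_prod (integrable_const (B ^ 4))
    refine h1.mono' hFm.aestronglyMeasurable (ae_of_all _ fun p => ?_)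
    simp only [hF]
    rw [norm_mul, norm_mul, norm_real]
    have h2 : ‖cexp (-(I * ((p.1.1 * (S4 p.2).1 + p.1.2 * (S4 p.2).2 : ℝ) : ℂ)))‖ = 1 := by
      rw [show -(I * ((p.1.1 * (S4 p.2).1 + p.1.2 * (S4 p.2).2 : ℝ) : ℂ)) =
        ((-(p.1.1 * (S4 p.2).1 + p.1.2 * (S4 p.2).2) : ℝ) : ℂ) * I by push_cast; ring]
      exact norm_exp_ofReal_mul_I _
    have h3 : 0 ≤ Wg s p.1 := by
      unfold Wg
      positivity
    rw [h2, mul_one, Real.norm_of_nonneg h3]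
    exact mul_le_mul_of_nonneg_left (hPb _) h3
  have e1 : ∀ θ : Fin 4 → ℝ, ∫ y : ℝ × ℝ, F (y, θ) = (∏ i, a i (θ i)) * (K θ : ℂ) := by
    intro θ
    rw [← hK, ← integral_const_mul]
    apply integral_congr_ae
    refine ae_of_all _ fun y => ?_
    simp only [hF]
    ring
  have e2 : ∀ y : ℝ × ℝ, ∫ θ : Fin 4 → ℝ, F (y, θ) ∂ν =
      (Wg s y : ℂ) * ∏ i, ∫ θ, a i θ * chy y (sg i) θ ∂μ := by
    intro y
    have h1 := integral_fintype_prod_eq_prod (𝕜 := ℂ) (μ := fun _ : Fin 4 => μ)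
      (fun (i : Fin 4) (θ : ℝ) => a i θ * chy y (sg i) θ)
    rw [← h1, ← integral_const_mul]
    apply integral_congr_ae
    refine ae_of_all _ fun θ => ?_
    simp only [hF]
    rw [prod_chr]
  constructor
  · have := hFi.integral_prod_right
    exact this.congr (ae_of_all _ e1)
  · simp only [← e1, ← e2]
    exact integral_integral_swap hFi

/-- the moment of the Bessel function -/
noncomputable def Ms (s : ℝ) : ℝ :=
  ∫ r in Ioi (0 : ℝ), r * Real.exp (-(s * r ^ 2)) * (Bs r ^ 4 / 8)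

lemma Bs_cont : Continuous Bs :=
  continuous_iff_continuousAt.2 fun t => (Pool.Agent.H249.CE2.hasDerivAt_Bs t).continuousAt

lemma ln_polar {r : ℝ} (hr : 0 ≤ r) (ψ : ℝ) : ln (r * Real.cos ψ, r * Real.sin ψ) = r := by
  unfold ln
  have : (r * Real.cos ψ) ^ 2 + (r * Real.sin ψ) ^ 2 = r ^ 2 := by
    have := Real.sin_sq_add_cos_sq ψ
    nlinarith
  rw [this, Real.sqrt_sq hr]

lemma Wg_polar (s r ψ : ℝ) : Wg s (r * Real.cos ψ, r * Real.sin ψ) = Real.exp (-(s * r ^ 2)) := by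
  unfold Wg
  congr 2
  have := Real.sin_sq_add_cos_sq ψ
  simp only
  have h : (r * Real.cos ψ) ^ 2 + (r * Real.sin ψ) ^ 2 =
      r ^ 2 * (Real.sin ψ ^ 2 + Real.cos ψ ^ 2) := by ring
  rw [h, this, mul_one]

lemma chy_polar_avg {e : ℝ} (he : e = 1 ∨ e = -1) (r α : ℝ) :
    ∫ ψ in Ioo (-Real.pi) Real.pi, chy (r * Real.cos ψ, r * Real.sin ψ) e α = (Bs r : ℂ) := by
  have hpi := Real.pi_pos
  rw [← integral_Ioc_eq_integral_Ioo, ← intervalIntegral.integral_of_le (by linarith)]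
  rcases he with rfl | rfl
  · have h1 := intervalIntegral.integral_comp_sub_left (a := -Real.pi) (b := Real.pi)
      (fun β : ℝ => cexp (-(I * ((r * Real.cos β : ℝ) : ℂ)))) (2 * α)
    have h2 : ∀ ψ : ℝ, chy (r * Real.cos ψ, r * Real.sin ψ) 1 α =
        cexp (-(I * ((r * Real.cos (2 * α - ψ) : ℝ) : ℂ))) := by
      intro ψ
      unfold chy
      rw [ph2_polar, one_mul]
    simp only [h2]
    rw [h1, ← circ_avg r (2 * α - Real.pi)]
    congr 1
    ring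
  · have h1 := intervalIntegral.integral_comp_sub_left (a := -Real.pi) (b := Real.pi)
      (fun β : ℝ => cexp (-(I * ((r * Real.cos β : ℝ) : ℂ)))) (2 * α + Real.pi)
    have h2 : ∀ ψ : ℝ, chy (r * Real.cos ψ, r * Real.sin ψ) (-1) α =
        cexp (-(I * ((r * Real.cos (2 * α + Real.pi - ψ) : ℝ) : ℂ))) := by
      intro ψ
      unfold chy
      rw [ph2_polar, show 2 * α + Real.pi - ψ = 2 * α - ψ + Real.pi by ring, Real.cos_add_pi]
      congr 4
      ring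
    simp only [h2]
    rw [h1, ← circ_avg r (2 * α + Real.pi - Real.pi)]
    congr 1
    ring

/-- The moment identity. -/
lemma moment {s : ℝ} (hs : 0 < s) {e : ℝ} (he : e = 1 ∨ e = -1) (α : ℝ) :
    ∫ y : ℝ × ℝ, ((Wg s y : ℂ) * ((Bs (ln y) : ℂ) / 2) ^ 3) * chy y e α = (Ms s : ℂ) := by
  have hpi := Real.pi_pos
  set G : ℝ × ℝ → ℂ := fun y => ((Wg s y : ℂ) * ((Bs (ln y) : ℂ) / 2) ^ 3) * chy y e α with hG
  have hlnc : Continuous ln := by
    unfold ln
    fun_prop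
  have hWc : Continuous (Wg s) := by
    unfold Wg
    fun_prop
  have hGc : Continuous G := by
    apply Continuous.mul
    · have h1 : Continuous fun y : ℝ × ℝ => Bs (ln y) := Bs_cont.comp hlnc
      fun_prop
    · exact (chy_cont e).comp (Continuous.prodMk_left α)
  rw [← integral_comp_polarCoord_symm G]
  have htar : polarCoord.target = Ioi (0 : ℝ) ×ˢ Ioo (-Real.pi) Real.pi := rfl
  rw [htar, Measure.volume_eq_prod, ← Measure.prod_restrict]
  have hpt : ∀ p : ℝ × ℝ, polarCoord.symm p = (p.1 * Real.cos p.2, p.1 * Real.sin p.2) :=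
    fun p => rfl
  set F : ℝ × ℝ → ℂ := fun p => p.1 • G (polarCoord.symm p) with hF
  have hFi : Integrable F ((volume.restrict (Ioi (0 : ℝ))).prod
      (volume.restrict (Ioo (-Real.pi) Real.pi))) := by
    have h1 : Integrable (fun p : ℝ × ℝ => (p.1 * Real.exp (-s * p.1 ^ 2)) * (Real.pi ^ 3 : ℝ))
        ((volume.restrict (Ioi (0 : ℝ))).prod (volume.restrict (Ioo (-Real.pi) Real.pi))) :=
      ((integrable_mul_exp_neg_mul_sq hs).restrict).mul_prod (integrable_const _)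
    refine h1.mono' ?_ ?_
    · apply Continuous.aestronglyMeasurable
      simp only [hF, hpt]
      have : Continuous fun p : ℝ × ℝ => (p.1 * Real.cos p.2, p.1 * Real.sin p.2) := by fun_prop
      exact continuous_fst.smul (hGc.comp this)
    · have h0 : ∀ᵐ p : ℝ × ℝ ∂((volume.restrict (Ioi (0 : ℝ))).prod
          (volume.restrict (Ioo (-Real.pi) Real.pi))), 0 < p.1 := by
        rw [Measure.prod_restrict]
        filter_upwards [ae_restrict_mem (measurableSet_Ioi.prod measurableSet_Ioo)] with p hp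
        exact hp.1
      filter_upwards [h0] with p hp
      simp only [hF, hpt, hG]
      rw [norm_smul, norm_mul, chy_norm, mul_one, norm_mul, norm_pow, Wg_polar, ln_polar hp.le,
        norm_real, Real.norm_of_nonneg (Real.exp_pos _).le, Real.norm_of_nonneg hp.le, norm_div,
        norm_real]
      have h2 : ‖Bs p.1‖ / ‖(2 : ℂ)‖ ≤ Real.pi := by
        have := Bs_abs p.1
        rw [Real.norm_eq_abs, Complex.norm_ofNat]
        linarith
      have h3 : (‖Bs p.1‖ / ‖(2 : ℂ)‖) ^ 3 ≤ Real.pi ^ 3 := by gcongr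
      calc p.1 * (Real.exp (-(s * p.1 ^ 2)) * (‖Bs p.1‖ / ‖(2 : ℂ)‖) ^ 3)
          ≤ p.1 * (Real.exp (-(s * p.1 ^ 2)) * Real.pi ^ 3) := by gcongr
        _ = _ := by
            rw [neg_mul]
            ring
  rw [integral_prod _ hFi]
  unfold Ms
  rw [← integral_complex_ofReal]
  apply setIntegral_congr_fun measurableSet_Ioi
  intro r hr
  have hr' : 0 < r := hr
  simp only [hF, hpt, hG]
  have h1 : ∀ ψ : ℝ, r • (((Wg s (r * Real.cos ψ, r * Real.sin ψ) : ℝ) : ℂ) *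
      ((Bs (ln (r * Real.cos ψ, r * Real.sin ψ)) : ℂ) / 2) ^ 3 *
        chy (r * Real.cos ψ, r * Real.sin ψ) e α) =
      ((r : ℂ) * ((Real.exp (-(s * r ^ 2)) : ℝ) : ℂ) * ((Bs r : ℂ) / 2) ^ 3) *
        chy (r * Real.cos ψ, r * Real.sin ψ) e α := by
    intro ψ
    rw [Wg_polar, ln_polar hr'.le, Complex.real_smul]
    ring
  simp only [h1]
  rw [integral_const_mul, chy_polar_avg he]
  push_cast
  ring

end Pool.Agent.U506.RR
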