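import Mathlib
import Pool.Agent.U506.RR.B2
set_option autoImplicit false

/-! The `L⁴` inequality for the circle with a Gaussian weight: conclusion. -/

namespace Pool.Agent.U506.RR

open MeasureTheory Set Complex
open Pool.Agent.H249.CE2 (Bs Bs_abs)

/-- the Fourier transform of `g` on the (doubled) circle -/
noncomputable def Gh (ϑ : ℝ) (g : ℝ → ℂ) (y : ℝ × ℝ) : ℂ := ∫ θ, g θ * chy y 1 θ ∂(Jm ϑ)

/-- the weights -/
noncomputable def bb (h : ℝ → ℂ) (i k : Fin 4) : ℝ → ℂ := if k = i then h else fun _ => 1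

lemma bb_meas {h : ℝ → ℂ} (hh : Measurable h) (i k : Fin 4) : Measurable (bb h i k) := by
  unfold bb
  split_ifs
  · exact hh
  · exact measurable_const

lemma bb_bd {h : ℝ → ℂ} {B : ℝ} (hB : ∀ θ, ‖h θ‖ ≤ B) (i k : Fin 4) (θ : ℝ) :
    ‖bb h i k θ‖ ≤ max B 1 := by
  unfold bb
  split_ifs
  · exact (hB θ).trans (le_max_left _ _)
  · simp

lemma bb_prod (h : ℝ → ℂ) (i : Fin 4) (θ : Fin 4 → ℝ) : ∏ k, bb h i k (θ k) = h (θ i) := by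
  rw [Finset.prod_eq_single i]
  · simp [bb]
  · intro k _ hk
    simp [bb, hk]
  · intro hi
    exact absurd (Finset.mem_univ i) hi

lemma mom_i {s : ℝ} (hs : 0 < s) (ϑ : ℝ) {h : ℝ → ℂ} (hh : Measurable h) {B : ℝ}
    (hB : ∀ θ, ‖h θ‖ ≤ B) (i : Fin 4) :
    ∫ y : ℝ × ℝ, (Wg s y : ℂ) * ∏ k, ∫ θ, bb h i k θ * chy y (sg k) θ ∂(Jm ϑ) =
      (Ms s : ℂ) * ∫ θ, h θ ∂(Jm ϑ) := by
  have hpi := Real.pi_pos
  have hB0 : 0 ≤ B := (norm_nonneg _).trans (hB 0)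
  have e1 : ∀ y : ℝ × ℝ, ∏ k, ∫ θ, bb h i k θ * chy y (sg k) θ ∂(Jm ϑ) =
      (∫ θ, h θ * chy y (sg i) θ ∂(Jm ϑ)) * ((Bs (ln y) : ℂ) / 2) ^ 3 := by
    intro y
    rw [← Finset.mul_prod_erase _ _ (Finset.mem_univ i)]
    congr 1
    · simp [bb]
    · have : ∀ k ∈ Finset.univ.erase i, ∫ θ, bb h i k θ * chy y (sg k) θ ∂(Jm ϑ) =
          (Bs (ln y) : ℂ) / 2 := by
        intro k hk
        have hk' : k ≠ i := Finset.ne_of_mem_erase hk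
        simp only [bb, if_neg hk', one_mul]
        exact Jm_avg_ph ϑ y (sg k) (sg_pm k)
      rw [Finset.prod_congr rfl this, Finset.prod_const, Finset.card_erase_of_mem (Finset.mem_univ i)]
      simp
  simp only [e1]
  set F : (ℝ × ℝ) × ℝ → ℂ := fun p => h p.2 *
    (((Wg s p.1 : ℂ) * ((Bs (ln p.1) : ℂ) / 2) ^ 3) * chy p.1 (sg i) p.2) with hF
  have hlnc : Continuous ln := by
    unfold ln
    fun_prop
  have hWc : Continuous (Wg s) := by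
    unfold Wg
    fun_prop
  have hc : Continuous fun p : (ℝ × ℝ) × ℝ =>
      (((Wg s p.1 : ℂ) * ((Bs (ln p.1) : ℂ) / 2) ^ 3) * chy p.1 (sg i) p.2) := by
    apply Continuous.mul
    · have h1 : Continuous fun p : (ℝ × ℝ) × ℝ => Bs (ln p.1) :=
        Bs_cont.comp (hlnc.comp continuous_fst)
      fun_prop
    · exact chy_cont (sg i)
  have hFi : Integrable F (volume.prod (Jm ϑ)) := by
    have h1 : Integrable (fun p : (ℝ × ℝ) × ℝ => Wg s p.1 * (Real.pi ^ 3 * B : ℝ))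
        (volume.prod (Jm ϑ)) := (Wg_int hs).mul_prod (integrable_const _)
    refine h1.mono' ((hh.comp measurable_snd).mul hc.measurable).aestronglyMeasurable
      (ae_of_all _ fun p => ?_)
    simp only [hF]
    have h3 : 0 ≤ Wg s p.1 := by
      unfold Wg
      positivity
    rw [norm_mul, norm_mul, chy_norm, mul_one, norm_mul, norm_pow, norm_real,
      Real.norm_of_nonneg h3, norm_div, norm_real]
    have h2 : ‖Bs (ln p.1)‖ / ‖(2 : ℂ)‖ ≤ Real.pi := by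
      have := Bs_abs (ln p.1)
      rw [Real.norm_eq_abs, Complex.norm_ofNat]
      linarith
    have h4 : (‖Bs (ln p.1)‖ / ‖(2 : ℂ)‖) ^ 3 ≤ Real.pi ^ 3 := by gcongr
    calc ‖h p.2‖ * (Wg s p.1 * (‖Bs (ln p.1)‖ / ‖(2 : ℂ)‖) ^ 3)
        ≤ B * (Wg s p.1 * Real.pi ^ 3) := by
          gcongr
          exact hB _
      _ = _ := by ring
  have e2 : ∀ y : ℝ × ℝ, (Wg s y : ℂ) * ((∫ θ, h θ * chy y (sg i) θ ∂(Jm ϑ)) *
      ((Bs (ln y) : ℂ) / 2) ^ 3) = ∫ θ, F (y, θ) ∂(Jm ϑ) := by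
    intro y
    rw [mul_comm (∫ θ, h θ * chy y (sg i) θ ∂(Jm ϑ)), ← mul_assoc, ← integral_const_mul]
    apply integral_congr_ae
    refine ae_of_all _ fun θ => ?_
    simp only [hF]
    ring
  have e3 : ∀ θ : ℝ, ∫ y : ℝ × ℝ, F (y, θ) = h θ * (Ms s : ℂ) := by
    intro θ
    rw [← moment hs (sg_pm i) θ, ← integral_const_mul]
  simp only [e2]
  rw [integral_integral_swap hFi]
  simp only [e3]
  rw [integral_mul_const, mul_comm]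

lemma amgm4 (x : Fin 4 → ℝ) (hx : ∀ i, 0 ≤ x i) : ∏ i, x i ≤ (1 / 4) * ∑ i, x i ^ 4 := by
  rw [Fin.prod_univ_four, Fin.sum_univ_four]
  have h1 : x 0 * x 1 ≤ (x 0 ^ 2 + x 1 ^ 2) / 2 := by nlinarith [sq_nonneg (x 0 - x 1)]
  have h2 : x 2 * x 3 ≤ (x 2 ^ 2 + x 3 ^ 2) / 2 := by nlinarith [sq_nonneg (x 2 - x 3)]
  have h3 : 0 ≤ x 2 * x 3 := mul_nonneg (hx 2) (hx 3)
  have h4 : x 0 * x 1 * x 2 * x 3 ≤ (x 0 ^ 2 + x 1 ^ 2) / 2 * ((x 2 ^ 2 + x 3 ^ 2) / 2) := by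
    rw [mul_assoc (x 0 * x 1)]
    exact mul_le_mul h1 h2 h3 (by positivity)
  nlinarith [sq_nonneg (x 0 ^ 2 - x 1 ^ 2), sq_nonneg (x 2 ^ 2 - x 3 ^ 2),
    sq_nonneg (x 0 ^ 2 + x 1 ^ 2 - x 2 ^ 2 - x 3 ^ 2)]

lemma Wg_nonneg (s : ℝ) (y : ℝ × ℝ) : 0 ≤ Wg s y := by
  unfold Wg
  positivity

/-- **The `L⁴` inequality.** -/
theorem L4g {s : ℝ} (hs : 0 < s) (ϑ : ℝ) {g : ℝ → ℂ} (hg : Measurable g) {B : ℝ}
    (hB : ∀ θ, ‖g θ‖ ≤ B) :
    ∫ y : ℝ × ℝ, Wg s y * ‖Gh ϑ g y‖ ^ 4 ≤ Ms s * ∫ θ, ‖g θ‖ ^ 4 ∂(Jm ϑ) := by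
  have hB0 : 0 ≤ B := (norm_nonneg _).trans (hB 0)
  obtain ⟨K, hK0, hK⟩ := kern hs
  set ν : Measure (Fin 4 → ℝ) := Measure.pi fun _ => Jm ϑ with hν
  set a : Fin 4 → ℝ → ℂ := ![g, g, fun θ => (starRingEnd ℂ) (g θ), fun θ => (starRingEnd ℂ) (g θ)]
    with ha
  have hgc : Measurable fun θ => (starRingEnd ℂ) (g θ) := Complex.continuous_conj.measurable.comp hg
  have ham : ∀ i, Measurable (a i) := by
    intro i
    fin_cases i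
    · exact hg
    · exact hg
    · exact hgc
    · exact hgc
  have han : ∀ i θ, ‖a i θ‖ = ‖g θ‖ := by
    intro i θ
    fin_cases i <;> simp [ha]
  have hab : ∀ i θ, ‖a i θ‖ ≤ B := fun i θ => (han i θ).le.trans (hB θ)
  obtain ⟨hi1, h1⟩ := four_lin hs (Jm ϑ) hK a ham hab
  have e1 : ∀ y : ℝ × ℝ, (Wg s y : ℂ) * ∏ i, ∫ θ, a i θ * chy y (sg i) θ ∂(Jm ϑ) =
      ((Wg s y * ‖Gh ϑ g y‖ ^ 4 : ℝ) : ℂ) := by
    intro y
    have c1 : ∫ θ, (starRingEnd ℂ) (g θ) * chy y (-1) θ ∂(Jm ϑ) =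
        (starRingEnd ℂ) (Gh ϑ g y) := by
      unfold Gh
      rw [← integral_conj]
      apply integral_congr_ae
      refine ae_of_all _ fun θ => ?_
      simp only
      rw [map_mul]
      congr 1
      unfold chy
      rw [← Complex.exp_conj]
      congr 1
      rw [map_neg, map_mul, conj_I, conj_ofReal]
      push_cast
      ring
    rw [Fin.prod_univ_four]
    have d0 : a 0 = g := rfl
    have d1 : a 1 = g := rfl
    have d2 : a 2 = fun θ => (starRingEnd ℂ) (g θ) := rfl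
    have d3 : a 3 = fun θ => (starRingEnd ℂ) (g θ) := rfl
    have s0 : sg 0 = 1 := rfl
    have s1 : sg 1 = 1 := rfl
    have s2 : sg 2 = -1 := rfl
    have s3 : sg 3 = -1 := rfl
    rw [d0, d1, d2, d3, s0, s1, s2, s3]
    simp only
    rw [c1]
    have c2 : ∫ θ, g θ * chy y 1 θ ∂(Jm ϑ) = Gh ϑ g y := rfl
    rw [c2]
    have c3 : Gh ϑ g y * (starRingEnd ℂ) (Gh ϑ g y) = ((‖Gh ϑ g y‖ ^ 2 : ℝ) : ℂ) := by
      rw [mul_conj, Complex.normSq_eq_norm_sq]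
    have c4 : Gh ϑ g y * Gh ϑ g y * (starRingEnd ℂ) (Gh ϑ g y) * (starRingEnd ℂ) (Gh ϑ g y) =
        (Gh ϑ g y * (starRingEnd ℂ) (Gh ϑ g y)) * (Gh ϑ g y * (starRingEnd ℂ) (Gh ϑ g y)) := by
      ring
    rw [c4, c3]
    push_cast
    ring
  simp only [e1] at h1
  rw [integral_complex_ofReal] at h1
  have h2 : ∫ y : ℝ × ℝ, Wg s y * ‖Gh ϑ g y‖ ^ 4 ≤ ∫ θ : Fin 4 → ℝ, ‖(∏ i, a i (θ i)) * (K θ : ℂ)‖ ∂ν := by
    have h3 : 0 ≤ ∫ y : ℝ × ℝ, Wg s y * ‖Gh ϑ g y‖ ^ 4 :=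
      integral_nonneg fun y => mul_nonneg (Wg_nonneg s y) (by positivity)
    calc ∫ y : ℝ × ℝ, Wg s y * ‖Gh ϑ g y‖ ^ 4
        = ‖((∫ y : ℝ × ℝ, Wg s y * ‖Gh ϑ g y‖ ^ 4 : ℝ) : ℂ)‖ := by
          rw [norm_real, Real.norm_of_nonneg h3]
      _ = ‖∫ θ : Fin 4 → ℝ, (∏ i, a i (θ i)) * (K θ : ℂ) ∂ν‖ := by rw [h1]
      _ ≤ _ := norm_integral_le_integral_norm _
  -- the moments
  set h : ℝ → ℂ := fun θ => ((‖g θ‖ ^ 4 : ℝ) : ℂ) with hh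
  have hhm : Measurable h := by
    rw [hh]
    have := hg.norm
    fun_prop
  have hhb : ∀ θ, ‖h θ‖ ≤ B ^ 4 := by
    intro θ
    rw [hh]
    simp only [norm_real]
    rw [Real.norm_of_nonneg (by positivity)]
    exact pow_le_pow_left₀ (norm_nonneg _) (hB θ) 4
  have h4 : ∀ i : Fin 4, Integrable (fun θ : Fin 4 → ℝ => ‖g (θ i)‖ ^ 4 * K θ) ν ∧
      ∫ θ : Fin 4 → ℝ, ‖g (θ i)‖ ^ 4 * K θ ∂ν = Ms s * ∫ θ, ‖g θ‖ ^ 4 ∂(Jm ϑ) := by
    intro i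
    obtain ⟨hi2, h5⟩ := four_lin hs (Jm ϑ) hK (bb h i) (bb_meas hhm i) (bb_bd hhb i)
    rw [mom_i hs ϑ hhm hhb i] at h5
    simp only [bb_prod] at h5 hi2
    have h6 : ∀ θ : Fin 4 → ℝ, h (θ i) * (K θ : ℂ) = ((‖g (θ i)‖ ^ 4 * K θ : ℝ) : ℂ) := by
      intro θ
      rw [hh]
      push_cast
      rfl
    simp only [h6] at h5 hi2
    constructor
    · have h7 := hi2.re
      refine h7.congr (ae_of_all _ fun θ => ?_)
      simp only [RCLike.re_to_complex, ofReal_re]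
    · have h8 : ∫ θ, h θ ∂(Jm ϑ) = ((∫ θ, ‖g θ‖ ^ 4 ∂(Jm ϑ) : ℝ) : ℂ) := by
        rw [hh, ← integral_complex_ofReal]
      rw [h8, integral_complex_ofReal] at h5
      have h9 := congrArg Complex.re h5
      rw [ofReal_re, ← ofReal_mul, ofReal_re] at h9
      exact h9.symm
  have h10 : ∀ θ : Fin 4 → ℝ, ‖(∏ i, a i (θ i)) * (K θ : ℂ)‖ ≤
      (1 / 4) * ∑ i, ‖g (θ i)‖ ^ 4 * K θ := by
    intro θ
    rw [norm_mul, norm_real, Real.norm_of_nonneg (hK0 θ), norm_prod]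
    simp only [han]
    rw [← Finset.sum_mul, ← mul_assoc]
    exact mul_le_mul_of_nonneg_right (amgm4 (fun i => ‖g (θ i)‖) fun i => norm_nonneg _) (hK0 θ)
  calc ∫ y : ℝ × ℝ, Wg s y * ‖Gh ϑ g y‖ ^ 4
      ≤ ∫ θ : Fin 4 → ℝ, ‖(∏ i, a i (θ i)) * (K θ : ℂ)‖ ∂ν := h2
    _ ≤ ∫ θ : Fin 4 → ℝ, (1 / 4) * ∑ i, ‖g (θ i)‖ ^ 4 * K θ ∂ν := by
        apply integral_mono hi1.norm
        · exact (integrable_finsetSum _ fun i _ => (h4 i).1).const_mul _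
        · exact h10
    _ = (1 / 4) * ∑ i : Fin 4, ∫ θ : Fin 4 → ℝ, ‖g (θ i)‖ ^ 4 * K θ ∂ν := by
        rw [integral_const_mul, integral_finsetSum _ fun i _ => (h4 i).1]
    _ = Ms s * ∫ θ, ‖g θ‖ ^ 4 ∂(Jm ϑ) := by
        simp only [fun i => (h4 i).2]
        rw [Finset.sum_const, Finset.card_univ, Fintype.card_fin]
        simp only [nsmul_eq_mul]
        push_cast
        ring

end Pool.Agent.U506.RR
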