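import Mathlib
import Pool.Agent.U506.RR.B3
set_option autoImplicit false

/-! The `L⁴` inequality for the circle with a homogeneous weight. -/

namespace Pool.Agent.U506.RR

open MeasureTheory Set Complex
open scoped ENNReal NNReal
open Pool.Agent.H249.CE2 (Bs Bs_abs)

lemma per_shift {h : ℝ → ℝ≥0∞} (hp : Function.Periodic h (2 * Real.pi)) (a b : ℝ) :
    ∫⁻ ψ in Ioc a (a + 2 * Real.pi), h ψ = ∫⁻ ψ in Ioc b (b + 2 * Real.pi), h ψ := by
  have hT : (0 : ℝ) < 2 * Real.pi := by positivity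
  have : VAddInvariantMeasure (AddSubgroup.zmultiples (2 * Real.pi)) ℝ volume :=
    ⟨fun c s _ => measure_preimage_add _ _ _⟩
  exact IsAddFundamentalDomain.setLIntegral_eq (G := AddSubgroup.zmultiples (2 * Real.pi))
    (isAddFundamentalDomain_Ioc hT a) (isAddFundamentalDomain_Ioc hT b) h hp.map_vadd_zmultiples

lemma per_double {h : ℝ → ℝ≥0∞} (hm : Measurable h) (hp : Function.Periodic h (2 * Real.pi)) :
    ∫⁻ φ in Ioc (-Real.pi) Real.pi, h (2 * φ) = ∫⁻ ψ in Ioc (-Real.pi) Real.pi, h ψ := by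
  have hpi := Real.pi_pos
  have h1 : ∫⁻ φ in Ioc (-Real.pi) Real.pi, h (2 * φ) =
      ∫⁻ φ, (Ioc (-(2 * Real.pi)) (2 * Real.pi)).indicator h (2 * φ) := by
    rw [← lintegral_indicator measurableSet_Ioc]
    apply lintegral_congr
    intro φ
    by_cases hφ : φ ∈ Ioc (-Real.pi) Real.pi
    · rw [indicator_of_mem hφ, indicator_of_mem]
      exact ⟨by linarith [hφ.1], by linarith [hφ.2]⟩
    · rw [indicator_of_notMem hφ, indicator_of_notMem]
      intro h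
      exact hφ ⟨by linarith [h.1], by linarith [h.2]⟩
  have h2 := Real.map_volume_mul_left (a := 2) two_ne_zero
  have h3 : ∫⁻ φ, (Ioc (-(2 * Real.pi)) (2 * Real.pi)).indicator h (2 * φ) =
      ENNReal.ofReal |(2 : ℝ)⁻¹| * ∫⁻ ψ, (Ioc (-(2 * Real.pi)) (2 * Real.pi)).indicator h ψ := by
    rw [← lintegral_map (f := (Ioc (-(2 * Real.pi)) (2 * Real.pi)).indicator h)
      (hm.indicator measurableSet_Ioc) (measurable_const_mul (2 : ℝ)), h2, lintegral_smul_measure,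
      smul_eq_mul]
  rw [h1, h3, lintegral_indicator measurableSet_Ioc]
  have h4 : Ioc (-(2 * Real.pi)) (2 * Real.pi) = Ioc (-(2 * Real.pi)) 0 ∪ Ioc 0 (2 * Real.pi) := by
    rw [Ioc_union_Ioc_eq_Ioc (by linarith) (by linarith)]
  rw [h4, lintegral_union measurableSet_Ioc (Ioc_disjoint_Ioc_of_le le_rfl)]
  have h5 := per_shift hp (-(2 * Real.pi)) (-Real.pi)
  have h6 := per_shift hp 0 (-Real.pi)
  rw [show -(2 * Real.pi) + 2 * Real.pi = 0 by ring, show -Real.pi + 2 * Real.pi = Real.pi by ring]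
    at h5
  rw [zero_add, show -Real.pi + 2 * Real.pi = Real.pi by ring] at h6
  rw [h5, h6, ← two_mul, ← mul_assoc]
  have h7 : ENNReal.ofReal |(2 : ℝ)⁻¹| * 2 = 1 := by
    rw [show (2 : ℝ≥0∞) = ENNReal.ofReal 2 by simp, ← ENNReal.ofReal_mul (abs_nonneg _),
      abs_of_pos (by norm_num)]
    norm_num
  rw [h7, one_mul]

lemma Gh_cont (ϑ : ℝ) {g : ℝ → ℂ} (hg : Measurable g) {B : ℝ} (hB : ∀ θ, ‖g θ‖ ≤ B) :
    Continuous (Gh ϑ g) := by
  unfold Gh
  apply continuous_of_dominated (bound := fun _ => B)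
  · intro y
    apply Measurable.aestronglyMeasurable
    exact hg.mul ((chy_cont 1).comp (Continuous.prodMk_right y)).measurable
  · intro y
    refine ae_of_all _ fun θ => ?_
    rw [norm_mul, chy_norm, mul_one]
    exact hB θ
  · exact integrable_const _
  · refine ae_of_all _ fun θ => ?_
    exact continuous_const.mul ((chy_cont 1).comp (Continuous.prodMk_left θ))

lemma Gh_bd (ϑ : ℝ) {g : ℝ → ℂ} {B : ℝ} (hB : ∀ θ, ‖g θ‖ ≤ B) (y : ℝ × ℝ) :
    ‖Gh ϑ g y‖ ≤ B * (Jm ϑ).real univ := by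
  unfold Gh
  apply norm_integral_le_of_norm_le_const
  refine ae_of_all _ fun θ => ?_
  rw [norm_mul, chy_norm, mul_one]
  exact hB θ

lemma Wg_cont (s : ℝ) : Continuous (Wg s) := by
  unfold Wg
  fun_prop

lemma Ms_nonneg (s : ℝ) : 0 ≤ Ms s := by
  unfold Ms
  apply setIntegral_nonneg measurableSet_Ioi
  intro r hr
  have : (0 : ℝ) < r := hr
  positivity

/-- the Gaussian inequality in `ENNReal` form -/
lemma L4e {s : ℝ} (hs : 0 < s) (ϑ : ℝ) {g : ℝ → ℂ} (hg : Measurable g) {B : ℝ}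
    (hB : ∀ θ, ‖g θ‖ ≤ B) :
    ∫⁻ y : ℝ × ℝ, ENNReal.ofReal (Wg s y) * ‖Gh ϑ g y‖ₑ ^ 4 ≤
      ENNReal.ofReal (Ms s) * ∫⁻ θ, ‖g θ‖ₑ ^ 4 ∂(Jm ϑ) := by
  have h := L4g hs ϑ hg hB
  have hc := Gh_cont ϑ hg hB
  have i1 : Integrable fun y : ℝ × ℝ => Wg s y * ‖Gh ϑ g y‖ ^ 4 := by
    have h1 := (Wg_int hs).mul_const ((B * (Jm ϑ).real univ) ^ 4)
    refine h1.mono' ((Wg_cont s).mul (hc.norm.pow 4)).aestronglyMeasurable (ae_of_all _ fun y => ?_)
    rw [norm_mul, Real.norm_of_nonneg (Wg_nonneg s y), Real.norm_of_nonneg (by positivity)]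
    exact mul_le_mul_of_nonneg_left (pow_le_pow_left₀ (norm_nonneg _) (Gh_bd ϑ hB y) 4)
      (Wg_nonneg s y)
  have i2 : Integrable (fun θ => ‖g θ‖ ^ 4) (Jm ϑ) := by
    refine Integrable.of_bound (hg.norm.pow_const 4).aestronglyMeasurable (B ^ 4)
      (ae_of_all _ fun θ => ?_)
    rw [Real.norm_of_nonneg (by positivity)]
    exact pow_le_pow_left₀ (norm_nonneg _) (hB θ) 4
  have e1 : ENNReal.ofReal (∫ y : ℝ × ℝ, Wg s y * ‖Gh ϑ g y‖ ^ 4) =
      ∫⁻ y : ℝ × ℝ, ENNReal.ofReal (Wg s y) * ‖Gh ϑ g y‖ₑ ^ 4 := by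
    rw [ofReal_integral_eq_lintegral_ofReal i1 (ae_of_all _ fun y =>
      mul_nonneg (Wg_nonneg s y) (by positivity))]
    apply lintegral_congr
    intro y
    rw [ENNReal.ofReal_mul (Wg_nonneg s y), ENNReal.ofReal_pow (norm_nonneg _), ofReal_norm]
  have e2 : ENNReal.ofReal (∫ θ, ‖g θ‖ ^ 4 ∂(Jm ϑ)) = ∫⁻ θ, ‖g θ‖ₑ ^ 4 ∂(Jm ϑ) := by
    rw [ofReal_integral_eq_lintegral_ofReal i2 (ae_of_all _ fun y => by
      simp only [Pi.zero_apply]
      positivity)]
    apply lintegral_congr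
    intro y
    rw [ENNReal.ofReal_pow (norm_nonneg _), ofReal_norm]
  rw [← e1, ← e2, ← ENNReal.ofReal_mul (Ms_nonneg s)]
  exact ENNReal.ofReal_le_ofReal h

/-- the Gamma integral -/
lemma gam {δ : ℝ} (hδ : 0 < δ) {r : ℝ} (hr : 0 < r) :
    ∫⁻ s in Ioi (0 : ℝ), ENNReal.ofReal (s ^ (δ / 2 - 1)) * ENNReal.ofReal (Real.exp (-(s * r ^ 2))) =
      ENNReal.ofReal (r ^ (-δ) * Real.Gamma (δ / 2)) := by
  have h := Real.integral_rpow_mul_exp_neg_mul_Ioi (a := δ / 2) (r := r ^ 2) (by positivity)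
    (by positivity)
  have h1 : (1 / r ^ 2) ^ (δ / 2) = r ^ (-δ) := by
    rw [one_div, ← Real.rpow_natCast r 2, ← Real.rpow_neg hr.le, ← Real.rpow_mul hr.le]
    congr 1
    push_cast
    ring
  rw [h1] at h
  rw [← h, ofReal_integral_eq_lintegral_ofReal]
  · apply setLIntegral_congr_fun measurableSet_Ioi
    intro s hs
    simp only
    rw [← ENNReal.ofReal_mul (Real.rpow_nonneg (le_of_lt hs) _)]
    congr 3
    ring
  · have h2 := integrableOn_rpow_mul_exp_neg_mul_rpow (s := δ / 2 - 1) (p := 1) (b := r ^ 2)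
      (by linarith) (by norm_num) (by positivity)
    refine IntegrableOn.congr_fun h2 (fun s _ => ?_) measurableSet_Ioi
    simp only [Real.rpow_one]
    congr 2
    ring
  · filter_upwards [ae_restrict_mem measurableSet_Ioi] with s hs
    exact mul_nonneg (Real.rpow_nonneg (le_of_lt hs) _) (Real.exp_pos _).le

/-- the constant -/
noncomputable def Cb (δ : ℝ) : ℝ≥0∞ := ∫⁻ r in Ioi (0 : ℝ), ENNReal.ofReal (r ^ (1 - δ) * (Bs r ^ 4 / 8))

lemma Cb_lt {δ : ℝ} (h0 : 0 < δ) (h1 : δ ≤ 1) : Cb δ < ⊤ := by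
  have hpi := Real.pi_pos
  unfold Cb
  have hu : Ioi (0 : ℝ) = Ioc 0 1 ∪ Ioi 1 := by
    rw [Ioc_union_Ioi_eq_Ioi zero_le_one]
  rw [hu]
  refine lt_of_le_of_lt (lintegral_union_le _ _ _) (ENNReal.add_lt_top.2 ⟨?_, ?_⟩)
  · have : ∫⁻ r in Ioc (0 : ℝ) 1, ENNReal.ofReal (r ^ (1 - δ) * (Bs r ^ 4 / 8)) ≤
        ∫⁻ _r in Ioc (0 : ℝ) 1, ENNReal.ofReal ((2 * Real.pi) ^ 4 / 8) := by
      apply setLIntegral_mono' measurableSet_Ioc
      intro r hr
      apply ENNReal.ofReal_le_ofReal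
      have h2 : r ^ (1 - δ) ≤ 1 := Real.rpow_le_one hr.1.le hr.2 (by linarith)
      have h3 : Bs r ^ 4 ≤ (2 * Real.pi) ^ 4 := by
        have := Bs_abs r
        have h4 : Bs r ^ 2 ≤ (2 * Real.pi) ^ 2 := sq_le_sq' (abs_le.1 this).1 (abs_le.1 this).2
        calc Bs r ^ 4 = (Bs r ^ 2) ^ 2 := by ring
          _ ≤ ((2 * Real.pi) ^ 2) ^ 2 := by gcongr
          _ = _ := by ring
      have h5 : 0 ≤ Bs r ^ 4 / 8 := by positivity
      calc r ^ (1 - δ) * (Bs r ^ 4 / 8) ≤ 1 * (Bs r ^ 4 / 8) := by gcongr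
        _ ≤ _ := by
            rw [one_mul]
            gcongr
    refine lt_of_le_of_lt this ?_
    rw [setLIntegral_const]
    exact ENNReal.mul_lt_top ENNReal.ofReal_lt_top (by simp)
  · have h2 : IntegrableOn (fun r : ℝ => (28 * Real.pi ^ 2) ^ 2 / 8 * r ^ (-1 - δ)) (Ioi 1) :=
      (integrableOn_Ioi_rpow_of_lt (by linarith) one_pos).const_mul _
    refine lt_of_le_of_lt ?_ h2.2
    apply setLIntegral_mono' measurableSet_Ioi
    intro r hr
    have hr0 : 0 < r := lt_trans one_pos hr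
    rw [← ofReal_norm]
    apply ENNReal.ofReal_le_ofReal
    rw [Real.norm_of_nonneg (by positivity)]
    have h3 : Bs r ^ 4 ≤ (28 * Real.pi ^ 2 / r) ^ 2 := by
      calc Bs r ^ 4 = (Bs r ^ 2) ^ 2 := by ring
        _ ≤ (28 * Real.pi ^ 2 / r) ^ 2 := by
            have := Bs_decay hr0
            gcongr
    have h4 : r ^ (-1 - δ) = r ^ (1 - δ) / r ^ 2 := by
      rw [show -1 - δ = (1 - δ) - 2 by ring, Real.rpow_sub hr0]
      norm_num
    calc r ^ (1 - δ) * (Bs r ^ 4 / 8) ≤ r ^ (1 - δ) * ((28 * Real.pi ^ 2 / r) ^ 2 / 8) := by gcongr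
      _ = (28 * Real.pi ^ 2) ^ 2 / 8 * r ^ (-1 - δ) := by
          rw [h4]
          field_simp

/-- Tonelli for the moments -/
lemma Ms_tonelli {δ : ℝ} (h0 : 0 < δ) :
    ∫⁻ s in Ioi (0 : ℝ), ENNReal.ofReal (s ^ (δ / 2 - 1)) * ENNReal.ofReal (Ms s) =
      ENNReal.ofReal (Real.Gamma (δ / 2)) * Cb δ := by
  have e1 : ∀ s ∈ Ioi (0 : ℝ), ENNReal.ofReal (Ms s) =
      ∫⁻ r in Ioi (0 : ℝ), ENNReal.ofReal (r * Real.exp (-(s * r ^ 2)) * (Bs r ^ 4 / 8)) := by
    intro s hs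
    have hs' : (0 : ℝ) < s := hs
    unfold Ms
    rw [ofReal_integral_eq_lintegral_ofReal]
    · have h1 := ((integrable_mul_exp_neg_mul_sq hs').mul_const (Real.pi ^ 4 * 2)).integrableOn
        (s := Ioi 0)
      refine Integrable.mono' h1 ?_ ?_
      · apply Continuous.aestronglyMeasurable
        have := Bs_cont
        fun_prop
      · filter_upwards [ae_restrict_mem measurableSet_Ioi] with r hr
        have hr' : (0 : ℝ) < r := hr
        rw [Real.norm_of_nonneg (by positivity)]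
        have h3 : Bs r ^ 4 ≤ (2 * Real.pi) ^ 4 := by
          have := Bs_abs r
          have h4 : Bs r ^ 2 ≤ (2 * Real.pi) ^ 2 := sq_le_sq' (abs_le.1 this).1 (abs_le.1 this).2
          calc Bs r ^ 4 = (Bs r ^ 2) ^ 2 := by ring
            _ ≤ ((2 * Real.pi) ^ 2) ^ 2 := by gcongr
            _ = _ := by ring
        have h5 : Bs r ^ 4 / 8 ≤ Real.pi ^ 4 * 2 := by
          rw [div_le_iff₀ (by norm_num)]
          refine h3.trans (le_of_eq ?_)
          ring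
        rw [neg_mul]
        gcongr
    · filter_upwards [ae_restrict_mem measurableSet_Ioi] with r hr
      have hr' : (0 : ℝ) < r := hr
      simp only [Pi.zero_apply]
      positivity
  have e2 : ∫⁻ s in Ioi (0 : ℝ), ENNReal.ofReal (s ^ (δ / 2 - 1)) * ENNReal.ofReal (Ms s) =
      ∫⁻ s in Ioi (0 : ℝ), ∫⁻ r in Ioi (0 : ℝ), ENNReal.ofReal (s ^ (δ / 2 - 1)) *
        ENNReal.ofReal (r * Real.exp (-(s * r ^ 2)) * (Bs r ^ 4 / 8)) := by
    apply setLIntegral_congr_fun measurableSet_Ioi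
    intro s hs
    simp only
    rw [e1 s hs, ← lintegral_const_mul]
    have := Bs_cont.measurable
    fun_prop
  rw [e2, lintegral_lintegral_swap]
  · unfold Cb
    rw [← lintegral_const_mul]
    · apply setLIntegral_congr_fun measurableSet_Ioi
      intro r hr
      have hr' : (0 : ℝ) < r := hr
      simp only
      have h1 : ∀ s : ℝ, ENNReal.ofReal (s ^ (δ / 2 - 1)) *
          ENNReal.ofReal (r * Real.exp (-(s * r ^ 2)) * (Bs r ^ 4 / 8)) =
          ENNReal.ofReal (r * (Bs r ^ 4 / 8)) * (ENNReal.ofReal (s ^ (δ / 2 - 1)) *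
            ENNReal.ofReal (Real.exp (-(s * r ^ 2)))) := by
        intro s
        rw [show r * Real.exp (-(s * r ^ 2)) * (Bs r ^ 4 / 8) =
          (r * (Bs r ^ 4 / 8)) * Real.exp (-(s * r ^ 2)) by ring,
          ENNReal.ofReal_mul (by positivity)]
        ring
      simp only [h1]
      rw [lintegral_const_mul _ (by fun_prop), gam h0 hr']
      have hG : 0 ≤ Real.Gamma (δ / 2) := (Real.Gamma_pos_of_pos (by positivity)).le
      rw [← ENNReal.ofReal_mul (by positivity), ← ENNReal.ofReal_mul hG]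
      congr 1
      have h2 : r ^ (1 - δ) = r * r ^ (-δ) := by
        rw [sub_eq_add_neg, Real.rpow_add hr', Real.rpow_one]
      rw [h2]
      ring
    · have := Bs_cont.measurable
      fun_prop
  · apply Measurable.aemeasurable
    have := Bs_cont.measurable
    unfold Function.uncurry
    fun_prop

/-- **The `L⁴` inequality with a homogeneous weight.** -/
theorem L4h {δ : ℝ} (h0 : 0 < δ) (ϑ : ℝ) {g : ℝ → ℂ} (hg : Measurable g) {B : ℝ}
    (hB : ∀ θ, ‖g θ‖ ≤ B) :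
    ∫⁻ y : ℝ × ℝ, ENNReal.ofReal (ln y ^ (-δ)) * ‖Gh ϑ g y‖ₑ ^ 4 ≤
      Cb δ * ∫⁻ θ, ‖g θ‖ₑ ^ 4 ∂(Jm ϑ) := by
  have hG : 0 < Real.Gamma (δ / 2) := Real.Gamma_pos_of_pos (by positivity)
  have hc := Gh_cont ϑ hg hB
  have hGm : Measurable fun y : ℝ × ℝ => ‖Gh ϑ g y‖ₑ ^ 4 := hc.measurable.enorm.pow_const 4
  have hlm : Measurable ln := by
    unfold ln
    fun_prop
  have hln : ∀ y : ℝ × ℝ, y ≠ 0 → 0 < ln y := by
    intro y hy
    unfold ln
    apply Real.sqrt_pos.2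
    by_contra hcon
    push Not at hcon
    apply hy
    have h1 : y.1 ^ 2 = 0 := by nlinarith [sq_nonneg y.1, sq_nonneg y.2]
    have h2 : y.2 ^ 2 = 0 := by nlinarith [sq_nonneg y.1, sq_nonneg y.2]
    ext
    · exact pow_eq_zero_iff two_ne_zero |>.1 h1
    · exact pow_eq_zero_iff two_ne_zero |>.1 h2
  -- the representation of the weight
  have e1 : ∀ᵐ y : ℝ × ℝ, ENNReal.ofReal (Real.Gamma (δ / 2)) *
      (ENNReal.ofReal (ln y ^ (-δ)) * ‖Gh ϑ g y‖ₑ ^ 4) =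
      ∫⁻ s in Ioi (0 : ℝ), ENNReal.ofReal (s ^ (δ / 2 - 1)) *
        (ENNReal.ofReal (Wg s y) * ‖Gh ϑ g y‖ₑ ^ 4) := by
    have hz : ∀ᵐ y : ℝ × ℝ, y ≠ 0 := by
      have : (volume : Measure (ℝ × ℝ)) {0} = 0 := by simp
      exact measure_eq_zero_iff_ae_notMem.1 this |>.mono fun y hy => hy
    filter_upwards [hz] with y hy
    have h1 := gam h0 (hln y hy)
    have h2 : ∀ s : ℝ, Real.exp (-(s * ln y ^ 2)) = Wg s y := by
      intro s
      unfold Wg ln
      rw [Real.sq_sqrt (by positivity)]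
    simp only [h2] at h1
    have h3 : ∀ s : ℝ, ENNReal.ofReal (s ^ (δ / 2 - 1)) *
        (ENNReal.ofReal (Wg s y) * ‖Gh ϑ g y‖ₑ ^ 4) =
        (ENNReal.ofReal (s ^ (δ / 2 - 1)) * ENNReal.ofReal (Wg s y)) * ‖Gh ϑ g y‖ₑ ^ 4 := by
      intro s
      ring
    simp only [h3]
    rw [lintegral_mul_const _ (by unfold Wg; fun_prop), h1,
      ENNReal.ofReal_mul (Real.rpow_nonneg (hln y hy).le _)]
    ring
  have e2 : ENNReal.ofReal (Real.Gamma (δ / 2)) *
      ∫⁻ y : ℝ × ℝ, ENNReal.ofReal (ln y ^ (-δ)) * ‖Gh ϑ g y‖ₑ ^ 4 =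
      ∫⁻ s in Ioi (0 : ℝ), ENNReal.ofReal (s ^ (δ / 2 - 1)) *
        ∫⁻ y : ℝ × ℝ, ENNReal.ofReal (Wg s y) * ‖Gh ϑ g y‖ₑ ^ 4 := by
    rw [← lintegral_const_mul _ (by fun_prop), lintegral_congr_ae e1, lintegral_lintegral_swap]
    · apply lintegral_congr
      intro s
      rw [lintegral_const_mul]
      exact ((Wg_cont s).measurable.ennreal_ofReal).mul hGm
    · apply Measurable.aemeasurable
      unfold Function.uncurry
      apply Measurable.fun_mul
      · fun_prop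
      · apply Measurable.fun_mul
        · unfold Wg
          fun_prop
        · exact hGm.comp measurable_fst
  have e3 : ENNReal.ofReal (Real.Gamma (δ / 2)) *
      ∫⁻ y : ℝ × ℝ, ENNReal.ofReal (ln y ^ (-δ)) * ‖Gh ϑ g y‖ₑ ^ 4 ≤
      ENNReal.ofReal (Real.Gamma (δ / 2)) * (Cb δ * ∫⁻ θ, ‖g θ‖ₑ ^ 4 ∂(Jm ϑ)) := by
    rw [e2, ← mul_assoc, ← Ms_tonelli h0, ← lintegral_mul_const'']
    · apply setLIntegral_mono' measurableSet_Ioi
      intro s hs
      rw [mul_assoc]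
      gcongr
      exact L4e hs ϑ hg hB
    · apply AEMeasurable.fun_mul
      · fun_prop
      apply Measurable.aemeasurable
      apply Measurable.ennreal_ofReal
      unfold Ms
      have h1 : StronglyMeasurable (Function.uncurry fun (s r : ℝ) =>
          r * Real.exp (-(s * r ^ 2)) * (Bs r ^ 4 / 8)) := by
        apply Continuous.stronglyMeasurable
        have := Bs_cont
        unfold Function.uncurry
        fun_prop
      exact h1.integral_prod_right.measurable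
  have h4 : ENNReal.ofReal (Real.Gamma (δ / 2)) ≠ 0 := by
    rw [ne_eq, ENNReal.ofReal_eq_zero, not_le]
    exact hG
  exact (ENNReal.mul_le_mul_iff_right h4 ENNReal.ofReal_ne_top).1 e3

/-- The inequality in polar coordinates, with the doubled angle. -/
theorem L4p {δ : ℝ} (h0 : 0 < δ) (ϑ : ℝ) {g : ℝ → ℂ} (hg : Measurable g) {B : ℝ}
    (hB : ∀ θ, ‖g θ‖ ≤ B) :
    ∫⁻ φ in Ioc (-Real.pi) Real.pi, ∫⁻ m in Ioi (0 : ℝ), ENNReal.ofReal (m ^ (1 - δ)) *
      ‖Gh ϑ g (m * Real.cos (2 * φ), m * Real.sin (2 * φ))‖ₑ ^ 4 ≤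
      Cb δ * ∫⁻ θ, ‖g θ‖ₑ ^ 4 ∂(Jm ϑ) := by
  have hc := Gh_cont ϑ hg hB
  set k : ℝ → ℝ≥0∞ := fun ψ => ∫⁻ m in Ioi (0 : ℝ), ENNReal.ofReal (m ^ (1 - δ)) *
      ‖Gh ϑ g (m * Real.cos ψ, m * Real.sin ψ)‖ₑ ^ 4 with hk
  have hkm2 : Measurable fun p : ℝ × ℝ => ENNReal.ofReal (p.2 ^ (1 - δ)) *
      ‖Gh ϑ g (p.2 * Real.cos p.1, p.2 * Real.sin p.1)‖ₑ ^ 4 := by
    apply Measurable.fun_mul
    · fun_prop
    have : Continuous fun p : ℝ × ℝ => Gh ϑ g (p.2 * Real.cos p.1, p.2 * Real.sin p.1) :=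
      hc.comp (by fun_prop)
    exact this.measurable.enorm.pow_const 4
  have hkm : Measurable k := by
    rw [hk]
    exact hkm2.lintegral_prod_right'
  have hkp : Function.Periodic k (2 * Real.pi) := by
    intro ψ
    simp only [hk, Real.cos_add_two_pi, Real.sin_add_two_pi]
  have e1 : ∫⁻ φ in Ioc (-Real.pi) Real.pi, ∫⁻ m in Ioi (0 : ℝ), ENNReal.ofReal (m ^ (1 - δ)) *
      ‖Gh ϑ g (m * Real.cos (2 * φ), m * Real.sin (2 * φ))‖ₑ ^ 4 =
      ∫⁻ ψ in Ioc (-Real.pi) Real.pi, k ψ := per_double hkm hkp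
  rw [e1]
  refine le_trans (le_of_eq ?_) (L4h h0 ϑ hg hB)
  rw [← lintegral_comp_polarCoord_symm]
  have htar : polarCoord.target = Ioi (0 : ℝ) ×ˢ Ioo (-Real.pi) Real.pi := rfl
  have hpt : ∀ p : ℝ × ℝ, polarCoord.symm p = (p.1 * Real.cos p.2, p.1 * Real.sin p.2) :=
    fun p => rfl
  rw [htar, Measure.volume_eq_prod, ← Measure.prod_restrict, setLIntegral_congr Ioo_ae_eq_Ioc.symm]
  have hm3 : Measurable fun p : ℝ × ℝ => ENNReal.ofReal p.1 •
      (ENNReal.ofReal (ln (polarCoord.symm p) ^ (-δ)) * ‖Gh ϑ g (polarCoord.symm p)‖ₑ ^ 4) := by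
    simp only [hpt]
    have h1 : Continuous fun p : ℝ × ℝ => (p.1 * Real.cos p.2, p.1 * Real.sin p.2) := by fun_prop
    have hlm : Measurable ln := by
      unfold ln
      fun_prop
    have h2 : Measurable fun p : ℝ × ℝ => ln (p.1 * Real.cos p.2, p.1 * Real.sin p.2) :=
      hlm.comp h1.measurable
    have h3 : Measurable fun p : ℝ × ℝ =>
        ‖Gh ϑ g (p.1 * Real.cos p.2, p.1 * Real.sin p.2)‖ₑ ^ 4 :=
      (hc.comp h1).measurable.enorm.pow_const 4
    exact (ENNReal.measurable_ofReal.comp measurable_fst).smul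
      ((h2.pow_const _).ennreal_ofReal.mul h3)
  rw [lintegral_prod_symm _ hm3.aemeasurable]
  apply lintegral_congr
  intro ψ
  simp only [hk]
  apply setLIntegral_congr_fun measurableSet_Ioi
  intro m hm
  have hm' : (0 : ℝ) < m := hm
  simp only [hpt]
  rw [ln_polar hm'.le, smul_eq_mul, ← mul_assoc, ← ENNReal.ofReal_mul hm'.le]
  congr 2
  rw [sub_eq_add_neg, Real.rpow_add hm', Real.rpow_one]

end Pool.Agent.U506.RR
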