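import Mathlib
set_option autoImplicit false

/-! Fourier inversion in one variable and the Poisson kernel. -/

namespace Pool.Agent.U506.RR

open MeasureTheory Set Complex

/-- Fourier inversion without `2π` in the exponent. -/
theorem inv1 {f F : ℝ → ℂ} (hc : Continuous f) (hi : Integrable f)
    (hF : ∀ σ : ℝ, F σ = ∫ v : ℝ, cexp (-(I * σ * v)) * f v) (hFi : Integrable F) (v : ℝ) :
    f v = ((2 * Real.pi)⁻¹ : ℝ) * ∫ σ : ℝ, cexp (I * σ * v) * F σ := by
  have hpi : (2 * Real.pi) ≠ 0 := by positivity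
  have h1 : ∀ w : ℝ, FourierTransform.fourier f w = F (2 * Real.pi * w) := by
    intro w
    rw [Real.fourier_real_eq_integral_exp_smul, hF]
    apply integral_congr_ae
    refine ae_of_all _ fun v => ?_
    simp only [smul_eq_mul]
    congr 2
    push_cast
    ring
  have h2 : FourierTransform.fourier f = fun w => F (2 * Real.pi * w) := funext h1
  have h3 : Integrable (FourierTransform.fourier f) := by
    rw [h2]
    exact hFi.comp_mul_left' hpi
  have h4 := hi.fourierInv_fourier_eq h3 (v := v) hc.continuousAt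
  rw [← h4, Real.fourierInv_eq', h2]
  have h5 : ∀ w : ℝ, cexp (((2 * Real.pi * inner ℝ w v : ℝ) : ℂ) * I) • F (2 * Real.pi * w) =
      (fun σ : ℝ => cexp (I * σ * v) * F σ) (2 * Real.pi * w) := by
    intro w
    simp only [smul_eq_mul]
    congr 2
    have : inner ℝ w v = v * w := by simp
    rw [this]
    push_cast
    ring
  simp only [h5]
  rw [Measure.integral_comp_mul_left (fun σ : ℝ => cexp (I * σ * v) * F σ) (2 * Real.pi),
    abs_of_pos (by positivity)]
  simp

/-- the Poisson kernel -/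
noncomputable def Pk (s : ℝ) : ℝ := (Real.pi * (1 + s ^ 2))⁻¹

/-- the second kernel -/
noncomputable def Qk (s : ℝ) : ℝ := (1 - s ^ 2) * (Real.pi * (1 + s ^ 2) ^ 2)⁻¹

lemma Pk_pos (s : ℝ) : 0 < Pk s := by
  unfold Pk
  have := Real.pi_pos
  positivity

lemma Pk_cont : Continuous Pk := by
  unfold Pk
  apply Continuous.inv₀ (by fun_prop)
  intro s
  have := Real.pi_pos
  positivity

lemma Qk_cont : Continuous Qk := by
  unfold Qk
  apply Continuous.mul (by fun_prop)
  apply Continuous.inv₀ (by fun_prop)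
  intro s
  have := Real.pi_pos
  positivity

lemma Qk_le (s : ℝ) : |Qk s| ≤ Pk s := by
  unfold Qk Pk
  have hpi := Real.pi_pos
  have h1 : 0 < 1 + s ^ 2 := by positivity
  rw [abs_mul, abs_of_pos (by positivity : 0 < (Real.pi * (1 + s ^ 2) ^ 2)⁻¹)]
  have h2 : |1 - s ^ 2| ≤ 1 + s ^ 2 := by
    rw [abs_le]
    constructor <;> nlinarith [sq_nonneg s]
  calc |1 - s ^ 2| * (Real.pi * (1 + s ^ 2) ^ 2)⁻¹ ≤ (1 + s ^ 2) * (Real.pi * (1 + s ^ 2) ^ 2)⁻¹ := by
        gcongr
    _ = _ := by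
        field_simp

lemma Pk_int : Integrable Pk := by
  have h := (integrable_inv_one_add_sq).const_mul (Real.pi⁻¹)
  refine h.congr (ae_of_all _ fun s => ?_)
  simp only [Pk, mul_inv]

lemma Pk_total : ∫ s, Pk s = 1 := by
  have : ∀ s, Pk s = Real.pi⁻¹ * (1 + s ^ 2)⁻¹ := fun s => by simp only [Pk, mul_inv]
  simp only [this]
  rw [integral_const_mul, integral_univ_inv_one_add_sq]
  exact inv_mul_cancel₀ Real.pi_ne_zero

lemma Qk_int : Integrable Qk :=
  Pk_int.mono' Qk_cont.aestronglyMeasurable (ae_of_all _ fun s => by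
    rw [Real.norm_eq_abs]
    exact Qk_le s)

lemma half1 {p : ℂ} (hp : 0 < p.re) : ∫ v in Ioi (0 : ℝ), cexp (-p * v) = 1 / p := by
  have h := integral_exp_mul_complex_Ioi (a := -p) (by simpa using hp) 0
  rw [h]
  simp

lemma half2 {p : ℂ} (hp : 0 < p.re) : ∫ v in Ioi (0 : ℝ), (v : ℂ) * cexp (-p * v) = 1 / p ^ 2 := by
  have hp0 : p ≠ 0 := by
    intro h
    rw [h] at hp
    simp at hp
  have hd : ∀ v ∈ Ici (0 : ℝ), HasDerivAt
      (fun v : ℝ => -((v : ℂ) / p + 1 / p ^ 2) * cexp (-p * v)) ((v : ℂ) * cexp (-p * v)) v := by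
    intro v _
    have h1 : HasDerivAt (fun v : ℝ => (v : ℂ)) 1 v := ofRealCLM.hasDerivAt
    have h2 : HasDerivAt (fun v : ℝ => -((v : ℂ) / p + 1 / p ^ 2)) (-(1 / p)) v :=
      ((h1.div_const p).add_const _).neg
    have h3 : HasDerivAt (fun v : ℝ => cexp (-p * v)) (cexp (-p * v) * (-p * 1)) v :=
      (h1.const_mul (-p)).cexp
    refine (h2.mul h3).congr_deriv ?_
    field_simp
    ring
  have hn : ∀ v : ℝ, ‖cexp (-p * v)‖ = Real.exp (-p.re * v) := by
    intro v
    rw [norm_exp]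
    simp
  have hint : IntegrableOn (fun v : ℝ => (v : ℂ) * cexp (-p * v)) (Ioi 0) := by
    have h1 := Real.GammaIntegral_convergent (s := 2) (by norm_num)
    have h2 : IntegrableOn (fun v : ℝ => v * Real.exp (-p.re * v)) (Ioi 0) := by
      have h3 := integrableOn_rpow_mul_exp_neg_mul_rpow (s := 1) (p := 1) (b := p.re) (by norm_num)
        (by norm_num) hp
      refine h3.congr_fun (fun v hv => ?_) measurableSet_Ioi
      simp only [Real.rpow_one]
    refine Integrable.mono' h2 (Continuous.aestronglyMeasurable (by fun_prop)) ?_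
    filter_upwards [ae_restrict_mem measurableSet_Ioi] with v hv
    rw [norm_mul, hn, norm_real, Real.norm_of_nonneg (le_of_lt hv)]
  have hlim : Filter.Tendsto (fun v : ℝ => -((v : ℂ) / p + 1 / p ^ 2) * cexp (-p * v))
      Filter.atTop (nhds 0) := by
    rw [tendsto_zero_iff_norm_tendsto_zero]
    have h1 : Filter.Tendsto (fun v : ℝ => (v * Real.exp (-p.re * v)) * ‖p‖⁻¹ +
        Real.exp (-p.re * v) * ‖1 / p ^ 2‖) Filter.atTop (nhds (0 * ‖p‖⁻¹ + 0 * ‖1 / p ^ 2‖)) := by
      apply Filter.Tendsto.add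
      · apply Filter.Tendsto.mul_const
        have h3 := Real.tendsto_pow_mul_exp_neg_atTop_nhds_zero 1
        have h4 : Filter.Tendsto (fun v : ℝ => p.re * v) Filter.atTop Filter.atTop :=
          Filter.tendsto_id.const_mul_atTop hp
        have h5 := (h3.comp h4).const_mul p.re⁻¹
        rw [mul_zero] at h5
        refine h5.congr fun v => ?_
        simp only [Function.comp_apply, pow_one]
        field_simp
      · apply Filter.Tendsto.mul_const
        have h4 : Filter.Tendsto (fun v : ℝ => -p.re * v) Filter.atTop Filter.atBot :=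
          Filter.tendsto_id.const_mul_atTop_of_neg (by linarith)
        exact Real.tendsto_exp_atBot.comp h4
    rw [zero_mul, zero_mul, add_zero] at h1
    refine squeeze_zero' (Filter.Eventually.of_forall fun _ => norm_nonneg _) ?_ h1
    filter_upwards [Filter.eventually_ge_atTop 0] with v hv
    rw [norm_mul, norm_neg, hn]
    calc ‖(v : ℂ) / p + 1 / p ^ 2‖ * Real.exp (-p.re * v)
        ≤ (‖(v : ℂ) / p‖ + ‖1 / p ^ 2‖) * Real.exp (-p.re * v) := by
          gcongr
          exact norm_add_le _ _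
      _ = _ := by
          rw [norm_div, norm_real, Real.norm_of_nonneg hv]
          ring
  have h := integral_Ioi_of_hasDerivAt_of_tendsto' hd hint hlim
  rw [h]
  simp

lemma abs_int1 {k : ℝ → ℂ} (hk : IntegrableOn k (Ioi 0)) :
    IntegrableOn (fun v : ℝ => k |v|) (Ioi 0) := by
  refine IntegrableOn.congr_fun hk (fun v hv => ?_) measurableSet_Ioi
  simp only [abs_of_pos (mem_Ioi.1 hv)]

lemma abs_int2 {k : ℝ → ℂ} (hk : IntegrableOn k (Ioi 0)) :
    IntegrableOn (fun v : ℝ => k |v|) (Iic 0) := by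
  have h5 := abs_int1 hk
  have h7 : Integrable (fun v : ℝ => (Ioi (0 : ℝ)).indicator (fun v => k |v|) v) :=
    (integrable_indicator_iff measurableSet_Ioi).2 h5
  have h8 := h7.comp_neg
  have h9 : Integrable ((Iio (0 : ℝ)).indicator (fun v => k |v|)) := by
    refine h8.congr (ae_of_all _ fun v => ?_)
    simp only
    by_cases hv : v < 0
    · rw [indicator_of_mem (show -v ∈ Ioi (0 : ℝ) by simpa using hv),
        indicator_of_mem (show v ∈ Iio (0 : ℝ) from hv), abs_neg]
    · rw [indicator_of_notMem (show -v ∉ Ioi (0 : ℝ) by simpa using hv),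
        indicator_of_notMem (show v ∉ Iio (0 : ℝ) from hv)]
  rw [integrable_indicator_iff measurableSet_Iio] at h9
  exact (integrableOn_Iic_iff_integrableOn_Iio).2 h9

lemma abs_int {k : ℝ → ℂ} (hk : IntegrableOn k (Ioi 0)) :
    Integrable fun v : ℝ => k |v| := by
  rw [← integrableOn_univ, ← Iic_union_Ioi (a := (0 : ℝ))]
  exact (abs_int2 hk).union (abs_int1 hk)

/-- Fourier transforms of even functions -/
lemma even_ft {k : ℝ → ℂ} (hk : IntegrableOn k (Ioi 0)) (hkc : Continuous k) (σ : ℝ) :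
    ∫ v : ℝ, cexp (-(I * σ * v)) * k |v| =
      (∫ v in Ioi (0 : ℝ), cexp (-(I * σ * v)) * k v) +
        ∫ v in Ioi (0 : ℝ), cexp (I * σ * v) * k v := by
  have hn : ∀ τ v : ℝ, ‖cexp (-(I * τ * v))‖ = 1 := by
    intro τ v
    rw [show -(I * (τ : ℂ) * v) = ((-(τ * v) : ℝ) : ℂ) * I by push_cast; ring]
    exact norm_exp_ofReal_mul_I _
  have i1 : ∀ τ : ℝ, IntegrableOn (fun v : ℝ => cexp (-(I * τ * v)) * k v) (Ioi 0) := by
    intro τ
    refine Integrable.mono hk (Continuous.aestronglyMeasurable (by fun_prop)) ?_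
    refine ae_of_all _ fun v => ?_
    rw [norm_mul, hn, one_mul]
  have e1 : ∫ v in Ioi (0 : ℝ), cexp (I * σ * v) * k v =
      ∫ v in Iic (0 : ℝ), cexp (-(I * σ * v)) * k |v| := by
    have h := integral_comp_neg_Ioi 0 (fun v : ℝ => cexp (-(I * σ * v)) * k |v|)
    rw [neg_zero] at h
    rw [← h]
    apply setIntegral_congr_fun measurableSet_Ioi
    intro v hv
    simp only [abs_neg, abs_of_pos (mem_Ioi.1 hv)]
    congr 2
    push_cast
    ring
  have e2 : ∫ v in Ioi (0 : ℝ), cexp (-(I * σ * v)) * k v =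
      ∫ v in Ioi (0 : ℝ), cexp (-(I * σ * v)) * k |v| := by
    apply setIntegral_congr_fun measurableSet_Ioi
    intro v hv
    simp only [abs_of_pos (mem_Ioi.1 hv)]
  have i3 : IntegrableOn (fun v : ℝ => cexp (-(I * σ * v)) * k |v|) (Ioi 0) := by
    refine (i1 σ).congr_fun (fun v hv => ?_) measurableSet_Ioi
    simp only [abs_of_pos (mem_Ioi.1 hv)]
  have i4 : IntegrableOn (fun v : ℝ => cexp (-(I * σ * v)) * k |v|) (Iic 0) := by
    have h6 := abs_int2 hk
    refine Integrable.mono h6 (Continuous.aestronglyMeasurable (by fun_prop)) ?_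
    refine ae_of_all _ fun v => ?_
    rw [norm_mul, hn, one_mul]
  rw [e1, e2, add_comm, intervalIntegral.integral_Iic_add_Ioi i4 i3]

theorem Pk_ft (v : ℝ) : ((Real.exp (-|v|) : ℝ) : ℂ) = ∫ s : ℝ, (Pk s : ℂ) * cexp (I * s * v) := by
  set k : ℝ → ℂ := fun v => ((Real.exp (-v) : ℝ) : ℂ) with hk
  have hkc : Continuous k := by
    rw [hk]
    fun_prop
  have hki : IntegrableOn k (Ioi 0) := by
    have h3 : IntegrableOn (fun v : ℝ => ((Real.exp (-1 * v) : ℝ) : ℂ)) (Ioi 0) :=
      (integrableOn_exp_mul_Ioi (a := -1) (by norm_num) 0).ofReal (𝕜 := ℂ)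
    refine IntegrableOn.congr_fun h3 (fun v _ => ?_) measurableSet_Ioi
    simp [hk]
  have hF : ∀ σ : ℝ, (2 * Real.pi * Pk σ : ℂ) = ∫ v : ℝ, cexp (-(I * σ * v)) * k |v| := by
    intro σ
    rw [even_ft hki hkc]
    have h1 : ∀ p : ℂ, 0 < (1 + p).re → ∫ v in Ioi (0 : ℝ), cexp (-(p * v)) * k v = 1 / (1 + p) := by
      intro p hp
      rw [← half1 hp]
      apply setIntegral_congr_fun measurableSet_Ioi
      intro v _
      simp only [hk]
      push_cast
      rw [← Complex.exp_add]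
      congr 1
      ring
    have h2 : ∀ v : ℝ, cexp (I * σ * v) = cexp (-((-(I * σ)) * v)) := by
      intro v
      congr 1
      ring
    simp only [h2]
    rw [h1 (I * σ) (by simp), h1 (-(I * σ)) (by simp)]
    have h3 : (1 : ℂ) + I * σ ≠ 0 := by
      intro h
      have := congrArg Complex.re h
      simp at this
    have h4 : (1 : ℂ) + -(I * σ) ≠ 0 := by
      intro h
      have := congrArg Complex.re h
      simp at this
    have h5 : (1 + I * (σ : ℂ)) * (1 + -(I * σ)) = 1 + (σ : ℂ) ^ 2 := by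
      have : (1 + I * (σ : ℂ)) * (1 + -(I * σ)) = 1 - I ^ 2 * (σ : ℂ) ^ 2 := by ring
      rw [this, I_sq]
      ring
    have h6 : (1 + (σ : ℂ) ^ 2) ≠ 0 := by
      rw [← h5]
      exact mul_ne_zero h3 h4
    have hpi : (Real.pi : ℂ) ≠ 0 := by exact_mod_cast Real.pi_ne_zero
    rw [div_add_div _ _ h3 h4, h5]
    unfold Pk
    push_cast
    field_simp
    ring
  have h := inv1 (f := fun v => k |v|) (F := fun σ => (2 * Real.pi * Pk σ : ℂ))
    (hkc.comp continuous_abs) (abs_int hki) hF ?_ v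
  · rw [hk] at h
    simp only at h
    rw [h, ← integral_const_mul]
    apply integral_congr_ae
    refine ae_of_all _ fun s => ?_
    simp only
    have hpi : (Real.pi : ℂ) ≠ 0 := by exact_mod_cast Real.pi_ne_zero
    push_cast
    field_simp
  · exact (Pk_int.ofReal (𝕜 := ℂ)).const_mul (2 * Real.pi : ℂ)

theorem Qk_ft (v : ℝ) : ((|v| * Real.exp (-|v|) : ℝ) : ℂ) =
    ∫ s : ℝ, (Qk s : ℂ) * cexp (I * s * v) := by
  set k : ℝ → ℂ := fun v => ((v * Real.exp (-v) : ℝ) : ℂ) with hk
  have hkc : Continuous k := by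
    rw [hk]
    fun_prop
  have hki : IntegrableOn k (Ioi 0) := by
    have h3 : IntegrableOn (fun v : ℝ => ((v ^ (1 : ℝ) * Real.exp (-1 * v ^ (1 : ℝ)) : ℝ) : ℂ))
        (Ioi 0) :=
      (integrableOn_rpow_mul_exp_neg_mul_rpow (s := 1) (p := 1) (b := 1) (by norm_num)
        (by norm_num) (by norm_num)).ofReal (𝕜 := ℂ)
    refine IntegrableOn.congr_fun h3 (fun v _ => ?_) measurableSet_Ioi
    simp [hk, Real.rpow_one]
  have hF : ∀ σ : ℝ, (2 * Real.pi * Qk σ : ℂ) = ∫ v : ℝ, cexp (-(I * σ * v)) * k |v| := by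
    intro σ
    rw [even_ft hki hkc]
    have h1 : ∀ p : ℂ, 0 < (1 + p).re →
        ∫ v in Ioi (0 : ℝ), cexp (-(p * v)) * k v = 1 / (1 + p) ^ 2 := by
      intro p hp
      rw [← half2 hp]
      apply setIntegral_congr_fun measurableSet_Ioi
      intro v _
      simp only [hk]
      push_cast
      rw [show cexp (-(p * v)) * (v * cexp (-v)) = v * (cexp (-(p * v)) * cexp (-v)) by ring,
        ← Complex.exp_add]
      congr 2
      ring
    have h2 : ∀ v : ℝ, cexp (I * σ * v) = cexp (-((-(I * σ)) * v)) := by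
      intro v
      congr 1
      ring
    simp only [h2]
    rw [h1 (I * σ) (by simp), h1 (-(I * σ)) (by simp)]
    have h3 : (1 : ℂ) + I * σ ≠ 0 := by
      intro h
      have := congrArg Complex.re h
      simp at this
    have h4 : (1 : ℂ) + -(I * σ) ≠ 0 := by
      intro h
      have := congrArg Complex.re h
      simp at this
    have h5 : (1 + I * (σ : ℂ)) * (1 + -(I * σ)) = 1 + (σ : ℂ) ^ 2 := by
      have : (1 + I * (σ : ℂ)) * (1 + -(I * σ)) = 1 - I ^ 2 * (σ : ℂ) ^ 2 := by ring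
      rw [this, I_sq]
      ring
    have h6 : (1 + (σ : ℂ) ^ 2) ≠ 0 := by
      rw [← h5]
      exact mul_ne_zero h3 h4
    have hpi : (Real.pi : ℂ) ≠ 0 := by exact_mod_cast Real.pi_ne_zero
    have h7 : (1 + -(I * (σ : ℂ))) ^ 2 + (1 + I * (σ : ℂ)) ^ 2 = 2 * (1 - (σ : ℂ) ^ 2) := by
      have : (1 + -(I * (σ : ℂ))) ^ 2 + (1 + I * (σ : ℂ)) ^ 2 = 2 + 2 * (I ^ 2 * (σ : ℂ) ^ 2) := by
        ring
      rw [this, I_sq]
      ring
    rw [div_add_div _ _ (pow_ne_zero 2 h3) (pow_ne_zero 2 h4), ← mul_pow, h5, one_mul, mul_one, h7]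
    unfold Qk
    push_cast
    field_simp
  have h := inv1 (f := fun v => k |v|) (F := fun σ => (2 * Real.pi * Qk σ : ℂ))
    (hkc.comp continuous_abs) (abs_int hki) hF ?_ v
  · rw [hk] at h
    simp only at h
    rw [h, ← integral_const_mul]
    apply integral_congr_ae
    refine ae_of_all _ fun s => ?_
    simp only
    have hpi : (Real.pi : ℂ) ≠ 0 := by exact_mod_cast Real.pi_ne_zero
    push_cast
    field_simp
  · exact (Qk_int.ofReal (𝕜 := ℂ)).const_mul (2 * Real.pi : ℂ)

end Pool.Agent.U506.RR
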