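import Mathlib
import Pool.Agent.U506.RR.C
set_option autoImplicit false

/-! Generic lemmas on lower Lebesgue integrals. -/

namespace Pool.Agent.U506.RR

open MeasureTheory Set Complex
open scoped ENNReal NNReal

/-- Hölder's inequality with a weight. -/
lemma wh {α : Type*} [MeasurableSpace α] {μ : Measure α} {w h : α → ℝ≥0∞} (hw : AEMeasurable w μ)
    (hh : AEMeasurable h μ) {p : ℝ} (hp : 1 < p) :
    (∫⁻ x, w x * h x ∂μ) ^ p ≤ (∫⁻ x, w x ∂μ) ^ (p - 1) * ∫⁻ x, w x * h x ^ p ∂μ := by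
  have hp0 : 0 < p := by linarith
  have hc := (Real.HolderConjugate.conjExponent hp).symm
  set q : ℝ := p.conjExponent with hq
  have hq0 : 0 < q := hc.pos
  have hsum : 1 / q + 1 / p = 1 := by
    have := hc.inv_add_inv_eq_one
    rw [one_div, one_div]
    exact this
  have h1 := ENNReal.lintegral_mul_le_Lp_mul_Lq μ hc (f := fun x => w x ^ (1 / q))
    (g := fun x => w x ^ (1 / p) * h x) (hw.pow_const _) ((hw.pow_const _).mul hh)
  have e1 : ∀ x, ((fun x => w x ^ (1 / q)) * fun x => w x ^ (1 / p) * h x) x = w x * h x := by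
    intro x
    simp only [Pi.mul_apply]
    rw [← mul_assoc, ← ENNReal.rpow_add_of_nonneg _ _ (by positivity) (by positivity), hsum,
      ENNReal.rpow_one]
  have e2 : ∀ x, (w x ^ (1 / q)) ^ q = w x := by
    intro x
    rw [← ENNReal.rpow_mul, one_div_mul_cancel hq0.ne', ENNReal.rpow_one]
  have e3 : ∀ x, (w x ^ (1 / p) * h x) ^ p = w x * h x ^ p := by
    intro x
    rw [ENNReal.mul_rpow_of_nonneg _ _ hp0.le, ← ENNReal.rpow_mul, one_div_mul_cancel hp0.ne',
      ENNReal.rpow_one]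
  simp only [e1, e2, e3] at h1
  calc (∫⁻ x, w x * h x ∂μ) ^ p ≤ ((∫⁻ x, w x ∂μ) ^ (1 / q) *
        (∫⁻ x, w x * h x ^ p ∂μ) ^ (1 / p)) ^ p := by gcongr
    _ = _ := by
        rw [ENNReal.mul_rpow_of_nonneg _ _ hp0.le, ← ENNReal.rpow_mul, ← ENNReal.rpow_mul,
          one_div_mul_cancel hp0.ne', ENNReal.rpow_one]
        congr 2
        have : 1 / q = 1 - 1 / p := by linarith
        rw [this]
        field_simp

/-- scaling on the half line -/
lemma scal {F : ℝ → ℝ≥0∞} (hF : Measurable F) {k : ℝ} (hk : 0 < k) :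
    ∫⁻ a in Ioi (0 : ℝ), F (k * a) = ENNReal.ofReal k⁻¹ * ∫⁻ m in Ioi (0 : ℝ), F m := by
  have h2 := Real.map_volume_mul_left (a := k) hk.ne'
  have e1 : ∫⁻ a in Ioi (0 : ℝ), F (k * a) = ∫⁻ a, (Ioi (0 : ℝ)).indicator F (k * a) := by
    rw [← lintegral_indicator measurableSet_Ioi]
    apply lintegral_congr
    intro a
    by_cases ha : 0 < a
    · rw [indicator_of_mem (show a ∈ Ioi (0 : ℝ) from ha),
        indicator_of_mem (show k * a ∈ Ioi (0 : ℝ) from mul_pos hk ha)]
    · rw [indicator_of_notMem (show a ∉ Ioi (0 : ℝ) from ha), indicator_of_notMem]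
      intro h
      exact ha (pos_of_mul_pos_right (mem_Ioi.1 h) hk.le)
  rw [e1, ← lintegral_map (f := (Ioi (0 : ℝ)).indicator F) (hF.indicator measurableSet_Ioi)
    (measurable_const_mul k), h2, lintegral_smul_measure, lintegral_indicator measurableSet_Ioi,
    smul_eq_mul, abs_of_pos (inv_pos.2 hk)]

/-- the change of variables `a = ρ²/D` -/
lemma sqch (F : ℝ → ℝ≥0∞) {D : ℝ} (hD : 0 < D) :
    ∫⁻ ρ in Ioi (0 : ℝ), ENNReal.ofReal ρ * F (ρ ^ 2 / D) =
      ENNReal.ofReal (D / 2) * ∫⁻ a in Ioi (0 : ℝ), F a := by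
  have himg : (fun ρ : ℝ => ρ ^ 2 / D) '' Ioi 0 = Ioi 0 := by
    ext a
    constructor
    · rintro ⟨ρ, hρ, rfl⟩
      have : (0 : ℝ) < ρ := hρ
      exact mem_Ioi.2 (by positivity)
    · intro ha
      have ha' : (0 : ℝ) < a := ha
      refine ⟨√(D * a), mem_Ioi.2 (Real.sqrt_pos.2 (by positivity)), ?_⟩
      simp only
      rw [Real.sq_sqrt (by positivity)]
      field_simp
  have hinj : InjOn (fun ρ : ℝ => ρ ^ 2 / D) (Ioi 0) := by
    intro x hx y hy hxy
    have hx' : (0 : ℝ) < x := hx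
    have hy' : (0 : ℝ) < y := hy
    simp only at hxy
    have h1 : x ^ 2 = y ^ 2 := by
      field_simp at hxy
      exact hxy
    exact (pow_left_inj₀ hx'.le hy'.le two_ne_zero).1 h1
  have h := lintegral_image_eq_lintegral_abs_deriv_mul (s := Ioi (0 : ℝ))
    (f := fun ρ : ℝ => ρ ^ 2 / D) (f' := fun ρ : ℝ => 2 * ρ / D) measurableSet_Ioi
    (fun x _ => (((hasDerivAt_pow 2 x).div_const D).congr_deriv (by simp)).hasDerivWithinAt) hinj F
  rw [himg] at h
  rw [h, ← lintegral_const_mul']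
  · apply setLIntegral_congr_fun measurableSet_Ioi
    intro ρ hρ
    have hρ' : (0 : ℝ) < ρ := hρ
    simp only
    rw [← mul_assoc, ← ENNReal.ofReal_mul (by positivity), abs_of_pos (by positivity)]
    congr 2
    field_simp
  · exact ENNReal.ofReal_ne_top

/-- the integral of the Poisson kernel with a weight -/
noncomputable def Ib (β t : ℝ) : ℝ≥0∞ := ∫⁻ s : ℝ, ENNReal.ofReal (Pk s * |t - s| ^ (-β))

/-- the constant -/
noncomputable def KI (β : ℝ) : ℝ≥0∞ :=
  (∫⁻ s : ℝ, ENNReal.ofReal (2 * (1 + s ^ 2) ^ (-(3 / 4) : ℝ))) +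
    ∫⁻ v in Ioo (-1 : ℝ) 1, ENNReal.ofReal (|v| ^ (-β))

lemma KI_lt {β : ℝ} (h1 : β < 1) : KI β < ⊤ := by
  unfold KI
  apply ENNReal.add_lt_top.2
  constructor
  · have h := (integrable_rpow_neg_one_add_norm_sq (E := ℝ) (μ := volume) (r := 3 / 2)
      (by simp; norm_num)).const_mul 2
    have h2 : ∀ s : ℝ, 2 * (1 + ‖s‖ ^ 2) ^ (-(3 / 2) / 2 : ℝ) = 2 * (1 + s ^ 2) ^ (-(3 / 4) : ℝ) := by
      intro s
      rw [Real.norm_eq_abs, sq_abs]
      norm_num
    simp only [h2] at h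
    refine lt_of_le_of_lt ?_ h.2
    apply lintegral_mono
    intro s
    simp only
    rw [← ofReal_norm]
    exact ENNReal.ofReal_le_ofReal (le_abs_self _)
  · have h := (intervalIntegral.intervalIntegrable_rpow' (a := 0) (b := 1) (r := -β) (by linarith))
    have h2 : IntegrableOn (fun v : ℝ => v ^ (-β)) (Ioc 0 1) := by
      rw [intervalIntegrable_iff_integrableOn_Ioc_of_le zero_le_one] at h
      exact h
    have hu : Ioo (-1 : ℝ) 1 ⊆ (Ioc 0 1) ∪ ({0} ∪ Ioo (-1) 0) := by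
      intro v hv
      rcases lt_trichotomy v 0 with h | h | h
      · exact Or.inr (Or.inr ⟨hv.1, h⟩)
      · exact Or.inr (Or.inl h)
      · exact Or.inl ⟨h, hv.2.le⟩
    have h3 : ∫⁻ v in Ioc (0 : ℝ) 1, ENNReal.ofReal (|v| ^ (-β)) < ⊤ := by
      refine lt_of_le_of_lt ?_ h2.2
      apply setLIntegral_mono' measurableSet_Ioc
      intro v hv
      rw [← ofReal_norm, abs_of_pos hv.1]
      exact ENNReal.ofReal_le_ofReal (le_abs_self _)
    refine lt_of_le_of_lt (lintegral_mono_set hu) ?_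
    refine lt_of_le_of_lt (lintegral_union_le _ _ _) (ENNReal.add_lt_top.2 ⟨h3, ?_⟩)
    refine lt_of_le_of_lt (lintegral_union_le _ _ _) (ENNReal.add_lt_top.2 ⟨by simp, ?_⟩)
    have h4 : ∫⁻ v in Ioo (-1 : ℝ) 0, ENNReal.ofReal (|v| ^ (-β)) ≤
        ∫⁻ v in Ioc (0 : ℝ) 1, ENNReal.ofReal (|v| ^ (-β)) := by
      rw [← lintegral_indicator measurableSet_Ioo, ← lintegral_indicator measurableSet_Ioc,
        ← lintegral_neg_eq_self]
      apply lintegral_mono
      intro v
      simp only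
      by_cases hv : -v ∈ Ioo (-1 : ℝ) 0
      · rw [indicator_of_mem hv, indicator_of_mem (show v ∈ Ioc (0 : ℝ) 1 from
          ⟨by linarith [hv.2], by linarith [hv.1]⟩), abs_neg]
      · rw [indicator_of_notMem hv]
        exact bot_le
    exact lt_of_le_of_lt h4 h3

lemma Pk_meas : Measurable Pk := Pk_cont.measurable

lemma Ib_le {β t : ℝ} (h0 : 0 < β) (h1 : β ≤ 1 / 2) (ht : 1 ≤ |t|) :
    Ib β t ≤ ENNReal.ofReal (|t| ^ (-β)) * KI β := by
  have ht0 : 0 < |t| := by linarith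
  have hpi := Real.pi_gt_three
  have key : ∀ s : ℝ, s ≠ t → Pk s * |t - s| ^ (-β) ≤ |t| ^ (-β) *
      (2 * (1 + s ^ 2) ^ (-(3 / 4) : ℝ) + (Ioo (-1 : ℝ) 1).indicator (fun v => |v| ^ (-β)) (s - t)) := by
    intro s hs
    have hts : 0 < |t - s| := abs_pos.2 (sub_ne_zero.2 (Ne.symm hs))
    have a1 : |t| ^ β ≤ |t - s| ^ β + |s| ^ β := by
      have h2 : |t| ≤ |t - s| + |s| := by
        have := abs_add_le (t - s) s
        rwa [sub_add_cancel] at this
      calc |t| ^ β ≤ (|t - s| + |s|) ^ β := Real.rpow_le_rpow (abs_nonneg _) h2 h0.le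
        _ ≤ _ := Real.rpow_add_le_add_rpow (abs_nonneg _) (abs_nonneg _) h0.le (by linarith)
    have a2 : |t - s| ^ (-β) ≤ |t| ^ (-β) * (1 + |s| ^ β * |t - s| ^ (-β)) := by
      have h3 : 0 < |t - s| ^ (-β) := Real.rpow_pos_of_pos hts _
      have h4 : |t - s| ^ β * |t - s| ^ (-β) = 1 := by
        rw [← Real.rpow_add hts]
        simp
      have h5 : |t| ^ β * |t| ^ (-β) = 1 := by
        rw [← Real.rpow_add ht0]
        simp
      have h6 : 0 < |t| ^ (-β) := Real.rpow_pos_of_pos ht0 _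
      have h7 : |t| ^ β * |t - s| ^ (-β) ≤ 1 + |s| ^ β * |t - s| ^ (-β) := by
        calc |t| ^ β * |t - s| ^ (-β) ≤ (|t - s| ^ β + |s| ^ β) * |t - s| ^ (-β) := by gcongr
          _ = _ := by rw [add_mul, h4]
      calc |t - s| ^ (-β) = |t| ^ (-β) * (|t| ^ β * |t - s| ^ (-β)) := by
            rw [← mul_assoc, mul_comm (|t| ^ (-β)), h5, one_mul]
        _ ≤ _ := by gcongr
    have a3 : |s| ^ β ≤ (1 + s ^ 2) ^ (1 / 4 : ℝ) := by
      have h2 : |s| ^ β ≤ (1 + s ^ 2) ^ (β / 2) := by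
        have h3 : |s| ≤ (1 + s ^ 2) ^ (1 / 2 : ℝ) := by
          rw [← Real.sqrt_eq_rpow]
          apply Real.le_sqrt_of_sq_le
          rw [sq_abs]
          linarith
        calc |s| ^ β ≤ ((1 + s ^ 2) ^ (1 / 2 : ℝ)) ^ β := Real.rpow_le_rpow (abs_nonneg _) h3 h0.le
          _ = _ := by
              rw [← Real.rpow_mul (by positivity)]
              congr 1
              ring
      refine h2.trans (Real.rpow_le_rpow_of_exponent_le (by nlinarith [sq_nonneg s]) (by linarith))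
    have a4 : Pk s ≤ (1 + s ^ 2) ^ (-1 : ℝ) := by
      unfold Pk
      rw [Real.rpow_neg_one, mul_inv]
      have h2 : Real.pi⁻¹ ≤ 1 := inv_le_one_of_one_le₀ (by linarith)
      have h3 : 0 < (1 + s ^ 2)⁻¹ := by positivity
      nlinarith
    have a5 : Pk s ≤ (1 + s ^ 2) ^ (-(3 / 4) : ℝ) :=
      a4.trans (Real.rpow_le_rpow_of_exponent_le (by nlinarith [sq_nonneg s]) (by norm_num))
    have a6 : Pk s * |s| ^ β ≤ (1 + s ^ 2) ^ (-(3 / 4) : ℝ) := by
      calc Pk s * |s| ^ β ≤ (1 + s ^ 2) ^ (-1 : ℝ) * (1 + s ^ 2) ^ (1 / 4 : ℝ) := by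
            have := Pk_pos s
            gcongr
        _ = _ := by
            rw [← Real.rpow_add (by positivity)]
            norm_num
    have a7 : (1 + s ^ 2) ^ (-(3 / 4) : ℝ) ≤ 1 :=
      Real.rpow_le_one_of_one_le_of_nonpos (by nlinarith [sq_nonneg s]) (by norm_num)
    have hP := Pk_pos s
    calc Pk s * |t - s| ^ (-β) ≤ Pk s * (|t| ^ (-β) * (1 + |s| ^ β * |t - s| ^ (-β))) := by gcongr
      _ = |t| ^ (-β) * (Pk s + (Pk s * |s| ^ β) * |t - s| ^ (-β)) := by ring
      _ ≤ _ := by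
          apply mul_le_mul_of_nonneg_left _ (Real.rpow_pos_of_pos ht0 _).le
          by_cases hv : s - t ∈ Ioo (-1 : ℝ) 1
          · rw [indicator_of_mem hv]
            have h8 : |s - t| = |t - s| := abs_sub_comm _ _
            rw [h8]
            have h3 : 0 < |t - s| ^ (-β) := Real.rpow_pos_of_pos hts _
            have h9 : (Pk s * |s| ^ β) * |t - s| ^ (-β) ≤ 1 * |t - s| ^ (-β) := by
              gcongr
              exact a6.trans a7
            nlinarith
          · rw [indicator_of_notMem hv]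
            have h8 : 1 ≤ |t - s| := by
              rw [abs_sub_comm]
              by_contra hcon
              push Not at hcon
              exact hv (abs_lt.1 hcon)
            have h9 : |t - s| ^ (-β) ≤ 1 := Real.rpow_le_one_of_one_le_of_nonpos h8 (by linarith)
            have h10 : (Pk s * |s| ^ β) * |t - s| ^ (-β) ≤ (1 + s ^ 2) ^ (-(3 / 4) : ℝ) * 1 := by
              gcongr
            linarith
  unfold Ib KI
  have hsh : ∫⁻ v in Ioo (-1 : ℝ) 1, ENNReal.ofReal (|v| ^ (-β)) =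
      ∫⁻ s : ℝ, ENNReal.ofReal ((Ioo (-1 : ℝ) 1).indicator (fun v => |v| ^ (-β)) (s - t)) := by
    rw [lintegral_sub_right_eq_self (fun v : ℝ => ENNReal.ofReal ((Ioo (-1 : ℝ) 1).indicator
      (fun v => |v| ^ (-β)) v)) t, ← lintegral_indicator measurableSet_Ioo]
    apply lintegral_congr
    intro v
    by_cases hv : v ∈ Ioo (-1 : ℝ) 1
    · rw [indicator_of_mem hv, indicator_of_mem hv]
    · rw [indicator_of_notMem hv, indicator_of_notMem hv, ENNReal.ofReal_zero]
  have hm : Measurable fun v : ℝ => (Ioo (-1 : ℝ) 1).indicator (fun v => |v| ^ (-β)) v := by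
    apply Measurable.indicator _ measurableSet_Ioo
    fun_prop
  rw [hsh, ← lintegral_add_left (by fun_prop), ← lintegral_const_mul]
  · apply lintegral_mono_ae
    have hne : ∀ᵐ s : ℝ, s ≠ t := by
      have : (volume : Measure ℝ) {t} = 0 := by simp
      exact measure_eq_zero_iff_ae_notMem.1 this
    filter_upwards [hne] with s hs
    have h0' : 0 ≤ (Ioo (-1 : ℝ) 1).indicator (fun v => |v| ^ (-β)) (s - t) :=
      indicator_nonneg (fun v _ => Real.rpow_nonneg (abs_nonneg _) _) _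
    rw [← ENNReal.ofReal_add (by positivity) h0', ← ENNReal.ofReal_mul (by positivity)]
    exact ENNReal.ofReal_le_ofReal (key s hs)
  · apply Measurable.fun_add
    · fun_prop
    · exact (hm.comp (measurable_id.sub_const t)).ennreal_ofReal

end Pool.Agent.U506.RR
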