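import Mathlib
import Pool.Agent.U506.RR.B4
import Pool.Agent.U506.RR.D1
set_option autoImplicit false

/-! Poisson averages of the transform on the circle. -/

namespace Pool.Agent.U506.RR

open MeasureTheory Set Complex
open scoped ENNReal NNReal

/-- the Poisson average -/
noncomputable def Sf (ϑ t : ℝ) (g : ℝ → ℂ) (a φ : ℝ) : ℝ≥0∞ :=
  ∫⁻ s : ℝ, ENNReal.ofReal (Pk s) *
    ‖Gh ϑ g ((t - s) * a * Real.cos (2 * φ), (t - s) * a * Real.sin (2 * φ))‖ₑ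

lemma Gh_neg (ϑ : ℝ) (g : ℝ → ℂ) (y : ℝ × ℝ) :
    ‖Gh ϑ g (-y.1, -y.2)‖ₑ = ‖Gh ϑ (fun θ => (starRingEnd ℂ) (g θ)) y‖ₑ := by
  have h : Gh ϑ (fun θ => (starRingEnd ℂ) (g θ)) y = (starRingEnd ℂ) (Gh ϑ g (-y.1, -y.2)) := by
    unfold Gh
    rw [← integral_conj]
    apply integral_congr_ae
    refine ae_of_all _ fun θ => ?_
    simp only
    rw [map_mul]
    congr 1
    unfold chy
    rw [← Complex.exp_conj]
    congr 1
    rw [map_neg, map_mul, conj_I, conj_ofReal]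
    unfold ph2
    push_cast
    ring
  rw [h, ← ofReal_norm, ← ofReal_norm, RCLike.norm_conj]

/-- scaling in the radial variable -/
lemma Gh_scal {δ : ℝ} (h0 : 0 < δ) (ϑ : ℝ) {g : ℝ → ℂ} (hg : Measurable g) {B : ℝ}
    (hB : ∀ θ, ‖g θ‖ ≤ B) {κ : ℝ} (hκ : κ ≠ 0) :
    ∫⁻ φ in Ioc (-Real.pi) Real.pi, ∫⁻ a in Ioi (0 : ℝ), ENNReal.ofReal (a ^ (1 - δ)) *
      ‖Gh ϑ g (κ * a * Real.cos (2 * φ), κ * a * Real.sin (2 * φ))‖ₑ ^ 4 ≤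
      ENNReal.ofReal (|κ| ^ (-(2 - δ))) * (Cb δ * ∫⁻ θ, ‖g θ‖ₑ ^ 4 ∂(Jm ϑ)) := by
  have key : ∀ {g : ℝ → ℂ} (_ : Measurable g) (_ : ∀ θ, ‖g θ‖ ≤ B) {k : ℝ} (_ : 0 < k),
      ∫⁻ φ in Ioc (-Real.pi) Real.pi, ∫⁻ a in Ioi (0 : ℝ), ENNReal.ofReal (a ^ (1 - δ)) *
      ‖Gh ϑ g (k * a * Real.cos (2 * φ), k * a * Real.sin (2 * φ))‖ₑ ^ 4 ≤
      ENNReal.ofReal (k ^ (-(2 - δ))) * (Cb δ * ∫⁻ θ, ‖g θ‖ₑ ^ 4 ∂(Jm ϑ)) := by
    intro g hg hB k hk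
    have hc := Gh_cont ϑ hg hB
    have e1 : ∀ φ : ℝ, ∫⁻ a in Ioi (0 : ℝ), ENNReal.ofReal (a ^ (1 - δ)) *
        ‖Gh ϑ g (k * a * Real.cos (2 * φ), k * a * Real.sin (2 * φ))‖ₑ ^ 4 =
        ENNReal.ofReal (k ^ (-(2 - δ))) * ∫⁻ m in Ioi (0 : ℝ), ENNReal.ofReal (m ^ (1 - δ)) *
          ‖Gh ϑ g (m * Real.cos (2 * φ), m * Real.sin (2 * φ))‖ₑ ^ 4 := by
      intro φ
      set F : ℝ → ℝ≥0∞ := fun m => ENNReal.ofReal (m ^ (1 - δ)) *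
          ‖Gh ϑ g (m * Real.cos (2 * φ), m * Real.sin (2 * φ))‖ₑ ^ 4 with hF
      have hFm : Measurable F := by
        apply Measurable.fun_mul
        · fun_prop
        · have : Continuous fun m : ℝ => Gh ϑ g (m * Real.cos (2 * φ), m * Real.sin (2 * φ)) :=
            hc.comp (by fun_prop)
          exact this.measurable.enorm.pow_const 4
      have h1 := scal hFm hk
      have h2 : ∀ a ∈ Ioi (0 : ℝ), ENNReal.ofReal (a ^ (1 - δ)) *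
        ‖Gh ϑ g (k * a * Real.cos (2 * φ), k * a * Real.sin (2 * φ))‖ₑ ^ 4 =
          ENNReal.ofReal (k ^ (-(1 - δ))) * F (k * a) := by
        intro a ha
        have ha' : (0 : ℝ) < a := ha
        simp only [hF]
        rw [← mul_assoc, ← ENNReal.ofReal_mul (by positivity), Real.mul_rpow hk.le ha'.le,
          ← mul_assoc, ← Real.rpow_add hk]
        simp
      rw [setLIntegral_congr_fun measurableSet_Ioi h2, lintegral_const_mul', h1, ← mul_assoc,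
        ← ENNReal.ofReal_mul (by positivity)]
      · congr 2
        rw [← Real.rpow_neg_one k, ← Real.rpow_add hk]
        congr 1
        ring
      · exact ENNReal.ofReal_ne_top
    simp only [e1]
    rw [lintegral_const_mul' _ _ ENNReal.ofReal_ne_top]
    gcongr
    exact L4p h0 ϑ hg hB
  rcases lt_or_gt_of_ne hκ with h | h
  · have hk : 0 < -κ := by linarith
    have hgc : Measurable fun θ => (starRingEnd ℂ) (g θ) :=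
      Complex.continuous_conj.measurable.comp hg
    have h1 := key hgc (fun θ => by
      rw [RCLike.norm_conj]
      exact hB θ) hk
    have h2 : ∀ φ a : ℝ, ‖Gh ϑ (fun θ => (starRingEnd ℂ) (g θ))
        (-κ * a * Real.cos (2 * φ), -κ * a * Real.sin (2 * φ))‖ₑ =
        ‖Gh ϑ g (κ * a * Real.cos (2 * φ), κ * a * Real.sin (2 * φ))‖ₑ := by
      intro φ a
      rw [← Gh_neg]
      congr 3
      · ring
      · ring
    have h3 : ∀ θ, ‖(starRingEnd ℂ) (g θ)‖ₑ = ‖g θ‖ₑ := by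
      intro θ
      rw [← ofReal_norm, ← ofReal_norm, RCLike.norm_conj]
    simp only [h2, h3] at h1
    rw [abs_of_neg h]
    exact h1
  · rw [abs_of_pos h]
    exact key hg hB h

lemma ne_ae (t : ℝ) : ∀ᵐ s : ℝ, s ≠ t := by
  have : (volume : Measure ℝ) {t} = 0 := by simp
  exact measure_eq_zero_iff_ae_notMem.1 this

/-- the modulus of the transform along a ray -/
noncomputable def GG (ϑ : ℝ) (g : ℝ → ℂ) (m φ : ℝ) : ℝ≥0∞ :=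
  ‖Gh ϑ g (m * Real.cos (2 * φ), m * Real.sin (2 * φ))‖ₑ

lemma GG_meas (ϑ : ℝ) {g : ℝ → ℂ} (hg : Measurable g) {B : ℝ} (hB : ∀ θ, ‖g θ‖ ≤ B) :
    Measurable fun p : ℝ × ℝ => GG ϑ g p.1 p.2 := by
  have hc := Gh_cont ϑ hg hB
  unfold GG
  have : Continuous fun p : ℝ × ℝ => Gh ϑ g (p.1 * Real.cos (2 * p.2), p.1 * Real.sin (2 * p.2)) :=
    hc.comp (by fun_prop)
  exact this.measurable.enorm

lemma Sf_eq (ϑ t : ℝ) (g : ℝ → ℂ) (a φ : ℝ) :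
    Sf ϑ t g a φ = ∫⁻ s : ℝ, ENNReal.ofReal (Pk s) * GG ϑ g ((t - s) * a) φ := rfl

lemma GG_scal {δ : ℝ} (h0 : 0 < δ) (ϑ : ℝ) {g : ℝ → ℂ} (hg : Measurable g) {B : ℝ}
    (hB : ∀ θ, ‖g θ‖ ≤ B) {κ : ℝ} (hκ : κ ≠ 0) :
    ∫⁻ φ in Ioc (-Real.pi) Real.pi, ∫⁻ a in Ioi (0 : ℝ), ENNReal.ofReal (a ^ (1 - δ)) *
      GG ϑ g (κ * a) φ ^ 4 ≤
      ENNReal.ofReal (|κ| ^ (-(2 - δ))) * (Cb δ * ∫⁻ θ, ‖g θ‖ₑ ^ 4 ∂(Jm ϑ)) :=
  Gh_scal h0 ϑ hg hB hκ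

attribute [local irreducible] GG

/-- the pointwise bound -/
lemma Sf_pt {β t : ℝ} (ϑ : ℝ) {g : ℝ → ℂ} (hg : Measurable g) {B : ℝ} (hB : ∀ θ, ‖g θ‖ ≤ B)
    (a φ : ℝ) : Sf ϑ t g a φ ^ 4 ≤ Ib β t ^ 3 * ∫⁻ s : ℝ,
      ENNReal.ofReal (Pk s * |t - s| ^ (-β)) * (ENNReal.ofReal (|t - s| ^ (4 * β)) *
        GG ϑ g ((t - s) * a) φ ^ 4) := by
  have hG := GG_meas ϑ hg hB
  have hGm : Measurable fun s : ℝ => GG ϑ g ((t - s) * a) φ :=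
    hG.comp (by fun_prop : Measurable fun s : ℝ => ((t - s) * a, φ))
  have hPm := Pk_meas
  have h1 := wh (μ := (volume : Measure ℝ))
    (w := fun s : ℝ => ENNReal.ofReal (Pk s * |t - s| ^ (-β)))
    (h := fun s => ENNReal.ofReal (|t - s| ^ β) * GG ϑ g ((t - s) * a) φ)
    (by fun_prop) ((by fun_prop : Measurable fun s : ℝ =>
      ENNReal.ofReal (|t - s| ^ β)).mul hGm).aemeasurable (p := 4) (by norm_num)
  have e1 : ∫⁻ s : ℝ, ENNReal.ofReal (Pk s * |t - s| ^ (-β)) *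
      (ENNReal.ofReal (|t - s| ^ β) * GG ϑ g ((t - s) * a) φ) = Sf ϑ t g a φ := by
    rw [Sf_eq]
    apply lintegral_congr_ae
    filter_upwards [ne_ae t] with s hs
    have hts : 0 < |t - s| := abs_pos.2 (sub_ne_zero.2 (Ne.symm hs))
    rw [← mul_assoc, ← ENNReal.ofReal_mul (mul_nonneg (Pk_pos s).le (by positivity)), mul_assoc,
      ← Real.rpow_add hts]
    simp
  have e2 : ∀ s : ℝ, (ENNReal.ofReal (|t - s| ^ β) * GG ϑ g ((t - s) * a) φ) ^ (4 : ℝ) =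
      ENNReal.ofReal (|t - s| ^ (4 * β)) * GG ϑ g ((t - s) * a) φ ^ 4 := by
    intro s
    rw [ENNReal.mul_rpow_of_nonneg _ _ (by norm_num),
      ENNReal.ofReal_rpow_of_nonneg (by positivity) (by norm_num),
      ← Real.rpow_mul (abs_nonneg _), mul_comm β 4]
    congr 1
    exact ENNReal.rpow_natCast _ 4
  have e3 : ∀ x : ℝ≥0∞, x ^ (4 : ℝ) = x ^ 4 := fun x => ENNReal.rpow_natCast x 4
  have e4 : ∀ x : ℝ≥0∞, x ^ ((4 : ℝ) - 1) = x ^ 3 := fun x => by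
    rw [show (4 : ℝ) - 1 = ((3 : ℕ) : ℝ) by norm_num]
    exact ENNReal.rpow_natCast x 3
  rw [e1, e3, e4] at h1
  simp only [e2] at h1
  exact h1

/-- the kernel -/
noncomputable def KK (δ β ϑ t : ℝ) (g : ℝ → ℂ) (φ a s : ℝ) : ℝ≥0∞ :=
  ENNReal.ofReal (Pk s * |t - s| ^ (-β)) *
    (ENNReal.ofReal (|t - s| ^ (4 * β)) * (ENNReal.ofReal (a ^ (1 - δ)) *
      GG ϑ g ((t - s) * a) φ ^ 4))

lemma KK_meas (δ β ϑ t : ℝ) {g : ℝ → ℂ} (hg : Measurable g) {B : ℝ} (hB : ∀ θ, ‖g θ‖ ≤ B) :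
    Measurable fun p : ℝ × ℝ × ℝ => KK δ β ϑ t g p.1 p.2.1 p.2.2 := by
  have hG := GG_meas ϑ hg hB
  have hPm := Pk_meas
  unfold KK
  apply Measurable.fun_mul
  · fun_prop
  · apply Measurable.fun_mul
    · fun_prop
    · apply Measurable.fun_mul
      · fun_prop
      · exact (hG.comp (by fun_prop : Measurable fun p : ℝ × ℝ × ℝ =>
          ((t - p.2.2) * p.2.1, p.1))).pow_const 4

attribute [local irreducible] KK

lemma KK_swap (δ β ϑ t : ℝ) {g : ℝ → ℂ} (hg : Measurable g) {B : ℝ} (hB : ∀ θ, ‖g θ‖ ≤ B)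
    (c : ℝ≥0∞) :
    ∫⁻ φ in Ioc (-Real.pi) Real.pi, ∫⁻ a in Ioi (0 : ℝ), c * ∫⁻ s : ℝ, KK δ β ϑ t g φ a s =
      c * ∫⁻ s : ℝ, ∫⁻ φ in Ioc (-Real.pi) Real.pi, ∫⁻ a in Ioi (0 : ℝ), KK δ β ϑ t g φ a s := by
  have hKm := KK_meas δ β ϑ t hg hB
  have hm1 : ∀ φ, Measurable (Function.uncurry fun a s : ℝ => KK δ β ϑ t g φ a s) := fun φ =>
    hKm.comp (measurable_const.prodMk measurable_id)
  have hm2 : Measurable fun p : ℝ × ℝ => ∫⁻ s : ℝ, KK δ β ϑ t g p.1 p.2 s := by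
    have : Measurable fun q : (ℝ × ℝ) × ℝ => KK δ β ϑ t g q.1.1 q.1.2 q.2 :=
      hKm.comp ((measurable_fst.comp measurable_fst).prodMk
        ((measurable_snd.comp measurable_fst).prodMk measurable_snd))
    exact this.lintegral_prod_right'
  have h1 : ∀ φ : ℝ, ∫⁻ a in Ioi (0 : ℝ), c * ∫⁻ s : ℝ, KK δ β ϑ t g φ a s =
      c * ∫⁻ s : ℝ, ∫⁻ a in Ioi (0 : ℝ), KK δ β ϑ t g φ a s := by
    intro φ
    have h3 : Measurable fun a : ℝ => ∫⁻ s : ℝ, KK δ β ϑ t g φ a s :=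
      hm2.comp (measurable_const.prodMk measurable_id)
    rw [lintegral_const_mul _ h3, lintegral_lintegral_swap (hm1 φ).aemeasurable]
  simp only [h1]
  have h2 : Measurable fun p : ℝ × ℝ => ∫⁻ a in Ioi (0 : ℝ), KK δ β ϑ t g p.1 a p.2 := by
    have : Measurable fun q : (ℝ × ℝ) × ℝ => KK δ β ϑ t g q.1.1 q.2 q.1.2 :=
      hKm.comp ((measurable_fst.comp measurable_fst).prodMk
        (measurable_snd.prodMk (measurable_snd.comp measurable_fst)))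
    exact this.lintegral_prod_right'
  have h4 : Measurable fun φ : ℝ => ∫⁻ s : ℝ, ∫⁻ a in Ioi (0 : ℝ), KK δ β ϑ t g φ a s :=
    h2.lintegral_prod_right'
  rw [lintegral_const_mul _ h4]
  congr 1
  exact lintegral_lintegral_swap (f := fun φ s => ∫⁻ a in Ioi (0 : ℝ), KK δ β ϑ t g φ a s)
    h2.aemeasurable

lemma KK_in {δ β t : ℝ} (hβ : 4 * β = 2 - δ) (h0 : 0 < δ) (ϑ : ℝ) {g : ℝ → ℂ} (hg : Measurable g)
    {B : ℝ} (hB : ∀ θ, ‖g θ‖ ≤ B) {s : ℝ} (hs : s ≠ t) :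
    ∫⁻ φ in Ioc (-Real.pi) Real.pi, ∫⁻ a in Ioi (0 : ℝ), KK δ β ϑ t g φ a s ≤
      ENNReal.ofReal (Pk s * |t - s| ^ (-β)) * (Cb δ * ∫⁻ θ, ‖g θ‖ₑ ^ 4 ∂(Jm ϑ)) := by
  have hts : 0 < |t - s| := abs_pos.2 (sub_ne_zero.2 (Ne.symm hs))
  unfold KK
  simp only [lintegral_const_mul' _ _ ENNReal.ofReal_ne_top]
  refine mul_le_mul' le_rfl ?_
  calc ENNReal.ofReal (|t - s| ^ (4 * β)) * _
      ≤ ENNReal.ofReal (|t - s| ^ (4 * β)) * (ENNReal.ofReal (|t - s| ^ (-(2 - δ))) *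
          (Cb δ * ∫⁻ θ, ‖g θ‖ₑ ^ 4 ∂(Jm ϑ))) := by
        refine mul_le_mul' le_rfl ?_
        exact GG_scal h0 ϑ hg hB (sub_ne_zero.2 (Ne.symm hs))
    _ = _ := by
        rw [← mul_assoc, ← ENNReal.ofReal_mul (by positivity), ← Real.rpow_add hts]
        have : 4 * β + -(2 - δ) = 0 := by
          rw [hβ]
          ring
        rw [this, Real.rpow_zero, ENNReal.ofReal_one, one_mul]

/-- **The Poisson averages in weighted `L⁴`.** -/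
theorem Sf_L4 {δ t : ℝ} (h0 : 0 < δ) (ϑ : ℝ) {g : ℝ → ℂ} (hg : Measurable g)
    {B : ℝ} (hB : ∀ θ, ‖g θ‖ ≤ B) :
    ∫⁻ φ in Ioc (-Real.pi) Real.pi, ∫⁻ a in Ioi (0 : ℝ), ENNReal.ofReal (a ^ (1 - δ)) *
      Sf ϑ t g a φ ^ 4 ≤ Ib ((2 - δ) / 4) t ^ 4 * (Cb δ * ∫⁻ θ, ‖g θ‖ₑ ^ 4 ∂(Jm ϑ)) := by
  set β : ℝ := (2 - δ) / 4 with hβ
  have hβ4 : 4 * β = 2 - δ := by
    rw [hβ]
    ring
  have step1 : ∫⁻ φ in Ioc (-Real.pi) Real.pi, ∫⁻ a in Ioi (0 : ℝ), ENNReal.ofReal (a ^ (1 - δ)) *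
      Sf ϑ t g a φ ^ 4 ≤ ∫⁻ φ in Ioc (-Real.pi) Real.pi, ∫⁻ a in Ioi (0 : ℝ),
        Ib β t ^ 3 * ∫⁻ s : ℝ, KK δ β ϑ t g φ a s := by
    refine lintegral_mono fun φ => lintegral_mono fun a => ?_
    have h1 := Sf_pt (β := β) (t := t) ϑ hg hB a φ
    calc ENNReal.ofReal (a ^ (1 - δ)) * Sf ϑ t g a φ ^ 4
        ≤ ENNReal.ofReal (a ^ (1 - δ)) * (Ib β t ^ 3 * ∫⁻ s : ℝ,
      ENNReal.ofReal (Pk s * |t - s| ^ (-β)) * (ENNReal.ofReal (|t - s| ^ (4 * β)) *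
        GG ϑ g ((t - s) * a) φ ^ 4)) := by gcongr
      _ = Ib β t ^ 3 * (ENNReal.ofReal (a ^ (1 - δ)) * ∫⁻ s : ℝ,
      ENNReal.ofReal (Pk s * |t - s| ^ (-β)) * (ENNReal.ofReal (|t - s| ^ (4 * β)) *
        GG ϑ g ((t - s) * a) φ ^ 4)) := by ring
      _ = _ := by
          rw [← lintegral_const_mul' _ _ ENNReal.ofReal_ne_top]
          congr 1
          apply lintegral_congr
          intro s
          unfold KK
          ring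
  calc ∫⁻ φ in Ioc (-Real.pi) Real.pi, ∫⁻ a in Ioi (0 : ℝ), ENNReal.ofReal (a ^ (1 - δ)) *
      Sf ϑ t g a φ ^ 4 ≤ _ := step1
    _ = Ib β t ^ 3 * ∫⁻ s : ℝ, ∫⁻ φ in Ioc (-Real.pi) Real.pi, ∫⁻ a in Ioi (0 : ℝ),
          KK δ β ϑ t g φ a s := KK_swap δ β ϑ t hg hB _
    _ ≤ Ib β t ^ 3 * ∫⁻ s : ℝ, ENNReal.ofReal (Pk s * |t - s| ^ (-β)) *
          (Cb δ * ∫⁻ θ, ‖g θ‖ₑ ^ 4 ∂(Jm ϑ)) := by
        refine mul_le_mul' le_rfl ?_
        apply lintegral_mono_ae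
        filter_upwards [ne_ae t] with s hs
        exact KK_in hβ4 h0 ϑ hg hB hs
    _ = Ib β t ^ 4 * (Cb δ * ∫⁻ θ, ‖g θ‖ₑ ^ 4 ∂(Jm ϑ)) := by
        have hPm := Pk_meas
        rw [lintegral_mul_const _ (by fun_prop)]
        unfold Ib
        ring

end Pool.Agent.U506.RR
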