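import Mathlib
import Pool.Agent.U506.RR.A
import Pool.Agent.U506.RR.D2
set_option autoImplicit false

/-! The pointwise bound of the extension of homogeneous functions by Poisson averages. -/

namespace Pool.Agent.U506.RR

open MeasureTheory Set Complex
open scoped ENNReal NNReal

/-- the inner product with the unit vector -/
noncomputable def dt (x : ℝ × ℝ) (θ : ℝ) : ℝ := x.1 * Real.cos θ + x.2 * Real.sin θ

/-- the extension of `|ξ| e^{-|ξ|²} g(angle)`, `g` even -/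
noncomputable def Hop (ϑ : ℝ) (g : ℝ → ℂ) (x : ℝ × ℝ) (t : ℝ) : ℂ :=
  ∫ θ, g θ * Ph (dt x θ) t ∂(Jm ϑ)

/-- `2 cos²(θ - φ)` -/
noncomputable def cc (φ θ : ℝ) : ℝ := 1 + Real.cos (2 * θ - 2 * φ)

lemma cc_nonneg (φ θ : ℝ) : 0 ≤ cc φ θ := by
  unfold cc
  linarith [Real.neg_one_le_cos (2 * θ - 2 * φ)]

lemma cc_cont (φ : ℝ) : Continuous (cc φ) := by
  unfold cc
  fun_prop

lemma Jm_univ (ϑ : ℝ) : Jm ϑ univ ≠ ⊤ := measure_ne_top _ _

/-- the representation by Poisson averages -/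
lemma rep (ϑ : ℝ) {g : ℝ → ℂ} (hg : Measurable g) {B : ℝ} (hB : ∀ θ, ‖g θ‖ ≤ B) {R : ℝ → ℝ}
    (hR : Continuous R) (hRP : ∀ s, |R s| ≤ Pk s) (t a φ : ℝ) :
    ‖∫ θ, g θ * ((∫ s : ℝ, (R s : ℂ) * cexp (I * s * ((a * cc φ θ : ℝ) : ℂ))) *
      cexp (-(I * t * ((a * cc φ θ : ℝ) : ℂ)))) ∂(Jm ϑ)‖ₑ ≤ Sf ϑ t g a φ := by
  set F : ℝ × ℝ → ℂ := fun p => g p.1 * (((R p.2 : ℂ) *
    cexp (I * p.2 * ((a * cc φ p.1 : ℝ) : ℂ))) * cexp (-(I * t * ((a * cc φ p.1 : ℝ) : ℂ)))) with hF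
  have hcc := cc_cont φ
  have hcn : ∀ x : ℝ, ‖cexp (I * x)‖ = 1 := by
    intro x
    rw [mul_comm]
    exact norm_exp_ofReal_mul_I x
  have hn1 : ∀ p : ℝ × ℝ, ‖cexp (I * p.2 * ((a * cc φ p.1 : ℝ) : ℂ))‖ = 1 := by
    intro p
    rw [show I * (p.2 : ℂ) * ((a * cc φ p.1 : ℝ) : ℂ) = I * ((p.2 * (a * cc φ p.1) : ℝ) : ℂ) by
      push_cast; ring]
    exact hcn _
  have hn2 : ∀ p : ℝ × ℝ, ‖cexp (-(I * t * ((a * cc φ p.1 : ℝ) : ℂ)))‖ = 1 := by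
    intro p
    rw [show -(I * (t : ℂ) * ((a * cc φ p.1 : ℝ) : ℂ)) = I * ((-(t * (a * cc φ p.1)) : ℝ) : ℂ) by
      push_cast; ring]
    exact hcn _
  have hFm : Measurable F := by
    apply Measurable.fun_mul
    · exact hg.comp measurable_fst
    · apply Continuous.measurable
      have h1 : Continuous fun p : ℝ × ℝ => cc φ p.1 := hcc.comp continuous_fst
      have h2 : Continuous fun p : ℝ × ℝ => R p.2 := hR.comp continuous_snd
      fun_prop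
  have hFi : Integrable F ((Jm ϑ).prod volume) := by
    have h1 : Integrable (fun p : ℝ × ℝ => B * Pk p.2) ((Jm ϑ).prod volume) :=
      (integrable_const B).mul_prod Pk_int
    refine h1.mono' hFm.aestronglyMeasurable (ae_of_all _ fun p => ?_)
    simp only [hF]
    rw [norm_mul, norm_mul, norm_mul, hn1, hn2, mul_one, mul_one, norm_real, Real.norm_eq_abs]
    exact mul_le_mul (hB _) (hRP _) (abs_nonneg _) ((norm_nonneg _).trans (hB 0))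
  have e1 : ∫ θ, g θ * ((∫ s : ℝ, (R s : ℂ) * cexp (I * s * ((a * cc φ θ : ℝ) : ℂ))) *
      cexp (-(I * t * ((a * cc φ θ : ℝ) : ℂ)))) ∂(Jm ϑ) = ∫ θ, (∫ s : ℝ, F (θ, s)) ∂(Jm ϑ) := by
    apply integral_congr_ae
    refine ae_of_all _ fun θ => ?_
    simp only [hF]
    rw [← integral_mul_const, ← integral_const_mul]
  have e2 : ∀ s : ℝ, ∫ θ, F (θ, s) ∂(Jm ϑ) = ((R s : ℂ) * cexp (-(I * ((t - s) * a : ℝ)))) *
      Gh ϑ g ((t - s) * a * Real.cos (2 * φ), (t - s) * a * Real.sin (2 * φ)) := by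
    intro s
    unfold Gh
    rw [← integral_const_mul]
    apply integral_congr_ae
    refine ae_of_all _ fun θ => ?_
    simp only [hF]
    unfold chy
    rw [ph2_polar, one_mul]
    have h1 : cexp (I * s * ((a * cc φ θ : ℝ) : ℂ)) * cexp (-(I * t * ((a * cc φ θ : ℝ) : ℂ))) =
        cexp (-(I * ((t - s) * a : ℝ))) *
          cexp (-(I * (((t - s) * a * Real.cos (2 * θ - 2 * φ) : ℝ) : ℂ))) := by
      rw [← Complex.exp_add, ← Complex.exp_add]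
      congr 1
      unfold cc
      push_cast
      ring
    calc g θ * ((R s : ℂ) * cexp (I * s * ((a * cc φ θ : ℝ) : ℂ)) *
          cexp (-(I * t * ((a * cc φ θ : ℝ) : ℂ))))
        = g θ * (R s : ℂ) * (cexp (I * s * ((a * cc φ θ : ℝ) : ℂ)) *
          cexp (-(I * t * ((a * cc φ θ : ℝ) : ℂ)))) := by ring
      _ = _ := by
          rw [h1]
          ring
  rw [e1, integral_integral_swap hFi]
  simp only [e2]
  refine (enorm_integral_le_lintegral_enorm _).trans ?_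
  unfold Sf
  apply lintegral_mono
  intro s
  simp only
  rw [enorm_mul, enorm_mul]
  refine mul_le_mul' ?_ le_rfl
  have h2 : ‖cexp (-(I * ((t - s) * a : ℝ)))‖ₑ = 1 := by
    rw [← ofReal_norm]
    rw [show -(I * (((t - s) * a : ℝ) : ℂ)) = I * ((-((t - s) * a) : ℝ) : ℂ) by push_cast; ring, hcn]
    simp
  rw [h2, mul_one, ← ofReal_norm, norm_real, Real.norm_eq_abs]
  exact ENNReal.ofReal_le_ofReal (hRP s)

/-- the sum of three averages -/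
noncomputable def S3 (ϑ t : ℝ) (g : ℝ → ℂ) (a φ : ℝ) : ℝ≥0∞ :=
  Sf ϑ t g a φ + (Sf ϑ t (fun θ => g θ * (Real.cos (2 * θ) : ℂ)) a φ +
    Sf ϑ t (fun θ => g θ * (Real.sin (2 * θ) : ℂ)) a φ)

lemma g_cos_bd {g : ℝ → ℂ} {B : ℝ} (hB : ∀ θ, ‖g θ‖ ≤ B) (θ : ℝ) :
    ‖g θ * (Real.cos (2 * θ) : ℂ)‖ ≤ B := by
  rw [norm_mul, norm_real, Real.norm_eq_abs]
  have h1 := Real.abs_cos_le_one (2 * θ)
  have h2 := hB θ
  have h3 := norm_nonneg (g θ)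
  nlinarith [abs_nonneg (Real.cos (2 * θ))]

lemma g_sin_bd {g : ℝ → ℂ} {B : ℝ} (hB : ∀ θ, ‖g θ‖ ≤ B) (θ : ℝ) :
    ‖g θ * (Real.sin (2 * θ) : ℂ)‖ ≤ B := by
  rw [norm_mul, norm_real, Real.norm_eq_abs]
  have h1 := Real.abs_sin_le_one (2 * θ)
  have h2 := hB θ
  have h3 := norm_nonneg (g θ)
  nlinarith [abs_nonneg (Real.sin (2 * θ))]

lemma g_cos_meas {g : ℝ → ℂ} (hg : Measurable g) :
    Measurable fun θ => g θ * (Real.cos (2 * θ) : ℂ) := by fun_prop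

lemma g_sin_meas {g : ℝ → ℂ} (hg : Measurable g) :
    Measurable fun θ => g θ * (Real.sin (2 * θ) : ℂ) := by fun_prop

/-- the damped exponential -/
lemma damp {v : ℝ} (hv : 0 ≤ v) (t : ℝ) : cexp (-((v : ℂ) * (1 + t * I))) =
    (∫ s : ℝ, (Pk s : ℂ) * cexp (I * s * (v : ℂ))) * cexp (-(I * t * (v : ℂ))) := by
  have h := Pk_ft v
  rw [abs_of_nonneg hv] at h
  rw [← h, ofReal_exp, ← Complex.exp_add]
  congr 1
  push_cast
  ring

lemma damp2 {v : ℝ} (hv : 0 ≤ v) (t : ℝ) : (v : ℂ) * cexp (-((v : ℂ) * (1 + t * I))) =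
    (∫ s : ℝ, (Qk s : ℂ) * cexp (I * s * (v : ℂ))) * cexp (-(I * t * (v : ℂ))) := by
  have h := Qk_ft v
  rw [abs_of_nonneg hv] at h
  rw [← h]
  push_cast
  rw [mul_assoc, ← Complex.exp_add]
  congr 2
  ring

/-- the first integral -/
noncomputable def T1 (ϑ t : ℝ) (g : ℝ → ℂ) (a φ : ℝ) : ℂ :=
  ∫ θ, g θ * cexp (-(((a * cc φ θ : ℝ) : ℂ) * (1 + t * I))) ∂(Jm ϑ)

/-- the second integral -/
noncomputable def T2 (ϑ t : ℝ) (g : ℝ → ℂ) (a φ : ℝ) : ℂ :=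
  ∫ θ, g θ * (((a * cc φ θ : ℝ) : ℂ) * cexp (-(((a * cc φ θ : ℝ) : ℂ) * (1 + t * I)))) ∂(Jm ϑ)

lemma T1_le (ϑ t : ℝ) {g : ℝ → ℂ} (hg : Measurable g) {B : ℝ} (hB : ∀ θ, ‖g θ‖ ≤ B) {a : ℝ}
    (ha : 0 ≤ a) (φ : ℝ) : ‖T1 ϑ t g a φ‖ₑ ≤ Sf ϑ t g a φ := by
  have h := rep ϑ hg hB Pk_cont (fun s => (abs_of_pos (Pk_pos s)).le) t a φ
  refine le_trans (le_of_eq ?_) h
  unfold T1
  congr 1
  apply integral_congr_ae
  refine ae_of_all _ fun θ => ?_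
  simp only
  rw [damp (mul_nonneg ha (cc_nonneg φ θ))]

lemma T2_le (ϑ t : ℝ) {g : ℝ → ℂ} (hg : Measurable g) {B : ℝ} (hB : ∀ θ, ‖g θ‖ ≤ B) {a : ℝ}
    (ha : 0 ≤ a) (φ : ℝ) : ‖T2 ϑ t g a φ‖ₑ ≤ Sf ϑ t g a φ := by
  have h := rep ϑ hg hB Qk_cont Qk_le t a φ
  refine le_trans (le_of_eq ?_) h
  unfold T2
  congr 1
  apply integral_congr_ae
  refine ae_of_all _ fun θ => ?_
  simp only
  rw [damp2 (mul_nonneg ha (cc_nonneg φ θ))]

lemma T1_int (ϑ t : ℝ) {g : ℝ → ℂ} (hg : Measurable g) {B : ℝ} (hB : ∀ θ, ‖g θ‖ ≤ B) {a : ℝ}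
    (ha : 0 ≤ a) (φ : ℝ) :
    Integrable (fun θ => g θ * cexp (-(((a * cc φ θ : ℝ) : ℂ) * (1 + t * I)))) (Jm ϑ) := by
  have hcc := cc_cont φ
  refine Integrable.of_bound (C := B) (Measurable.aestronglyMeasurable (by fun_prop))
    (ae_of_all _ fun θ => ?_)
  have h0 := mul_nonneg ha (cc_nonneg φ θ)
  have h1 : ‖cexp (-(((a * cc φ θ : ℝ) : ℂ) * (1 + t * I)))‖ ≤ 1 := by
    rw [norm_exp]
    apply Real.exp_le_one_iff.2
    simp only [neg_re, mul_re, ofReal_re, add_re, one_re, I_re, mul_zero, ofReal_im, zero_mul,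
      sub_zero, add_zero, mul_one, I_im, neg_nonpos]
    exact h0
  rw [norm_mul]
  have h2 := hB θ
  have h3 := norm_nonneg (g θ)
  nlinarith [norm_nonneg (cexp (-(((a * cc φ θ : ℝ) : ℂ) * (1 + t * I))))]

lemma T2_le' (ϑ t : ℝ) {g : ℝ → ℂ} (hg : Measurable g) {B : ℝ} (hB : ∀ θ, ‖g θ‖ ≤ B) {a : ℝ}
    (ha : 0 ≤ a) (φ : ℝ) : ‖T2 ϑ t g a φ‖ₑ ≤ ENNReal.ofReal a * S3 ϑ t g a φ := by
  have e1 : T2 ϑ t g a φ = (a : ℂ) * (T1 ϑ t g a φ +
      ((Real.cos (2 * φ) : ℂ) * T1 ϑ t (fun θ => g θ * (Real.cos (2 * θ) : ℂ)) a φ +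
        (Real.sin (2 * φ) : ℂ) * T1 ϑ t (fun θ => g θ * (Real.sin (2 * θ) : ℂ)) a φ)) := by
    have i1 := T1_int ϑ t hg hB ha φ
    have i2 := T1_int ϑ t (g_cos_meas hg) (g_cos_bd hB) ha φ
    have i3 := T1_int ϑ t (g_sin_meas hg) (g_sin_bd hB) ha φ
    have i23 : Integrable (fun θ => (Real.cos (2 * φ) : ℂ) * (g θ * (Real.cos (2 * θ) : ℂ) *
        cexp (-(((a * cc φ θ : ℝ) : ℂ) * (1 + t * I)))) + (Real.sin (2 * φ) : ℂ) *
        (g θ * (Real.sin (2 * θ) : ℂ) * cexp (-(((a * cc φ θ : ℝ) : ℂ) * (1 + t * I))))) (Jm ϑ) :=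
      (i2.const_mul _).add (i3.const_mul _)
    unfold T1 T2
    rw [← integral_const_mul, ← integral_const_mul, ← integral_add (i2.const_mul _) (i3.const_mul _),
      ← integral_add i1 i23, ← integral_const_mul]
    apply integral_congr_ae
    refine ae_of_all _ fun θ => ?_
    simp only
    have h1 : (cc φ θ : ℂ) = 1 + ((Real.cos (2 * φ) : ℂ) * (Real.cos (2 * θ) : ℂ) +
        (Real.sin (2 * φ) : ℂ) * (Real.sin (2 * θ) : ℂ)) := by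
      unfold cc
      rw [Real.cos_sub]
      push_cast
      ring
    have h2 : ((a * cc φ θ : ℝ) : ℂ) = (a : ℂ) * (cc φ θ : ℂ) := by push_cast; rfl
    set E : ℂ := cexp (-(((a * cc φ θ : ℝ) : ℂ) * (1 + t * I))) with hE
    rw [h2, h1]
    ring
  rw [e1, enorm_mul]
  have h3 : ‖(a : ℂ)‖ₑ = ENNReal.ofReal a := by
    rw [← ofReal_norm, norm_real, Real.norm_of_nonneg ha]
  rw [h3]
  refine mul_le_mul' le_rfl ?_
  unfold S3
  have h4 : ∀ x : ℝ, |x| ≤ 1 → ‖(x : ℂ)‖ₑ ≤ 1 := by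
    intro x hx
    rw [← ofReal_norm, norm_real, Real.norm_eq_abs]
    exact ENNReal.ofReal_le_one.2 hx
  refine (enorm_add_le _ _).trans (add_le_add (T1_le ϑ t hg hB ha φ) ?_)
  refine (enorm_add_le _ _).trans (add_le_add ?_ ?_)
  · rw [enorm_mul]
    calc _ ≤ 1 * Sf ϑ t (fun θ => g θ * (Real.cos (2 * θ) : ℂ)) a φ :=
          mul_le_mul' (h4 _ (Real.abs_cos_le_one _)) (T1_le ϑ t (g_cos_meas hg) (g_cos_bd hB) ha φ)
      _ = _ := one_mul _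
  · rw [enorm_mul]
    calc _ ≤ 1 * Sf ϑ t (fun θ => g θ * (Real.sin (2 * θ) : ℂ)) a φ :=
          mul_le_mul' (h4 _ (Real.abs_sin_le_one _)) (T1_le ϑ t (g_sin_meas hg) (g_sin_bd hB) ha φ)
      _ = _ := one_mul _

lemma T2_min (ϑ t : ℝ) {g : ℝ → ℂ} (hg : Measurable g) {B : ℝ} (hB : ∀ θ, ‖g θ‖ ≤ B) {a : ℝ}
    (ha : 0 ≤ a) (φ : ℝ) : ‖T2 ϑ t g a φ‖ₑ ≤ ENNReal.ofReal (min 1 a) * S3 ϑ t g a φ := by
  rcases le_total a 1 with h | h
  · rw [min_eq_right h]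
    exact T2_le' ϑ t hg hB ha φ
  · rw [min_eq_left h, ENNReal.ofReal_one, one_mul]
    refine (T2_le ϑ t hg hB ha φ).trans ?_
    unfold S3
    exact le_self_add

/-- the value of the operator in polar coordinates -/
lemma Hop_polar (ϑ t : ℝ) {g : ℝ → ℂ} (hg : Measurable g) {B : ℝ} (hB : ∀ θ, ‖g θ‖ ≤ B)
    (ρ φ : ℝ) : Hop ϑ g (ρ * Real.cos φ, ρ * Real.sin φ) t =
      ct t * ((1 / 2) * T1 ϑ t g (ρ ^ 2 / (8 * (1 + t ^ 2))) φ -
        (1 + t * I) * T2 ϑ t g (ρ ^ 2 / (8 * (1 + t ^ 2))) φ) := by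
  set a : ℝ := ρ ^ 2 / (8 * (1 + t ^ 2)) with ha
  have ha0 : 0 ≤ a := by positivity
  have i1 := T1_int ϑ t hg hB ha0 φ
  have i2 : Integrable (fun θ => g θ * (((a * cc φ θ : ℝ) : ℂ) *
      cexp (-(((a * cc φ θ : ℝ) : ℂ) * (1 + t * I))))) (Jm ϑ) := by
    have hcc := cc_cont φ
    refine Integrable.of_bound (C := B * (a * 2)) (Measurable.aestronglyMeasurable (by fun_prop))
      (ae_of_all _ fun θ => ?_)
    have h0 := mul_nonneg ha0 (cc_nonneg φ θ)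
    have h1 : ‖cexp (-(((a * cc φ θ : ℝ) : ℂ) * (1 + t * I)))‖ ≤ 1 := by
      rw [norm_exp]
      apply Real.exp_le_one_iff.2
      simp only [neg_re, mul_re, ofReal_re, add_re, one_re, I_re, mul_zero, ofReal_im, zero_mul,
        sub_zero, add_zero, mul_one, I_im, neg_nonpos]
      exact h0
    have h2 : a * cc φ θ ≤ a * 2 := by
      have : cc φ θ ≤ 2 := by
        unfold cc
        linarith [Real.cos_le_one (2 * θ - 2 * φ)]
      gcongr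
    rw [norm_mul, norm_mul, norm_real, Real.norm_of_nonneg h0]
    have h3 := hB θ
    have h4 : a * cc φ θ * ‖cexp (-(((a * cc φ θ : ℝ) : ℂ) * (1 + t * I)))‖ ≤ a * 2 * 1 := by
      gcongr
    rw [mul_one] at h4
    exact mul_le_mul h3 h4 (by positivity) ((norm_nonneg _).trans h3)
  unfold T1 T2 Hop
  rw [← integral_const_mul, ← integral_const_mul, ← integral_sub (i1.const_mul _) (i2.const_mul _),
    ← integral_const_mul]
  apply integral_congr_ae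
  refine ae_of_all _ fun θ => ?_
  simp only
  have h1 : dt (ρ * Real.cos φ, ρ * Real.sin φ) θ ^ 2 = 4 * (1 + t ^ 2) * (a * cc φ θ) := by
    have h2 : dt (ρ * Real.cos φ, ρ * Real.sin φ) θ = ρ * Real.cos (θ - φ) := by
      unfold dt
      rw [Real.cos_sub]
      ring
    have h3 : cc φ θ = 2 * Real.cos (θ - φ) ^ 2 := by
      unfold cc
      rw [show 2 * θ - 2 * φ = 2 * (θ - φ) by ring, Real.cos_two_mul]
      ring
    rw [h2, h3, ha]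
    field_simp
    ring
  rw [Ph_eq2 h1]
  ring

/-- the pointwise bound -/
lemma Hop_pt (ϑ t : ℝ) {g : ℝ → ℂ} (hg : Measurable g) {B : ℝ} (hB : ∀ θ, ‖g θ‖ ≤ B)
    (ρ φ : ℝ) : ‖Hop ϑ g (ρ * Real.cos φ, ρ * Real.sin φ) t‖ₑ ≤
      ‖ct t‖ₑ * (S3 ϑ t g (ρ ^ 2 / (8 * (1 + t ^ 2))) φ + ‖(1 + t * I : ℂ)‖ₑ *
        (ENNReal.ofReal (min 1 (ρ ^ 2 / (8 * (1 + t ^ 2)))) *
          S3 ϑ t g (ρ ^ 2 / (8 * (1 + t ^ 2))) φ)) := by
  rw [Hop_polar ϑ t hg hB]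
  set a : ℝ := ρ ^ 2 / (8 * (1 + t ^ 2)) with ha
  have ha0 : 0 ≤ a := by positivity
  rw [enorm_mul]
  refine mul_le_mul' le_rfl ((enorm_sub_le).trans (add_le_add ?_ ?_))
  · rw [enorm_mul]
    have h1 : ‖(1 / 2 : ℂ)‖ₑ ≤ 1 := by
      rw [← ofReal_norm]
      apply ENNReal.ofReal_le_one.2
      norm_num
    calc _ ≤ 1 * Sf ϑ t g a φ := mul_le_mul' h1 (T1_le ϑ t hg hB ha0 φ)
      _ = Sf ϑ t g a φ := one_mul _
      _ ≤ _ := by
          unfold S3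
          exact le_self_add
  · rw [enorm_mul]
    exact mul_le_mul' le_rfl (T2_min ϑ t hg hB ha0 φ)

end Pool.Agent.U506.RR
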