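import Mathlib
import Pool.Agent.U506.RR.D3
set_option autoImplicit false

/-! The `L⁴` bound at a fixed time for the extension of homogeneous functions. -/

namespace Pool.Agent.U506.RR

open MeasureTheory Set Complex
open scoped ENNReal NNReal

attribute [local irreducible] GG

lemma four_le (x y : ℝ≥0∞) : (x + y) ^ 4 ≤ 8 * (x ^ 4 + y ^ 4) := by
  have h := ENNReal.rpow_add_le_mul_rpow_add_rpow x y (p := 4) (by norm_num)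
  have e3 : ∀ x : ℝ≥0∞, x ^ (4 : ℝ) = x ^ 4 := fun x => ENNReal.rpow_natCast x 4
  have e4 : (2 : ℝ≥0∞) ^ ((4 : ℝ) - 1) = 8 := by
    rw [show (4 : ℝ) - 1 = ((3 : ℕ) : ℝ) by norm_num, ENNReal.rpow_natCast]
    norm_num
  rw [e3, e3, e3, e4] at h
  exact h

lemma Sf_meas (ϑ t : ℝ) {g : ℝ → ℂ} (hg : Measurable g) {B : ℝ} (hB : ∀ θ, ‖g θ‖ ≤ B) :
    Measurable fun p : ℝ × ℝ => Sf ϑ t g p.1 p.2 := by
  have hG := GG_meas ϑ hg hB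
  have hPm := Pk_meas
  simp only [Sf_eq]
  have : Measurable fun q : (ℝ × ℝ) × ℝ =>
      ENNReal.ofReal (Pk q.2) * GG ϑ g ((t - q.2) * q.1.1) q.1.2 := by
    apply Measurable.fun_mul
    · fun_prop
    · exact hG.comp (by fun_prop : Measurable fun q : (ℝ × ℝ) × ℝ => ((t - q.2) * q.1.1, q.1.2))
  exact this.lintegral_prod_right'

attribute [local irreducible] Sf

lemma S3_meas (ϑ t : ℝ) {g : ℝ → ℂ} (hg : Measurable g) {B : ℝ} (hB : ∀ θ, ‖g θ‖ ≤ B) :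
    Measurable fun p : ℝ × ℝ => S3 ϑ t g p.1 p.2 := by
  unfold S3
  exact (Sf_meas ϑ t hg hB).add ((Sf_meas ϑ t (g_cos_meas hg) (g_cos_bd hB)).add
    (Sf_meas ϑ t (g_sin_meas hg) (g_sin_bd hB)))

lemma S3_four (ϑ t : ℝ) (g : ℝ → ℂ) (a φ : ℝ) : S3 ϑ t g a φ ^ 4 ≤ 64 *
    (Sf ϑ t g a φ ^ 4 + (Sf ϑ t (fun θ => g θ * (Real.cos (2 * θ) : ℂ)) a φ ^ 4 +
      Sf ϑ t (fun θ => g θ * (Real.sin (2 * θ) : ℂ)) a φ ^ 4)) := by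
  unfold S3
  set x := Sf ϑ t g a φ
  set y := Sf ϑ t (fun θ => g θ * (Real.cos (2 * θ) : ℂ)) a φ
  set z := Sf ϑ t (fun θ => g θ * (Real.sin (2 * θ) : ℂ)) a φ
  calc (x + (y + z)) ^ 4 ≤ 8 * (x ^ 4 + (y + z) ^ 4) := four_le _ _
    _ ≤ 8 * (x ^ 4 + 8 * (y ^ 4 + z ^ 4)) := by
        gcongr
        exact four_le _ _
    _ ≤ 8 * (8 * x ^ 4 + 8 * (y ^ 4 + z ^ 4)) := by
        gcongr
        calc x ^ 4 = 1 * x ^ 4 := (one_mul _).symm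
          _ ≤ 8 * x ^ 4 := by
              gcongr
              norm_num
    _ = _ := by ring

lemma dbl_add3 {f1 f2 f3 : ℝ → ℝ → ℝ≥0∞} (m1 : Measurable (Function.uncurry f1))
    (m2 : Measurable (Function.uncurry f2)) (μ ν : Measure ℝ) [SFinite μ] [SFinite ν] :
    ∫⁻ φ, (∫⁻ a, (f1 φ a + (f2 φ a + f3 φ a)) ∂ν) ∂μ =
      (∫⁻ φ, (∫⁻ a, f1 φ a ∂ν) ∂μ) + ((∫⁻ φ, (∫⁻ a, f2 φ a ∂ν) ∂μ) +
        ∫⁻ φ, (∫⁻ a, f3 φ a ∂ν) ∂μ) := by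
  have s1 : ∀ φ, Measurable (f1 φ) := fun φ => m1.comp (measurable_const.prodMk measurable_id)
  have s2 : ∀ φ, Measurable (f2 φ) := fun φ => m2.comp (measurable_const.prodMk measurable_id)
  have h1 : ∀ φ, ∫⁻ a, (f1 φ a + (f2 φ a + f3 φ a)) ∂ν =
      (∫⁻ a, f1 φ a ∂ν) + ((∫⁻ a, f2 φ a ∂ν) + ∫⁻ a, f3 φ a ∂ν) := by
    intro φ
    rw [lintegral_add_left (s1 φ), lintegral_add_left (s2 φ)]
  simp only [h1]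
  have k1 : Measurable fun φ => ∫⁻ a, f1 φ a ∂ν := m1.lintegral_prod_right'
  have k2 : Measurable fun φ => ∫⁻ a, f2 φ a ∂ν := m2.lintegral_prod_right'
  rw [lintegral_add_left k1, lintegral_add_left k2]

/-- the weighted fourth power -/
noncomputable def LW (δ : ℝ) (S : ℝ → ℝ → ℝ≥0∞) : ℝ≥0∞ :=
  ∫⁻ φ in Ioc (-Real.pi) Real.pi, ∫⁻ a in Ioi (0 : ℝ), ENNReal.ofReal (a ^ (1 - δ)) * S a φ ^ 4

lemma LW3 (δ : ℝ) {S S0 S1 S2 : ℝ → ℝ → ℝ≥0∞}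
    (m0 : Measurable fun p : ℝ × ℝ => S0 p.1 p.2) (m1 : Measurable fun p : ℝ × ℝ => S1 p.1 p.2)
    (hS : ∀ a φ, S a φ ^ 4 ≤ 64 * (S0 a φ ^ 4 + (S1 a φ ^ 4 + S2 a φ ^ 4))) :
    LW δ S ≤ 64 * (LW δ S0 + (LW δ S1 + LW δ S2)) := by
  have mm : ∀ {h : ℝ → ℝ → ℝ≥0∞}, (Measurable fun p : ℝ × ℝ => h p.1 p.2) →
      Measurable (Function.uncurry fun φ a => ENNReal.ofReal (a ^ (1 - δ)) * h a φ ^ 4) := by
    intro h hm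
    unfold Function.uncurry
    apply Measurable.fun_mul
    · fun_prop
    · exact (hm.comp measurable_swap).pow_const 4
  unfold LW
  rw [← dbl_add3 (mm m0) (mm m1), ← lintegral_const_mul' _ _ (by norm_num : (64 : ℝ≥0∞) ≠ ⊤)]
  refine lintegral_mono fun φ => ?_
  rw [← lintegral_const_mul' _ _ (by norm_num : (64 : ℝ≥0∞) ≠ ⊤)]
  refine lintegral_mono fun a => ?_
  refine (mul_le_mul' le_rfl (hS a φ)).trans (le_of_eq ?_)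
  ring

lemma S3_L4 {δ t : ℝ} (h0 : 0 < δ) (ϑ : ℝ) {g : ℝ → ℂ} (hg : Measurable g)
    {B : ℝ} (hB : ∀ θ, ‖g θ‖ ≤ B) :
    LW δ (S3 ϑ t g) ≤ 192 * (Ib ((2 - δ) / 4) t ^ 4 * (Cb δ * ∫⁻ θ, ‖g θ‖ₑ ^ 4 ∂(Jm ϑ))) := by
  have hle : ∀ (h : ℝ → ℂ), (∀ θ, ‖h θ‖ₑ ≤ ‖g θ‖ₑ) → ∫⁻ θ, ‖h θ‖ₑ ^ 4 ∂(Jm ϑ) ≤
      ∫⁻ θ, ‖g θ‖ₑ ^ 4 ∂(Jm ϑ) := by
    intro h hh
    apply lintegral_mono
    intro θ
    simp only
    gcongr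
    exact hh θ
  have hc1 : ∀ θ, ‖g θ * (Real.cos (2 * θ) : ℂ)‖ₑ ≤ ‖g θ‖ₑ := by
    intro θ
    rw [enorm_mul]
    calc _ ≤ ‖g θ‖ₑ * 1 := by
          gcongr
          rw [← ofReal_norm, norm_real, Real.norm_eq_abs]
          exact ENNReal.ofReal_le_one.2 (Real.abs_cos_le_one _)
      _ = _ := mul_one _
  have hs1 : ∀ θ, ‖g θ * (Real.sin (2 * θ) : ℂ)‖ₑ ≤ ‖g θ‖ₑ := by
    intro θ
    rw [enorm_mul]
    calc _ ≤ ‖g θ‖ₑ * 1 := by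
          gcongr
          rw [← ofReal_norm, norm_real, Real.norm_eq_abs]
          exact ENNReal.ofReal_le_one.2 (Real.abs_sin_le_one _)
      _ = _ := mul_one _
  have b0 : LW δ (Sf ϑ t g) ≤
      Ib ((2 - δ) / 4) t ^ 4 * (Cb δ * ∫⁻ θ, ‖g θ‖ₑ ^ 4 ∂(Jm ϑ)) := Sf_L4 h0 ϑ hg hB
  have b1 : LW δ (Sf ϑ t (fun θ => g θ * (Real.cos (2 * θ) : ℂ))) ≤
      Ib ((2 - δ) / 4) t ^ 4 * (Cb δ * ∫⁻ θ, ‖g θ‖ₑ ^ 4 ∂(Jm ϑ)) :=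
    (Sf_L4 h0 ϑ (g_cos_meas hg) (g_cos_bd hB)).trans
      (mul_le_mul' le_rfl (mul_le_mul' le_rfl (hle _ hc1)))
  have b2 : LW δ (Sf ϑ t (fun θ => g θ * (Real.sin (2 * θ) : ℂ))) ≤
      Ib ((2 - δ) / 4) t ^ 4 * (Cb δ * ∫⁻ θ, ‖g θ‖ₑ ^ 4 ∂(Jm ϑ)) :=
    (Sf_L4 h0 ϑ (g_sin_meas hg) (g_sin_bd hB)).trans
      (mul_le_mul' le_rfl (mul_le_mul' le_rfl (hle _ hs1)))
  refine (LW3 δ (Sf_meas ϑ t hg hB) (Sf_meas ϑ t (g_cos_meas hg) (g_cos_bd hB))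
    (fun a φ => S3_four ϑ t g a φ)).trans ?_
  calc _ ≤ 64 * (Ib ((2 - δ) / 4) t ^ 4 * (Cb δ * ∫⁻ θ, ‖g θ‖ₑ ^ 4 ∂(Jm ϑ)) +
        (Ib ((2 - δ) / 4) t ^ 4 * (Cb δ * ∫⁻ θ, ‖g θ‖ₑ ^ 4 ∂(Jm ϑ)) +
          Ib ((2 - δ) / 4) t ^ 4 * (Cb δ * ∫⁻ θ, ‖g θ‖ₑ ^ 4 ∂(Jm ϑ)))) :=
        mul_le_mul' le_rfl (add_le_add b0 (add_le_add b1 b2))
    _ = _ := by ring

/-- the constant -/
noncomputable def CD (δ : ℝ) : ℝ≥0∞ :=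
  ENNReal.ofReal (4 * Real.pi ^ 2) * (8 * (192 * (KI (1 / 4) ^ 4 * Cb 1) +
    192 * (KI ((2 - δ) / 4) ^ 4 * Cb δ)))

lemma CD_lt {δ : ℝ} (h0 : 0 < δ) (h1 : δ ≤ 1) : CD δ < ⊤ := by
  unfold CD
  have a1 : KI (1 / 4) < ⊤ := KI_lt (by norm_num)
  have a2 : KI ((2 - δ) / 4) < ⊤ := KI_lt (by linarith)
  have a3 : Cb 1 < ⊤ := Cb_lt one_pos le_rfl
  have a4 : Cb δ < ⊤ := Cb_lt h0 h1
  apply ENNReal.mul_lt_top ENNReal.ofReal_lt_top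
  apply ENNReal.mul_lt_top (by norm_num)
  apply ENNReal.add_lt_top.2
  constructor
  · exact ENNReal.mul_lt_top (by norm_num) (ENNReal.mul_lt_top (ENNReal.pow_lt_top a1) a3)
  · exact ENNReal.mul_lt_top (by norm_num) (ENNReal.mul_lt_top (ENNReal.pow_lt_top a2) a4)

attribute [local irreducible] S3 Hop

/-- the bounding function -/
noncomputable def Bd (ϑ t : ℝ) (g : ℝ → ℂ) (a φ : ℝ) : ℝ≥0∞ :=
  ‖ct t‖ₑ ^ 4 * (8 * (S3 ϑ t g a φ ^ 4 +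
    ‖(1 + t * I : ℂ)‖ₑ ^ 4 * (ENNReal.ofReal (min 1 a) ^ 4 * S3 ϑ t g a φ ^ 4)))

lemma Bd_meas (ϑ t : ℝ) {g : ℝ → ℂ} (hg : Measurable g) {B : ℝ} (hB : ∀ θ, ‖g θ‖ ≤ B) :
    Measurable fun p : ℝ × ℝ => Bd ϑ t g p.1 p.2 := by
  have hS := S3_meas ϑ t hg hB
  unfold Bd
  have h2 : Measurable fun p : ℝ × ℝ => ENNReal.ofReal (min 1 p.1) ^ 4 := by fun_prop
  exact ((((hS.pow_const 4).add ((h2.mul (hS.pow_const 4)).const_mul _)).const_mul 8).const_mul _)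

lemma Bd_pt (ϑ t : ℝ) {g : ℝ → ℂ} (hg : Measurable g) {B : ℝ} (hB : ∀ θ, ‖g θ‖ ≤ B) (ρ φ : ℝ) :
    ‖Hop ϑ g (ρ * Real.cos φ, ρ * Real.sin φ) t‖ₑ ^ 4 ≤ Bd ϑ t g (ρ ^ 2 / (8 * (1 + t ^ 2))) φ := by
  have h2 := Hop_pt ϑ t hg hB ρ φ
  set a : ℝ := ρ ^ 2 / (8 * (1 + t ^ 2)) with ha
  calc ‖Hop ϑ g (ρ * Real.cos φ, ρ * Real.sin φ) t‖ₑ ^ 4
      ≤ (‖ct t‖ₑ * (S3 ϑ t g a φ + ‖(1 + t * I : ℂ)‖ₑ *
        (ENNReal.ofReal (min 1 a) * S3 ϑ t g a φ))) ^ 4 := by gcongr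
    _ = ‖ct t‖ₑ ^ 4 * (S3 ϑ t g a φ + ‖(1 + t * I : ℂ)‖ₑ *
        (ENNReal.ofReal (min 1 a) * S3 ϑ t g a φ)) ^ 4 := by
        rw [mul_pow]
    _ ≤ _ := by
        unfold Bd
        refine mul_le_mul' le_rfl ((four_le _ _).trans (le_of_eq ?_))
        rw [mul_pow, mul_pow]

attribute [local irreducible] Bd

lemma Hop_polar_int (ϑ t : ℝ) {g : ℝ → ℂ} (hg : Measurable g) {B : ℝ} (hB : ∀ θ, ‖g θ‖ ≤ B) :
    ∫⁻ x : ℝ × ℝ, ‖Hop ϑ g x t‖ₑ ^ 4 ≤ ENNReal.ofReal (8 * (1 + t ^ 2) / 2) *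
      ∫⁻ φ in Ioc (-Real.pi) Real.pi, ∫⁻ a in Ioi (0 : ℝ), Bd ϑ t g a φ := by
  set D : ℝ := 8 * (1 + t ^ 2) with hD
  have hD0 : 0 < D := by positivity
  have hBm := Bd_meas ϑ t hg hB
  have step1 : ∫⁻ x : ℝ × ℝ, ‖Hop ϑ g x t‖ₑ ^ 4 ≤
      ∫⁻ φ in Ioc (-Real.pi) Real.pi, ∫⁻ ρ in Ioi (0 : ℝ),
        ENNReal.ofReal ρ * Bd ϑ t g (ρ ^ 2 / D) φ := by
    rw [← lintegral_comp_polarCoord_symm]
    have htar : polarCoord.target = Ioi (0 : ℝ) ×ˢ Ioo (-Real.pi) Real.pi := rfl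
    have hptc : ∀ p : ℝ × ℝ, polarCoord.symm p = (p.1 * Real.cos p.2, p.1 * Real.sin p.2) :=
      fun p => rfl
    rw [htar, Measure.volume_eq_prod, ← Measure.prod_restrict, setLIntegral_congr Ioo_ae_eq_Ioc.symm]
    have hm3 : Measurable fun p : ℝ × ℝ => ENNReal.ofReal p.1 * Bd ϑ t g (p.1 ^ 2 / D) p.2 := by
      apply Measurable.fun_mul
      · fun_prop
      · exact hBm.comp (by fun_prop : Measurable fun p : ℝ × ℝ => (p.1 ^ 2 / D, p.2))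
    have e1 := lintegral_prod_symm (μ := volume.restrict (Ioi (0 : ℝ)))
      (ν := volume.restrict (Ioo (-Real.pi) Real.pi))
      (fun p : ℝ × ℝ => ENNReal.ofReal p.1 * Bd ϑ t g (p.1 ^ 2 / D) p.2) hm3.aemeasurable
    rw [← e1]
    apply lintegral_mono
    intro p
    simp only [hptc, smul_eq_mul]
    exact mul_le_mul' le_rfl (Bd_pt ϑ t hg hB _ _)
  have step2 : ∀ φ : ℝ, ∫⁻ ρ in Ioi (0 : ℝ), ENNReal.ofReal ρ * Bd ϑ t g (ρ ^ 2 / D) φ =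
      ENNReal.ofReal (D / 2) * ∫⁻ a in Ioi (0 : ℝ), Bd ϑ t g a φ := fun φ =>
    sqch (fun a => Bd ϑ t g a φ) hD0
  simp only [step2] at step1
  rwa [lintegral_const_mul' _ _ ENNReal.ofReal_ne_top] at step1

lemma dbl_two {f1 f2 : ℝ → ℝ → ℝ≥0∞} (m1 : Measurable (Function.uncurry f1))
    (μ ν : Measure ℝ) [SFinite μ] [SFinite ν] {c1 c2 : ℝ≥0∞} (h1 : c1 ≠ ⊤) (h2 : c2 ≠ ⊤) :
    ∫⁻ φ, (∫⁻ a, c1 * (8 * (f1 φ a + c2 * f2 φ a)) ∂ν) ∂μ =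
      c1 * (8 * ((∫⁻ φ, (∫⁻ a, f1 φ a ∂ν) ∂μ) + c2 * ∫⁻ φ, (∫⁻ a, f2 φ a ∂ν) ∂μ)) := by
  have s1 : ∀ φ, Measurable (f1 φ) := fun φ => m1.comp (measurable_const.prodMk measurable_id)
  have e1 : ∀ φ, ∫⁻ a, c1 * (8 * (f1 φ a + c2 * f2 φ a)) ∂ν =
      c1 * (8 * ((∫⁻ a, f1 φ a ∂ν) + c2 * ∫⁻ a, f2 φ a ∂ν)) := by
    intro φ
    rw [lintegral_const_mul' _ _ h1, lintegral_const_mul' _ _ (by norm_num : (8 : ℝ≥0∞) ≠ ⊤),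
      lintegral_add_left (s1 φ), lintegral_const_mul' _ _ h2]
  simp only [e1]
  have k1 : Measurable fun φ => ∫⁻ a, f1 φ a ∂ν := m1.lintegral_prod_right'
  rw [lintegral_const_mul' _ _ h1, lintegral_const_mul' _ _ (by norm_num : (8 : ℝ≥0∞) ≠ ⊤),
    lintegral_add_left k1, lintegral_const_mul' _ _ h2]

lemma Bd_int {δ t : ℝ} (h0 : 0 < δ) (h1 : δ ≤ 1) (ϑ : ℝ) {g : ℝ → ℂ}
    (hg : Measurable g) {B : ℝ} (hB : ∀ θ, ‖g θ‖ ≤ B) :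
    ∫⁻ φ in Ioc (-Real.pi) Real.pi, ∫⁻ a in Ioi (0 : ℝ), Bd ϑ t g a φ ≤
      ‖ct t‖ₑ ^ 4 * (8 * (192 * (Ib (1 / 4) t ^ 4 * (Cb 1 * ∫⁻ θ, ‖g θ‖ₑ ^ 4 ∂(Jm ϑ))) +
        ‖(1 + t * I : ℂ)‖ₑ ^ 4 * (192 * (Ib ((2 - δ) / 4) t ^ 4 *
          (Cb δ * ∫⁻ θ, ‖g θ‖ₑ ^ 4 ∂(Jm ϑ)))))) := by
  have hS := S3_meas ϑ t hg hB
  have p1 : ∫⁻ φ in Ioc (-Real.pi) Real.pi, ∫⁻ a in Ioi (0 : ℝ), S3 ϑ t g a φ ^ 4 ≤
      192 * (Ib (1 / 4) t ^ 4 * (Cb 1 * ∫⁻ θ, ‖g θ‖ₑ ^ 4 ∂(Jm ϑ))) := by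
    have h2 := S3_L4 (δ := 1) (t := t) one_pos ϑ hg hB
    have h3 : (2 - (1 : ℝ)) / 4 = 1 / 4 := by norm_num
    unfold LW at h2
    simp only [sub_self, Real.rpow_zero, ENNReal.ofReal_one, one_mul, h3] at h2
    exact h2
  have p2 : ∫⁻ φ in Ioc (-Real.pi) Real.pi, ∫⁻ a in Ioi (0 : ℝ),
      ENNReal.ofReal (min 1 a) ^ 4 * S3 ϑ t g a φ ^ 4 ≤
      192 * (Ib ((2 - δ) / 4) t ^ 4 * (Cb δ * ∫⁻ θ, ‖g θ‖ₑ ^ 4 ∂(Jm ϑ))) := by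
    refine le_trans ?_ (S3_L4 h0 ϑ hg hB)
    unfold LW
    refine lintegral_mono fun φ => setLIntegral_mono' measurableSet_Ioi fun a ha => ?_
    have ha' : (0 : ℝ) < a := ha
    refine mul_le_mul' ?_ le_rfl
    rw [← ENNReal.ofReal_pow (by positivity)]
    apply ENNReal.ofReal_le_ofReal
    rcases le_total a 1 with h | h
    · rw [min_eq_right h]
      calc a ^ 4 = a ^ (4 : ℝ) := by
            rw [← Real.rpow_natCast]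
            norm_num
        _ ≤ a ^ (1 - δ) := Real.rpow_le_rpow_of_exponent_ge ha' h (by linarith)
    · rw [min_eq_left h, one_pow]
      exact Real.one_le_rpow h (by linarith)
  have m1 : Measurable (Function.uncurry fun φ a : ℝ => S3 ϑ t g a φ ^ 4) :=
    (hS.comp measurable_swap).pow_const 4
  have c0 : ‖ct t‖ₑ ^ 4 ≠ ⊤ := ENNReal.pow_ne_top enorm_ne_top
  have c1 : ‖(1 + t * I : ℂ)‖ₑ ^ 4 ≠ ⊤ := ENNReal.pow_ne_top enorm_ne_top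
  have e := dbl_two (f2 := fun φ a : ℝ => ENNReal.ofReal (min 1 a) ^ 4 * S3 ϑ t g a φ ^ 4) m1
    (volume.restrict (Ioc (-Real.pi) Real.pi)) (volume.restrict (Ioi (0 : ℝ))) c0 c1
  unfold Bd
  rw [e]
  exact mul_le_mul' le_rfl (mul_le_mul' le_rfl (add_le_add p1 (mul_le_mul' le_rfl p2)))

lemma num1 (t : ℝ) : ‖ct t‖ₑ ^ 4 = ENNReal.ofReal (Real.pi ^ 2 * ((1 + t ^ 2) ^ 3)⁻¹) := by
  have hpi := Real.pi_pos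
  rw [← ofReal_norm, ct_norm, ← ENNReal.ofReal_pow (by positivity)]
  congr 1
  rw [mul_pow, zt_norm]
  have h2 : √Real.pi ^ 4 = Real.pi ^ 2 := by
    calc √Real.pi ^ 4 = (√Real.pi ^ 2) ^ 2 := by ring
      _ = _ := by rw [Real.sq_sqrt hpi.le]
  have h3 : (√(1 + t ^ 2) ^ (-(3 / 2) : ℝ)) ^ 4 = ((1 + t ^ 2) ^ 3)⁻¹ := by
    rw [Real.sqrt_eq_rpow, ← Real.rpow_mul (by positivity), ← Real.rpow_natCast,
      ← Real.rpow_mul (by positivity), ← Real.rpow_natCast (1 + t ^ 2) 3,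
      ← Real.rpow_neg (by positivity)]
    norm_num
  rw [h2, h3]

lemma num2 (t : ℝ) : ‖(1 + t * I : ℂ)‖ₑ ^ 4 = ENNReal.ofReal ((1 + t ^ 2) ^ 2) := by
  rw [← ofReal_norm, ← ENNReal.ofReal_pow (norm_nonneg _)]
  congr 1
  have h2 : ‖(1 + t * I : ℂ)‖ ^ 2 = 1 + t ^ 2 := by
    rw [← Complex.normSq_eq_norm_sq, normSq_apply]
    simp
    ring
  calc ‖(1 + t * I : ℂ)‖ ^ 4 = (‖(1 + t * I : ℂ)‖ ^ 2) ^ 2 := by ring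
    _ = _ := by rw [h2]

lemma num3 {β t : ℝ} (h0 : 0 < β) (h1 : β ≤ 1 / 2) (ht : 1 ≤ |t|) :
    Ib β t ^ 4 ≤ ENNReal.ofReal (|t| ^ (-(4 * β))) * KI β ^ 4 := by
  have ht0 : 0 < |t| := by linarith
  have h2 := Ib_le h0 h1 ht
  calc Ib β t ^ 4 ≤ (ENNReal.ofReal (|t| ^ (-β)) * KI β) ^ 4 := by gcongr
    _ = _ := by
        rw [mul_pow, ← ENNReal.ofReal_pow (by positivity), ← Real.rpow_natCast,
          ← Real.rpow_mul ht0.le]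
        congr 3
        push_cast
        ring

lemma num4 {δ t : ℝ} (h0 : 0 < δ) (ht : 1 ≤ |t|) :
    8 * (1 + t ^ 2) / 2 * (Real.pi ^ 2 * ((1 + t ^ 2) ^ 3)⁻¹) * |t| ^ (-(4 * (1 / 4)) : ℝ) ≤
      4 * Real.pi ^ 2 * |t| ^ (-(2 - δ)) := by
  have ht0 : 0 < |t| := by linarith
  have hh : 0 < 1 + t ^ 2 := by positivity
  have a1 : 8 * (1 + t ^ 2) / 2 * (Real.pi ^ 2 * ((1 + t ^ 2) ^ 3)⁻¹) = 4 * Real.pi ^ 2 *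
      ((1 + t ^ 2) ^ 2)⁻¹ := by
    field_simp
    ring
  have a2 : ((1 + t ^ 2) ^ 2)⁻¹ ≤ |t| ^ (-(4 : ℝ)) := by
    rw [Real.rpow_neg ht0.le]
    apply inv_anti₀ (by positivity)
    rw [show (4 : ℝ) = ((4 : ℕ) : ℝ) by norm_num, Real.rpow_natCast]
    have : |t| ^ 4 = (t ^ 2) ^ 2 := by
      rw [← sq_abs t]
      ring
    rw [this]
    gcongr
    linarith
  have a3 : ((1 + t ^ 2) ^ 2)⁻¹ * |t| ^ (-(4 * (1 / 4)) : ℝ) ≤ |t| ^ (-(2 - δ)) := by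
    calc ((1 + t ^ 2) ^ 2)⁻¹ * |t| ^ (-(4 * (1 / 4)) : ℝ) ≤
          |t| ^ (-(4 : ℝ)) * |t| ^ (-(4 * (1 / 4)) : ℝ) := by
          gcongr
      _ = |t| ^ (-(5 : ℝ)) := by
          rw [← Real.rpow_add ht0]
          norm_num
      _ ≤ _ := Real.rpow_le_rpow_of_exponent_le ht (by linarith)
  rw [a1, mul_assoc]
  gcongr

lemma num5 {δ t : ℝ} :
    8 * (1 + t ^ 2) / 2 * (Real.pi ^ 2 * ((1 + t ^ 2) ^ 3)⁻¹) * (1 + t ^ 2) ^ 2 * |t| ^ (-(2 - δ)) =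
      4 * Real.pi ^ 2 * |t| ^ (-(2 - δ)) := by
  have hh : 0 < 1 + t ^ 2 := by positivity
  field_simp
  ring

/-- **The `L⁴` bound at a fixed time.** -/
theorem Hop_L4 {δ t : ℝ} (h0 : 0 < δ) (h1 : δ ≤ 1) (ht : 1 ≤ |t|) (ϑ : ℝ) {g : ℝ → ℂ}
    (hg : Measurable g) {B : ℝ} (hB : ∀ θ, ‖g θ‖ ≤ B) :
    ∫⁻ x : ℝ × ℝ, ‖Hop ϑ g x t‖ₑ ^ 4 ≤
      CD δ * ENNReal.ofReal (|t| ^ (-(2 - δ))) * ∫⁻ θ, ‖g θ‖ₑ ^ 4 ∂(Jm ϑ) := by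
  have hpi := Real.pi_pos
  set N : ℝ≥0∞ := ∫⁻ θ, ‖g θ‖ₑ ^ 4 ∂(Jm ϑ) with hN
  have i1 := num3 (β := 1 / 4) (t := t) (by norm_num) (by norm_num) ht
  have i2 := num3 (β := (2 - δ) / 4) (t := t) (by linarith) (by linarith) ht
  have e4 : 4 * ((2 - δ) / 4) = 2 - δ := by ring
  rw [e4] at i2
  calc ∫⁻ x : ℝ × ℝ, ‖Hop ϑ g x t‖ₑ ^ 4
      ≤ ENNReal.ofReal (8 * (1 + t ^ 2) / 2) *
        ∫⁻ φ in Ioc (-Real.pi) Real.pi, ∫⁻ a in Ioi (0 : ℝ), Bd ϑ t g a φ :=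
        Hop_polar_int ϑ t hg hB
    _ ≤ ENNReal.ofReal (8 * (1 + t ^ 2) / 2) * (‖ct t‖ₑ ^ 4 * (8 * (192 * (Ib (1 / 4) t ^ 4 *
        (Cb 1 * N)) + ‖(1 + t * I : ℂ)‖ₑ ^ 4 * (192 * (Ib ((2 - δ) / 4) t ^ 4 * (Cb δ * N)))))) :=
        mul_le_mul' le_rfl (Bd_int h0 h1 ϑ hg hB)
    _ ≤ ENNReal.ofReal (8 * (1 + t ^ 2) / 2) * (‖ct t‖ₑ ^ 4 * (8 * (192 *
          ((ENNReal.ofReal (|t| ^ (-(4 * (1 / 4)) : ℝ)) * KI (1 / 4) ^ 4) * (Cb 1 * N)) +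
        ‖(1 + t * I : ℂ)‖ₑ ^ 4 * (192 *
          ((ENNReal.ofReal (|t| ^ (-(2 - δ))) * KI ((2 - δ) / 4) ^ 4) * (Cb δ * N)))))) := by
        gcongr
    _ = (ENNReal.ofReal (8 * (1 + t ^ 2) / 2) *
          ENNReal.ofReal (Real.pi ^ 2 * ((1 + t ^ 2) ^ 3)⁻¹) *
          ENNReal.ofReal (|t| ^ (-(4 * (1 / 4)) : ℝ))) * (8 * (192 * (KI (1 / 4) ^ 4 * Cb 1)) * N) +
        (ENNReal.ofReal (8 * (1 + t ^ 2) / 2) *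
          ENNReal.ofReal (Real.pi ^ 2 * ((1 + t ^ 2) ^ 3)⁻¹) *
          ENNReal.ofReal ((1 + t ^ 2) ^ 2) * ENNReal.ofReal (|t| ^ (-(2 - δ)))) *
            (8 * (192 * (KI ((2 - δ) / 4) ^ 4 * Cb δ)) * N) := by
        rw [num1, num2]
        ring
    _ ≤ ENNReal.ofReal (4 * Real.pi ^ 2 * |t| ^ (-(2 - δ))) *
          (8 * (192 * (KI (1 / 4) ^ 4 * Cb 1)) * N) +
        ENNReal.ofReal (4 * Real.pi ^ 2 * |t| ^ (-(2 - δ))) *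
            (8 * (192 * (KI ((2 - δ) / 4) ^ 4 * Cb δ)) * N) := by
        have hh : 0 < 1 + t ^ 2 := by positivity
        refine add_le_add (mul_le_mul' ?_ le_rfl) (mul_le_mul' ?_ le_rfl)
        · rw [← ENNReal.ofReal_mul (by positivity), ← ENNReal.ofReal_mul (by positivity)]
          exact ENNReal.ofReal_le_ofReal (num4 h0 ht)
        · rw [← ENNReal.ofReal_mul (by positivity), ← ENNReal.ofReal_mul (by positivity),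
            ← ENNReal.ofReal_mul (by positivity), num5]
    _ = _ := by
        unfold CD
        rw [ENNReal.ofReal_mul (by positivity)]
        ring

end Pool.Agent.U506.RR
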