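import Mathlib
import Pool.Agent.U506.RR.D4
import Pool.Agent.TH277.CP.P
set_option autoImplicit false

/-! The `L²` and `L^∞` bounds at a fixed time. -/

namespace Pool.Agent.U506.RR

open MeasureTheory Set Complex
open scoped ENNReal NNReal

/-- the sector of angles -/
def Sc (ϑ : ℝ) : Set ℝ := Ioc (ϑ - Real.pi / 4) (ϑ + Real.pi / 4)

lemma Sc_sub (ϑ : ℝ) : Sc ϑ ⊆ Ioc (ϑ - Real.pi / 2) (ϑ + Real.pi / 2) := by
  have := Real.pi_pos
  intro θ hθ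
  exact ⟨by linarith [hθ.1], by linarith [hθ.2]⟩

lemma Jm_eq (ϑ : ℝ) {F : ℝ → ℂ} (hF : ∀ θ, θ ∉ Sc ϑ → F θ = 0) : ∫ θ, F θ ∂(Jm ϑ) = ∫ θ, F θ := by
  unfold Jm
  exact setIntegral_eq_integral_of_forall_compl_eq_zero fun θ hθ => hF θ fun h => hθ (Sc_sub ϑ h)

lemma Jm_leq (ϑ : ℝ) {F : ℝ → ℝ≥0∞} (hF : ∀ θ, θ ∉ Sc ϑ → F θ = 0) :
    ∫⁻ θ, F θ ∂(Jm ϑ) = ∫⁻ θ, F θ := by
  unfold Jm
  rw [← lintegral_indicator measurableSet_Ioc]
  apply lintegral_congr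
  intro θ
  by_cases h : θ ∈ Ioc (ϑ - Real.pi / 2) (ϑ + Real.pi / 2)
  · rw [indicator_of_mem h]
  · rw [indicator_of_notMem h, hF θ fun h2 => h (Sc_sub ϑ h2)]

/-- the half line integral -/
noncomputable def hp (u t : ℝ) : ℂ := ∫ r in Ioi (0 : ℝ), ((r ^ 2 : ℝ) : ℂ) * ex u t r

lemma ex_neg (u t r : ℝ) : ex u t (-r) = ex (-u) t r := by
  unfold ex
  congr 1
  push_cast
  ring

lemma Ph_split (u t : ℝ) : Ph u t = hp u t + hp (-u) t := by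
  have hi := sq_ex_int u t
  unfold Ph hp
  have h1 : ∫ r in Ioi (0 : ℝ), ((r ^ 2 : ℝ) : ℂ) * ex (-u) t r =
      ∫ r in Iic (0 : ℝ), ((r ^ 2 : ℝ) : ℂ) * ex u t r := by
    have h := integral_comp_neg_Ioi 0 (fun r : ℝ => ((r ^ 2 : ℝ) : ℂ) * ex u t r)
    rw [neg_zero] at h
    rw [← h]
    apply setIntegral_congr_fun measurableSet_Ioi
    intro r _
    simp only [neg_sq, ex_neg]
  rw [h1, add_comm, intervalIntegral.integral_Iic_add_Ioi hi.integrableOn hi.integrableOn]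

/-- the function on the plane -/
noncomputable def Fp (g : ℝ → ℂ) (t : ℝ) (ξ : ℝ × ℝ) : ℂ :=
  (ln ξ : ℂ) * ex 0 t (ln ξ) * g (polarCoord ξ).2

lemma ln_cont : Continuous ln := by
  unfold ln
  fun_prop

lemma ang_meas : Measurable fun ξ : ℝ × ℝ => (polarCoord ξ).2 := by
  have h : (fun ξ : ℝ × ℝ => (polarCoord ξ).2) = fun ξ : ℝ × ℝ => Complex.arg ⟨ξ.1, ξ.2⟩ := by
    ext ξ
    rfl
  rw [h]
  apply Complex.measurable_arg.comp
  have : (fun ξ : ℝ × ℝ => (⟨ξ.1, ξ.2⟩ : ℂ)) = Complex.measurableEquivRealProd.symm := by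
    ext ξ
    rfl
  rw [this]
  exact Complex.measurableEquivRealProd.symm.measurable

lemma Fp_meas {g : ℝ → ℂ} (hg : Measurable g) (t : ℝ) : Measurable (Fp g t) := by
  unfold Fp
  have h1 : Continuous fun ξ : ℝ × ℝ => ex 0 t (ln ξ) := (ex_cont 0 t).comp ln_cont
  have h2 := ln_cont
  exact ((by fun_prop : Continuous fun ξ : ℝ × ℝ => (ln ξ : ℂ)).measurable.mul h1.measurable).mul
    (hg.comp ang_meas)

lemma ln_nonneg (ξ : ℝ × ℝ) : 0 ≤ ln ξ := Real.sqrt_nonneg _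

lemma ln_sq (ξ : ℝ × ℝ) : ln ξ ^ 2 = ξ.1 ^ 2 + ξ.2 ^ 2 := Real.sq_sqrt (by positivity)

lemma Fp_norm {g : ℝ → ℂ} {B : ℝ} (hB : ∀ θ, ‖g θ‖ ≤ B) (t : ℝ) (ξ : ℝ × ℝ) :
    ‖Fp g t ξ‖ ≤ 2 * Wg (1 / 2) ξ * B := by
  unfold Fp
  rw [norm_mul, norm_mul, ex_norm, norm_real, Real.norm_eq_abs]
  have h1 := abs_exp_le (ln ξ)
  have h2 : Real.exp (-(1 / 2) * ln ξ ^ 2) = Wg (1 / 2) ξ := by
    unfold Wg
    rw [ln_sq]
    congr 1
    ring
  rw [h2] at h1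
  exact mul_le_mul h1 (hB _) (norm_nonneg _) (by
    have := Wg_nonneg (1 / 2) ξ
    positivity)

lemma Fp_int {g : ℝ → ℂ} (hg : Measurable g) {B : ℝ} (hB : ∀ θ, ‖g θ‖ ≤ B) (t : ℝ) :
    Integrable (Fp g t) :=
  (((Wg_int (s := 1 / 2) (by norm_num)).const_mul 2).mul_const B).mono'
    (Fp_meas hg t).aestronglyMeasurable (ae_of_all _ fun ξ => Fp_norm hB t ξ)

lemma Fp_two {g : ℝ → ℂ} (hg : Measurable g) {B : ℝ} (hB : ∀ θ, ‖g θ‖ ≤ B) (t : ℝ) :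
    MemLp (Fp g t) 2 := by
  rw [memLp_two_iff_integrable_sq_norm (Fp_meas hg t).aestronglyMeasurable]
  have h1 : Integrable fun ξ : ℝ × ℝ => 4 * B ^ 2 * Wg 1 ξ := (Wg_int one_pos).const_mul _
  refine h1.mono' ((Fp_meas hg t).norm.pow_const 2).aestronglyMeasurable (ae_of_all _ fun ξ => ?_)
  rw [Real.norm_of_nonneg (by positivity)]
  have h2 := Fp_norm hB t ξ
  have h3 : Wg (1 / 2) ξ ^ 2 = Wg 1 ξ := by
    unfold Wg
    rw [← Real.exp_nat_mul]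
    congr 1
    push_cast
    ring
  calc ‖Fp g t ξ‖ ^ 2 ≤ (2 * Wg (1 / 2) ξ * B) ^ 2 := by gcongr
    _ = 4 * B ^ 2 * Wg (1 / 2) ξ ^ 2 := by ring
    _ = _ := by rw [h3]

/-- the transform of `Fp` -/
noncomputable def Ep (g : ℝ → ℂ) (t : ℝ) (X : ℝ × ℝ) : ℂ :=
  ∫ ξ : ℝ × ℝ, cexp (-(I * ((ξ.1 * X.1 + ξ.2 * X.2 : ℝ) : ℂ))) * Fp g t ξ

lemma Ep_polar (ϑ : ℝ) (hϑ : Sc ϑ ⊆ Ioc (-Real.pi) Real.pi) {g : ℝ → ℂ} (hg : Measurable g) {B : ℝ}
    (hB : ∀ θ, ‖g θ‖ ≤ B) (hs : ∀ θ, θ ∉ Sc ϑ → g θ = 0) (t : ℝ) (X : ℝ × ℝ) :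
    Ep g t X = ∫ θ, g θ * hp (-(dt X θ)) t := by
  unfold Ep
  rw [← integral_comp_polarCoord_symm]
  have htar : polarCoord.target = Ioi (0 : ℝ) ×ˢ Ioo (-Real.pi) Real.pi := rfl
  have hpt : ∀ p : ℝ × ℝ, polarCoord.symm p = (p.1 * Real.cos p.2, p.1 * Real.sin p.2) :=
    fun p => rfl
  set F : ℝ × ℝ → ℂ := fun p => g p.2 * (((p.1 ^ 2 : ℝ) : ℂ) * ex (-(dt X p.2)) t p.1) with hF
  have e1 : ∫ p in polarCoord.target, p.1 • (cexp (-(I * (((polarCoord.symm p).1 * X.1 +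
      (polarCoord.symm p).2 * X.2 : ℝ) : ℂ))) * Fp g t (polarCoord.symm p)) =
      ∫ p in polarCoord.target, F p := by
    apply setIntegral_congr_fun (by rw [htar]; exact measurableSet_Ioi.prod measurableSet_Ioo)
    intro p hp'
    have hp0 : 0 < p.1 := by
      rw [htar] at hp'
      exact hp'.1
    have h2 : (polarCoord (polarCoord.symm p)).2 = p.2 := by
      rw [polarCoord.right_inv hp']
    simp only
    unfold Fp
    rw [h2, hpt, ln_polar hp0.le, Complex.real_smul]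
    simp only [hF]
    have h3 : cexp (-(I * ((p.1 * Real.cos p.2 * X.1 + p.1 * Real.sin p.2 * X.2 : ℝ) : ℂ))) *
        ex 0 t p.1 = ex (-(dt X p.2)) t p.1 := by
      unfold ex
      rw [← Complex.exp_add]
      congr 1
      unfold dt
      push_cast
      ring
    rw [← h3]
    push_cast
    ring
  rw [e1, htar, Measure.volume_eq_prod, ← Measure.prod_restrict]
  have hdm : Measurable fun p : ℝ × ℝ => dt X p.2 := by
    unfold dt
    fun_prop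
  have hexm : Measurable fun p : ℝ × ℝ => ex (-(dt X p.2)) t p.1 := by
    unfold ex
    fun_prop
  have hFi : Integrable F ((volume.restrict (Ioi (0 : ℝ))).prod
      (volume.restrict (Ioo (-Real.pi) Real.pi))) := by
    have h1 : Integrable (fun p : ℝ × ℝ => (2 * Real.exp (-(1 / 2) * p.1 ^ 2)) * B)
        ((volume.restrict (Ioi (0 : ℝ))).prod (volume.restrict (Ioo (-Real.pi) Real.pi))) :=
      (((integrable_exp_neg_mul_sq (b := 1 / 2) (by norm_num)).const_mul 2).restrict).mul_prod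
        (integrable_const B)
    refine h1.mono' ?_ (ae_of_all _ fun p => ?_)
    · apply Measurable.aestronglyMeasurable
      exact (hg.comp measurable_snd).mul
        ((by fun_prop : Measurable fun p : ℝ × ℝ => ((p.1 ^ 2 : ℝ) : ℂ)).mul hexm)
    · simp only [hF]
      rw [norm_mul, norm_mul, ex_norm, norm_real, Real.norm_of_nonneg (sq_nonneg _), mul_comm]
      exact mul_le_mul (sq_exp_le _) (hB _) (norm_nonneg _) (by positivity)
  rw [integral_prod_symm _ hFi]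
  have e2 : ∀ θ : ℝ, ∫ r in Ioi (0 : ℝ), F (r, θ) = g θ * hp (-(dt X θ)) t := by
    intro θ
    simp only [hF]
    unfold hp
    rw [← integral_const_mul]
  simp only [e2]
  rw [← integral_Ioc_eq_integral_Ioo]
  apply setIntegral_eq_integral_of_forall_compl_eq_zero
  intro θ hθ
  rw [hs θ (fun h => hθ (hϑ h)), zero_mul]

lemma hp_bd (u t : ℝ) : ‖hp u t‖ ≤ ∫ r : ℝ, 2 * Real.exp (-(1 / 2) * r ^ 2) := by
  unfold hp
  refine (norm_integral_le_integral_norm _).trans ?_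
  have hi := (integrable_exp_neg_mul_sq (b := 1 / 2) (by norm_num)).const_mul 2
  refine (integral_mono (sq_ex_int u t).norm.integrableOn hi.integrableOn fun r => ?_).trans ?_
  · rw [norm_mul, ex_norm, norm_real, Real.norm_of_nonneg (sq_nonneg _)]
    exact sq_exp_le r
  · apply setIntegral_le_integral hi
    exact ae_of_all _ fun r => by
      simp only [Pi.zero_apply]
      positivity

lemma hp_cont (t : ℝ) : Continuous fun u => hp u t := by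
  unfold hp
  have hi := ((integrable_exp_neg_mul_sq (b := 1 / 2) (by norm_num)).const_mul 2).restrict
    (s := Ioi (0 : ℝ))
  refine continuous_of_dominated (bound := fun r => 2 * Real.exp (-(1 / 2) * r ^ 2)) ?_ ?_ hi ?_
  · intro u
    exact (Continuous.aestronglyMeasurable
      ((by fun_prop : Continuous fun r : ℝ => ((r ^ 2 : ℝ) : ℂ)).mul (ex_cont u t)))
  · intro u
    refine ae_of_all _ fun r => ?_
    rw [norm_mul, ex_norm, norm_real, Real.norm_of_nonneg (sq_nonneg _)]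
    exact sq_exp_le r
  · refine ae_of_all _ fun r => ?_
    unfold ex
    fun_prop

lemma dt_neg (X : ℝ × ℝ) (θ : ℝ) : dt (-X) θ = -(dt X θ) := by
  unfold dt
  simp only [Prod.fst_neg, Prod.snd_neg]
  ring

lemma dt_cont (X : ℝ × ℝ) : Continuous (dt X) := by
  unfold dt
  fun_prop

lemma Hop_Ep (ϑ : ℝ) (hϑ : Sc ϑ ⊆ Ioc (-Real.pi) Real.pi) {g : ℝ → ℂ} (hg : Measurable g) {B : ℝ}
    (hB : ∀ θ, ‖g θ‖ ≤ B) (hs : ∀ θ, θ ∉ Sc ϑ → g θ = 0) (t : ℝ) (X : ℝ × ℝ) :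
    Hop ϑ g X t = Ep g t X + Ep g t (-X) := by
  rw [Ep_polar ϑ hϑ hg hB hs, Ep_polar ϑ hϑ hg hB hs]
  unfold Hop
  rw [Jm_eq ϑ (F := fun θ => g θ * Ph (dt X θ) t) (fun θ hθ => by rw [hs θ hθ, zero_mul])]
  have hint : ∀ Y : ℝ × ℝ, Integrable fun θ => g θ * hp (-(dt Y θ)) t := by
    intro Y
    have hm : Measurable fun θ => g θ * hp (-(dt Y θ)) t := by
      have h1 : Continuous fun θ => hp (-(dt Y θ)) t := (hp_cont t).comp (dt_cont Y).neg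
      exact hg.mul h1.measurable
    have hi : (fun θ => g θ * hp (-(dt Y θ)) t) = (Sc ϑ).indicator
        (fun θ => g θ * hp (-(dt Y θ)) t) := by
      ext θ
      by_cases h : θ ∈ Sc ϑ
      · rw [indicator_of_mem h]
      · rw [indicator_of_notMem h, hs θ h, zero_mul]
    have hSm : MeasurableSet (Sc ϑ) := measurableSet_Ioc
    rw [hi, integrable_indicator_iff hSm]
    refine IntegrableOn.of_bound (C := B * ∫ r : ℝ, 2 * Real.exp (-(1 / 2) * r ^ 2)) ?_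
      hm.aestronglyMeasurable.restrict (ae_of_all _ fun θ => ?_)
    · unfold Sc
      rw [Real.volume_Ioc]
      exact ENNReal.ofReal_lt_top
    · rw [norm_mul]
      exact mul_le_mul (hB θ) (hp_bd _ _) (norm_nonneg _) ((norm_nonneg _).trans (hB 0))
  rw [← integral_add (hint _) (hint _)]
  apply integral_congr_ae
  refine ae_of_all _ fun θ => ?_
  simp only
  rw [Ph_split, dt_neg, neg_neg]
  ring

/-- the constant -/
noncomputable def C2 : ℝ≥0∞ := 4 * (ENNReal.ofReal ((2 * Real.pi) ^ 2) *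
  ∫⁻ r in Ioi (0 : ℝ), ENNReal.ofReal (r * (r * Real.exp (-r ^ 2)) ^ 2))

lemma C2_lt : C2 < ⊤ := by
  unfold C2
  apply ENNReal.mul_lt_top (by norm_num)
  apply ENNReal.mul_lt_top ENNReal.ofReal_lt_top
  have hi := ((integrable_mul_exp_neg_mul_sq (b := 1) one_pos).const_mul 4).integrableOn
    (s := Ioi (0 : ℝ))
  refine lt_of_le_of_lt ?_ hi.2
  apply setLIntegral_mono' measurableSet_Ioi
  intro r hr
  have hr' : (0 : ℝ) < r := hr
  rw [← ofReal_norm]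
  apply ENNReal.ofReal_le_ofReal
  rw [Real.norm_of_nonneg (by positivity)]
  have h1 := abs_exp_le r
  rw [abs_of_pos hr'] at h1
  have h2 : (r * Real.exp (-r ^ 2)) ^ 2 ≤ (2 * Real.exp (-(1 / 2) * r ^ 2)) ^ 2 := by gcongr
  have h3 : (2 * Real.exp (-(1 / 2) * r ^ 2)) ^ 2 = 4 * Real.exp (-1 * r ^ 2) := by
    rw [mul_pow, ← Real.exp_nat_mul]
    norm_num
    ring_nf
  rw [h3] at h2
  calc r * (r * Real.exp (-r ^ 2)) ^ 2 ≤ r * (4 * Real.exp (-1 * r ^ 2)) := by gcongr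
    _ = _ := by ring

lemma Fp_L2 (ϑ : ℝ) (hϑ : Sc ϑ ⊆ Ioc (-Real.pi) Real.pi) {g : ℝ → ℂ} (hg : Measurable g)
    (hs : ∀ θ, θ ∉ Sc ϑ → g θ = 0) (t : ℝ) :
    ∫⁻ ξ : ℝ × ℝ, ‖Fp g t ξ‖ₑ ^ 2 = (∫⁻ r in Ioi (0 : ℝ),
      ENNReal.ofReal (r * (r * Real.exp (-r ^ 2)) ^ 2)) * ∫⁻ θ, ‖g θ‖ₑ ^ 2 ∂(Jm ϑ) := by
  rw [← lintegral_comp_polarCoord_symm]
  have htar : polarCoord.target = Ioi (0 : ℝ) ×ˢ Ioo (-Real.pi) Real.pi := rfl
  have hpt : ∀ p : ℝ × ℝ, polarCoord.symm p = (p.1 * Real.cos p.2, p.1 * Real.sin p.2) :=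
    fun p => rfl
  have e1 : ∫⁻ p in polarCoord.target, ENNReal.ofReal p.1 • ‖Fp g t (polarCoord.symm p)‖ₑ ^ 2 =
      ∫⁻ p in polarCoord.target, ENNReal.ofReal (p.1 * (p.1 * Real.exp (-p.1 ^ 2)) ^ 2) *
        ‖g p.2‖ₑ ^ 2 := by
    apply setLIntegral_congr_fun (by rw [htar]; exact measurableSet_Ioi.prod measurableSet_Ioo)
    intro p hp'
    have hp0 : 0 < p.1 := by
      rw [htar] at hp'
      exact hp'.1
    have h2 : (polarCoord (polarCoord.symm p)).2 = p.2 := by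
      rw [polarCoord.right_inv hp']
    simp only
    unfold Fp
    rw [h2, hpt, ln_polar hp0.le, smul_eq_mul, enorm_mul, mul_pow, ← mul_assoc]
    congr 1
    rw [ENNReal.ofReal_mul hp0.le]
    congr 1
    rw [← ofReal_norm, norm_mul, ex_norm, norm_real, Real.norm_of_nonneg hp0.le,
      ENNReal.ofReal_pow (by positivity)]
  rw [e1, htar, Measure.volume_eq_prod, ← Measure.prod_restrict]
  rw [lintegral_prod_mul (μ := volume.restrict (Ioi (0 : ℝ)))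
    (ν := volume.restrict (Ioo (-Real.pi) Real.pi))
    (f := fun r => ENNReal.ofReal (r * (r * Real.exp (-r ^ 2)) ^ 2)) (g := fun θ => ‖g θ‖ₑ ^ 2)
    (by fun_prop) (by fun_prop)]
  congr 1
  rw [Jm_leq ϑ (F := fun θ => ‖g θ‖ₑ ^ 2) (fun θ hθ => by rw [hs θ hθ]; simp)]
  rw [setLIntegral_congr Ioo_ae_eq_Ioc, ← lintegral_indicator measurableSet_Ioc]
  apply lintegral_congr
  intro θ
  by_cases h : θ ∈ Ioc (-Real.pi) Real.pi
  · rw [indicator_of_mem h]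
  · rw [indicator_of_notMem h, hs θ fun h2 => h (hϑ h2)]
    simp

/-- **The `L²` bound at a fixed time.** -/
theorem Hop_L2 (ϑ : ℝ) (hϑ : Sc ϑ ⊆ Ioc (-Real.pi) Real.pi) {g : ℝ → ℂ} (hg : Measurable g) {B : ℝ}
    (hB : ∀ θ, ‖g θ‖ ≤ B) (hs : ∀ θ, θ ∉ Sc ϑ → g θ = 0) (t : ℝ) :
    ∫⁻ x : ℝ × ℝ, ‖Hop ϑ g x t‖ₑ ^ 2 ≤ C2 * ∫⁻ θ, ‖g θ‖ₑ ^ 2 ∂(Jm ϑ) := by
  have hpl := Pool.Agent.TH277.CP.plancherel2 (Fp g t) (Fp_int hg hB t) (Fp_two hg hB t)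
  have hEm : Measurable fun X : ℝ × ℝ => ‖Ep g t X‖ₑ ^ 2 := by
    have h4 : Measurable (Function.uncurry fun (X : ℝ × ℝ) (ξ : ℝ × ℝ) =>
        cexp (-(I * ((ξ.1 * X.1 + ξ.2 * X.2 : ℝ) : ℂ))) * Fp g t ξ) := by
      apply Measurable.mul
      · fun_prop
      · exact (Fp_meas hg t).comp measurable_snd
    exact (h4.stronglyMeasurable.integral_prod_right (ν := volume)).measurable.enorm.pow_const 2
  have hsq : ∀ x y : ℝ≥0∞, (x + y) ^ 2 ≤ 2 * (x ^ 2 + y ^ 2) := by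
    intro x y
    have h := ENNReal.rpow_add_le_mul_rpow_add_rpow x y (p := 2) (by norm_num)
    have e3 : ∀ x : ℝ≥0∞, x ^ (2 : ℝ) = x ^ 2 := fun x => ENNReal.rpow_natCast x 2
    have e4 : (2 : ℝ≥0∞) ^ ((2 : ℝ) - 1) = 2 := by
      rw [show (2 : ℝ) - 1 = 1 by norm_num, ENNReal.rpow_one]
    rw [e3, e3, e3, e4] at h
    exact h
  calc ∫⁻ x : ℝ × ℝ, ‖Hop ϑ g x t‖ₑ ^ 2
      ≤ ∫⁻ x : ℝ × ℝ, 2 * (‖Ep g t x‖ₑ ^ 2 + ‖Ep g t (-x)‖ₑ ^ 2) := by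
        apply lintegral_mono
        intro x
        simp only
        rw [Hop_Ep ϑ hϑ hg hB hs]
        refine le_trans ?_ (hsq _ _)
        gcongr
        exact enorm_add_le _ _
    _ = 2 * ((∫⁻ x : ℝ × ℝ, ‖Ep g t x‖ₑ ^ 2) + ∫⁻ x : ℝ × ℝ, ‖Ep g t (-x)‖ₑ ^ 2) := by
        rw [lintegral_const_mul' _ _ (by norm_num), lintegral_add_left hEm]
    _ = 4 * ∫⁻ x : ℝ × ℝ, ‖Ep g t x‖ₑ ^ 2 := by
        rw [lintegral_neg_eq_self (fun x : ℝ × ℝ => ‖Ep g t x‖ₑ ^ 2)]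
        ring
    _ = 4 * (ENNReal.ofReal ((2 * Real.pi) ^ 2) * ∫⁻ ξ, ‖Fp g t ξ‖ₑ ^ 2) := by
        rw [← hpl]
        rfl
    _ ≤ _ := by
        rw [Fp_L2 ϑ hϑ hg hs t]
        unfold C2
        apply le_of_eq
        ring

/-- the pointwise bound of the radial integral -/
lemma Ph_bd (u t : ℝ) : ‖Ph u t‖ ≤ 3 * (1 + t ^ 2) ^ (-(1 / 4) : ℝ) := by
  have hh : 0 < 1 + t ^ 2 := by positivity
  have hv : u ^ 2 = 4 * (1 + t ^ 2) * (u ^ 2 / (4 * (1 + t ^ 2)) * 1) := by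
    field_simp
  rw [Ph_eq2 hv]
  set v : ℝ := u ^ 2 / (4 * (1 + t ^ 2)) * 1 with hvd
  have hv0 : 0 ≤ v := by positivity
  have hn : ‖(1 + t * I : ℂ)‖ = (1 + t ^ 2) ^ (1 / 2 : ℝ) := by
    rw [Complex.norm_def, normSq_apply, Real.sqrt_eq_rpow]
    congr 1
    simp
    ring
  have he : ‖cexp (-((v : ℂ) * (1 + t * I)))‖ = Real.exp (-v) := by
    rw [norm_exp]
    congr 1
    simp
  have hve : v * Real.exp (-v) ≤ 1 := by
    have h1 := Real.add_one_le_exp v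
    have h2 : Real.exp v * Real.exp (-v) = 1 := by
      rw [← Real.exp_add]
      simp
    have h3 := Real.exp_pos (-v)
    nlinarith
  have he1 : Real.exp (-v) ≤ 1 := Real.exp_le_one_iff.2 (by linarith)
  have h1 : 1 ≤ (1 + t ^ 2) ^ (1 / 2 : ℝ) := Real.one_le_rpow (by nlinarith [sq_nonneg t]) (by norm_num)
  have h2 : ‖(1 / 2 - (v : ℂ) * (1 + t * I)) * cexp (-((v : ℂ) * (1 + t * I)))‖ ≤
      3 / 2 * (1 + t ^ 2) ^ (1 / 2 : ℝ) := by
    rw [norm_mul, he]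
    calc ‖(1 / 2 - (v : ℂ) * (1 + t * I))‖ * Real.exp (-v)
        ≤ (1 / 2 + v * (1 + t ^ 2) ^ (1 / 2 : ℝ)) * Real.exp (-v) := by
          gcongr
          refine (norm_sub_le _ _).trans ?_
          rw [norm_mul, hn, norm_real, Real.norm_of_nonneg hv0]
          norm_num
      _ = 1 / 2 * Real.exp (-v) + (v * Real.exp (-v)) * (1 + t ^ 2) ^ (1 / 2 : ℝ) := by ring
      _ ≤ 1 / 2 * 1 + 1 * (1 + t ^ 2) ^ (1 / 2 : ℝ) := by gcongr
      _ ≤ _ := by linarith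
  rw [norm_mul, ct_norm]
  have h3 : ‖zt t‖ ^ (-(3 / 2) : ℝ) = (1 + t ^ 2) ^ (-(3 / 4) : ℝ) := by
    rw [zt_norm, Real.sqrt_eq_rpow, ← Real.rpow_mul hh.le]
    norm_num
  have h4 : √Real.pi ≤ 2 := by
    rw [show (2 : ℝ) = √4 by rw [show (4 : ℝ) = 2 ^ 2 by norm_num]; simp]
    exact Real.sqrt_le_sqrt (by linarith [Real.pi_lt_four])
  rw [h3]
  calc √Real.pi * (1 + t ^ 2) ^ (-(3 / 4) : ℝ) *
        ‖(1 / 2 - (v : ℂ) * (1 + t * I)) * cexp (-((v : ℂ) * (1 + t * I)))‖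
      ≤ 2 * (1 + t ^ 2) ^ (-(3 / 4) : ℝ) * (3 / 2 * (1 + t ^ 2) ^ (1 / 2 : ℝ)) := by gcongr
    _ = 3 * ((1 + t ^ 2) ^ (-(3 / 4) : ℝ) * (1 + t ^ 2) ^ (1 / 2 : ℝ)) := by ring
    _ = _ := by
        rw [← Real.rpow_add hh]
        norm_num

/-- **The `L^∞` bound.** -/
lemma Hop_inf (ϑ : ℝ) (g : ℝ → ℂ) (x : ℝ × ℝ) (t : ℝ) :
    ‖Hop ϑ g x t‖ₑ ≤ ENNReal.ofReal (3 * (1 + t ^ 2) ^ (-(1 / 4) : ℝ)) * ∫⁻ θ, ‖g θ‖ₑ ∂(Jm ϑ) := by
  unfold Hop
  refine (enorm_integral_le_lintegral_enorm _).trans ?_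
  rw [← lintegral_const_mul' _ _ ENNReal.ofReal_ne_top]
  apply lintegral_mono
  intro θ
  simp only
  rw [enorm_mul, mul_comm]
  refine mul_le_mul' ?_ le_rfl
  rw [← ofReal_norm]
  exact ENNReal.ofReal_le_ofReal (Ph_bd _ _)

end Pool.Agent.U506.RR
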