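import Mathlib
import Pool.Agent.U506.RR.E1
import Pool.Agent.H438R2.RZ.M1
set_option autoImplicit false

/-! The `L^q` bound at a fixed time. -/

namespace Pool.Agent.U506.RR

open MeasureTheory Set Complex
open scoped ENNReal NNReal

attribute [local irreducible] GG Sf S3

lemma Ph_cont : Continuous fun p : ℝ × ℝ => Ph p.1 p.2 := by
  unfold Ph
  have hi := (integrable_exp_neg_mul_sq (b := 1 / 2) (by norm_num)).const_mul 2
  refine continuous_of_dominated (bound := fun r => 2 * Real.exp (-(1 / 2) * r ^ 2)) ?_ ?_ hi ?_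
  · intro p
    exact (sq_ex_int p.1 p.2).aestronglyMeasurable
  · intro p
    refine ae_of_all _ fun r => ?_
    rw [norm_mul, ex_norm, norm_real, Real.norm_of_nonneg (sq_nonneg _)]
    exact sq_exp_le r
  · refine ae_of_all _ fun r => ?_
    unfold ex zt
    fun_prop

attribute [local irreducible] Ph

/-- joint measurability -/
lemma Hop_meas (ϑ : ℝ) {α : Type*} [MeasurableSpace α] {G : α → ℝ → ℂ}
    (hG : Measurable (Function.uncurry G)) {X : α → ℝ × ℝ} (hX : Measurable X) {T : α → ℝ}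
    (hT : Measurable T) : Measurable fun a => Hop ϑ (G a) (X a) (T a) := by
  unfold Hop
  have h : Measurable (Function.uncurry fun (a : α) (θ : ℝ) => G a θ * Ph (dt (X a) θ) (T a)) := by
    apply Measurable.mul hG
    have h2 : Measurable fun p : α × ℝ => (dt (X p.1) p.2, T p.1) := by
      unfold dt
      fun_prop
    exact Ph_cont.measurable.comp h2
  exact (h.stronglyMeasurable.integral_prod_right (ν := Jm ϑ)).measurable

lemma Hop_int (ϑ : ℝ) {g : ℝ → ℂ} (hg : Measurable g) {B : ℝ} (hB : ∀ θ, ‖g θ‖ ≤ B) (x : ℝ × ℝ)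
    (t : ℝ) : Integrable (fun θ => g θ * Ph (dt x θ) t) (Jm ϑ) := by
  have hm : Measurable fun θ => Ph (dt x θ) t := by
    have h2 : Measurable fun θ : ℝ => (dt x θ, t) := by
      unfold dt
      fun_prop
    exact Ph_cont.measurable.comp h2
  refine Integrable.of_bound (C := B * 3) (hg.mul hm).aestronglyMeasurable (ae_of_all _ fun θ => ?_)
  rw [norm_mul]
  refine mul_le_mul (hB θ) ((Ph_bd _ _).trans ?_) (norm_nonneg _) ((norm_nonneg _).trans (hB 0))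
  have h1 : (1 + t ^ 2) ^ (-(1 / 4) : ℝ) ≤ 1 :=
    Real.rpow_le_one_of_one_le_of_nonpos (by nlinarith [sq_nonneg t]) (by norm_num)
  linarith

lemma Hop_add (ϑ : ℝ) {g h : ℝ → ℂ} (hg : Measurable g) (hh : Measurable h) {B : ℝ}
    (hB : ∀ θ, ‖g θ‖ ≤ B) (hB' : ∀ θ, ‖h θ‖ ≤ B) (x : ℝ × ℝ) (t : ℝ) :
    Hop ϑ (fun θ => g θ + h θ) x t = Hop ϑ g x t + Hop ϑ h x t := by
  unfold Hop
  rw [← integral_add (Hop_int ϑ hg hB x t) (Hop_int ϑ hh hB' x t)]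
  apply integral_congr_ae
  exact ae_of_all _ fun θ => by
    simp only
    ring

lemma Jm_tot (ϑ : ℝ) : Jm ϑ univ = ENNReal.ofReal Real.pi := by
  unfold Jm
  rw [Measure.restrict_apply_univ, Real.volume_Ioc]
  congr 1
  ring

lemma Jm_cs (ϑ : ℝ) {h : ℝ → ℝ≥0∞} (hh : Measurable h) :
    (∫⁻ θ, h θ ∂(Jm ϑ)) ^ 2 ≤ ENNReal.ofReal Real.pi * ∫⁻ θ, h θ ^ 2 ∂(Jm ϑ) := by
  have h1 := wh (μ := Jm ϑ) (w := fun _ => (1 : ℝ≥0∞)) (h := h) aemeasurable_const hh.aemeasurable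
    (p := 2) (by norm_num)
  simp only [one_mul, lintegral_one, Jm_tot] at h1
  have e3 : ∀ x : ℝ≥0∞, x ^ (2 : ℝ) = x ^ 2 := fun x => ENNReal.rpow_natCast x 2
  rw [show (2 : ℝ) - 1 = 1 by norm_num, ENNReal.rpow_one] at h1
  simp only [e3] at h1
  exact h1

/-- the constant for small times -/
noncomputable def C4 : ℝ≥0∞ := 9 * ENNReal.ofReal Real.pi * (C2 * ENNReal.ofReal Real.pi)

lemma C4_lt : C4 < ⊤ := by
  unfold C4
  have := C2_lt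
  apply ENNReal.mul_lt_top
  · exact ENNReal.mul_lt_top (by norm_num) ENNReal.ofReal_lt_top
  · exact ENNReal.mul_lt_top this ENNReal.ofReal_lt_top

lemma Hop_L4_small (ϑ : ℝ) (hϑ : Sc ϑ ⊆ Ioc (-Real.pi) Real.pi) {g : ℝ → ℂ} (hg : Measurable g)
    {B : ℝ} (hB : ∀ θ, ‖g θ‖ ≤ B) (hs : ∀ θ, θ ∉ Sc ϑ → g θ = 0) (t : ℝ) :
    ∫⁻ x : ℝ × ℝ, ‖Hop ϑ g x t‖ₑ ^ 4 ≤ C4 * ∫⁻ θ, ‖g θ‖ₑ ^ 4 ∂(Jm ϑ) := by
  set N1 : ℝ≥0∞ := ∫⁻ θ, ‖g θ‖ₑ ∂(Jm ϑ) with hN1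
  set N2 : ℝ≥0∞ := ∫⁻ θ, ‖g θ‖ₑ ^ 2 ∂(Jm ϑ) with hN2
  set N4 : ℝ≥0∞ := ∫⁻ θ, ‖g θ‖ₑ ^ 4 ∂(Jm ϑ) with hN4
  have hS : ∀ x : ℝ × ℝ, ‖Hop ϑ g x t‖ₑ ≤ 3 * N1 := by
    intro x
    refine (Hop_inf ϑ g x t).trans ?_
    have h1 : (1 + t ^ 2) ^ (-(1 / 4) : ℝ) ≤ 1 :=
      Real.rpow_le_one_of_one_le_of_nonpos (by nlinarith [sq_nonneg t]) (by norm_num)
    have h2 : ENNReal.ofReal (3 * (1 + t ^ 2) ^ (-(1 / 4) : ℝ)) ≤ 3 := by
      rw [show (3 : ℝ≥0∞) = ENNReal.ofReal 3 by simp]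
      exact ENNReal.ofReal_le_ofReal (by linarith)
    gcongr
  have h12 : N1 ^ 2 ≤ ENNReal.ofReal Real.pi * N2 := Jm_cs ϑ hg.enorm
  have h24 : N2 ^ 2 ≤ ENNReal.ofReal Real.pi * N4 := by
    have h := Jm_cs ϑ (h := fun θ => ‖g θ‖ₑ ^ 2) (hg.enorm.pow_const 2)
    simp only [← pow_mul] at h
    exact h
  have hNN : N1 < ⊤ := by
    rw [hN1]
    have h1 : ∫⁻ θ, ‖g θ‖ₑ ∂(Jm ϑ) ≤ ∫⁻ θ, ENNReal.ofReal B ∂(Jm ϑ) := by
      apply lintegral_mono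
      intro θ
      simp only
      rw [← ofReal_norm]
      exact ENNReal.ofReal_le_ofReal (hB θ)
    refine lt_of_le_of_lt h1 ?_
    rw [lintegral_const, Jm_tot]
    exact ENNReal.mul_lt_top ENNReal.ofReal_lt_top ENNReal.ofReal_lt_top
  calc ∫⁻ x : ℝ × ℝ, ‖Hop ϑ g x t‖ₑ ^ 4
      ≤ ∫⁻ x : ℝ × ℝ, (3 * N1) ^ 2 * ‖Hop ϑ g x t‖ₑ ^ 2 := by
        apply lintegral_mono
        intro x
        simp only
        calc ‖Hop ϑ g x t‖ₑ ^ 4 = ‖Hop ϑ g x t‖ₑ ^ 2 * ‖Hop ϑ g x t‖ₑ ^ 2 := by ring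
          _ ≤ _ := by
              gcongr
              exact hS x
    _ = (3 * N1) ^ 2 * ∫⁻ x : ℝ × ℝ, ‖Hop ϑ g x t‖ₑ ^ 2 := by
        rw [lintegral_const_mul' _ _ (ENNReal.pow_ne_top (ENNReal.mul_ne_top (by norm_num) hNN.ne))]
    _ ≤ (3 * N1) ^ 2 * (C2 * N2) := by
        gcongr
        exact Hop_L2 ϑ hϑ hg hB hs t
    _ = 9 * N1 ^ 2 * (C2 * N2) := by ring
    _ ≤ 9 * (ENNReal.ofReal Real.pi * N2) * (C2 * N2) := by gcongr
    _ = 9 * ENNReal.ofReal Real.pi * (C2 * N2 ^ 2) := by ring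
    _ ≤ 9 * ENNReal.ofReal Real.pi * (C2 * (ENNReal.ofReal Real.pi * N4)) := by gcongr
    _ = _ := by
        unfold C4
        ring

/-- `max 1 |t|` -/
noncomputable def Mt (t : ℝ) : ℝ := max 1 |t|

lemma Mt_one (t : ℝ) : 1 ≤ Mt t := le_max_left _ _

lemma Mt_pos (t : ℝ) : 0 < Mt t := lt_of_lt_of_le one_pos (Mt_one t)

lemma Mt_cont : Continuous Mt := by
  unfold Mt
  fun_prop

lemma Hop_L4_all {δ : ℝ} (h0 : 0 < δ) (h1 : δ ≤ 1) (ϑ : ℝ) (hϑ : Sc ϑ ⊆ Ioc (-Real.pi) Real.pi)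
    {g : ℝ → ℂ} (hg : Measurable g) {B : ℝ} (hB : ∀ θ, ‖g θ‖ ≤ B) (hs : ∀ θ, θ ∉ Sc ϑ → g θ = 0)
    (t : ℝ) : ∫⁻ x : ℝ × ℝ, ‖Hop ϑ g x t‖ₑ ^ 4 ≤ (CD δ + C4) *
      ENNReal.ofReal (Mt t ^ (-(2 - δ))) * ∫⁻ θ, ‖g θ‖ₑ ^ 4 ∂(Jm ϑ) := by
  rcases le_total 1 |t| with h | h
  · have e : Mt t = |t| := max_eq_right h
    rw [e]
    refine (Hop_L4 h0 h1 h ϑ hg hB).trans ?_
    gcongr
    exact le_self_add
  · have e : Mt t = 1 := max_eq_left h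
    rw [e, Real.one_rpow, ENNReal.ofReal_one, mul_one]
    refine (Hop_L4_small ϑ hϑ hg hB hs t).trans ?_
    gcongr
    exact le_add_self

/-- **The `L^q` bound at a fixed time.** -/
theorem Hop_Lq {q δ : ℝ} (hq : 2 < q) (hq4 : q < 4) (h0 : 0 < δ) (h1 : δ ≤ 1) :
    ∃ K : ℝ≥0∞, K < ⊤ ∧ ∀ ϑ : ℝ, Sc ϑ ⊆ Ioc (-Real.pi) Real.pi → ∀ g : ℝ → ℂ, Measurable g →
      ∀ B : ℝ, (∀ θ, ‖g θ‖ ≤ B) → (∀ θ, θ ∉ Sc ϑ → g θ = 0) → ∀ t : ℝ,
      ∫⁻ x : ℝ × ℝ, ‖Hop ϑ g x t‖ₑ ^ q ≤ K * ENNReal.ofReal (Mt t ^ (-((2 - δ) / 2 * (q - 2)))) *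
        ∫⁻ θ, ‖g θ‖ₑ ^ q ∂(Jm ϑ) := by
  obtain ⟨C, hC, hM⟩ := Pool.Agent.H438R2.RZ.marc24 q hq hq4
  set A2 : ℝ := C2.toReal + 1 with hA2
  set A4 : ℝ := (CD δ + C4).toReal + 1 with hA4
  have hA2p : 0 < A2 := by positivity
  have hA4p : 0 < A4 := by positivity
  have hC2A : C2 ≤ ENNReal.ofReal A2 := by
    rw [← ENNReal.ofReal_toReal C2_lt.ne]
    exact ENNReal.ofReal_le_ofReal (by linarith)
  have hC4A : CD δ + C4 ≤ ENNReal.ofReal A4 := by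
    rw [← ENNReal.ofReal_toReal (ENNReal.add_lt_top.2 ⟨CD_lt h0 h1, C4_lt⟩).ne]
    exact ENNReal.ofReal_le_ofReal (by linarith)
  refine ⟨ENNReal.ofReal (C * A2 ^ ((4 - q) / 2) * A4 ^ ((q - 2) / 2)), ENNReal.ofReal_lt_top, ?_⟩
  intro ϑ hϑ g hg B hB hs t
  have hMt := Mt_pos t
  have hFm : ∀ g' : ℝ → ℂ, Measurable g' → Measurable fun x : ℝ × ℝ => Hop ϑ g' x t := by
    intro g' hg'
    exact Hop_meas ϑ (G := fun _ => g') (hg'.comp measurable_snd) measurable_id measurable_const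
  have h := hM (Jm ϑ) (volume : Measure (ℝ × ℝ)) (fun x => ‖Hop ϑ g x t‖) (fun θ => ‖g θ‖)
    (hFm g hg).norm hg.norm (fun _ => norm_nonneg _) (fun _ => norm_nonneg _) A2
    (A4 * Mt t ^ (-(2 - δ))) hA2p (by positivity) ?_
  · simp only [ofReal_norm] at h
    refine h.trans (le_of_eq ?_)
    congr 1
    rw [← ENNReal.ofReal_mul (by positivity)]
    congr 1
    rw [Real.mul_rpow hA4p.le (by positivity), ← Real.rpow_mul hMt.le, mul_assoc (C * _)]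
    congr 3
    ring
  · intro s hs0
    have hm1 : MeasurableSet {θ : ℝ | s < ‖g θ‖} := measurableSet_lt measurable_const hg.norm
    have hm2 : MeasurableSet {θ : ℝ | ‖g θ‖ ≤ s} := measurableSet_le hg.norm measurable_const
    set g1 : ℝ → ℂ := {θ : ℝ | s < ‖g θ‖}.indicator g with hg1
    set g2 : ℝ → ℂ := {θ : ℝ | ‖g θ‖ ≤ s}.indicator g with hg2
    have hg1m : Measurable g1 := hg.indicator hm1
    have hg2m : Measurable g2 := hg.indicator hm2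
    have hB1 : ∀ θ, ‖g1 θ‖ ≤ B := fun θ => (norm_indicator_le_norm_self g θ).trans (hB θ)
    have hB2 : ∀ θ, ‖g2 θ‖ ≤ B := fun θ => (norm_indicator_le_norm_self g θ).trans (hB θ)
    have hs1 : ∀ θ, θ ∉ Sc ϑ → g1 θ = 0 := by
      intro θ hθ
      have h3 := norm_indicator_le_norm_self (s := {θ : ℝ | s < ‖g θ‖}) g θ
      rw [hs θ hθ, norm_zero] at h3
      exact norm_le_zero_iff.1 h3
    have hs2 : ∀ θ, θ ∉ Sc ϑ → g2 θ = 0 := by
      intro θ hθ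
      have h3 := norm_indicator_le_norm_self (s := {θ : ℝ | ‖g θ‖ ≤ s}) g θ
      rw [hs θ hθ, norm_zero] at h3
      exact norm_le_zero_iff.1 h3
    refine ⟨fun x => ‖Hop ϑ g1 x t‖ₑ, fun x => ‖Hop ϑ g2 x t‖ₑ, (hFm g1 hg1m).enorm,
      (hFm g2 hg2m).enorm, ae_of_all _ fun x => ?_, ?_, ?_⟩
    · rw [ofReal_norm]
      have hsum : g = fun θ => g1 θ + g2 θ := by
        ext θ
        by_cases h5 : s < ‖g θ‖
        · rw [hg1, hg2, indicator_of_mem (by exact h5), indicator_of_notMem (by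
            simp only [mem_setOf_eq, not_le]
            exact h5), add_zero]
        · rw [hg1, hg2, indicator_of_notMem (by exact h5), indicator_of_mem (by
            simp only [mem_setOf_eq]
            exact not_lt.1 h5), zero_add]
      have h6 : Hop ϑ g x t = Hop ϑ g1 x t + Hop ϑ g2 x t := by
        rw [← Hop_add ϑ hg1m hg2m hB1 hB2 x t, ← hsum]
      rw [h6]
      exact enorm_add_le _ _
    · refine (Hop_L2 ϑ hϑ hg1m hB1 hs1 t).trans ?_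
      refine mul_le_mul' hC2A (le_of_eq ?_)
      rw [← lintegral_indicator hm1]
      apply lintegral_congr
      intro θ
      by_cases h5 : θ ∈ {θ : ℝ | s < ‖g θ‖}
      · rw [hg1, indicator_of_mem h5, indicator_of_mem h5, ofReal_norm]
      · rw [hg1, indicator_of_notMem h5, indicator_of_notMem h5]
        simp
    · refine (Hop_L4_all h0 h1 ϑ hϑ hg2m hB2 hs2 t).trans ?_
      rw [ENNReal.ofReal_mul hA4p.le]
      refine mul_le_mul' (mul_le_mul' hC4A le_rfl) (le_of_eq ?_)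
      rw [← lintegral_indicator hm2]
      apply lintegral_congr
      intro θ
      by_cases h5 : θ ∈ {θ : ℝ | ‖g θ‖ ≤ s}
      · rw [hg2, indicator_of_mem h5, indicator_of_mem h5, ofReal_norm]
      · rw [hg2, indicator_of_notMem h5, indicator_of_notMem h5]
        simp

end Pool.Agent.U506.RR
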