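import Mathlib
import Pool.Agent.U506.RR.E2
set_option autoImplicit false

/-! The cosine as a superposition of the radial integrals. -/

namespace Pool.Agent.U506.RR

open MeasureTheory Set Complex
open scoped ENNReal NNReal

attribute [local irreducible] Ph

/-- the decay of the radial integral -/
lemma Ph_dec (u t : ℝ) : ‖Ph u t‖ ≤ (1 + u ^ 2) * (1 + t ^ 2) ^ (-(3 / 4) : ℝ) := by
  have hh : 0 < 1 + t ^ 2 := by positivity
  have hv : u ^ 2 = 4 * (1 + t ^ 2) * (u ^ 2 / (4 * (1 + t ^ 2)) * 1) := by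
    field_simp
  rw [Ph_eq2 hv]
  set v : ℝ := u ^ 2 / (4 * (1 + t ^ 2)) * 1 with hvd
  have hv0 : 0 ≤ v := by positivity
  have hn : ‖(1 + t * I : ℂ)‖ = (1 + t ^ 2) ^ (1 / 2 : ℝ) := by
    rw [Complex.norm_def, normSq_apply, Real.sqrt_eq_rpow]
    congr 1
    simp
    ring
  have hn2 : ‖(1 + t * I : ℂ)‖ ≤ 1 + t ^ 2 := by
    rw [hn]
    calc (1 + t ^ 2) ^ (1 / 2 : ℝ) ≤ (1 + t ^ 2) ^ (1 : ℝ) :=
          Real.rpow_le_rpow_of_exponent_le (by nlinarith [sq_nonneg t]) (by norm_num)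
      _ = _ := Real.rpow_one _
  have hvn : v * ‖(1 + t * I : ℂ)‖ ≤ u ^ 2 / 4 := by
    calc v * ‖(1 + t * I : ℂ)‖ ≤ v * (1 + t ^ 2) := by gcongr
      _ = u ^ 2 / 4 := by
          rw [hvd]
          field_simp
  have he : ‖cexp (-((v : ℂ) * (1 + t * I)))‖ ≤ 1 := by
    rw [norm_exp]
    apply Real.exp_le_one_iff.2
    simp
    exact hv0
  have h2 : ‖(1 / 2 - (v : ℂ) * (1 + t * I)) * cexp (-((v : ℂ) * (1 + t * I)))‖ ≤
      1 / 2 + u ^ 2 / 4 := by
    rw [norm_mul]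
    calc ‖(1 / 2 - (v : ℂ) * (1 + t * I))‖ * ‖cexp (-((v : ℂ) * (1 + t * I)))‖
        ≤ ‖(1 / 2 - (v : ℂ) * (1 + t * I))‖ * 1 := by gcongr
      _ ≤ _ := by
          rw [mul_one]
          refine (norm_sub_le _ _).trans ?_
          rw [norm_mul, norm_real, Real.norm_of_nonneg hv0]
          have : ‖(1 / 2 : ℂ)‖ = 1 / 2 := by norm_num
          rw [this]
          linarith
  rw [norm_mul, ct_norm]
  have h3 : ‖zt t‖ ^ (-(3 / 2) : ℝ) = (1 + t ^ 2) ^ (-(3 / 4) : ℝ) := by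
    rw [zt_norm, Real.sqrt_eq_rpow, ← Real.rpow_mul hh.le]
    norm_num
  have h4 : √Real.pi ≤ 2 := by
    rw [show (2 : ℝ) = √4 by rw [show (4 : ℝ) = 2 ^ 2 by norm_num]; simp]
    exact Real.sqrt_le_sqrt (by linarith [Real.pi_lt_four])
  rw [h3]
  have h5 : 0 < (1 + t ^ 2) ^ (-(3 / 4) : ℝ) := by positivity
  calc √Real.pi * (1 + t ^ 2) ^ (-(3 / 4) : ℝ) *
        ‖(1 / 2 - (v : ℂ) * (1 + t * I)) * cexp (-((v : ℂ) * (1 + t * I)))‖
      ≤ 2 * (1 + t ^ 2) ^ (-(3 / 4) : ℝ) * (1 / 2 + u ^ 2 / 4) := by gcongr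
    _ = (1 + u ^ 2 / 2) * (1 + t ^ 2) ^ (-(3 / 4) : ℝ) := by ring
    _ ≤ _ := by
        gcongr
        nlinarith [sq_nonneg u]

lemma dec_int : Integrable fun t : ℝ => (1 + t ^ 2) ^ (-(3 / 4) : ℝ) := by
  have h := (integrable_rpow_neg_one_add_norm_sq (E := ℝ) (μ := volume) (r := 3 / 2)
      (by simp; norm_num))
  have h2 : ∀ s : ℝ, (1 + ‖s‖ ^ 2) ^ (-(3 / 2) / 2 : ℝ) = (1 + s ^ 2) ^ (-(3 / 4) : ℝ) := by
    intro s
    rw [Real.norm_eq_abs, sq_abs]
    norm_num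
  simp only [h2] at h
  exact h

lemma Ph_int (u : ℝ) : Integrable fun t : ℝ => Ph u t := by
  have hm : Continuous fun t : ℝ => Ph u t :=
    Ph_cont.comp (by fun_prop : Continuous fun t : ℝ => (u, t))
  exact (dec_int.const_mul (1 + u ^ 2)).mono' hm.aestronglyMeasurable
    (ae_of_all _ fun t => Ph_dec u t)

/-- the function whose transform is `Ph` -/
noncomputable def psi (u s : ℝ) : ℂ := ((√s * Real.exp (-s) * Real.cos (u * √s) : ℝ) : ℂ)

lemma psi_cont (u : ℝ) : Continuous (psi u) := by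
  unfold psi
  fun_prop

lemma psi_neg (u : ℝ) {s : ℝ} (hs : s ≤ 0) : psi u s = 0 := by
  unfold psi
  rw [Real.sqrt_eq_zero_of_nonpos hs]
  simp

lemma psi_int (u : ℝ) : Integrable (psi u) := by
  have h1 : IntegrableOn (psi u) (Iic 0) := by
    refine IntegrableOn.congr_fun (f := fun _ => (0 : ℂ)) integrableOn_zero (fun s hs => ?_)
      measurableSet_Iic
    exact (psi_neg u hs).symm
  have h2 : IntegrableOn (psi u) (Ioi 0) := by
    have h3 : IntegrableOn (fun s : ℝ => Real.exp (-(1 / 2) * s)) (Ioi 0) :=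
      integrableOn_exp_mul_Ioi (a := -(1 / 2)) (by norm_num) 0
    refine Integrable.mono' h3 (psi_cont u).aestronglyMeasurable
      ((ae_restrict_iff' measurableSet_Ioi).2 (ae_of_all _ fun s hs => ?_))
    have hs0 : (0 : ℝ) < s := hs
    unfold psi
    rw [norm_real, norm_mul, norm_mul, Real.norm_of_nonneg (Real.sqrt_nonneg _),
      Real.norm_of_nonneg (Real.exp_pos _).le]
    have h4 : √s ≤ Real.exp (1 / 2 * s) := by
      have h5 : s ≤ Real.exp s := by linarith [Real.add_one_le_exp s]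
      calc √s ≤ √(Real.exp s) := Real.sqrt_le_sqrt h5
        _ = Real.exp (1 / 2 * s) := by
            rw [show Real.exp s = Real.exp (1 / 2 * s) ^ 2 by
              rw [← Real.exp_nat_mul]
              congr 1
              push_cast
              ring]
            exact Real.sqrt_sq (Real.exp_pos _).le
    calc √s * Real.exp (-s) * ‖Real.cos (u * √s)‖ ≤ Real.exp (1 / 2 * s) * Real.exp (-s) * 1 := by
          gcongr
          exact Real.abs_cos_le_one _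
      _ = _ := by
          rw [mul_one, ← Real.exp_add]
          congr 1
          ring
  rw [← integrableOn_univ, ← Iic_union_Ioi (a := (0 : ℝ))]
  exact h1.union h2

lemma psi_ft (u σ : ℝ) : Ph u (-σ) = ∫ v : ℝ, cexp (-(I * σ * v)) * psi u v := by
  have h1 : ∫ v : ℝ, cexp (-(I * σ * v)) * psi u v =
      ∫ v in Ioi (0 : ℝ), cexp (-(I * σ * v)) * psi u v := by
    symm
    apply setIntegral_eq_integral_of_forall_compl_eq_zero
    intro v hv
    rw [psi_neg u (not_lt.1 hv), mul_zero]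
  rw [h1, ← integral_comp_rpow_Ioi_of_pos (p := 2) (by norm_num), Ph_split]
  have hi : ∀ w : ℝ, IntegrableOn (fun r : ℝ => ((r ^ 2 : ℝ) : ℂ) * ex w (-σ) r) (Ioi 0) :=
    fun w => (sq_ex_int w (-σ)).integrableOn
  unfold hp
  rw [← integral_add (hi u) (hi (-u))]
  apply setIntegral_congr_fun measurableSet_Ioi
  intro r hr
  have hr0 : (0 : ℝ) < r := hr
  simp only
  rw [show (2 : ℝ) - 1 = 1 by norm_num, Real.rpow_one, Real.rpow_two]
  unfold psi ex zt
  rw [Real.sqrt_sq hr0.le, Complex.real_smul]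
  push_cast
  rw [Complex.cos]
  have e1 : cexp (-(1 - -(σ : ℂ) * I) * (r : ℂ) ^ 2 + (u : ℂ) * I * r + 0) =
      cexp (-(I * σ * (r : ℂ) ^ 2)) * cexp (-(r : ℂ) ^ 2) * cexp ((u : ℂ) * r * I) := by
    rw [← Complex.exp_add, ← Complex.exp_add]
    congr 1
    ring
  have e2 : cexp (-(1 - -(σ : ℂ) * I) * (r : ℂ) ^ 2 + -(u : ℂ) * I * r + 0) =
      cexp (-(I * σ * (r : ℂ) ^ 2)) * cexp (-(r : ℂ) ^ 2) * cexp (-((u : ℂ) * r) * I) := by
    rw [← Complex.exp_add, ← Complex.exp_add]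
    congr 1
    ring
  rw [e1, e2]
  ring

/-- **The cosine as a superposition.** -/
lemma cos_sup (u : ℝ) {r : ℝ} (hr : 0 ≤ r) :
    ((r * Real.exp (-r ^ 2) * Real.cos (u * r) : ℝ) : ℂ) =
      ((2 * Real.pi)⁻¹ : ℝ) * ∫ τ : ℝ, cexp (-(I * τ * ((r ^ 2 : ℝ) : ℂ))) * Ph u τ := by
  have h := inv1 (psi_cont u) (psi_int u) (F := fun σ => Ph u (-σ)) (psi_ft u) (Ph_int u).comp_neg
    (r ^ 2)
  have e1 : psi u (r ^ 2) = ((r * Real.exp (-r ^ 2) * Real.cos (u * r) : ℝ) : ℂ) := by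
    unfold psi
    rw [Real.sqrt_sq hr]
  rw [← e1, h]
  congr 1
  rw [← integral_neg_eq_self]
  apply integral_congr_ae
  refine ae_of_all _ fun σ => ?_
  simp only [neg_neg]
  congr 2
  push_cast
  ring

end Pool.Agent.U506.RR
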