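import Mathlib
import Pool.Agent.U506.RR.F1
set_option autoImplicit false

/-! The symmetrized annular piece as a superposition of the fixed-time operators. -/

namespace Pool.Agent.U506.RR

open MeasureTheory Set Complex
open scoped ENNReal NNReal

attribute [local irreducible] Ph

/-- the annulus in the radial variable -/
def Jr : Set ℝ := Ioc (1 / 2) 1

lemma Jr_meas : MeasurableSet Jr := measurableSet_Ioc

/-- the phase in polar coordinates -/
noncomputable def pe (x : ℝ × ℝ) (t r θ : ℝ) : ℂ :=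
  cexp (I * ((r * dt x θ + t * r ^ 2 : ℝ) : ℂ))

/-- the extension of an annular piece -/
noncomputable def Pp (ϑ : ℝ) (f : ℝ → ℝ → ℂ) (x : ℝ × ℝ) (t : ℝ) : ℂ :=
  ∫ θ, (∫ r in Jr, f r θ * (r * pe x t r θ)) ∂(Jm ϑ)

/-- the exponential -/
noncomputable def er (σ r : ℝ) : ℂ := cexp ((1 - I * σ) * ((r ^ 2 : ℝ) : ℂ))

/-- the radial transform -/
noncomputable def Fs (f : ℝ → ℝ → ℂ) (σ θ : ℝ) : ℂ := ∫ r in Jr, f r θ * er σ r

lemma pe_norm (x : ℝ × ℝ) (t r θ : ℝ) : ‖pe x t r θ‖ = 1 := by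
  unfold pe
  rw [mul_comm, norm_exp_ofReal_mul_I]

lemma er_norm (σ r : ℝ) : ‖er σ r‖ = Real.exp (r ^ 2) := by
  unfold er
  rw [norm_exp]
  congr 1
  simp only [mul_re, sub_re, one_re, I_re, zero_mul, ofReal_im, mul_zero, sub_zero, ofReal_re,
    sub_im, one_im, mul_im, I_im, one_mul, zero_add]

lemma pe_meas : Measurable fun q : (ℝ × ℝ) × ℝ × ℝ × ℝ => pe q.1 q.2.1 q.2.2.1 q.2.2.2 := by
  unfold pe dt
  fun_prop

lemma er_cont : Continuous fun q : ℝ × ℝ => er q.1 q.2 := by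
  unfold er
  fun_prop

lemma er_le {r : ℝ} (hr : r ∈ Jr) (σ : ℝ) : ‖er σ r‖ ≤ 3 := by
  rw [er_norm]
  have h1 : r ^ 2 ≤ 1 := by
    have := hr.1
    have := hr.2
    nlinarith
  calc Real.exp (r ^ 2) ≤ Real.exp 1 := Real.exp_le_exp.2 h1
    _ ≤ 3 := by linarith [Real.exp_one_lt_d9]

lemma vol_Jr : volume Jr = ENNReal.ofReal (1 / 2) := by
  unfold Jr
  rw [Real.volume_Ioc]
  norm_num

instance : IsFiniteMeasure (volume.restrict Jr) := by
  constructor
  rw [Measure.restrict_apply_univ, vol_Jr]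
  exact ENNReal.ofReal_lt_top

lemma Fs_meas {f : ℝ → ℝ → ℂ} (hf : Measurable (Function.uncurry f)) :
    Measurable (Function.uncurry (Fs f)) := by
  have h : Measurable (Function.uncurry fun (p : ℝ × ℝ) (r : ℝ) => f r p.2 * er p.1 r) := by
    apply Measurable.mul
    · exact hf.comp (by fun_prop : Measurable fun q : (ℝ × ℝ) × ℝ => (q.2, q.1.2))
    · exact er_cont.measurable.comp (by fun_prop : Measurable fun q : (ℝ × ℝ) × ℝ => (q.1.1, q.2))
  exact (h.stronglyMeasurable.integral_prod_right (ν := volume.restrict Jr)).measurable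

lemma Fs_bd {f : ℝ → ℝ → ℂ} {B : ℝ} (hB : ∀ r θ, ‖f r θ‖ ≤ B) (σ θ : ℝ) :
    ‖Fs f σ θ‖ ≤ B * 3 := by
  unfold Fs
  have h := norm_setIntegral_le_of_norm_le_const (μ := volume) (s := Jr) (C := B * 3)
    (f := fun r => f r θ * er σ r) (by rw [vol_Jr]; exact ENNReal.ofReal_lt_top) (fun r hr => by
      rw [norm_mul]
      exact mul_le_mul (hB r θ) (er_le hr σ) (norm_nonneg _) ((norm_nonneg _).trans (hB 0 0)))
  refine h.trans ?_
  rw [Measure.real, vol_Jr, ENNReal.toReal_ofReal (by norm_num)]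
  have : 0 ≤ B := (norm_nonneg _).trans (hB 0 0)
  linarith

lemma Pp_inner_int (ϑ : ℝ) {f : ℝ → ℝ → ℂ} (hf : Measurable (Function.uncurry f)) {B : ℝ}
    (hB : ∀ r θ, ‖f r θ‖ ≤ B) (x : ℝ × ℝ) (t : ℝ) :
    Integrable (fun p : ℝ × ℝ => f p.2 p.1 * (p.2 * pe x t p.2 p.1))
      ((Jm ϑ).prod (volume.restrict Jr)) := by
  have hm : Measurable fun p : ℝ × ℝ => f p.2 p.1 * (p.2 * pe x t p.2 p.1) := by
    apply Measurable.mul
    · exact hf.comp measurable_swap
    · apply Measurable.mul (by fun_prop)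
      exact pe_meas.comp (by fun_prop : Measurable fun p : ℝ × ℝ => (x, t, p.2, p.1))
  have hres : (Jm ϑ).prod (volume.restrict Jr) =
      (volume.prod volume).restrict (Ioc (ϑ - Real.pi / 2) (ϑ + Real.pi / 2) ×ˢ Jr) := by
    unfold Jm
    rw [Measure.prod_restrict]
  refine Integrable.of_bound (C := B * 1) hm.aestronglyMeasurable ?_
  rw [hres]
  refine (ae_restrict_iff' (measurableSet_Ioc.prod Jr_meas)).2 (ae_of_all _ fun p hp => ?_)
  rw [norm_mul, norm_mul, pe_norm, mul_one, norm_real, Real.norm_of_nonneg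
    (by linarith [hp.2.1] : (0 : ℝ) ≤ p.2)]
  exact mul_le_mul (hB _ _) hp.2.2 (by linarith [hp.2.1]) ((norm_nonneg _).trans (hB 0 0))

lemma Pp_prod (ϑ : ℝ) {f : ℝ → ℝ → ℂ} (hf : Measurable (Function.uncurry f)) {B : ℝ}
    (hB : ∀ r θ, ‖f r θ‖ ≤ B) (x : ℝ × ℝ) (t : ℝ) :
    Pp ϑ f x t = ∫ p : ℝ × ℝ, f p.2 p.1 * (p.2 * pe x t p.2 p.1)
      ∂((Jm ϑ).prod (volume.restrict Jr)) := by
  rw [integral_prod _ (Pp_inner_int ϑ hf hB x t)]
  rfl

lemma dt_le (x : ℝ × ℝ) (θ : ℝ) : dt x θ ^ 2 ≤ 2 * (x.1 ^ 2 + x.2 ^ 2) := by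
  unfold dt
  have h1 := Real.sin_sq_add_cos_sq θ
  nlinarith [sq_nonneg (x.1 * Real.sin θ - x.2 * Real.cos θ), sq_nonneg x.1, sq_nonneg x.2]

/-- **The symmetrized piece as a superposition.** -/
theorem Pp_sup (ϑ : ℝ) {f : ℝ → ℝ → ℂ} (hf : Measurable (Function.uncurry f)) {B : ℝ}
    (hB : ∀ r θ, ‖f r θ‖ ≤ B) (x : ℝ × ℝ) (t : ℝ) :
    Pp ϑ f x t + Pp ϑ f (-x) t = ((Real.pi)⁻¹ : ℝ) * ∫ σ : ℝ, Hop ϑ (Fs f σ) x (t + σ) := by
  set μ : Measure (ℝ × ℝ) := (Jm ϑ).prod (volume.restrict Jr) with hμ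
  set G : ℝ → ℝ × ℝ → ℂ := fun σ p => f p.2 p.1 * er σ p.2 * Ph (dt x p.1) (t + σ) with hG
  have hPm : Measurable fun p : ℝ × ℝ => Ph p.1 p.2 := Ph_cont.measurable
  have hB0 : 0 ≤ B := (norm_nonneg _).trans (hB 0 0)
  have hGm : Measurable (Function.uncurry G) := by
    apply Measurable.mul
    · apply Measurable.mul
      · exact hf.comp (by fun_prop : Measurable fun q : ℝ × ℝ × ℝ => (q.2.2, q.2.1))
      · exact er_cont.measurable.comp (by fun_prop : Measurable fun q : ℝ × ℝ × ℝ => (q.1, q.2.2))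
    · have : Measurable fun q : ℝ × ℝ × ℝ => (dt x q.2.1, t + q.1) := by
        unfold dt
        fun_prop
      exact hPm.comp this
  have hres : (Jm ϑ).prod (volume.restrict Jr) =
      (volume.prod volume).restrict (Ioc (ϑ - Real.pi / 2) (ϑ + Real.pi / 2) ×ˢ Jr) := by
    unfold Jm
    rw [Measure.prod_restrict]
  have hsh : Integrable fun σ : ℝ => (1 + (t + σ) ^ 2) ^ (-(3 / 4) : ℝ) := dec_int.comp_add_left t
  have hGi : Integrable (Function.uncurry G) (volume.prod μ) := by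
    have h1 : Integrable (fun q : ℝ × ℝ × ℝ => (1 + (t + q.1) ^ 2) ^ (-(3 / 4) : ℝ) *
        (B * 3 * (1 + 2 * (x.1 ^ 2 + x.2 ^ 2)))) (volume.prod μ) :=
      hsh.mul_prod (integrable_const _)
    refine h1.mono' hGm.aestronglyMeasurable ?_
    have h2 : ∀ᵐ p ∂μ, p.2 ∈ Jr := by
      rw [hμ, hres]
      exact (ae_restrict_iff' (measurableSet_Ioc.prod Jr_meas)).2 (ae_of_all _ fun p hp => hp.2)
    have h3 : ∀ᵐ q ∂((volume : Measure ℝ).prod μ), q.2.2 ∈ Jr :=
      Measure.quasiMeasurePreserving_snd.ae h2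
    filter_upwards [h3] with q hq
    simp only [Function.uncurry, hG]
    rw [norm_mul, norm_mul, mul_comm]
    refine mul_le_mul ((Ph_dec _ _).trans ?_) ?_ (by positivity) (by positivity) |>.trans
      (le_of_eq (b := (1 + 2 * (x.1 ^ 2 + x.2 ^ 2)) * (1 + (t + q.1) ^ 2) ^ (-(3 / 4) : ℝ) *
        (B * 3)) rfl) |>.trans (le_of_eq (by ring))
    · gcongr
      exact dt_le x _
    · exact mul_le_mul (hB _ _) (er_le hq _) (norm_nonneg _) hB0
  have e1 : ∀ σ : ℝ, Hop ϑ (Fs f σ) x (t + σ) = ∫ p, G σ p ∂μ := by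
    intro σ
    have hGs : Integrable (fun p => G σ p) μ := by
      have hm : Measurable fun p => G σ p := hGm.comp measurable_prodMk_left
      refine Integrable.of_bound (C := B * 3 * 3) hm.aestronglyMeasurable ?_
      have h2 : ∀ᵐ p ∂μ, p.2 ∈ Jr := by
        rw [hμ, hres]
        exact (ae_restrict_iff' (measurableSet_Ioc.prod Jr_meas)).2 (ae_of_all _ fun p hp => hp.2)
      filter_upwards [h2] with p hp
      simp only [hG]
      rw [norm_mul, norm_mul]
      refine mul_le_mul (mul_le_mul (hB _ _) (er_le hp _) (norm_nonneg _) hB0)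
        ((Ph_bd _ _).trans ?_) (norm_nonneg _) (by positivity)
      have h1 : (1 + (t + σ) ^ 2) ^ (-(1 / 4) : ℝ) ≤ 1 :=
        Real.rpow_le_one_of_one_le_of_nonpos (by nlinarith [sq_nonneg (t + σ)]) (by norm_num)
      linarith
    rw [hμ, integral_prod _ hGs]
    unfold Hop
    apply integral_congr_ae
    refine ae_of_all _ fun θ => ?_
    simp only [hG]
    rw [integral_mul_const]
    rfl
  have e2 : ∀ᵐ p ∂μ, ((Real.pi)⁻¹ : ℝ) * ∫ σ, G σ p =
      f p.2 p.1 * (p.2 * pe x t p.2 p.1) + f p.2 p.1 * (p.2 * pe (-x) t p.2 p.1) := by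
    have h2 : ∀ᵐ p ∂μ, p.2 ∈ Jr := by
      rw [hμ, hres]
      exact (ae_restrict_iff' (measurableSet_Ioc.prod Jr_meas)).2 (ae_of_all _ fun p hp => hp.2)
    filter_upwards [h2] with p hp
    set r : ℝ := p.2 with hr
    have hr0 : 0 ≤ r := by linarith [hp.1]
    have hc := cos_sup (dt x p.1) hr0
    set A : ℂ := ∫ τ : ℝ, cexp (-(I * τ * ((r ^ 2 : ℝ) : ℂ))) * Ph (dt x p.1) τ with hA
    have e3 : ∫ σ, G σ p = f r p.1 * (cexp ((1 + I * t) * ((r ^ 2 : ℝ) : ℂ)) * A) := by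
      rw [hA, ← integral_add_left_eq_self (μ := (volume : Measure ℝ))
        (fun τ : ℝ => cexp (-(I * τ * ((r ^ 2 : ℝ) : ℂ))) * Ph (dt x p.1) τ) t,
        ← integral_const_mul, ← integral_const_mul]
      apply integral_congr_ae
      refine ae_of_all _ fun σ => ?_
      simp only [hG]
      rw [← hr]
      have : er σ r = cexp ((1 + I * t) * ((r ^ 2 : ℝ) : ℂ)) *
          cexp (-(I * ((t + σ : ℝ) : ℂ) * ((r ^ 2 : ℝ) : ℂ))) := by
        unfold er
        rw [← Complex.exp_add]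
        congr 1
        push_cast
        ring
      rw [this]
      ring
    rw [e3]
    have hpi : (Real.pi : ℂ) ≠ 0 := by exact_mod_cast Real.pi_ne_zero
    have hA2 : A = 2 * Real.pi * ((r * Real.exp (-r ^ 2) * Real.cos (dt x p.1 * r) : ℝ) : ℂ) := by
      rw [hc]
      push_cast
      field_simp
    rw [hA2]
    have e4 : cexp ((1 + I * t) * ((r ^ 2 : ℝ) : ℂ)) * ((Real.exp (-r ^ 2) : ℝ) : ℂ) =
        cexp (I * ((t * r ^ 2 : ℝ) : ℂ)) := by
      rw [ofReal_exp, ← Complex.exp_add]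
      congr 1
      push_cast
      ring
    have e5 : pe x t r p.1 = cexp (I * ((t * r ^ 2 : ℝ) : ℂ)) *
        cexp ((dt x p.1 * r : ℂ) * I) := by
      unfold pe
      rw [← Complex.exp_add]
      congr 1
      push_cast
      ring
    have e6 : pe (-x) t r p.1 = cexp (I * ((t * r ^ 2 : ℝ) : ℂ)) *
        cexp (-(dt x p.1 * r : ℂ) * I) := by
      unfold pe
      rw [← Complex.exp_add, dt_neg]
      congr 1
      push_cast
      ring
    rw [e5, e6, ← e4]
    have e7 : ((Real.cos (dt x p.1 * r) : ℝ) : ℂ) = (cexp ((dt x p.1 * r : ℂ) * I) +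
        cexp (-(dt x p.1 * r : ℂ) * I)) / 2 := by
      rw [ofReal_cos, Complex.cos]
      push_cast
      rfl
    rw [ofReal_mul, ofReal_mul, e7]
    push_cast
    field_simp
  rw [Pp_prod ϑ hf hB, Pp_prod ϑ hf hB, ← integral_add (Pp_inner_int ϑ hf hB x t)
    (Pp_inner_int ϑ hf hB (-x) t)]
  simp only [e1]
  rw [integral_integral_swap hGi, ← integral_const_mul]
  exact (integral_congr_ae e2).symm

end Pool.Agent.U506.RR
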