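import Mathlib
import Pool.Agent.U506.RR.F2
set_option autoImplicit false

/-! Oscillatory integrals of functions of bounded variation. -/

namespace Pool.Agent.U506.RR

open MeasureTheory Set Complex
open scoped ENNReal NNReal

/-- a kernel whose integrals over the intervals are bounded -/
structure KB (k : ℝ → ℂ) (K : ℝ) : Prop where
  meas : Measurable k
  bdd : ∀ r ∈ Jr, ‖k r‖ ≤ 3
  int : ∀ a b : ℝ, 1 / 2 ≤ a → a ≤ b → b ≤ 1 → ‖∫ r in Ioc a b, k r‖ ≤ K

lemma KB.nonneg {k : ℝ → ℂ} {K : ℝ} (hk : KB k K) : 0 ≤ K :=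
  (norm_nonneg _).trans (hk.int (1 / 2) 1 le_rfl (by norm_num) le_rfl)

lemma KB.integrable {k : ℝ → ℂ} {K : ℝ} (hk : KB k K) : IntegrableOn k Jr :=
  IntegrableOn.of_bound (C := 3) (by rw [vol_Jr]; exact ENNReal.ofReal_lt_top)
    hk.meas.aestronglyMeasurable.restrict
    ((ae_restrict_iff' Jr_meas).2 (ae_of_all _ fun r hr => hk.bdd r hr))

lemma KB.up {k : ℝ → ℂ} {K : ℝ} (hk : KB k K) {U : Set ℝ}
    (hU : ∀ r ∈ Jr ∩ U, ∀ r' ∈ Jr, r ≤ r' → r' ∈ U) : ‖∫ r in Jr ∩ U, k r‖ ≤ K := by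
  by_cases hne : (Jr ∩ U).Nonempty
  · set c : ℝ := sInf (Jr ∩ U) with hc
    have hbb : BddBelow (Jr ∩ U) := ⟨1 / 2, fun r hr => hr.1.1.le⟩
    have hc1 : 1 / 2 ≤ c := le_csInf hne fun r hr => hr.1.1.le
    have hc2 : c ≤ 1 := by
      obtain ⟨r, hr⟩ := hne
      exact (csInf_le hbb hr).trans hr.1.2
    have hae : (Jr ∩ U : Set ℝ) =ᵐ[volume] Ioc c 1 := by
      have hne2 : ∀ᵐ r : ℝ ∂volume, r ≠ c := by
        rw [ae_iff]
        simp
      filter_upwards [hne2] with r hr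
      apply propext
      constructor
      · intro h
        exact ⟨lt_of_le_of_ne (csInf_le hbb h) (Ne.symm hr), h.1.2⟩
      · intro h
        obtain ⟨u, hu, hur⟩ := exists_lt_of_csInf_lt hne h.1
        have hrJ : r ∈ Jr := ⟨lt_of_le_of_lt hc1 h.1, h.2⟩
        exact ⟨hrJ, hU u hu r hrJ hur.le⟩
    rw [setIntegral_congr_set hae]
    exact hk.int c 1 hc1 hc2 le_rfl
  · rw [not_nonempty_iff_eq_empty.1 hne]
    simp only [Measure.restrict_empty, integral_zero_measure, norm_zero]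
    exact hk.nonneg

lemma KB.mono {k : ℝ → ℂ} {K : ℝ} (hk : KB k K) {P : ℝ → ℝ} (hP : MonotoneOn P Jr)
    (h0 : ∀ v ∈ Jr, 0 ≤ P v) (h1 : ∀ v ∈ Jr, P v ≤ 1) : ‖∫ r in Jr, (P r : ℂ) * k r‖ ≤ K := by
  obtain ⟨g, hg, hge⟩ := hP.exists_monotone_extension
    ⟨0, by rintro _ ⟨v, hv, rfl⟩; exact h0 v hv⟩ ⟨1, by rintro _ ⟨v, hv, rfl⟩; exact h1 v hv⟩
  have e1 : ∫ r in Jr, (P r : ℂ) * k r = ∫ r in Jr, (g r : ℂ) * k r := by
    apply setIntegral_congr_fun Jr_meas
    intro r hr
    simp only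
    rw [hge hr]
  rw [e1]
  set W : ℝ → ℝ → ℂ := fun r s => {p : ℝ × ℝ | p.2 ≤ g p.1}.indicator (fun p => k p.1) (r, s) with hW
  have hms : MeasurableSet {p : ℝ × ℝ | p.2 ≤ g p.1} :=
    measurableSet_le measurable_snd (hg.measurable.comp measurable_fst)
  have hWm : Measurable (Function.uncurry W) := (hk.meas.comp measurable_fst).indicator hms
  have hWi : Integrable (Function.uncurry W)
      ((volume.restrict Jr).prod (volume.restrict (Ioc (0 : ℝ) 1))) := by
    refine Integrable.of_bound (C := 3) hWm.aestronglyMeasurable ?_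
    have h2 : ∀ᵐ q ∂((volume.restrict Jr).prod (volume.restrict (Ioc (0 : ℝ) 1))), q.1 ∈ Jr :=
      Measure.quasiMeasurePreserving_fst.ae (ae_restrict_mem Jr_meas)
    filter_upwards [h2] with q hq
    have h5 := norm_indicator_le_norm_self (s := {p : ℝ × ℝ | p.2 ≤ g p.1})
      (fun p : ℝ × ℝ => k p.1) q
    exact le_trans h5 (hk.bdd _ hq)
  have e2 : ∀ r ∈ Jr, ∫ s in Ioc (0 : ℝ) 1, W r s = (g r : ℂ) * k r := by
    intro r hr
    have hg0 : 0 ≤ g r := by
      rw [← hge hr]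
      exact h0 r hr
    have hg1 : g r ≤ 1 := by
      rw [← hge hr]
      exact h1 r hr
    have e3 : ∀ s, W r s = (Iic (g r)).indicator (fun _ => k r) s := by
      intro s
      simp only [hW, indicator_apply, mem_setOf_eq, mem_Iic]
    simp only [e3]
    rw [setIntegral_indicator measurableSet_Iic]
    have e4 : Ioc (0 : ℝ) 1 ∩ Iic (g r) = Ioc 0 (g r) := by
      ext s
      constructor
      · intro h
        exact ⟨h.1.1, h.2⟩
      · intro h
        exact ⟨⟨h.1, h.2.trans hg1⟩, h.2⟩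
    rw [e4, setIntegral_const, Measure.real, Real.volume_Ioc, sub_zero,
      ENNReal.toReal_ofReal hg0, Complex.real_smul]
  have e5 : ∫ r in Jr, (g r : ℂ) * k r = ∫ r in Jr, ∫ s in Ioc (0 : ℝ) 1, W r s := by
    apply setIntegral_congr_fun Jr_meas
    intro r hr
    exact (e2 r hr).symm
  rw [e5, integral_integral_swap hWi]
  have h3 := norm_setIntegral_le_of_norm_le_const (μ := volume) (s := Ioc (0 : ℝ) 1) (C := K)
    (f := fun s => ∫ r in Jr, W r s) (by rw [Real.volume_Ioc]; exact ENNReal.ofReal_lt_top)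
    (fun s _ => ?_)
  · refine h3.trans (le_of_eq ?_)
    rw [Measure.real, Real.volume_Ioc]
    simp
  · have e6 : ∀ r, W r s = {r | s ≤ g r}.indicator k r := by
      intro r
      simp only [hW, indicator_apply, mem_setOf_eq]
    simp only [e6]
    have hms2 : MeasurableSet {r | s ≤ g r} := measurableSet_le measurable_const hg.measurable
    rw [setIntegral_indicator hms2]
    apply hk.up
    intro r hr r' _ hrr
    exact le_trans hr.2 (hg hrr)

lemma KB.real {k : ℝ → ℂ} {K : ℝ} (hk : KB k K) {h : ℝ → ℝ} {V : ℝ} (hV : 0 < V)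
    (hb : ∀ v ∈ Jr, |h v| ≤ V) (hv : eVariationOn h Jr ≤ ENNReal.ofReal V) :
    ‖∫ r in Jr, (h r : ℂ) * k r‖ ≤ 5 * K * V := by
  have hbv : BoundedVariationOn h Jr := ne_top_of_le_ne_top ENNReal.ofReal_ne_top hv
  have hl := hbv.locallyBoundedVariationOn
  have h1J : (1 : ℝ) ∈ Jr := ⟨by norm_num, le_rfl⟩
  set p : ℝ → ℝ := variationOnFromTo h Jr 1 with hp
  have hpm : MonotoneOn p Jr := variationOnFromTo.monotoneOn hl h1J
  have hqm : MonotoneOn (p - h) Jr := variationOnFromTo.sub_self_monotoneOn hl h1J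
  have hp0 : ∀ v ∈ Jr, p v ≤ 0 := fun v hv => by
    rw [hp, variationOnFromTo.eq_of_ge h Jr hv.2]
    have : 0 ≤ (eVariationOn h (Jr ∩ Icc v 1)).toReal := ENNReal.toReal_nonneg
    linarith
  have hp1 : ∀ v ∈ Jr, -V ≤ p v := by
    intro v hv'
    rw [hp, variationOnFromTo.eq_of_ge h Jr hv'.2]
    have h1 : eVariationOn h (Jr ∩ Icc v 1) ≤ ENNReal.ofReal V :=
      (eVariationOn.mono h inter_subset_left).trans hv
    have := ENNReal.toReal_mono ENNReal.ofReal_ne_top h1
    rw [ENNReal.toReal_ofReal hV.le] at this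
    linarith
  set P1 : ℝ → ℝ := fun v => (p v + V) / V with hP1
  set P2 : ℝ → ℝ := fun v => (p v - h v + 2 * V) / (3 * V) with hP2
  have m1 : MonotoneOn P1 Jr := by
    intro v hv w hw hvw
    have := hpm hv hw hvw
    rw [hP1]
    simp only
    gcongr
  have m2 : MonotoneOn P2 Jr := by
    intro v hv w hw hvw
    have := hqm hv hw hvw
    simp only [Pi.sub_apply] at this
    rw [hP2]
    simp only
    gcongr
  have a1 : ∀ v ∈ Jr, 0 ≤ P1 v := fun v hv => by
    have := hp1 v hv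
    exact div_nonneg (by linarith) hV.le
  have b1 : ∀ v ∈ Jr, P1 v ≤ 1 := fun v hv => by
    have := hp0 v hv
    rw [hP1]
    simp only
    rw [div_le_one hV]
    linarith
  have a2 : ∀ v ∈ Jr, 0 ≤ P2 v := fun v hv => by
    have := hp1 v hv
    have h2 := abs_le.1 (hb v hv)
    exact div_nonneg (by linarith [h2.2]) (by linarith)
  have b2 : ∀ v ∈ Jr, P2 v ≤ 1 := fun v hv => by
    have := hp0 v hv
    have h2 := abs_le.1 (hb v hv)
    rw [hP2]
    simp only
    rw [div_le_one (by linarith)]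
    linarith [h2.1]
  have c1 := hk.mono m1 a1 b1
  have c2 := hk.mono m2 a2 b2
  have c3 := hk.int (1 / 2) 1 le_rfl (by norm_num) le_rfl
  have im : ∀ {P : ℝ → ℝ}, MonotoneOn P Jr → (∀ v ∈ Jr, 0 ≤ P v) → (∀ v ∈ Jr, P v ≤ 1) →
      IntegrableOn (fun r => (P r : ℂ) * k r) Jr := by
    intro P hm ha hb'
    refine Integrable.mono (hk.integrable) ?_ ?_
    · exact ((aemeasurable_restrict_of_monotoneOn Jr_meas hm).complex_ofReal.mul
        hk.meas.aemeasurable).aestronglyMeasurable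
    · refine (ae_restrict_iff' Jr_meas).2 (ae_of_all _ fun r hr => ?_)
      rw [norm_mul, norm_real, Real.norm_of_nonneg (ha r hr)]
      have := hb' r hr
      have h3 := norm_nonneg (k r)
      nlinarith
  have e1 : ∫ r in Jr, (h r : ℂ) * k r = (V : ℂ) * ((∫ r in Jr, (P1 r : ℂ) * k r) -
      3 * (∫ r in Jr, (P2 r : ℂ) * k r) + ∫ r in Jr, k r) := by
    have i12 : IntegrableOn (fun r => (P1 r : ℂ) * k r - 3 * ((P2 r : ℂ) * k r)) Jr :=
      (im m1 a1 b1).sub ((im m2 a2 b2).const_mul 3)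
    rw [← integral_const_mul, ← integral_sub (im m1 a1 b1) ((im m2 a2 b2).const_mul 3),
      ← integral_add i12 hk.integrable, ← integral_const_mul]
    apply setIntegral_congr_fun Jr_meas
    intro r _
    simp only [hP1, hP2]
    have hVc : (V : ℂ) ≠ 0 := by exact_mod_cast hV.ne'
    push_cast
    field_simp
    ring
  rw [e1, norm_mul, norm_real, Real.norm_of_nonneg hV.le]
  have c3' : ‖∫ r in Jr, k r‖ ≤ K := c3
  have h3 : ‖(∫ r in Jr, (P1 r : ℂ) * k r) - 3 * (∫ r in Jr, (P2 r : ℂ) * k r) + ∫ r in Jr, k r‖ ≤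
      5 * K := by
    refine (norm_add_le _ _).trans ?_
    have h4 := norm_sub_le (∫ r in Jr, (P1 r : ℂ) * k r) (3 * (∫ r in Jr, (P2 r : ℂ) * k r))
    rw [norm_mul] at h4
    have h5 : ‖(3 : ℂ)‖ = 3 := by simp
    rw [h5] at h4
    linarith
  calc V * _ ≤ V * (5 * K) := by gcongr
    _ = _ := by ring

lemma KB.cplx {k : ℝ → ℂ} {K : ℝ} (hk : KB k K) {h : ℝ → ℂ} (hm : Measurable h) {V : ℝ}
    (hV : 0 < V) (hb : ∀ v ∈ Jr, ‖h v‖ ≤ V) (hv : eVariationOn h Jr ≤ ENNReal.ofReal V) :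
    ‖∫ r in Jr, h r * k r‖ ≤ 10 * K * V := by
  have hre : eVariationOn (fun v => (h v).re) Jr ≤ ENNReal.ofReal V := by
    have hL : LipschitzWith 1 Complex.re := by
      apply LipschitzWith.of_dist_le_mul
      intro z w
      rw [Real.dist_eq, Complex.dist_eq, ← Complex.sub_re, NNReal.coe_one, one_mul]
      exact Complex.abs_re_le_norm _
    have h1 := (hL.lipschitzOnWith (s := univ)).comp_eVariationOn_le (g := h)
      (s := Jr) (mapsTo_univ _ _)
    refine h1.trans ?_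
    simpa using hv
  have him : eVariationOn (fun v => (h v).im) Jr ≤ ENNReal.ofReal V := by
    have hL : LipschitzWith 1 Complex.im := by
      apply LipschitzWith.of_dist_le_mul
      intro z w
      rw [Real.dist_eq, Complex.dist_eq, ← Complex.sub_im, NNReal.coe_one, one_mul]
      exact Complex.abs_im_le_norm _
    have h1 := (hL.lipschitzOnWith (s := univ)).comp_eVariationOn_le (g := h)
      (s := Jr) (mapsTo_univ _ _)
    refine h1.trans ?_
    simpa using hv
  have g1 := hk.real hV (fun v hv' => (Complex.abs_re_le_norm _).trans (hb v hv')) hre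
  have g2 := hk.real hV (fun v hv' => (Complex.abs_im_le_norm _).trans (hb v hv')) him
  have im : ∀ {w : ℝ → ℝ}, Measurable w → (∀ v ∈ Jr, |w v| ≤ V) →
      IntegrableOn (fun r => (w r : ℂ) * k r) Jr := by
    intro w hw hwb
    refine IntegrableOn.of_bound (C := V * 3) (by rw [vol_Jr]; exact ENNReal.ofReal_lt_top)
      (hw.complex_ofReal.mul hk.meas).aestronglyMeasurable.restrict
      ((ae_restrict_iff' Jr_meas).2 (ae_of_all _ fun r hr => ?_))
    rw [norm_mul, norm_real]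
    exact mul_le_mul (hwb r hr) (hk.bdd r hr) (norm_nonneg _) hV.le
  have i1 : IntegrableOn (fun r => ((h r).re : ℂ) * k r) Jr :=
    im (Complex.measurable_re.comp hm) (fun v hv' => (Complex.abs_re_le_norm _).trans (hb v hv'))
  have i2 : IntegrableOn (fun r => ((h r).im : ℂ) * k r) Jr :=
    im (Complex.measurable_im.comp hm) (fun v hv' => (Complex.abs_im_le_norm _).trans (hb v hv'))
  have e1 : ∫ r in Jr, h r * k r = (∫ r in Jr, ((h r).re : ℂ) * k r) +
      I * ∫ r in Jr, ((h r).im : ℂ) * k r := by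
    rw [← integral_const_mul, ← integral_add i1 (i2.const_mul I)]
    apply setIntegral_congr_fun Jr_meas
    intro r _
    simp only [Function.comp]
    conv_lhs => rw [← Complex.re_add_im (h r)]
    ring
  rw [e1]
  refine (norm_add_le _ _).trans ?_
  rw [norm_mul, Complex.norm_I, one_mul]
  linarith

/-- **Functions of bounded variation against a kernel.** -/
lemma KB.main {k : ℝ → ℂ} {K : ℝ} (hk : KB k K) (hK : 0 < K) {h : ℝ → ℂ} (hm : Measurable h)
    {V : ℝ≥0∞} (hb : ∀ v ∈ Jr, ‖h v‖ₑ ≤ V) (hv : eVariationOn h Jr ≤ V) :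
    ‖∫ r in Jr, h r * k r‖ₑ ≤ ENNReal.ofReal (10 * K) * V := by
  rcases eq_or_ne V 0 with h0 | h0
  · have e : ∫ r in Jr, h r * k r = ∫ r in Jr, (0 : ℂ) := by
      apply setIntegral_congr_fun Jr_meas
      intro r hr
      have h2 := hb r hr
      rw [h0, nonpos_iff_eq_zero, enorm_eq_zero] at h2
      simp only [h2, zero_mul]
    rw [e]
    simp
  rcases eq_or_ne V ⊤ with ht | ht
  · rw [ht, ENNReal.mul_top (by simpa using hK)]
    exact le_top
  have hV0 : 0 < V.toReal := ENNReal.toReal_pos h0 ht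
  have hVe : ENNReal.ofReal V.toReal = V := ENNReal.ofReal_toReal ht
  have h1 := hk.cplx hm hV0 (fun v hv' => by
    have h2 := hb v hv'
    rw [← hVe, ← ofReal_norm] at h2
    exact (ENNReal.ofReal_le_ofReal_iff hV0.le).1 h2) (by rw [hVe]; exact hv)
  rw [← ofReal_norm]
  calc ENNReal.ofReal ‖∫ r in Jr, h r * k r‖ ≤ ENNReal.ofReal (10 * K * V.toReal) :=
        ENNReal.ofReal_le_ofReal h1
    _ = _ := by rw [ENNReal.ofReal_mul (by positivity), hVe]

/-- the kernel -/
lemma er_KB (σ : ℝ) : KB (er σ) (18 * (1 + |σ|)⁻¹) := by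
  have hz : (1 - I * σ : ℂ) ≠ 0 := by
    intro h
    have := congrArg Complex.re h
    simp at this
  have hzn : (1 + |σ|) / 2 ≤ ‖(1 - I * σ : ℂ)‖ := by
    have h1 := Complex.abs_re_le_norm (1 - I * σ : ℂ)
    have h2 := Complex.abs_im_le_norm (1 - I * σ : ℂ)
    simp at h1 h2
    linarith
  have hσ : 0 < 1 + |σ| := by positivity
  refine ⟨?_, fun r hr => er_le hr σ, ?_⟩
  · exact er_cont.measurable.comp (by fun_prop : Measurable fun r : ℝ => (σ, r))
  · intro a b ha hab hb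
    set z : ℂ := 1 - I * σ with hzd
    have hz0 : 0 < ‖z‖ := norm_pos_iff.2 hz
    have hd : ∀ r ∈ uIcc a b, HasDerivAt (fun r : ℝ => er σ r * (2 * z * r)⁻¹)
        (er σ r - er σ r * (2 * z * r ^ 2)⁻¹) r := by
      intro r hr
      rw [uIcc_of_le hab] at hr
      have hr0 : (0 : ℝ) < r := by linarith [hr.1]
      have hrc : (r : ℂ) ≠ 0 := by exact_mod_cast hr0.ne'
      have h1 : HasDerivAt (fun r : ℝ => (r : ℂ)) 1 r := ofRealCLM.hasDerivAt
      have h2 : HasDerivAt (fun r : ℝ => z * ((r ^ 2 : ℝ) : ℂ)) (z * (2 * r)) r := by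
        have h3 : HasDerivAt (fun r : ℝ => z * (r : ℂ) ^ 2) (z * ((2 : ℕ) * (r : ℂ) ^ (2 - 1) * 1)) r :=
          (h1.pow 2).const_mul z
        refine (h3.congr_deriv ?_).congr_of_eventuallyEq (Filter.Eventually.of_forall fun s => ?_)
        · push_cast
          ring
        · push_cast
          rfl
      have h4 : HasDerivAt (fun r : ℝ => er σ r) (er σ r * (z * (2 * r))) r := h2.cexp
      have h5 : HasDerivAt (fun r : ℝ => (2 * z * (r : ℂ))⁻¹) (-(2 * z * 1) / (2 * z * r) ^ 2) r :=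
        (h1.const_mul (2 * z)).fun_inv (by
          simp only [ne_eq, mul_eq_zero, OfNat.ofNat_ne_zero, false_or, not_or]
          exact ⟨hz, hrc⟩)
      refine (h4.mul h5).congr_deriv ?_
      field_simp
      ring
    have hci : IntervalIntegrable (fun r : ℝ => er σ r * (2 * z * (r : ℂ) ^ 2)⁻¹) volume a b := by
      apply ContinuousOn.intervalIntegrable
      rw [uIcc_of_le hab]
      apply ContinuousOn.mul
      · exact (er_cont.comp (by fun_prop : Continuous fun r : ℝ => (σ, r))).continuousOn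
      · apply ContinuousOn.inv₀ (by fun_prop)
        intro r hr
        have hr0 : (0 : ℝ) < r := by linarith [hr.1]
        have hrc : (r : ℂ) ≠ 0 := by exact_mod_cast hr0.ne'
        simp only [ne_eq, mul_eq_zero, OfNat.ofNat_ne_zero, false_or, not_or]
        exact ⟨hz, pow_ne_zero _ hrc⟩
    have hei : IntervalIntegrable (fun r : ℝ => er σ r) volume a b :=
      (er_cont.comp (by fun_prop : Continuous fun r : ℝ => (σ, r))).intervalIntegrable _ _
    have hft := intervalIntegral.integral_eq_sub_of_hasDerivAt hd (hei.sub hci)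
    rw [intervalIntegral.integral_sub hei hci] at hft
    rw [← intervalIntegral.integral_of_le hab]
    have hJ : ∀ r, a ≤ r → r ≤ b → ‖er σ r‖ ≤ 3 := by
      intro r h1 h2
      rw [er_norm]
      calc Real.exp (r ^ 2) ≤ Real.exp 1 := Real.exp_le_exp.2 (by nlinarith)
        _ ≤ 3 := by linarith [Real.exp_one_lt_d9]
    have hbd : ∀ r, a ≤ r → r ≤ b → ‖er σ r * (2 * z * (r : ℂ))⁻¹‖ ≤ 3 * ‖z‖⁻¹ := by
      intro r h1 h2
      have hr0 : 0 < r := by linarith
      rw [norm_mul, norm_inv, norm_mul, norm_mul, norm_real, Real.norm_of_nonneg hr0.le]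
      refine mul_le_mul (hJ r h1 h2) ?_ (by positivity) (by norm_num)
      have h5 : ‖(2 : ℂ)‖ = 2 := by simp
      rw [h5]
      apply inv_anti₀ hz0
      nlinarith
    have hbd2 : ‖∫ r in a..b, er σ r * (2 * z * (r : ℂ) ^ 2)⁻¹‖ ≤ 6 * ‖z‖⁻¹ * |b - a| := by
      apply intervalIntegral.norm_integral_le_of_norm_le_const
      intro r hr
      rw [uIoc_of_le hab] at hr
      rw [norm_mul, norm_inv, norm_mul, norm_mul, norm_pow, norm_real,
        Real.norm_of_nonneg (by linarith [hr.1])]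
      have h5 : ‖(2 : ℂ)‖ = 2 := by simp
      rw [h5]
      have hr1 : 1 / 2 ≤ r := by linarith [hr.1]
      have hr2 : 1 / 4 ≤ r ^ 2 := by nlinarith
      have h6 : (2 * ‖z‖ * r ^ 2)⁻¹ ≤ (‖z‖ / 2)⁻¹ := by
        apply inv_anti₀ (by positivity)
        nlinarith
      calc ‖er σ r‖ * (2 * ‖z‖ * r ^ 2)⁻¹ ≤ 3 * (‖z‖ / 2)⁻¹ := by
            refine mul_le_mul (hJ r hr.1.le hr.2) h6 (by positivity) (by norm_num)
        _ = _ := by
            rw [inv_div]
            field_simp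
            norm_num
    have e7 : ∫ r in a..b, er σ r = er σ b * (2 * z * b)⁻¹ - er σ a * (2 * z * a)⁻¹ +
        ∫ r in a..b, er σ r * (2 * z * (r : ℂ) ^ 2)⁻¹ := by
      rw [← hft]
      ring
    rw [e7]
    have h8 : |b - a| ≤ 1 / 2 := by
      rw [abs_of_nonneg (by linarith)]
      linarith
    have h9 : ‖z‖⁻¹ ≤ 2 * (1 + |σ|)⁻¹ := by
      calc ‖z‖⁻¹ ≤ ((1 + |σ|) / 2)⁻¹ := inv_anti₀ (by positivity) hzn
        _ = _ := by
            rw [inv_div]
            ring
    have h10 : 0 < ‖z‖⁻¹ := by positivity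
    calc ‖er σ b * (2 * z * b)⁻¹ - er σ a * (2 * z * a)⁻¹ +
          ∫ r in a..b, er σ r * (2 * z * (r : ℂ) ^ 2)⁻¹‖
        ≤ ‖er σ b * (2 * z * b)⁻¹‖ + ‖er σ a * (2 * z * a)⁻¹‖ +
          ‖∫ r in a..b, er σ r * (2 * z * (r : ℂ) ^ 2)⁻¹‖ :=
          (norm_add_le _ _).trans (add_le_add_left (norm_sub_le _ _) _)
      _ ≤ 3 * ‖z‖⁻¹ + 3 * ‖z‖⁻¹ + 6 * ‖z‖⁻¹ * (1 / 2) := by
          gcongr
          · exact hbd b hab le_rfl
          · exact hbd a le_rfl hab
          · exact hbd2.trans (by gcongr)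
      _ = 9 * ‖z‖⁻¹ := by ring
      _ ≤ 9 * (2 * (1 + |σ|)⁻¹) := by gcongr
      _ = _ := by ring

/-- **The decay of the radial transform.** -/
lemma Fs_dec {f : ℝ → ℝ → ℂ} (hf : Measurable (Function.uncurry f)) {V : ℝ → ℝ≥0∞} {θ : ℝ}
    (hb : ∀ r ∈ Jr, ‖f r θ‖ₑ ≤ V θ) (hv : eVariationOn (fun r => f r θ) Jr ≤ V θ) (σ : ℝ) :
    ‖Fs f σ θ‖ₑ ≤ ENNReal.ofReal (180 * (1 + |σ|)⁻¹) * V θ := by
  have h := (er_KB σ).main (by positivity) (h := fun r => f r θ)
    (hf.comp (by fun_prop : Measurable fun r : ℝ => (r, θ))) hb hv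
  unfold Fs
  refine h.trans (le_of_eq ?_)
  congr 2
  ring

end Pool.Agent.U506.RR
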