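import Mathlib
import Pool.Agent.U506.RR.F3
set_option autoImplicit false

/-! The `L^q` bound of the symmetrized annular piece. -/

namespace Pool.Agent.U506.RR

open MeasureTheory Set Complex
open scoped ENNReal NNReal

attribute [local irreducible] Ph Hop Fs

/-- the weight -/
noncomputable def Wt (κ t σ : ℝ) : ℝ := (1 + |σ|)⁻¹ * Mt (t + σ) ^ (-κ)

lemma Wt_pos (κ t σ : ℝ) : 0 < Wt κ t σ := by
  unfold Wt
  have := Mt_pos (t + σ)
  positivity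

lemma Mt_meas : Measurable Mt := Mt_cont.measurable

lemma Wt_meas (κ t : ℝ) : Measurable fun σ => Wt κ t σ := by
  unfold Wt
  have h : Measurable fun σ : ℝ => Mt (t + σ) :=
    Mt_meas.comp (by fun_prop : Measurable fun σ : ℝ => t + σ)
  exact (by fun_prop : Measurable fun σ : ℝ => (1 + |σ|)⁻¹).mul (h.pow_const (-κ))

lemma min_pow {a b α β : ℝ} (ha : 0 < a) (hb : 0 < b) (hα : 0 ≤ α) (hβ : 0 ≤ β) :
    a ^ (-α) * b ^ (-β) ≤ a ^ (-(α + β)) + b ^ (-(α + β)) := by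
  rcases le_total a b with h | h
  · have h1 : b ^ (-β) ≤ a ^ (-β) := Real.rpow_le_rpow_of_nonpos ha h (by linarith)
    calc a ^ (-α) * b ^ (-β) ≤ a ^ (-α) * a ^ (-β) := by gcongr
      _ = a ^ (-(α + β)) := by
          rw [← Real.rpow_add ha]
          congr 1
          ring
      _ ≤ _ := le_add_of_nonneg_right (by positivity)
  · have h1 : a ^ (-α) ≤ b ^ (-α) := Real.rpow_le_rpow_of_nonpos hb h (by linarith)
    calc a ^ (-α) * b ^ (-β) ≤ b ^ (-α) * b ^ (-β) := by gcongr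
      _ = b ^ (-(α + β)) := by
          rw [← Real.rpow_add hb]
          congr 1
          ring
      _ ≤ _ := le_add_of_nonneg_left (by positivity)

lemma Wt_int {κ κ' : ℝ} (h0 : 0 ≤ κ') (h1 : κ' < κ) (h2 : κ ≤ 1) :
    ∃ C : ℝ≥0∞, C < ⊤ ∧ ∀ t : ℝ, ∫⁻ σ, ENNReal.ofReal (Wt κ t σ) ≤
      C * ENNReal.ofReal (Mt t ^ (-κ')) := by
  set s : ℝ := 1 + κ - κ' with hs
  have hs1 : 1 < s := by linarith
  have hI : Integrable fun σ : ℝ => (1 + ‖σ‖) ^ (-s) := integrable_one_add_norm (by simpa using hs1)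
  set D : ℝ≥0∞ := ∫⁻ σ : ℝ, ENNReal.ofReal ((1 + ‖σ‖) ^ (-s)) with hD
  have hDt : D < ⊤ := by
    refine lt_of_le_of_lt ?_ hI.2
    apply lintegral_mono
    intro σ
    simp only
    rw [← ofReal_norm]
    exact ENNReal.ofReal_le_ofReal (le_abs_self _)
  refine ⟨ENNReal.ofReal 2 * D + ENNReal.ofReal (2 * 2 ^ s) * D, ?_, ?_⟩
  · exact ENNReal.add_lt_top.2 ⟨ENNReal.mul_lt_top ENNReal.ofReal_lt_top hDt,
      ENNReal.mul_lt_top ENNReal.ofReal_lt_top hDt⟩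
  intro t
  have hMt := Mt_pos t
  have key : ∀ σ : ℝ, Wt κ t σ ≤ Mt t ^ (-κ') * (2 * (1 + ‖σ‖) ^ (-s) +
      2 * 2 ^ s * (1 + ‖t + σ‖) ^ (-s)) := by
    intro σ
    set a : ℝ := 1 + |σ| with ha
    set b : ℝ := Mt (t + σ) with hb
    have ha0 : 0 < a := by positivity
    have hb0 : 0 < b := Mt_pos _
    have hab : Mt t ≤ a + b := by
      unfold Mt
      apply max_le
      · have := Mt_one (t + σ)
        rw [← hb] at this
        linarith [abs_nonneg σ]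
      · have h3 : |t| ≤ |t + σ| + |σ| := by
          have := abs_sub (t + σ) σ
          rw [add_sub_cancel_right] at this
          exact this
        have h4 : |t + σ| ≤ b := le_max_right _ _
        linarith
    have h5 : Mt t ^ κ' ≤ a ^ κ' + b ^ κ' := by
      calc Mt t ^ κ' ≤ (a + b) ^ κ' := Real.rpow_le_rpow hMt.le hab h0
        _ ≤ _ := by
            have := NNReal.rpow_add_le_add_rpow ⟨a, ha0.le⟩ ⟨b, hb0.le⟩ h0 (by linarith : κ' ≤ 1)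
            exact_mod_cast this
    have h6 : a ^ κ' * Wt κ t σ ≤ a ^ (-s) + b ^ (-s) := by
      have h7 := min_pow ha0 hb0 (α := 1 - κ') (β := κ) (by linarith) (by linarith)
      have e : 1 - κ' + κ = s := by rw [hs]; ring
      rw [e] at h7
      refine le_trans (le_of_eq ?_) h7
      unfold Wt
      rw [← ha, ← hb, ← Real.rpow_neg_one a, ← mul_assoc, ← Real.rpow_add ha0]
      congr 2
      ring
    have h8 : b ^ κ' * Wt κ t σ ≤ a ^ (-s) + b ^ (-s) := by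
      have h7 := min_pow ha0 hb0 (α := 1) (β := κ - κ') (by linarith) (by linarith)
      have e : 1 + (κ - κ') = s := by rw [hs]; ring
      rw [e] at h7
      refine le_trans (le_of_eq ?_) h7
      unfold Wt
      rw [← ha, ← hb, ← Real.rpow_neg_one a, mul_left_comm, ← Real.rpow_add hb0]
      congr 2
      ring
    have hW0 := Wt_pos κ t σ
    have h9 : b ^ (-s) ≤ 2 ^ s * (1 + ‖t + σ‖) ^ (-s) := by
      have h10 : 1 + |t + σ| ≤ 2 * b := by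
        have := Mt_one (t + σ)
        rw [← hb] at this
        have h4 : |t + σ| ≤ b := le_max_right _ _
        linarith
      have h11 : (2 * b) ^ (-s) ≤ (1 + |t + σ|) ^ (-s) :=
        Real.rpow_le_rpow_of_nonpos (by positivity) h10 (by linarith)
      rw [Real.mul_rpow (by norm_num) hb0.le] at h11
      have h12 : (2 : ℝ) ^ s * (2 ^ (-s) * b ^ (-s)) ≤ 2 ^ s * (1 + |t + σ|) ^ (-s) := by gcongr
      rw [← mul_assoc, ← Real.rpow_add (by norm_num), add_neg_cancel, Real.rpow_zero, one_mul] at h12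
      exact h12
    have h13 : Mt t ^ κ' * Wt κ t σ ≤ 2 * a ^ (-s) + 2 * b ^ (-s) := by
      calc Mt t ^ κ' * Wt κ t σ ≤ (a ^ κ' + b ^ κ') * Wt κ t σ := by gcongr
        _ = a ^ κ' * Wt κ t σ + b ^ κ' * Wt κ t σ := by ring
        _ ≤ (a ^ (-s) + b ^ (-s)) + (a ^ (-s) + b ^ (-s)) := add_le_add h6 h8
        _ = _ := by ring
    have h14 : Mt t ^ (-κ') * Mt t ^ κ' = 1 := by
      rw [← Real.rpow_add hMt, neg_add_cancel, Real.rpow_zero]
    calc Wt κ t σ = Mt t ^ (-κ') * (Mt t ^ κ' * Wt κ t σ) := by rw [← mul_assoc, h14, one_mul]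
      _ ≤ Mt t ^ (-κ') * (2 * a ^ (-s) + 2 * b ^ (-s)) := by gcongr
      _ ≤ Mt t ^ (-κ') * (2 * (1 + ‖σ‖) ^ (-s) + 2 * (2 ^ s * (1 + ‖t + σ‖) ^ (-s))) := by
          refine mul_le_mul_of_nonneg_left (add_le_add (le_of_eq ?_) (by gcongr)) (by positivity)
          rw [ha, Real.norm_eq_abs]
      _ = _ := by ring
  have hm1 : Measurable fun σ : ℝ => ENNReal.ofReal 2 * ENNReal.ofReal ((1 + ‖σ‖) ^ (-s)) := by
    fun_prop
  calc ∫⁻ σ, ENNReal.ofReal (Wt κ t σ)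
      ≤ ∫⁻ σ, ENNReal.ofReal (Mt t ^ (-κ')) * (ENNReal.ofReal 2 * ENNReal.ofReal ((1 + ‖σ‖) ^ (-s)) +
        ENNReal.ofReal (2 * 2 ^ s) * ENNReal.ofReal ((1 + ‖t + σ‖) ^ (-s))) := by
        apply lintegral_mono
        intro σ
        simp only
        rw [← ENNReal.ofReal_mul (by norm_num), ← ENNReal.ofReal_mul (by positivity),
          ← ENNReal.ofReal_add (by positivity) (by positivity), ← ENNReal.ofReal_mul (by positivity)]
        exact ENNReal.ofReal_le_ofReal (key σ)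
    _ = ENNReal.ofReal (Mt t ^ (-κ')) * (ENNReal.ofReal 2 * D + ENNReal.ofReal (2 * 2 ^ s) * D) := by
        rw [lintegral_const_mul' _ _ ENNReal.ofReal_ne_top, lintegral_add_left hm1,
          lintegral_const_mul' _ _ ENNReal.ofReal_ne_top,
          lintegral_const_mul' _ _ ENNReal.ofReal_ne_top,
          lintegral_add_left_eq_self (fun σ : ℝ => ENNReal.ofReal ((1 + ‖σ‖) ^ (-s))) t]
    _ = _ := mul_comm _ _

/-- **The `L^q` bound of the symmetrized piece.** -/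
theorem Ps_Lq {q κ' : ℝ} (hq : 2 < q) (hq4 : q < 4) (h0 : 0 ≤ κ') (h1 : κ' * q < q - 2) :
    ∃ K : ℝ≥0∞, K < ⊤ ∧ ∀ ϑ : ℝ, Sc ϑ ⊆ Ioc (-Real.pi) Real.pi → ∀ f : ℝ → ℝ → ℂ,
      Measurable (Function.uncurry f) → ∀ B : ℝ, (∀ r θ, ‖f r θ‖ ≤ B) →
      (∀ r θ, θ ∉ Sc ϑ → f r θ = 0) → ∀ V : ℝ → ℝ≥0∞, Measurable V →
      (∀ θ, ∀ r ∈ Jr, ‖f r θ‖ₑ ≤ V θ) → (∀ θ, eVariationOn (fun r => f r θ) Jr ≤ V θ) → ∀ t : ℝ,
      ∫⁻ x : ℝ × ℝ, ‖Pp ϑ f x t + Pp ϑ f (-x) t‖ₑ ^ q ≤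
        K * ENNReal.ofReal (Mt t ^ (-(κ' * q))) * ∫⁻ θ, V θ ^ q ∂(Jm ϑ) := by
  have hq0 : 0 < q := by linarith
  have hq2 : 0 < q - 2 := by linarith
  set δ : ℝ := min 1 (1 - κ' * q / (q - 2)) with hδ
  have hδ0 : 0 < δ := by
    rw [hδ]
    apply lt_min one_pos
    have := (div_lt_one hq2).2 h1
    linarith
  have hδ1 : δ ≤ 1 := min_le_left _ _
  have hδ2 : δ ≤ 1 - κ' * q / (q - 2) := min_le_right _ _
  set κ0 : ℝ := (2 - δ) / 2 with hκ0
  set κ : ℝ := κ0 * (q - 2) / q with hκ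
  have hκκ : κ' < κ := by
    rw [hκ, lt_div_iff₀ hq0]
    have h3 : κ' * q / (q - 2) < κ0 := by
      have h4 : κ' * q / (q - 2) < 1 := (div_lt_one hq2).2 h1
      rw [hκ0]
      linarith
    rw [div_lt_iff₀ hq2] at h3
    exact h3
  have hκ1 : κ ≤ 1 := by
    rw [hκ, div_le_one hq0]
    have h3 : κ0 ≤ 1 := by
      rw [hκ0]
      linarith
    nlinarith
  have hκq : κ * q = κ0 * (q - 2) := by
    rw [hκ]
    field_simp
  obtain ⟨K, hK, HK⟩ := Hop_Lq hq hq4 hδ0 hδ1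
  obtain ⟨C, hC, HC⟩ := Wt_int h0 hκκ hκ1
  refine ⟨ENNReal.ofReal (Real.pi)⁻¹ ^ q * (C ^ q * (K * ENNReal.ofReal 180 ^ q)), ?_, ?_⟩
  · have t1 : ENNReal.ofReal (Real.pi)⁻¹ ^ q < ⊤ :=
      ENNReal.rpow_lt_top_of_nonneg hq0.le ENNReal.ofReal_ne_top
    have t2 : C ^ q < ⊤ := ENNReal.rpow_lt_top_of_nonneg hq0.le hC.ne
    have t3 : ENNReal.ofReal 180 ^ q < ⊤ := ENNReal.rpow_lt_top_of_nonneg hq0.le ENNReal.ofReal_ne_top
    exact ENNReal.mul_lt_top t1 (ENNReal.mul_lt_top t2 (ENNReal.mul_lt_top hK t3))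
  intro ϑ hϑ f hf B hB hs V hV hb hv t
  have hFm := Fs_meas hf
  set W : ℝ≥0∞ := ∫⁻ σ, ENNReal.ofReal (Wt κ t σ) with hW
  have hHm : Measurable fun p : (ℝ × ℝ) × ℝ => Hop ϑ (Fs f p.2) p.1 (t + p.2) :=
    Hop_meas ϑ (α := (ℝ × ℝ) × ℝ) (G := fun p => Fs f p.2)
      (hFm.comp (by fun_prop : Measurable fun p : ((ℝ × ℝ) × ℝ) × ℝ => (p.1.2, p.2)))
      measurable_fst (by fun_prop)
  have hWm := Wt_meas κ t
  -- pointwise
  have step1 : ∀ x : ℝ × ℝ, ‖Pp ϑ f x t + Pp ϑ f (-x) t‖ₑ ^ q ≤ ENNReal.ofReal (Real.pi)⁻¹ ^ q *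
      (W ^ (q - 1) * ∫⁻ σ, ENNReal.ofReal (Wt κ t σ ^ (1 - q)) *
        ‖Hop ϑ (Fs f σ) x (t + σ)‖ₑ ^ q) := by
    intro x
    have hHx : Measurable fun σ : ℝ => Hop ϑ (Fs f σ) x (t + σ) :=
      hHm.comp (by fun_prop : Measurable fun σ : ℝ => (x, σ))
    have s1 : ‖Pp ϑ f x t + Pp ϑ f (-x) t‖ₑ ≤ ENNReal.ofReal (Real.pi)⁻¹ *
        ∫⁻ σ, ENNReal.ofReal (Wt κ t σ) * (ENNReal.ofReal (Wt κ t σ)⁻¹ *
          ‖Hop ϑ (Fs f σ) x (t + σ)‖ₑ) := by
      rw [Pp_sup ϑ hf hB, enorm_mul]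
      have e1 : ‖(((Real.pi)⁻¹ : ℝ) : ℂ)‖ₑ = ENNReal.ofReal (Real.pi)⁻¹ := by
        rw [← ofReal_norm, norm_real, Real.norm_of_nonneg (by positivity)]
      rw [e1]
      gcongr
      refine (enorm_integral_le_lintegral_enorm _).trans (le_of_eq ?_)
      apply lintegral_congr
      intro σ
      have h3 := Wt_pos κ t σ
      rw [← mul_assoc, ← ENNReal.ofReal_mul h3.le, mul_inv_cancel₀ h3.ne', ENNReal.ofReal_one,
        one_mul]
    calc ‖Pp ϑ f x t + Pp ϑ f (-x) t‖ₑ ^ q ≤ (ENNReal.ofReal (Real.pi)⁻¹ *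
        ∫⁻ σ, ENNReal.ofReal (Wt κ t σ) * (ENNReal.ofReal (Wt κ t σ)⁻¹ *
          ‖Hop ϑ (Fs f σ) x (t + σ)‖ₑ)) ^ q := by gcongr
      _ = ENNReal.ofReal (Real.pi)⁻¹ ^ q * (∫⁻ σ, ENNReal.ofReal (Wt κ t σ) *
          (ENNReal.ofReal (Wt κ t σ)⁻¹ * ‖Hop ϑ (Fs f σ) x (t + σ)‖ₑ)) ^ q :=
          ENNReal.mul_rpow_of_nonneg _ _ hq0.le
      _ ≤ ENNReal.ofReal (Real.pi)⁻¹ ^ q * (W ^ (q - 1) * ∫⁻ σ, ENNReal.ofReal (Wt κ t σ) *
          (ENNReal.ofReal (Wt κ t σ)⁻¹ * ‖Hop ϑ (Fs f σ) x (t + σ)‖ₑ) ^ q) := by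
          refine mul_le_mul' le_rfl ?_
          exact wh (μ := volume) hWm.ennreal_ofReal.aemeasurable
            ((hWm.inv.ennreal_ofReal.mul hHx.enorm).aemeasurable) (by linarith)
      _ = _ := by
          congr 2
          apply lintegral_congr
          intro σ
          have h3 := Wt_pos κ t σ
          rw [ENNReal.mul_rpow_of_nonneg _ _ hq0.le, ← mul_assoc,
            ENNReal.ofReal_rpow_of_pos (by positivity), ← ENNReal.ofReal_mul h3.le]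
          congr 2
          rw [Real.inv_rpow h3.le, ← Real.rpow_neg h3.le]
          nth_rewrite 1 [← Real.rpow_one (Wt κ t σ)]
          rw [← Real.rpow_add h3]
          congr 1
  -- integrate
  have step2 : ∀ σ : ℝ, ∫⁻ x : ℝ × ℝ, ‖Hop ϑ (Fs f σ) x (t + σ)‖ₑ ^ q ≤
      K * ENNReal.ofReal (Mt (t + σ) ^ (-(κ * q))) *
        (ENNReal.ofReal ((1 + |σ|) ^ (-q)) * (ENNReal.ofReal 180 ^ q * ∫⁻ θ, V θ ^ q ∂(Jm ϑ))) := by
    intro σ
    have hFσ : Measurable (Fs f σ) := hFm.comp measurable_prodMk_left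
    have h3 := HK ϑ hϑ (Fs f σ) hFσ (B * 3) (fun θ => Fs_bd hB σ θ) (fun θ hθ => by
      unfold Fs
      simp only [hs _ θ hθ, zero_mul, integral_zero]) (t + σ)
    have e1 : -((2 - δ) / 2 * (q - 2)) = -(κ * q) := by rw [hκq]
    rw [e1] at h3
    refine h3.trans ?_
    gcongr
    calc ∫⁻ θ, ‖Fs f σ θ‖ₑ ^ q ∂(Jm ϑ)
        ≤ ∫⁻ θ, (ENNReal.ofReal ((1 + |σ|) ^ (-q)) * ENNReal.ofReal 180 ^ q) * V θ ^ q ∂(Jm ϑ) := by
          apply lintegral_mono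
          intro θ
          simp only
          have h4 := Fs_dec hf (hb θ) (hv θ) σ
          calc ‖Fs f σ θ‖ₑ ^ q ≤ (ENNReal.ofReal (180 * (1 + |σ|)⁻¹) * V θ) ^ q := by gcongr
            _ = _ := by
                rw [ENNReal.mul_rpow_of_nonneg _ _ hq0.le, ENNReal.ofReal_mul (by norm_num),
                  ENNReal.mul_rpow_of_nonneg _ _ hq0.le]
                have h5 : (0 : ℝ) < 1 + |σ| := by positivity
                rw [ENNReal.ofReal_rpow_of_pos (by positivity : 0 < (1 + |σ|)⁻¹),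
                  Real.inv_rpow h5.le, ← Real.rpow_neg h5.le]
                ring
      _ = _ := by
          rw [lintegral_const_mul' _ _ (ENNReal.mul_ne_top ENNReal.ofReal_ne_top
            (ENNReal.rpow_ne_top_of_nonneg hq0.le ENNReal.ofReal_ne_top)), mul_assoc]
  have hW1 : W ^ (q - 1) * W = W ^ q := by
    rcases eq_or_ne W 0 with h | h
    · rw [h, mul_zero, ENNReal.zero_rpow_of_pos hq0]
    · have hWt : W ≠ ⊤ := ((HC t).trans_lt (ENNReal.mul_lt_top hC ENNReal.ofReal_lt_top)).ne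
      nth_rewrite 2 [← ENNReal.rpow_one W]
      rw [← ENNReal.rpow_add _ _ h hWt]
      congr 1
      ring
  have hj : Measurable fun p : (ℝ × ℝ) × ℝ => ENNReal.ofReal (Wt κ t p.2 ^ (1 - q)) *
        ‖Hop ϑ (Fs f p.2) p.1 (t + p.2)‖ₑ ^ q :=
    (((hWm.comp measurable_snd).pow_const (1 - q)).ennreal_ofReal).mul (hHm.enorm.pow_const q)
  have hWt : W ≠ ⊤ := ((HC t).trans_lt (ENNReal.mul_lt_top hC ENNReal.ofReal_lt_top)).ne
  calc ∫⁻ x : ℝ × ℝ, ‖Pp ϑ f x t + Pp ϑ f (-x) t‖ₑ ^ q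
      ≤ ∫⁻ x : ℝ × ℝ, ENNReal.ofReal (Real.pi)⁻¹ ^ q *
      (W ^ (q - 1) * ∫⁻ σ, ENNReal.ofReal (Wt κ t σ ^ (1 - q)) *
        ‖Hop ϑ (Fs f σ) x (t + σ)‖ₑ ^ q) := lintegral_mono step1
    _ = ENNReal.ofReal (Real.pi)⁻¹ ^ q * (W ^ (q - 1) * ∫⁻ x : ℝ × ℝ, ∫⁻ σ,
        ENNReal.ofReal (Wt κ t σ ^ (1 - q)) * ‖Hop ϑ (Fs f σ) x (t + σ)‖ₑ ^ q) := by
        rw [lintegral_const_mul' _ _ (ENNReal.rpow_ne_top_of_nonneg hq0.le ENNReal.ofReal_ne_top),
          lintegral_const_mul' _ _ (ENNReal.rpow_ne_top_of_nonneg (by linarith) hWt)]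
    _ = ENNReal.ofReal (Real.pi)⁻¹ ^ q * (W ^ (q - 1) * ∫⁻ σ, ∫⁻ x : ℝ × ℝ,
        ENNReal.ofReal (Wt κ t σ ^ (1 - q)) * ‖Hop ϑ (Fs f σ) x (t + σ)‖ₑ ^ q) := by
        congr 2
        exact lintegral_lintegral_swap (f := fun x σ => ENNReal.ofReal (Wt κ t σ ^ (1 - q)) *
          ‖Hop ϑ (Fs f σ) x (t + σ)‖ₑ ^ q) hj.aemeasurable
    _ ≤ ENNReal.ofReal (Real.pi)⁻¹ ^ q * (W ^ (q - 1) * ∫⁻ σ, ENNReal.ofReal (Wt κ t σ) *
        (K * (ENNReal.ofReal 180 ^ q * ∫⁻ θ, V θ ^ q ∂(Jm ϑ)))) := by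
        refine mul_le_mul' le_rfl (mul_le_mul' le_rfl (lintegral_mono fun σ => ?_))
        simp only
        rw [lintegral_const_mul' _ _ ENNReal.ofReal_ne_top]
        refine (mul_le_mul' le_rfl (step2 σ)).trans (le_of_eq ?_)
        have h5 : (0 : ℝ) < 1 + |σ| := by positivity
        have h6 := Mt_pos (t + σ)
        have h3 := Wt_pos κ t σ
        have e : Wt κ t σ ^ (1 - q) * Mt (t + σ) ^ (-(κ * q)) * (1 + |σ|) ^ (-q) = Wt κ t σ := by
          unfold Wt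
          rw [Real.mul_rpow (by positivity) (by positivity), Real.inv_rpow h5.le,
            ← Real.rpow_neg h5.le, ← Real.rpow_mul h6.le]
          calc (1 + |σ|) ^ (-(1 - q)) * Mt (t + σ) ^ (-κ * (1 - q)) * Mt (t + σ) ^ (-(κ * q)) *
                (1 + |σ|) ^ (-q) = ((1 + |σ|) ^ (-(1 - q)) * (1 + |σ|) ^ (-q)) *
                (Mt (t + σ) ^ (-κ * (1 - q)) * Mt (t + σ) ^ (-(κ * q))) := by ring
            _ = _ := by
                rw [← Real.rpow_add h5, ← Real.rpow_add h6, ← Real.rpow_neg_one]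
                congr 2
                · ring
                · ring
        calc ENNReal.ofReal (Wt κ t σ ^ (1 - q)) * (K * ENNReal.ofReal (Mt (t + σ) ^ (-(κ * q))) *
              (ENNReal.ofReal ((1 + |σ|) ^ (-q)) *
                (ENNReal.ofReal 180 ^ q * ∫⁻ θ, V θ ^ q ∂(Jm ϑ)))) =
            (ENNReal.ofReal (Wt κ t σ ^ (1 - q)) * ENNReal.ofReal (Mt (t + σ) ^ (-(κ * q))) *
              ENNReal.ofReal ((1 + |σ|) ^ (-q))) *
                (K * (ENNReal.ofReal 180 ^ q * ∫⁻ θ, V θ ^ q ∂(Jm ϑ))) := by ring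
          _ = _ := by
              rw [← ENNReal.ofReal_mul (by positivity), ← ENNReal.ofReal_mul (by positivity), e]
    _ = ENNReal.ofReal (Real.pi)⁻¹ ^ q * (W ^ q *
        (K * (ENNReal.ofReal 180 ^ q * ∫⁻ θ, V θ ^ q ∂(Jm ϑ)))) := by
        rw [lintegral_mul_const _ hWm.ennreal_ofReal, ← hW, ← hW1]
        ring
    _ ≤ ENNReal.ofReal (Real.pi)⁻¹ ^ q * ((C * ENNReal.ofReal (Mt t ^ (-κ'))) ^ q *
        (K * (ENNReal.ofReal 180 ^ q * ∫⁻ θ, V θ ^ q ∂(Jm ϑ)))) := by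
        gcongr
        exact HC t
    _ = _ := by
        have h6 := Mt_pos t
        rw [ENNReal.mul_rpow_of_nonneg _ _ hq0.le,
          ENNReal.ofReal_rpow_of_pos (x := Mt t ^ (-κ')) (by positivity),
          ← Real.rpow_mul h6.le, neg_mul]
        ring

end Pool.Agent.U506.RR
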