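import Mathlib
import Pool.Agent.U506.RR.F4
set_option autoImplicit false

/-! From the symmetrized piece to the piece. -/

namespace Pool.Agent.U506.RR

open MeasureTheory Set Complex
open scoped ENNReal NNReal FourierTransform

/-- the window -/
lemma win : ∃ k : ℝ → ℂ, Integrable k ∧ (∀ s : ℝ, 35 / 100 ≤ s → s ≤ 1 →
    ∫ η : ℝ, k η * cexp (I * η * s) = 1) ∧ (∀ s : ℝ, s ≤ -(35 / 100) →
    ∫ η : ℝ, k η * cexp (I * η * s) = 0) := by
  set b : ContDiffBump (675 / 1000 : ℝ) := ⟨325 / 1000, 1, by norm_num, by norm_num⟩ with hb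
  set w : ℝ → ℂ := fun s => (b s : ℂ) with hw
  have hwc : HasCompactSupport w := b.hasCompactSupport.comp_left (g := fun x : ℝ => (x : ℂ)) (by simp)
  have hws : ContDiff ℝ ((⊤ : ℕ∞) : WithTop ℕ∞) w := ofRealCLM.contDiff.comp b.contDiff
  set F : ℝ → ℂ := fun σ => ∫ v : ℝ, cexp (-(I * σ * v)) * w v with hF
  have hFi : Integrable F := by
    have h1 : Integrable (𝓕 (hwc.toSchwartzMap hws) : SchwartzMap ℝ ℂ) :=
      SchwartzMap.integrable _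
    rw [SchwartzMap.fourier_coe] at h1
    have h2 : F = fun σ => (𝓕 (⇑(hwc.toSchwartzMap hws)) : ℝ → ℂ) ((2 * Real.pi)⁻¹ * σ) := by
      ext σ
      rw [Real.fourier_real_eq_integral_exp_smul, hF]
      apply integral_congr_ae
      refine ae_of_all _ fun v => ?_
      simp only [smul_eq_mul]
      congr 2
      push_cast
      have : (Real.pi : ℂ) ≠ 0 := by exact_mod_cast Real.pi_ne_zero
      field_simp
    rw [h2]
    exact h1.comp_mul_left' (by positivity)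
  have hinv := fun v => inv1 (f := w) (F := F) hws.continuous
    (hws.continuous.integrable_of_hasCompactSupport hwc) (fun σ => rfl) hFi v
  have e : ∀ s : ℝ, ∫ η : ℝ, (((2 * Real.pi)⁻¹ : ℝ) * F η) * cexp (I * η * s) = w s := by
    intro s
    rw [hinv s, ← integral_const_mul]
    apply integral_congr_ae
    refine ae_of_all _ fun η => ?_
    simp only
    ring
  refine ⟨fun η => ((2 * Real.pi)⁻¹ : ℝ) * F η, hFi.const_mul _, ?_, ?_⟩
  · intro s h1 h2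
    rw [e s, hw]
    have : b s = 1 := b.one_of_mem_closedBall (by
      rw [Metric.mem_closedBall, Real.dist_eq, abs_le]
      constructor <;> simp only [hb] <;> linarith)
    simp only [this, ofReal_one]
  · intro s h1
    rw [e s, hw]
    have : b s = 0 := b.zero_of_le_dist (by
      rw [Real.dist_eq, abs_of_nonpos (by linarith)]
      simp only [hb]
      linarith)
    simp only [this, ofReal_zero]

/-- the direction -/
noncomputable def ed (ϑ : ℝ) : ℝ × ℝ := (Real.cos ϑ, Real.sin ϑ)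

lemma dt_shift (x : ℝ × ℝ) (ϑ η θ : ℝ) : dt (x + η • ed ϑ) θ = dt x θ + η * Real.cos (θ - ϑ) := by
  unfold dt ed
  rw [Real.cos_sub]
  simp only [Prod.fst_add, Prod.snd_add, Prod.smul_mk, smul_eq_mul]
  ring

lemma pe_shift (x : ℝ × ℝ) (t r ϑ η θ : ℝ) : pe (x + η • ed ϑ) t r θ =
    pe x t r θ * cexp (I * η * ((r * Real.cos (θ - ϑ) : ℝ) : ℂ)) := by
  unfold pe
  rw [dt_shift, ← Complex.exp_add]
  congr 1
  push_cast
  ring

lemma pe_shift2 (x : ℝ × ℝ) (t r ϑ η θ : ℝ) : pe (-(x + η • ed ϑ)) t r θ =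
    pe (-x) t r θ * cexp (I * η * ((-(r * Real.cos (θ - ϑ)) : ℝ) : ℂ)) := by
  unfold pe
  rw [dt_neg, dt_neg, dt_shift, ← Complex.exp_add]
  congr 1
  push_cast
  ring

lemma cos_sector {ϑ θ r : ℝ} (hθ : θ ∈ Sc ϑ) (hr : r ∈ Jr) :
    35 / 100 ≤ r * Real.cos (θ - ϑ) ∧ r * Real.cos (θ - ϑ) ≤ 1 := by
  have hpi := Real.pi_pos
  have h1 : |θ - ϑ| ≤ Real.pi / 4 := by
    rw [abs_le]
    constructor
    · linarith [hθ.1]
    · linarith [hθ.2]
  have h2 : Real.cos (Real.pi / 4) ≤ Real.cos (θ - ϑ) := by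
    rw [← Real.cos_abs (θ - ϑ)]
    exact Real.cos_le_cos_of_nonneg_of_le_pi (abs_nonneg _) (by linarith) h1
  rw [Real.cos_pi_div_four] at h2
  have h3 : 14 / 10 ≤ √2 := by
    apply Real.le_sqrt_of_sq_le
    norm_num
  have h4 : 7 / 10 ≤ Real.cos (θ - ϑ) := by linarith
  have h5 := Real.cos_le_one (θ - ϑ)
  have h6 := hr.1
  have h7 := hr.2
  constructor
  · nlinarith
  · nlinarith

/-- **The window identity.** -/
theorem Pp_win {k : ℝ → ℂ} (hk : Integrable k) (hk1 : ∀ s : ℝ, 35 / 100 ≤ s → s ≤ 1 →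
    ∫ η : ℝ, k η * cexp (I * η * s) = 1) (hk0 : ∀ s : ℝ, s ≤ -(35 / 100) →
    ∫ η : ℝ, k η * cexp (I * η * s) = 0) (ϑ : ℝ) {f : ℝ → ℝ → ℂ}
    (hf : Measurable (Function.uncurry f)) {B : ℝ} (hB : ∀ r θ, ‖f r θ‖ ≤ B)
    (hs : ∀ r θ, θ ∉ Sc ϑ → f r θ = 0) (x : ℝ × ℝ) (t : ℝ) :
    Pp ϑ f x t = ∫ η, k η * (Pp ϑ f (x + η • ed ϑ) t + Pp ϑ f (-(x + η • ed ϑ)) t) := by
  set μ : Measure (ℝ × ℝ) := (Jm ϑ).prod (volume.restrict Jr) with hμ
  have hB0 : 0 ≤ B := (norm_nonneg _).trans (hB 0 0)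
  set G : ℝ → ℝ × ℝ → ℂ := fun η p => k η * (f p.2 p.1 * (p.2 * pe (x + η • ed ϑ) t p.2 p.1) +
    f p.2 p.1 * (p.2 * pe (-(x + η • ed ϑ)) t p.2 p.1)) with hG
  have hres : (Jm ϑ).prod (volume.restrict Jr) =
      (volume.prod volume).restrict (Ioc (ϑ - Real.pi / 2) (ϑ + Real.pi / 2) ×ˢ Jr) := by
    unfold Jm
    rw [Measure.prod_restrict]
  have hJ : ∀ᵐ p ∂μ, p.2 ∈ Jr := by
    rw [hμ, hres]
    exact (ae_restrict_iff' (measurableSet_Ioc.prod Jr_meas)).2 (ae_of_all _ fun p hp => hp.2)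
  have hfm : Measurable fun q : ℝ × ℝ × ℝ => f q.2.2 q.2.1 :=
    hf.comp (by fun_prop : Measurable fun q : ℝ × ℝ × ℝ => (q.2.2, q.2.1))
  have hp1 : Measurable fun q : ℝ × ℝ × ℝ => pe (x + q.1 • ed ϑ) t q.2.2 q.2.1 :=
    pe_meas.comp (by fun_prop : Measurable fun q : ℝ × ℝ × ℝ => (x + q.1 • ed ϑ, t, q.2.2, q.2.1))
  have hp2 : Measurable fun q : ℝ × ℝ × ℝ => pe (-(x + q.1 • ed ϑ)) t q.2.2 q.2.1 :=
    pe_meas.comp (by fun_prop : Measurable fun q : ℝ × ℝ × ℝ => (-(x + q.1 • ed ϑ), t, q.2.2, q.2.1))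
  have hpr : Measurable fun q : ℝ × ℝ × ℝ => ((q.2.2 : ℝ) : ℂ) := by fun_prop
  have hIn : Measurable fun q : ℝ × ℝ × ℝ => (f q.2.2 q.2.1 * (q.2.2 * pe (x + q.1 • ed ϑ) t q.2.2 q.2.1) +
      f q.2.2 q.2.1 * (q.2.2 * pe (-(x + q.1 • ed ϑ)) t q.2.2 q.2.1)) :=
    (hfm.mul (hpr.mul hp1)).add (hfm.mul (hpr.mul hp2))
  have hGi : Integrable (Function.uncurry G) (volume.prod μ) := by
    have h1 : Integrable (fun q : ℝ × ℝ × ℝ => k q.1 * ((2 * B : ℝ) : ℂ)) (volume.prod μ) :=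
      hk.mul_prod (integrable_const _)
    refine h1.mono (hk.aestronglyMeasurable.comp_fst.mul hIn.aestronglyMeasurable) ?_
    have h3 : ∀ᵐ q ∂((volume : Measure ℝ).prod μ), q.2.2 ∈ Jr :=
      Measure.quasiMeasurePreserving_snd.ae hJ
    filter_upwards [h3] with q hq
    simp only [Function.uncurry, hG]
    rw [norm_mul, norm_mul, norm_real, Real.norm_of_nonneg (by positivity)]
    gcongr
    refine (norm_add_le _ _).trans ?_
    have h5 : ∀ z : ℂ, ‖z‖ = 1 → ‖f q.2.2 q.2.1 * (q.2.2 * z)‖ ≤ B := by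
      intro z hz
      rw [norm_mul, norm_mul, hz, mul_one, norm_real, Real.norm_of_nonneg
        (by linarith [hq.1] : (0 : ℝ) ≤ q.2.2)]
      calc ‖f q.2.2 q.2.1‖ * q.2.2 ≤ B * 1 :=
            mul_le_mul (hB _ _) hq.2 (by linarith [hq.1]) hB0
        _ = B := mul_one _
    have := h5 _ (pe_norm (x + q.1 • ed ϑ) t q.2.2 q.2.1)
    have := h5 _ (pe_norm (-(x + q.1 • ed ϑ)) t q.2.2 q.2.1)
    linarith
  have e1 : ∀ η : ℝ, k η * (Pp ϑ f (x + η • ed ϑ) t + Pp ϑ f (-(x + η • ed ϑ)) t) =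
      ∫ p, G η p ∂μ := by
    intro η
    rw [Pp_prod ϑ hf hB, Pp_prod ϑ hf hB, ← integral_add (Pp_inner_int ϑ hf hB _ t)
      (Pp_inner_int ϑ hf hB _ t), ← integral_const_mul]
  simp only [e1]
  rw [integral_integral_swap hGi, Pp_prod ϑ hf hB]
  apply integral_congr_ae
  filter_upwards [hJ] with p hp
  have e2 : ∀ η : ℝ, G η p = f p.2 p.1 * (p.2 * pe x t p.2 p.1) *
      (k η * cexp (I * η * ((p.2 * Real.cos (p.1 - ϑ) : ℝ) : ℂ))) +
      f p.2 p.1 * (p.2 * pe (-x) t p.2 p.1) *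
      (k η * cexp (I * η * ((-(p.2 * Real.cos (p.1 - ϑ)) : ℝ) : ℂ))) := by
    intro η
    simp only [hG]
    rw [pe_shift, pe_shift2]
    ring
  have hi : ∀ s : ℝ, Integrable fun η : ℝ => k η * cexp (I * η * s) := by
    intro s
    refine hk.mul_bdd (c := 1) ?_ (ae_of_all _ fun η => ?_)
    · exact (by fun_prop : Measurable fun η : ℝ => cexp (I * η * s)).aestronglyMeasurable
    · have : I * (η : ℂ) * s = ((η * s : ℝ) : ℂ) * I := by
        push_cast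
        ring
      rw [this, norm_exp_ofReal_mul_I]
  simp only [e2]
  rw [integral_add ((hi _).const_mul _) ((hi _).const_mul _), integral_const_mul,
    integral_const_mul]
  by_cases h : p.1 ∈ Sc ϑ
  · obtain ⟨h1, h2⟩ := cos_sector h hp
    rw [hk1 _ h1 h2, hk0 _ (by linarith)]
    ring
  · rw [hs _ _ h]
    ring

lemma Pp_meas (ϑ : ℝ) {f : ℝ → ℝ → ℂ} (hf : Measurable (Function.uncurry f)) :
    Measurable fun q : (ℝ × ℝ) × ℝ => Pp ϑ f q.1 q.2 := by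
  unfold Pp
  have h0 : Measurable fun q : (((ℝ × ℝ) × ℝ) × ℝ) × ℝ => f q.2 q.1.2 *
      (q.2 * pe q.1.1.1 q.1.1.2 q.2 q.1.2) := by
    apply Measurable.fun_mul
    · exact hf.comp (by fun_prop : Measurable fun q : (((ℝ × ℝ) × ℝ) × ℝ) × ℝ => (q.2, q.1.2))
    · apply Measurable.fun_mul (by fun_prop)
      exact pe_meas.comp (by fun_prop : Measurable fun q : (((ℝ × ℝ) × ℝ) × ℝ) × ℝ =>
        (q.1.1.1, q.1.1.2, q.2, q.1.2))
  have h1 : StronglyMeasurable fun q : ((ℝ × ℝ) × ℝ) × ℝ => ∫ r in Jr, f r q.2 *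
      (r * pe q.1.1 q.1.2 r q.2) := h0.stronglyMeasurable.integral_prod_right'
  have h2 : StronglyMeasurable fun q : (ℝ × ℝ) × ℝ => ∫ θ, (∫ r in Jr, f r θ *
      (r * pe q.1 q.2 r θ)) ∂(Jm ϑ) := h1.integral_prod_right'
  exact h2.measurable

attribute [local irreducible] Pp

/-- **The `L^q` bound of a piece in a sector.** -/
theorem Pp_Lq {q κ' : ℝ} (hq : 2 < q) (hq4 : q < 4) (h0 : 0 ≤ κ') (h1 : κ' * q < q - 2) :
    ∃ K : ℝ≥0∞, K < ⊤ ∧ ∀ ϑ : ℝ, Sc ϑ ⊆ Ioc (-Real.pi) Real.pi → ∀ f : ℝ → ℝ → ℂ,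
      Measurable (Function.uncurry f) → ∀ B : ℝ, (∀ r θ, ‖f r θ‖ ≤ B) →
      (∀ r θ, θ ∉ Sc ϑ → f r θ = 0) → ∀ V : ℝ → ℝ≥0∞, Measurable V →
      (∀ θ, ∀ r ∈ Jr, ‖f r θ‖ₑ ≤ V θ) → (∀ θ, eVariationOn (fun r => f r θ) Jr ≤ V θ) → ∀ t : ℝ,
      ∫⁻ x : ℝ × ℝ, ‖Pp ϑ f x t‖ₑ ^ q ≤
        K * ENNReal.ofReal (Mt t ^ (-(κ' * q))) * ∫⁻ θ, V θ ^ q ∂(Jm ϑ) := by
  have hq0 : 0 < q := by linarith
  obtain ⟨K, hK, HK⟩ := Ps_Lq hq hq4 h0 h1
  obtain ⟨k, hk, hk1, hk0⟩ := win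
  set N : ℝ≥0∞ := ∫⁻ η, ‖k η‖ₑ with hN
  have hNt : N < ⊤ := hk.2
  refine ⟨N ^ (q - 1) * N * K, ?_, ?_⟩
  · exact ENNReal.mul_lt_top (ENNReal.mul_lt_top
      (ENNReal.rpow_lt_top_of_nonneg (by linarith) hNt.ne) hNt) hK
  intro ϑ hϑ f hf B hB hs V hV hb hv t
  set S : ℝ × ℝ → ℂ := fun x => Pp ϑ f x t + Pp ϑ f (-x) t with hS
  have hPm := Pp_meas ϑ hf
  have hSm : Measurable S := by
    have m1 : Measurable fun x : ℝ × ℝ => Pp ϑ f x t :=
      hPm.comp (by fun_prop : Measurable fun x : ℝ × ℝ => (x, t))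
    have m2 : Measurable fun x : ℝ × ℝ => Pp ϑ f (-x) t :=
      hPm.comp (by fun_prop : Measurable fun x : ℝ × ℝ => (-x, t))
    exact m1.add m2
  have hj : AEMeasurable (Function.uncurry fun (x : ℝ × ℝ) (η : ℝ) => ‖k η‖ₑ * ‖S (x + η • ed ϑ)‖ₑ ^ q)
      ((volume : Measure (ℝ × ℝ)).prod (volume : Measure ℝ)) := by
    apply AEMeasurable.mul
    · exact hk.aestronglyMeasurable.enorm.comp_snd
    · exact ((hSm.comp (by fun_prop : Measurable fun q : (ℝ × ℝ) × ℝ => q.1 + q.2 • ed ϑ)).enorm.pow_const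
        q).aemeasurable
  calc ∫⁻ x : ℝ × ℝ, ‖Pp ϑ f x t‖ₑ ^ q
      ≤ ∫⁻ x : ℝ × ℝ, N ^ (q - 1) * ∫⁻ η, ‖k η‖ₑ * ‖S (x + η • ed ϑ)‖ₑ ^ q := by
        apply lintegral_mono
        intro x
        simp only
        rw [Pp_win hk hk1 hk0 ϑ hf hB hs x t]
        calc ‖∫ η, k η * (Pp ϑ f (x + η • ed ϑ) t + Pp ϑ f (-(x + η • ed ϑ)) t)‖ₑ ^ q
            ≤ (∫⁻ η, ‖k η‖ₑ * ‖S (x + η • ed ϑ)‖ₑ) ^ q := by
              gcongr
              refine (enorm_integral_le_lintegral_enorm _).trans (le_of_eq ?_)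
              apply lintegral_congr
              intro η
              rw [enorm_mul]
          _ ≤ _ := wh (μ := volume) hk.aestronglyMeasurable.enorm
              (hSm.comp (by fun_prop : Measurable fun η : ℝ => x + η • ed ϑ)).enorm.aemeasurable
              (by linarith)
    _ = N ^ (q - 1) * ∫⁻ η, ∫⁻ x : ℝ × ℝ, ‖k η‖ₑ * ‖S (x + η • ed ϑ)‖ₑ ^ q := by
        rw [lintegral_const_mul' _ _ (ENNReal.rpow_ne_top_of_nonneg (by linarith) hNt.ne),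
          lintegral_lintegral_swap hj]
    _ = N ^ (q - 1) * ∫⁻ η, ‖k η‖ₑ * ∫⁻ x : ℝ × ℝ, ‖S x‖ₑ ^ q := by
        congr 1
        apply lintegral_congr
        intro η
        rw [lintegral_const_mul' _ _ enorm_ne_top,
          lintegral_add_right_eq_self (fun x : ℝ × ℝ => ‖S x‖ₑ ^ q) (η • ed ϑ)]
    _ = N ^ (q - 1) * (N * ∫⁻ x : ℝ × ℝ, ‖S x‖ₑ ^ q) := by
        rw [lintegral_mul_const'' _ hk.aestronglyMeasurable.enorm]
    _ ≤ N ^ (q - 1) * (N * (K * ENNReal.ofReal (Mt t ^ (-(κ' * q))) * ∫⁻ θ, V θ ^ q ∂(Jm ϑ))) := by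
        refine mul_le_mul' le_rfl (mul_le_mul' le_rfl ?_)
        exact HK ϑ hϑ f hf B hB hs V hV hb hv t
    _ = _ := by ring

end Pool.Agent.U506.RR
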