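import Mathlib
import Pool.Agent.U506.RR.G1
set_option autoImplicit false

/-! The annular piece with all angles. -/

namespace Pool.Agent.U506.RR

open MeasureTheory Set Complex
open scoped ENNReal NNReal

/-- all angles -/
def An : Set ℝ := Ioc (-Real.pi) Real.pi

/-- the inner integral -/
noncomputable def Pin (f : ℝ → ℝ → ℂ) (x : ℝ × ℝ) (t θ : ℝ) : ℂ :=
  ∫ r in Jr, f r θ * (r * pe x t r θ)

/-- the extension of an annular piece, all angles -/
noncomputable def Pa (f : ℝ → ℝ → ℂ) (x : ℝ × ℝ) (t : ℝ) : ℂ := ∫ θ in An, Pin f x t θ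

/-- the restriction to a sector -/
noncomputable def sec (ϑ : ℝ) (f : ℝ → ℝ → ℂ) (r θ : ℝ) : ℂ := (Sc ϑ).indicator (f r) θ

lemma An_meas : MeasurableSet An := measurableSet_Ioc

lemma Sc_meas (ϑ : ℝ) : MeasurableSet (Sc ϑ) := measurableSet_Ioc

lemma sec_meas (ϑ : ℝ) {f : ℝ → ℝ → ℂ} (hf : Measurable (Function.uncurry f)) :
    Measurable (Function.uncurry (sec ϑ f)) := by
  have e : Function.uncurry (sec ϑ f) = {p : ℝ × ℝ | p.2 ∈ Sc ϑ}.indicator (Function.uncurry f) := by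
    ext p
    change (Sc ϑ).indicator (f p.1) p.2 = _
    by_cases h : p.2 ∈ Sc ϑ
    · rw [indicator_of_mem h, indicator_of_mem (show p ∈ {p : ℝ × ℝ | p.2 ∈ Sc ϑ} from h)]
      rfl
    · rw [indicator_of_notMem h, indicator_of_notMem (show p ∉ {p : ℝ × ℝ | p.2 ∈ Sc ϑ} from h)]
  rw [e]
  exact hf.indicator (measurable_snd (Sc_meas ϑ))

lemma sec_bd (ϑ : ℝ) {f : ℝ → ℝ → ℂ} {B : ℝ} (hB : ∀ r θ, ‖f r θ‖ ≤ B) (r θ : ℝ) :
    ‖sec ϑ f r θ‖ ≤ B := (norm_indicator_le_norm_self (f r) θ).trans (hB r θ)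

lemma Pin_meas {f : ℝ → ℝ → ℂ} (hf : Measurable (Function.uncurry f)) :
    Measurable fun q : ((ℝ × ℝ) × ℝ) × ℝ => Pin f q.1.1 q.1.2 q.2 := by
  unfold Pin
  have h0 : Measurable fun q : (((ℝ × ℝ) × ℝ) × ℝ) × ℝ => f q.2 q.1.2 *
      (q.2 * pe q.1.1.1 q.1.1.2 q.2 q.1.2) := by
    apply Measurable.fun_mul
    · exact hf.comp (by fun_prop : Measurable fun q : (((ℝ × ℝ) × ℝ) × ℝ) × ℝ => (q.2, q.1.2))
    · apply Measurable.fun_mul (by fun_prop)
      exact pe_meas.comp (by fun_prop : Measurable fun q : (((ℝ × ℝ) × ℝ) × ℝ) × ℝ =>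
        (q.1.1.1, q.1.1.2, q.2, q.1.2))
  have h1 : StronglyMeasurable fun q : ((ℝ × ℝ) × ℝ) × ℝ => ∫ r in Jr, f r q.2 *
      (r * pe q.1.1 q.1.2 r q.2) := h0.stronglyMeasurable.integral_prod_right'
  exact h1.measurable

lemma Pa_meas {f : ℝ → ℝ → ℂ} (hf : Measurable (Function.uncurry f)) :
    Measurable fun q : (ℝ × ℝ) × ℝ => Pa f q.1 q.2 := by
  unfold Pa
  have h1 := (Pin_meas hf).stronglyMeasurable
  have h2 : StronglyMeasurable fun q : (ℝ × ℝ) × ℝ => ∫ θ in An, Pin f q.1 q.2 θ :=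
    h1.integral_prod_right'
  exact h2.measurable

lemma Pin_enorm {f : ℝ → ℝ → ℂ} {V : ℝ → ℝ≥0∞} {θ : ℝ} (hb : ∀ r ∈ Jr, ‖f r θ‖ₑ ≤ V θ)
    (x : ℝ × ℝ) (t : ℝ) : ‖Pin f x t θ‖ₑ ≤ V θ := by
  unfold Pin
  refine (enorm_integral_le_lintegral_enorm _).trans ?_
  calc ∫⁻ r in Jr, ‖f r θ * (r * pe x t r θ)‖ₑ ≤ ∫⁻ r in Jr, V θ := by
        apply setLIntegral_mono' Jr_meas
        intro r hr
        rw [enorm_mul, enorm_mul]
        have h1 : ‖pe x t r θ‖ₑ = 1 := by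
          rw [← ofReal_norm, pe_norm, ENNReal.ofReal_one]
        have h2 : ‖(r : ℂ)‖ₑ ≤ 1 := by
          rw [← ofReal_norm, norm_real, Real.norm_of_nonneg (by linarith [hr.1])]
          rw [← ENNReal.ofReal_one]
          exact ENNReal.ofReal_le_ofReal hr.2
        rw [h1, mul_one]
        calc ‖f r θ‖ₑ * ‖(r : ℂ)‖ₑ ≤ V θ * 1 := mul_le_mul' (hb r hr) h2
          _ = V θ := mul_one _
    _ = V θ * ENNReal.ofReal (1 / 2) := by
        rw [setLIntegral_const, vol_Jr]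
    _ ≤ V θ * 1 := by
        refine mul_le_mul' le_rfl ?_
        rw [← ENNReal.ofReal_one]
        exact ENNReal.ofReal_le_ofReal (by norm_num)
    _ = V θ := mul_one _

lemma Pin_norm {f : ℝ → ℝ → ℂ} {B : ℝ} (hB : ∀ r θ, ‖f r θ‖ ≤ B) (x : ℝ × ℝ) (t θ : ℝ) :
    ‖Pin f x t θ‖ ≤ B := by
  have hB0 : 0 ≤ B := (norm_nonneg _).trans (hB 0 0)
  have h := Pin_enorm (V := fun _ => ENNReal.ofReal B) (f := f) (θ := θ) (fun r _ => by
    rw [← ofReal_norm]
    exact ENNReal.ofReal_le_ofReal (hB r θ)) x t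
  rw [← ofReal_norm] at h
  exact (ENNReal.ofReal_le_ofReal_iff hB0).1 h

lemma Pin_intOn {f : ℝ → ℝ → ℂ} (hf : Measurable (Function.uncurry f)) {B : ℝ}
    (hB : ∀ r θ, ‖f r θ‖ ≤ B) (x : ℝ × ℝ) (t a b : ℝ) :
    IntervalIntegrable (fun θ => Pin f x t θ) volume a b := by
  have hm : Measurable fun θ => Pin f x t θ :=
    (Pin_meas hf).comp (by fun_prop : Measurable fun θ : ℝ => ((x, t), θ))
  constructor
  · exact IntegrableOn.of_bound (C := B) (by rw [Real.volume_Ioc]; exact ENNReal.ofReal_lt_top)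
      hm.aestronglyMeasurable.restrict (ae_of_all _ fun θ => Pin_norm hB x t θ)
  · exact IntegrableOn.of_bound (C := B) (by rw [Real.volume_Ioc]; exact ENNReal.ofReal_lt_top)
      hm.aestronglyMeasurable.restrict (ae_of_all _ fun θ => Pin_norm hB x t θ)

lemma Pp_sec (ϑ : ℝ) (f : ℝ → ℝ → ℂ) (x : ℝ × ℝ) (t : ℝ) :
    Pp ϑ (sec ϑ f) x t = ∫ θ in Sc ϑ, Pin f x t θ := by
  have e1 : ∀ θ, ∫ r in Jr, sec ϑ f r θ * (r * pe x t r θ) =
      (Sc ϑ).indicator (fun θ => Pin f x t θ) θ := by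
    intro θ
    by_cases h : θ ∈ Sc ϑ
    · rw [indicator_of_mem h]
      unfold Pin sec
      simp only [indicator_of_mem h]
    · rw [indicator_of_notMem h]
      unfold sec
      simp only [indicator_of_notMem h, zero_mul, integral_zero]
  unfold Pp
  simp only [e1]
  rw [Jm_eq ϑ (F := (Sc ϑ).indicator (fun θ => Pin f x t θ)) (fun θ hθ => indicator_of_notMem hθ _),
    integral_indicator (Sc_meas ϑ)]

lemma Sc1 : Sc (-(3 * Real.pi / 4)) = Ioc (-Real.pi) (-(Real.pi / 2)) := by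
  unfold Sc
  congr 1 <;> ring

lemma Sc2 : Sc (-(Real.pi / 4)) = Ioc (-(Real.pi / 2)) 0 := by
  unfold Sc
  congr 1 <;> ring

lemma Sc3 : Sc (Real.pi / 4) = Ioc 0 (Real.pi / 2) := by
  unfold Sc
  congr 1 <;> ring

lemma Sc4 : Sc (3 * Real.pi / 4) = Ioc (Real.pi / 2) Real.pi := by
  unfold Sc
  congr 1 <;> ring

lemma Pa_sum {f : ℝ → ℝ → ℂ} (hf : Measurable (Function.uncurry f)) {B : ℝ}
    (hB : ∀ r θ, ‖f r θ‖ ≤ B) (x : ℝ × ℝ) (t : ℝ) :
    Pa f x t = (Pp (-(3 * Real.pi / 4)) (sec (-(3 * Real.pi / 4)) f) x t +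
      Pp (-(Real.pi / 4)) (sec (-(Real.pi / 4)) f) x t) +
      (Pp (Real.pi / 4) (sec (Real.pi / 4) f) x t +
        Pp (3 * Real.pi / 4) (sec (3 * Real.pi / 4) f) x t) := by
  have hpi := Real.pi_pos
  rw [Pp_sec, Pp_sec, Pp_sec, Pp_sec, Sc1, Sc2, Sc3, Sc4]
  unfold Pa An
  rw [← intervalIntegral.integral_of_le (by linarith), ← intervalIntegral.integral_of_le (by linarith),
    ← intervalIntegral.integral_of_le (by linarith), ← intervalIntegral.integral_of_le (by linarith),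
    ← intervalIntegral.integral_of_le (by linarith)]
  have hi := fun a b => Pin_intOn hf hB x t a b
  rw [intervalIntegral.integral_add_adjacent_intervals (hi _ _) (hi _ _),
    intervalIntegral.integral_add_adjacent_intervals (hi _ _) (hi _ _),
    intervalIntegral.integral_add_adjacent_intervals (hi _ _) (hi _ _)]

lemma two_rpow {q : ℝ} (hq : 1 ≤ q) (x y : ℝ≥0∞) : (x + y) ^ q ≤ 2 ^ (q - 1) * (x ^ q + y ^ q) :=
  ENNReal.rpow_add_le_mul_rpow_add_rpow x y hq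

lemma sec_var (ϑ : ℝ) {f : ℝ → ℝ → ℂ} {V : ℝ → ℝ≥0∞}
    (hv : ∀ θ, eVariationOn (fun r => f r θ) Jr ≤ V θ) (θ : ℝ) :
    eVariationOn (fun r => sec ϑ f r θ) Jr ≤ (Sc ϑ).indicator V θ := by
  unfold sec
  by_cases h : θ ∈ Sc ϑ
  · simp only [indicator_of_mem h]
    exact hv θ
  · simp only [indicator_of_notMem h]
    rw [eVariationOn.constant_on]
    rintro _ ⟨r, _, rfl⟩ _ ⟨r', _, rfl⟩
    rfl

lemma sec_sup (ϑ : ℝ) {f : ℝ → ℝ → ℂ} {V : ℝ → ℝ≥0∞}
    (hb : ∀ θ, ∀ r ∈ Jr, ‖f r θ‖ₑ ≤ V θ) (θ r : ℝ) (hr : r ∈ Jr) :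
    ‖sec ϑ f r θ‖ₑ ≤ (Sc ϑ).indicator V θ := by
  unfold sec
  by_cases h : θ ∈ Sc ϑ
  · simp only [indicator_of_mem h]
    exact hb θ r hr
  · simp only [indicator_of_notMem h]
    simp

lemma sec_V {ϑ : ℝ} (hϑ : Sc ϑ ⊆ An) {q : ℝ} (hq : 0 < q) (V : ℝ → ℝ≥0∞) :
    ∫⁻ θ, (Sc ϑ).indicator V θ ^ q ∂(Jm ϑ) ≤ ∫⁻ θ in An, V θ ^ q := by
  rw [Jm_leq ϑ (F := fun θ => (Sc ϑ).indicator V θ ^ q) (fun θ hθ => by
    rw [indicator_of_notMem hθ, ENNReal.zero_rpow_of_pos hq]),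
    ← lintegral_indicator An_meas]
  apply lintegral_mono
  intro θ
  simp only
  by_cases h : θ ∈ Sc ϑ
  · rw [indicator_of_mem h, indicator_of_mem (hϑ h)]
  · rw [indicator_of_notMem h, ENNReal.zero_rpow_of_pos hq]
    exact bot_le

attribute [local irreducible] Pp Pa

/-- **The `L^q` bound of the annular piece, `2 < q < 4`.** -/
theorem Pa_Lq {q κ' : ℝ} (hq : 2 < q) (hq4 : q < 4) (h0 : 0 ≤ κ') (h1 : κ' * q < q - 2) :
    ∃ K : ℝ≥0∞, K < ⊤ ∧ ∀ f : ℝ → ℝ → ℂ,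
      Measurable (Function.uncurry f) → ∀ B : ℝ, (∀ r θ, ‖f r θ‖ ≤ B) →
      ∀ V : ℝ → ℝ≥0∞, Measurable V →
      (∀ θ, ∀ r ∈ Jr, ‖f r θ‖ₑ ≤ V θ) → (∀ θ, eVariationOn (fun r => f r θ) Jr ≤ V θ) → ∀ t : ℝ,
      ∫⁻ x : ℝ × ℝ, ‖Pa f x t‖ₑ ^ q ≤
        K * ENNReal.ofReal (Mt t ^ (-(κ' * q))) * ∫⁻ θ in An, V θ ^ q := by
  have hpi := Real.pi_pos
  have hq0 : 0 < q := by linarith
  have hq1 : 1 ≤ q := by linarith
  obtain ⟨K, hK, HK⟩ := Pp_Lq hq hq4 h0 h1
  set T : ℝ≥0∞ := 2 ^ (q - 1) with hT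
  have hTt : T < ⊤ := ENNReal.rpow_lt_top_of_nonneg (by linarith) (by norm_num)
  refine ⟨T * (T * (4 * K)), ENNReal.mul_lt_top hTt (ENNReal.mul_lt_top hTt
    (ENNReal.mul_lt_top (by norm_num) hK)), ?_⟩
  intro f hf B hB V hV hb hv t
  set R : ℝ≥0∞ := K * ENNReal.ofReal (Mt t ^ (-(κ' * q))) * ∫⁻ θ in An, V θ ^ q with hR
  have hsub : ∀ ϑ : ℝ, -Real.pi ≤ ϑ - Real.pi / 4 → ϑ + Real.pi / 4 ≤ Real.pi → Sc ϑ ⊆ An := by
    intro ϑ ha hb' θ hθ
    exact ⟨by linarith [hθ.1], by linarith [hθ.2]⟩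
  have key : ∀ ϑ : ℝ, -Real.pi ≤ ϑ - Real.pi / 4 → ϑ + Real.pi / 4 ≤ Real.pi →
      ∫⁻ x : ℝ × ℝ, ‖Pp ϑ (sec ϑ f) x t‖ₑ ^ q ≤ R := by
    intro ϑ ha hb'
    have h3 := HK ϑ (hsub ϑ ha hb') (sec ϑ f) (sec_meas ϑ hf) B (sec_bd ϑ hB)
      (fun r θ hθ => indicator_of_notMem hθ _) ((Sc ϑ).indicator V) (hV.indicator (Sc_meas ϑ))
      (sec_sup ϑ hb) (sec_var ϑ hv) t
    refine h3.trans ?_
    rw [hR]
    exact mul_le_mul' le_rfl (sec_V (hsub ϑ ha hb') hq0 V)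
  have hm : ∀ ϑ : ℝ, Measurable fun x : ℝ × ℝ => ‖Pp ϑ (sec ϑ f) x t‖ₑ ^ q := by
    intro ϑ
    have h4 : Measurable fun x : ℝ × ℝ => Pp ϑ (sec ϑ f) x t :=
      (Pp_meas ϑ (sec_meas ϑ hf)).comp (by fun_prop : Measurable fun x : ℝ × ℝ => (x, t))
    exact h4.enorm.pow_const q
  have k1 := key (-(3 * Real.pi / 4)) (by linarith) (by linarith)
  have k2 := key (-(Real.pi / 4)) (by linarith) (by linarith)
  have k3 := key (Real.pi / 4) (by linarith) (by linarith)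
  have k4 := key (3 * Real.pi / 4) (by linarith) (by linarith)
  calc ∫⁻ x : ℝ × ℝ, ‖Pa f x t‖ₑ ^ q
      ≤ ∫⁻ x : ℝ × ℝ, T * (T * ((‖Pp (-(3 * Real.pi / 4)) (sec (-(3 * Real.pi / 4)) f) x t‖ₑ ^ q +
          ‖Pp (-(Real.pi / 4)) (sec (-(Real.pi / 4)) f) x t‖ₑ ^ q) +
        (‖Pp (Real.pi / 4) (sec (Real.pi / 4) f) x t‖ₑ ^ q +
          ‖Pp (3 * Real.pi / 4) (sec (3 * Real.pi / 4) f) x t‖ₑ ^ q))) := by
        apply lintegral_mono
        intro x
        simp only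
        rw [Pa_sum hf hB]
        set a := Pp (-(3 * Real.pi / 4)) (sec (-(3 * Real.pi / 4)) f) x t
        set b := Pp (-(Real.pi / 4)) (sec (-(Real.pi / 4)) f) x t
        set c := Pp (Real.pi / 4) (sec (Real.pi / 4) f) x t
        set d := Pp (3 * Real.pi / 4) (sec (3 * Real.pi / 4) f) x t
        calc ‖(a + b) + (c + d)‖ₑ ^ q ≤ (‖a + b‖ₑ + ‖c + d‖ₑ) ^ q := by
              gcongr
              exact enorm_add_le _ _
          _ ≤ T * (‖a + b‖ₑ ^ q + ‖c + d‖ₑ ^ q) := two_rpow hq1 _ _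
          _ ≤ T * (T * (‖a‖ₑ ^ q + ‖b‖ₑ ^ q) + T * (‖c‖ₑ ^ q + ‖d‖ₑ ^ q)) := by
              refine mul_le_mul' le_rfl (add_le_add ?_ ?_)
              · refine le_trans ?_ (two_rpow hq1 _ _)
                gcongr
                exact enorm_add_le _ _
              · refine le_trans ?_ (two_rpow hq1 _ _)
                gcongr
                exact enorm_add_le _ _
          _ = _ := by ring
    _ ≤ T * (T * ((R + R) + (R + R))) := by
        have hm12 : Measurable fun x : ℝ × ℝ =>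
            ‖Pp (-(3 * Real.pi / 4)) (sec (-(3 * Real.pi / 4)) f) x t‖ₑ ^ q +
            ‖Pp (-(Real.pi / 4)) (sec (-(Real.pi / 4)) f) x t‖ₑ ^ q := (hm _).add (hm _)
        rw [lintegral_const_mul' _ _ hTt.ne, lintegral_const_mul' _ _ hTt.ne,
          lintegral_add_left hm12, lintegral_add_left (hm _),
          lintegral_add_left (hm _)]
        gcongr
    _ = _ := by
        rw [hR]
        ring

lemma An_vol : volume An = ENNReal.ofReal (2 * Real.pi) := by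
  unfold An
  rw [Real.volume_Ioc]
  congr 1
  ring

lemma Pa_inf {f : ℝ → ℝ → ℂ} {V : ℝ → ℝ≥0∞} (hb : ∀ θ, ∀ r ∈ Jr, ‖f r θ‖ₑ ≤ V θ)
    (x : ℝ × ℝ) (t : ℝ) : ‖Pa f x t‖ₑ ≤ ∫⁻ θ in An, V θ := by
  unfold Pa
  refine (enorm_integral_le_lintegral_enorm _).trans ?_
  apply lintegral_mono
  intro θ
  exact Pin_enorm (hb θ) x t

/-- Hölder on the circle -/
lemma An_holder {p q : ℝ} (hp : 0 < p) (hpq : p < q) {V : ℝ → ℝ≥0∞} (hV : Measurable V) :
    ∫⁻ θ in An, V θ ^ p ≤ ENNReal.ofReal (2 * Real.pi) ^ (1 - p / q) *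
      (∫⁻ θ in An, V θ ^ q) ^ (p / q) := by
  have hq : 0 < q := hp.trans hpq
  have h1 : 1 < q / p := (one_lt_div hp).2 hpq
  have h := wh (μ := volume.restrict An) (w := fun _ => (1 : ℝ≥0∞)) (h := fun θ => V θ ^ p)
    aemeasurable_const (hV.pow_const p).aemeasurable h1
  simp only [one_mul, lintegral_one, Measure.restrict_apply_univ, An_vol] at h
  have e1 : ∀ θ, (V θ ^ p) ^ (q / p) = V θ ^ q := by
    intro θ
    rw [← ENNReal.rpow_mul]
    congr 1
    field_simp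
  simp only [e1] at h
  have h2 := ENNReal.rpow_le_rpow h (z := p / q) (by positivity)
  rw [← ENNReal.rpow_mul, ENNReal.mul_rpow_of_nonneg _ _ (by positivity), ← ENNReal.rpow_mul] at h2
  have e2 : q / p * (p / q) = 1 := by field_simp
  have e3 : (q / p - 1) * (p / q) = 1 - p / q := by
    field_simp
  rw [e2, e3, ENNReal.rpow_one] at h2
  exact h2

/-- **The `L^q` bound of the annular piece, all `q > 2`.** -/
theorem Pa_main {q a : ℝ} (hq : 2 < q) (ha0 : 0 ≤ a) (ha : a < q - 2) (ha2 : a < 2) :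
    ∃ K : ℝ≥0∞, K < ⊤ ∧ ∀ f : ℝ → ℝ → ℂ,
      Measurable (Function.uncurry f) → ∀ B : ℝ, (∀ r θ, ‖f r θ‖ ≤ B) →
      ∀ V : ℝ → ℝ≥0∞, Measurable V →
      (∀ θ, ∀ r ∈ Jr, ‖f r θ‖ₑ ≤ V θ) → (∀ θ, eVariationOn (fun r => f r θ) Jr ≤ V θ) → ∀ t : ℝ,
      ∫⁻ x : ℝ × ℝ, ‖Pa f x t‖ₑ ^ q ≤
        K * ENNReal.ofReal (Mt t ^ (-a)) * ∫⁻ θ in An, V θ ^ q := by
  have hq0 : 0 < q := by linarith
  rcases lt_or_ge q 4 with hq4 | hq4
  · have e : a / q * q = a := by field_simp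
    obtain ⟨K, hK, HK⟩ := Pa_Lq hq hq4 (κ' := a / q) (by positivity) (by rw [e]; exact ha)
    rw [e] at HK
    exact ⟨K, hK, HK⟩
  · set p : ℝ := (a + 6) / 2 with hp
    have hp0 : 0 < p := by positivity
    have hp2 : 2 < p := by rw [hp]; linarith
    have hp4 : p < 4 := by rw [hp]; linarith
    have hpq : p < q := by linarith
    have e : a / p * p = a := by field_simp
    obtain ⟨K, hK, HK⟩ := Pa_Lq hp2 hp4 (κ' := a / p) (by positivity) (by
      rw [e, hp]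
      linarith)
    rw [e] at HK
    set c : ℝ≥0∞ := ENNReal.ofReal (2 * Real.pi) with hc
    have hct : c < ⊤ := ENNReal.ofReal_lt_top
    refine ⟨(c ^ (1 - 1 / q)) ^ (q - p) * (K * c ^ (1 - p / q)), ?_, ?_⟩
    · have hpq1 : p / q < 1 := (div_lt_one hq0).2 hpq
      have h1q : 1 / q < 1 := (div_lt_one hq0).2 (by linarith)
      refine ENNReal.mul_lt_top ?_ (ENNReal.mul_lt_top hK ?_)
      · exact ENNReal.rpow_lt_top_of_nonneg (by linarith)
          (ENNReal.rpow_lt_top_of_nonneg (by linarith) hct.ne).ne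
      · exact ENNReal.rpow_lt_top_of_nonneg (by linarith) hct.ne
    intro f hf B hB V hV hb hv t
    set A : ℝ≥0∞ := ∫⁻ θ in An, V θ ^ q with hA
    have hN1 : ∫⁻ θ in An, V θ ≤ c ^ (1 - 1 / q) * A ^ (1 / q) := by
      have h := An_holder (p := 1) (q := q) one_pos (by linarith) hV
      simp only [ENNReal.rpow_one] at h
      exact h
    have hNp := An_holder hp0 hpq hV
    rcases eq_or_ne A ⊤ with hAt | hAt
    · have h3 := HK f hf B hB V hV hb hv t
      rcases eq_or_ne ((c ^ (1 - 1 / q)) ^ (q - p) * (K * c ^ (1 - p / q)) *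
        ENNReal.ofReal (Mt t ^ (-a))) 0 with h0 | h0
      · rw [h0, zero_mul]
        have hc0 : c ≠ 0 := by
          rw [hc]
          have := Real.pi_pos
          simp only [ne_eq, ENNReal.ofReal_eq_zero, not_le]
          positivity
        have hM0 : ENNReal.ofReal (Mt t ^ (-a)) ≠ 0 := by
          have := Mt_pos t
          simp only [ne_eq, ENNReal.ofReal_eq_zero, not_le]
          positivity
        have hcp : ∀ y : ℝ, c ^ y ≠ 0 := fun y => (ENNReal.rpow_pos (pos_iff_ne_zero.2 hc0) hct.ne).ne'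
        have hcp2 : (c ^ (1 - 1 / q)) ^ (q - p) ≠ 0 := by
          rw [← ENNReal.rpow_mul]
          exact hcp _
        have hK0 : K = 0 := by
          by_contra hK0
          exact (mul_ne_zero (mul_ne_zero hcp2 (mul_ne_zero hK0 (hcp _))) hM0) h0
        rw [hK0, zero_mul, zero_mul, nonpos_iff_eq_zero] at h3
        have hfm : Measurable fun x : ℝ × ℝ => Pa f x t :=
          (Pa_meas hf).comp (by fun_prop : Measurable fun x : ℝ × ℝ => (x, t))
        rw [lintegral_eq_zero_iff (hfm.enorm.pow_const p)] at h3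
        apply le_of_eq
        rw [lintegral_eq_zero_iff (hfm.enorm.pow_const q)]
        filter_upwards [h3] with x hx
        simp only [Pi.zero_apply, ENNReal.rpow_eq_zero_iff, enorm_eq_zero, enorm_ne_top, false_and,
          or_false] at hx ⊢
        exact ⟨hx.1, hq0⟩
      · rw [hAt, ENNReal.mul_top h0]
        exact le_top
    have hN1t : ∫⁻ θ in An, V θ ≠ ⊤ := by
      refine (hN1.trans_lt (ENNReal.mul_lt_top ?_ ?_)).ne
      · exact ENNReal.rpow_lt_top_of_nonneg (by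
          have : 1 / q < 1 := (div_lt_one hq0).2 (by linarith)
          linarith) hct.ne
      · exact ENNReal.rpow_lt_top_of_nonneg (by positivity) hAt
    calc ∫⁻ x : ℝ × ℝ, ‖Pa f x t‖ₑ ^ q
        ≤ ∫⁻ x : ℝ × ℝ, (∫⁻ θ in An, V θ) ^ (q - p) * ‖Pa f x t‖ₑ ^ p := by
          apply lintegral_mono
          intro x
          simp only
          have e5 : ‖Pa f x t‖ₑ ^ q = ‖Pa f x t‖ₑ ^ (q - p) * ‖Pa f x t‖ₑ ^ p := by
            rw [← ENNReal.rpow_add_of_nonneg _ _ (by linarith) hp0.le]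
            congr 1
            ring
          rw [e5]
          gcongr
          exact Pa_inf hb x t
      _ = (∫⁻ θ in An, V θ) ^ (q - p) * ∫⁻ x : ℝ × ℝ, ‖Pa f x t‖ₑ ^ p := by
          rw [lintegral_const_mul' _ _ (ENNReal.rpow_ne_top_of_nonneg (by linarith) hN1t)]
      _ ≤ (c ^ (1 - 1 / q) * A ^ (1 / q)) ^ (q - p) * (K * ENNReal.ofReal (Mt t ^ (-a)) *
            (c ^ (1 - p / q) * A ^ (p / q))) := by
          refine mul_le_mul' ?_ ?_
          · gcongr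
          · refine (HK f hf B hB V hV hb hv t).trans ?_
            gcongr
      _ = _ := by
          rw [ENNReal.mul_rpow_of_nonneg _ _ (by linarith), ← ENNReal.rpow_mul (A)]
          have e6 : A ^ (1 / q * (q - p)) * A ^ (p / q) = A := by
            have hpq0 : 0 ≤ p / q := by positivity
            rw [← ENNReal.rpow_add_of_nonneg _ _ (by
              have : 0 < q - p := by linarith
              positivity) hpq0]
            have : 1 / q * (q - p) + p / q = 1 := by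
              field_simp
              ring
            rw [this, ENNReal.rpow_one]
          calc (c ^ (1 - 1 / q)) ^ (q - p) * A ^ (1 / q * (q - p)) *
                (K * ENNReal.ofReal (Mt t ^ (-a)) * (c ^ (1 - p / q) * A ^ (p / q))) =
              (c ^ (1 - 1 / q)) ^ (q - p) * (K * c ^ (1 - p / q)) * ENNReal.ofReal (Mt t ^ (-a)) *
                (A ^ (1 / q * (q - p)) * A ^ (p / q)) := by ring
            _ = _ := by rw [e6]

end Pool.Agent.U506.RR
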