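import Mathlib
import Pool.Agent.U506.RR.G2
set_option autoImplicit false

/-! Polar coordinates, scaling and translation. -/

namespace Pool.Agent.U506.RR

open MeasureTheory Set Complex
open scoped ENNReal NNReal

/-- the phase -/
noncomputable def ph (x : ℝ × ℝ) (t : ℝ) (ξ : ℝ × ℝ) : ℂ :=
  cexp (I * ((ξ.1 * x.1 + ξ.2 * x.2 + t * (ξ.1 ^ 2 + ξ.2 ^ 2) : ℝ) : ℂ))

/-- the extension operator at a fixed time -/
noncomputable def Kx (f : ℝ × ℝ → ℂ) (x : ℝ × ℝ) (t : ℝ) : ℂ := ∫ ξ : ℝ × ℝ, f ξ * ph x t ξ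

/-- the point in polar coordinates -/
noncomputable def pt (p : ℝ × ℝ) (r θ : ℝ) : ℝ × ℝ :=
  (p.1 + r * Real.cos θ, p.2 + r * Real.sin θ)

/-- the annulus -/
def Ann (p : ℝ × ℝ) (ρ : ℝ) : Set (ℝ × ℝ) := {ξ | ρ / 2 < ln (ξ - p) ∧ ln (ξ - p) ≤ ρ}

lemma ph_norm (x : ℝ × ℝ) (t : ℝ) (ξ : ℝ × ℝ) : ‖ph x t ξ‖ = 1 := by
  unfold ph
  rw [mul_comm, norm_exp_ofReal_mul_I]

lemma ph_meas : Measurable fun q : ((ℝ × ℝ) × ℝ) × ℝ × ℝ => ph q.1.1 q.1.2 q.2 := by
  unfold ph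
  fun_prop

lemma pt_meas : Measurable fun q : (ℝ × ℝ) × ℝ × ℝ => pt q.1 q.2.1 q.2.2 := by
  unfold pt
  fun_prop

lemma Ann_meas (p : ℝ × ℝ) (ρ : ℝ) : MeasurableSet (Ann p ρ) := by
  have h : Measurable fun ξ : ℝ × ℝ => ln (ξ - p) :=
    (ln_cont.comp (by fun_prop : Continuous fun ξ : ℝ × ℝ => ξ - p)).measurable
  exact (measurableSet_lt measurable_const h).inter (measurableSet_le h measurable_const)

lemma Kx_meas {f : ℝ × ℝ → ℂ} (hf : Measurable f) :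
    Measurable fun q : (ℝ × ℝ) × ℝ => Kx f q.1 q.2 := by
  unfold Kx
  have h0 : Measurable fun q : ((ℝ × ℝ) × ℝ) × ℝ × ℝ => f q.2 * ph q.1.1 q.1.2 q.2 :=
    (hf.comp measurable_snd).mul ph_meas
  have h1 : StronglyMeasurable fun q : (ℝ × ℝ) × ℝ => ∫ ξ : ℝ × ℝ, f ξ * ph q.1 q.2 ξ :=
    h0.stronglyMeasurable.integral_prod_right'
  exact h1.measurable

lemma Kx_trans (f : ℝ × ℝ → ℂ) (p x : ℝ × ℝ) (t : ℝ) :
    Kx f x t = ph x t p * Kx (fun η => f (p + η)) (x + (2 * t) • p) t := by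
  unfold Kx
  rw [← integral_add_left_eq_self (fun ξ : ℝ × ℝ => f ξ * ph x t ξ) p, ← integral_const_mul]
  apply integral_congr_ae
  refine ae_of_all _ fun η => ?_
  simp only
  have : ph x t (p + η) = ph x t p * ph (x + (2 * t) • p) t η := by
    unfold ph
    rw [← Complex.exp_add]
    congr 1
    simp only [Prod.fst_add, Prod.snd_add, Prod.smul_fst, Prod.smul_snd, smul_eq_mul]
    push_cast
    ring
  rw [this]
  ring

lemma ph_polar (y : ℝ × ℝ) (t r θ : ℝ) : ph y t (r * Real.cos θ, r * Real.sin θ) = pe y t r θ := by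
  unfold ph pe dt
  congr 2
  norm_cast
  simp only
  have := Real.sin_sq_add_cos_sq θ
  have h2 : (r * Real.cos θ) ^ 2 + (r * Real.sin θ) ^ 2 = r ^ 2 := by
    calc (r * Real.cos θ) ^ 2 + (r * Real.sin θ) ^ 2 =
        r ^ 2 * (Real.sin θ ^ 2 + Real.cos θ ^ 2) := by ring
      _ = _ := by rw [this, mul_one]
  rw [h2]
  ring

lemma pe_scale (y : ℝ × ℝ) (t ρ s θ : ℝ) : pe y t (ρ * s) θ = pe (ρ • y) (ρ ^ 2 * t) s θ := by
  unfold pe dt
  congr 2
  norm_cast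
  simp only [Prod.smul_fst, Prod.smul_snd, smul_eq_mul]
  ring

lemma Kx_polar {g : ℝ × ℝ → ℂ} (hg : Measurable g) {B : ℝ} (hB : ∀ η, ‖g η‖ ≤ B) {ρ : ℝ}
    (hρ : 0 < ρ) (hs : ∀ η, ¬ (ρ / 2 < ln η ∧ ln η ≤ ρ) → g η = 0) (y : ℝ × ℝ) (t : ℝ) :
    Kx g y t = ((ρ ^ 2 : ℝ) : ℂ) * Pa (fun s θ => g (pt 0 (ρ * s) θ)) (ρ • y) (ρ ^ 2 * t) := by
  have hB0 : 0 ≤ B := (norm_nonneg _).trans (hB 0)
  unfold Kx
  rw [← integral_comp_polarCoord_symm]
  have htar : polarCoord.target = Ioi (0 : ℝ) ×ˢ Ioo (-Real.pi) Real.pi := rfl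
  have hpt : ∀ p : ℝ × ℝ, polarCoord.symm p = (p.1 * Real.cos p.2, p.1 * Real.sin p.2) :=
    fun p => rfl
  set F : ℝ × ℝ → ℂ := fun p => g (pt 0 p.1 p.2) * (p.1 * pe y t p.1 p.2) with hF
  have hFm : Measurable F := by
    apply Measurable.mul
    · exact hg.comp (pt_meas.comp (by fun_prop : Measurable fun p : ℝ × ℝ => ((0 : ℝ × ℝ), p)))
    · apply Measurable.mul (by fun_prop)
      exact pe_meas.comp (by fun_prop : Measurable fun p : ℝ × ℝ => (y, t, p.1, p.2))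
  have e1 : ∫ p in polarCoord.target, p.1 • (g (polarCoord.symm p) * ph y t (polarCoord.symm p)) =
      ∫ p in Ioc (ρ / 2) ρ ×ˢ Ioo (-Real.pi) Real.pi, F p := by
    have e0 : ∫ p in polarCoord.target, p.1 • (g (polarCoord.symm p) * ph y t (polarCoord.symm p)) =
        ∫ p in polarCoord.target, F p := by
      apply setIntegral_congr_fun (by rw [htar]; exact measurableSet_Ioi.prod measurableSet_Ioo)
      intro p _
      simp only
      rw [hpt, ph_polar, Complex.real_smul]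
      simp only [hF, pt, Prod.fst_zero, Prod.snd_zero, zero_add]
      ring
    rw [e0, htar]
    apply setIntegral_eq_of_subset_of_forall_diff_eq_zero (measurableSet_Ioi.prod measurableSet_Ioo)
    · apply prod_mono_left
      intro r hr
      exact lt_trans (by positivity) hr.1
    · intro p hp
      have hp0 : (0 : ℝ) < p.1 := hp.1.1
      have h2 : ln (pt 0 p.1 p.2) = p.1 := by
        unfold pt
        simp only [Prod.fst_zero, Prod.snd_zero, zero_add]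
        exact ln_polar hp0.le _
      have h3 : g (pt 0 p.1 p.2) = 0 := by
        apply hs
        rw [h2]
        intro h4
        exact hp.2 ⟨⟨h4.1, h4.2⟩, hp.1.2⟩
      simp only [hF, h3, zero_mul]
  rw [e1, Measure.volume_eq_prod, ← Measure.prod_restrict]
  have hFi : Integrable F ((volume.restrict (Ioc (ρ / 2) ρ)).prod
      (volume.restrict (Ioo (-Real.pi) Real.pi))) := by
    refine Integrable.of_bound (C := B * (ρ * 1)) hFm.aestronglyMeasurable ?_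
    have h2 : ∀ᵐ q ∂((volume.restrict (Ioc (ρ / 2) ρ)).prod
        (volume.restrict (Ioo (-Real.pi) Real.pi))), q.1 ∈ Ioc (ρ / 2) ρ :=
      Measure.quasiMeasurePreserving_fst.ae (ae_restrict_mem measurableSet_Ioc)
    filter_upwards [h2] with q hq
    simp only [hF]
    have hq0 : 0 ≤ q.1 := (lt_trans (by positivity) hq.1).le
    rw [norm_mul, norm_mul, pe_norm, norm_real, Real.norm_of_nonneg hq0]
    exact mul_le_mul (hB _) (mul_le_mul_of_nonneg_right hq.2 zero_le_one) (by positivity) hB0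
  rw [integral_prod_symm _ hFi]
  unfold Pa An
  rw [integral_Ioc_eq_integral_Ioo, ← integral_const_mul]
  apply setIntegral_congr_fun measurableSet_Ioo
  intro θ _
  simp only
  have h5 : ∫ r in Ioc (ρ / 2) ρ, F (r, θ) = ρ • ∫ s in Jr, F (ρ * s, θ) := by
    unfold Jr
    rw [← intervalIntegral.integral_of_le (by linarith), ← intervalIntegral.integral_of_le (by norm_num),
      intervalIntegral.integral_comp_mul_left (fun r => F (r, θ)) hρ.ne', smul_smul,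
      mul_inv_cancel₀ hρ.ne', one_smul]
    congr 1 <;> ring
  rw [h5, Complex.real_smul]
  unfold Pin
  rw [← integral_const_mul, ← integral_const_mul]
  apply setIntegral_congr_fun Jr_meas
  intro s _
  simp only [hF]
  rw [pe_scale]
  push_cast
  ring

lemma Kx_ann {f : ℝ × ℝ → ℂ} (hf : Measurable f) {B : ℝ} (hB : ∀ η, ‖f η‖ ≤ B) (p : ℝ × ℝ) {ρ : ℝ}
    (hρ : 0 < ρ) (x : ℝ × ℝ) (t : ℝ) :
    ‖Kx ((Ann p ρ).indicator f) x t‖ₑ = ENNReal.ofReal (ρ ^ 2) *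
      ‖Pa (fun s θ => f (pt p (ρ * s) θ)) (ρ • (x + (2 * t) • p)) (ρ ^ 2 * t)‖ₑ := by
  rw [Kx_trans _ p, enorm_mul]
  have h1 : ‖ph x t p‖ₑ = 1 := by
    rw [← ofReal_norm, ph_norm, ENNReal.ofReal_one]
  rw [h1, one_mul]
  have hgm : Measurable fun η => (Ann p ρ).indicator f (p + η) :=
    (hf.indicator (Ann_meas p ρ)).comp (by fun_prop)
  rw [Kx_polar hgm (B := B) (fun η => (norm_indicator_le_norm_self f _).trans (hB _)) hρ, enorm_mul]
  · congr 1
    · rw [← ofReal_norm, norm_real, Real.norm_of_nonneg (by positivity)]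
    · congr 1
      unfold Pa Pin
      apply setIntegral_congr_fun An_meas
      intro θ _
      simp only
      apply setIntegral_congr_fun Jr_meas
      intro s hs
      simp only
      have h2 : p + pt 0 (ρ * s) θ = pt p (ρ * s) θ := by
        unfold pt
        ext
        · simp
        · simp
      rw [h2, indicator_of_mem]
      have h3 : pt p (ρ * s) θ - p = (ρ * s * Real.cos θ, ρ * s * Real.sin θ) := by
        unfold pt
        ext
        · simp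
        · simp
      have hs0 : 0 < s := lt_trans (by norm_num) hs.1
      unfold Ann
      simp only [mem_setOf_eq]
      rw [h3, ln_polar (by positivity)]
      constructor
      · have := hs.1
        nlinarith
      · have := hs.2
        nlinarith
  · intro η hη
    apply indicator_of_notMem
    unfold Ann
    simp only [mem_setOf_eq, add_sub_cancel_left]
    exact hη

lemma lint_scale {F : ℝ × ℝ → ℝ≥0∞} (hF : Measurable F) {ρ : ℝ} (hρ : 0 < ρ) (c : ℝ × ℝ) :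
    ∫⁻ x : ℝ × ℝ, F (ρ • (x + c)) = ENNReal.ofReal ((ρ ^ 2)⁻¹) * ∫⁻ y, F y := by
  rw [lintegral_add_right_eq_self (fun x : ℝ × ℝ => F (ρ • x)) c]
  have h := Measure.map_addHaar_smul (volume : Measure (ℝ × ℝ)) hρ.ne'
  rw [← lintegral_map hF (by fun_prop : Measurable fun x : ℝ × ℝ => ρ • x), h,
    lintegral_smul_measure]
  have : Module.finrank ℝ (ℝ × ℝ) = 2 := by simp
  rw [this, abs_of_pos (by positivity)]
  rfl

/-- **The `L^q` bound for an annulus.** -/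
theorem Kx_ann_Lq {q a : ℝ} (hq : 2 < q) (ha0 : 0 ≤ a) (ha : a < q - 2) (ha2 : a < 2) :
    ∃ K : ℝ≥0∞, K < ⊤ ∧ ∀ f : ℝ × ℝ → ℂ, Measurable f → ∀ B : ℝ, (∀ η, ‖f η‖ ≤ B) →
      ∀ p : ℝ × ℝ, ∀ ρ : ℝ, 0 < ρ → ∀ V : ℝ → ℝ≥0∞, Measurable V →
      (∀ θ, ∀ s ∈ Jr, ‖f (pt p (ρ * s) θ)‖ₑ ≤ V θ) →
      (∀ θ, eVariationOn (fun s => f (pt p (ρ * s) θ)) Jr ≤ V θ) → ∀ t : ℝ,
      ∫⁻ x : ℝ × ℝ, ‖Kx ((Ann p ρ).indicator f) x t‖ₑ ^ q ≤
        K * ENNReal.ofReal (ρ ^ (2 * q - 2) * Mt (ρ ^ 2 * t) ^ (-a)) * ∫⁻ θ in An, V θ ^ q := by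
  have hq0 : 0 < q := by linarith
  obtain ⟨K, hK, HK⟩ := Pa_main hq ha0 ha ha2
  refine ⟨K, hK, ?_⟩
  intro f hf B hB p ρ hρ V hV hb hv t
  set g : ℝ → ℝ → ℂ := fun s θ => f (pt p (ρ * s) θ) with hg
  have hgm : Measurable (Function.uncurry g) :=
    hf.comp (pt_meas.comp (by fun_prop : Measurable fun z : ℝ × ℝ => (p, ρ * z.1, z.2)))
  have h1 := HK g hgm B (fun _ _ => hB _) V hV hb hv (ρ ^ 2 * t)
  have hPm : Measurable fun y : ℝ × ℝ => ‖Pa g y (ρ ^ 2 * t)‖ₑ ^ q :=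
    ((Pa_meas hgm).comp (by fun_prop : Measurable fun y : ℝ × ℝ => (y, ρ ^ 2 * t))).enorm.pow_const q
  calc ∫⁻ x : ℝ × ℝ, ‖Kx ((Ann p ρ).indicator f) x t‖ₑ ^ q
      = ∫⁻ x : ℝ × ℝ, ENNReal.ofReal (ρ ^ 2) ^ q *
          ‖Pa g (ρ • (x + (2 * t) • p)) (ρ ^ 2 * t)‖ₑ ^ q := by
        apply lintegral_congr
        intro x
        rw [Kx_ann hf hB p hρ, ENNReal.mul_rpow_of_nonneg _ _ hq0.le]
    _ = ENNReal.ofReal (ρ ^ 2) ^ q * (ENNReal.ofReal ((ρ ^ 2)⁻¹) *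
          ∫⁻ y : ℝ × ℝ, ‖Pa g y (ρ ^ 2 * t)‖ₑ ^ q) := by
        rw [lintegral_const_mul' _ _ (ENNReal.rpow_ne_top_of_nonneg hq0.le ENNReal.ofReal_ne_top),
          lint_scale hPm hρ]
    _ ≤ ENNReal.ofReal (ρ ^ 2) ^ q * (ENNReal.ofReal ((ρ ^ 2)⁻¹) *
          (K * ENNReal.ofReal (Mt (ρ ^ 2 * t) ^ (-a)) * ∫⁻ θ in An, V θ ^ q)) := by
        gcongr
    _ = K * (ENNReal.ofReal (ρ ^ 2) ^ q * ENNReal.ofReal ((ρ ^ 2)⁻¹) *
          ENNReal.ofReal (Mt (ρ ^ 2 * t) ^ (-a))) * ∫⁻ θ in An, V θ ^ q := by ring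
    _ = _ := by
        have h6 := Mt_pos (ρ ^ 2 * t)
        rw [ENNReal.ofReal_rpow_of_pos (by positivity), ← ENNReal.ofReal_mul (by positivity),
          ← ENNReal.ofReal_mul (by positivity)]
        congr 4
        rw [← Real.rpow_natCast ρ 2, ← Real.rpow_mul hρ.le, ← Real.rpow_neg hρ.le,
          ← Real.rpow_add hρ]
        congr 1

end Pool.Agent.U506.RR
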