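import Mathlib
import Pool.Agent.U506.RR.G3
set_option autoImplicit false

/-! The sum over the dyadic annuli. -/

namespace Pool.Agent.U506.RR

open MeasureTheory Set Complex
open scoped ENNReal NNReal

/-- dyadic radii -/
noncomputable def rd (R : ℝ) (j : ℕ) : ℝ := R * (1 / 2) ^ j

lemma rd_pos {R : ℝ} (hR : 0 < R) (j : ℕ) : 0 < rd R j := by
  unfold rd
  positivity

lemma ann_union {R : ℝ} (hR : 0 < R) (p ξ : ℝ × ℝ) (h1 : 0 < ln (ξ - p)) (h2 : ln (ξ - p) ≤ R) :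
    ξ ∈ ⋃ j, Ann p (rd R j) := by
  obtain ⟨n, hn1, hn2⟩ := exists_nat_pow_near_of_lt_one (x := ln (ξ - p) / R) (y := (1 / 2 : ℝ))
    (by positivity) ((div_le_one hR).2 h2) (by norm_num) (by norm_num)
  rw [lt_div_iff₀ hR] at hn1
  rw [div_le_iff₀ hR] at hn2
  refine mem_iUnion.2 ⟨n, ?_, ?_⟩
  · unfold rd
    rw [pow_succ] at hn1
    linarith
  · unfold rd
    linarith

lemma ann_disj {R : ℝ} (hR : 0 < R) (p : ℝ × ℝ) :
    Pairwise (Function.onFun Disjoint fun j => Ann p (rd R j)) := by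
  have key : ∀ i j : ℕ, i < j → Disjoint (Ann p (rd R i)) (Ann p (rd R j)) := by
    intro i j hij
    rw [Set.disjoint_left]
    intro ξ h1 h2
    have h3 : rd R j ≤ rd R i / 2 := by
      unfold rd
      have h4 : (1 / 2 : ℝ) ^ j ≤ (1 / 2) ^ (i + 1) :=
        pow_le_pow_of_le_one (by norm_num) (by norm_num) hij
      rw [pow_succ] at h4
      calc R * (1 / 2) ^ j ≤ R * ((1 / 2) ^ i * (1 / 2)) := by gcongr
        _ = _ := by ring
    have h5 := h1.1
    have h6 := h2.2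
    linarith
  intro i j hij
  rcases lt_or_gt_of_ne hij with h | h
  · exact key i j h
  · exact (key j i h).symm

lemma ln_zero {y : ℝ × ℝ} (h : ln y = 0) : y = 0 := by
  unfold ln at h
  rw [Real.sqrt_eq_zero (by positivity)] at h
  have h1 : y.1 = 0 := by nlinarith [sq_nonneg y.1, sq_nonneg y.2]
  have h2 : y.2 = 0 := by nlinarith [sq_nonneg y.1, sq_nonneg y.2]
  exact Prod.ext h1 h2

lemma abs_fst_le (y : ℝ × ℝ) : |y.1| ≤ ln y := by
  unfold ln
  rw [← Real.sqrt_sq_eq_abs]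
  exact Real.sqrt_le_sqrt (by nlinarith [sq_nonneg y.2])

lemma abs_snd_le (y : ℝ × ℝ) : |y.2| ≤ ln y := by
  unfold ln
  rw [← Real.sqrt_sq_eq_abs]
  exact Real.sqrt_le_sqrt (by nlinarith [sq_nonneg y.1])

lemma ann_vol {R : ℝ} (hR : 0 < R) (p : ℝ × ℝ) : volume (⋃ j, Ann p (rd R j)) < ⊤ := by
  have h : (⋃ j, Ann p (rd R j)) ⊆ Icc (p.1 - R) (p.1 + R) ×ˢ Icc (p.2 - R) (p.2 + R) := by
    intro ξ hξ
    obtain ⟨j, hj⟩ := mem_iUnion.1 hξ
    have h1 : ln (ξ - p) ≤ R := by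
      refine hj.2.trans ?_
      unfold rd
      have : (1 / 2 : ℝ) ^ j ≤ 1 := pow_le_one₀ (by norm_num) (by norm_num)
      nlinarith
    have h2 := abs_le.1 ((abs_fst_le (ξ - p)).trans h1)
    have h3 := abs_le.1 ((abs_snd_le (ξ - p)).trans h1)
    simp only [Prod.fst_sub, Prod.snd_sub] at h2 h3
    exact ⟨⟨by linarith [h2.1], by linarith [h2.2]⟩, ⟨by linarith [h3.1], by linarith [h3.2]⟩⟩
  refine lt_of_le_of_lt (measure_mono h) ?_
  rw [Measure.volume_eq_prod, Measure.prod_prod, Real.volume_Icc, Real.volume_Icc]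
  exact ENNReal.mul_lt_top ENNReal.ofReal_lt_top ENNReal.ofReal_lt_top

lemma Kx_le_tsum {f : ℝ × ℝ → ℂ} (hf : Measurable f) {B : ℝ} (hB : ∀ η, ‖f η‖ ≤ B) (p : ℝ × ℝ)
    {R : ℝ} (hR : 0 < R) (hs : ∀ ξ, R < ln (ξ - p) → f ξ = 0) (x : ℝ × ℝ) (t : ℝ) :
    ‖Kx f x t‖ₑ ≤ ∑' j, ‖Kx ((Ann p (rd R j)).indicator f) x t‖ₑ := by
  have hm : Measurable fun ξ => f ξ * ph x t ξ :=
    hf.mul (ph_meas.comp (by fun_prop : Measurable fun ξ : ℝ × ℝ => ((x, t), ξ)))
  have hUm : MeasurableSet (⋃ j, Ann p (rd R j)) := MeasurableSet.iUnion fun j => Ann_meas p _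
  have hi : IntegrableOn (fun ξ => f ξ * ph x t ξ) (⋃ j, Ann p (rd R j)) := by
    refine IntegrableOn.of_bound (C := B) (ann_vol hR p) hm.aestronglyMeasurable.restrict
      (ae_of_all _ fun ξ => ?_)
    rw [norm_mul, ph_norm, mul_one]
    exact hB ξ
  have e1 : Kx f x t = ∫ ξ in ⋃ j, Ann p (rd R j), f ξ * ph x t ξ := by
    unfold Kx
    symm
    apply setIntegral_eq_integral_of_ae_compl_eq_zero
    have hne : ∀ᵐ ξ : ℝ × ℝ ∂volume, ξ ≠ p := by
      rw [ae_iff]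
      simp
    filter_upwards [hne] with ξ hξ h
    have h2 : R < ln (ξ - p) := by
      by_contra h3
      push Not at h3
      refine h (ann_union hR p ξ (lt_of_le_of_ne (ln_nonneg _) fun h4 => ?_) h3)
      exact hξ (sub_eq_zero.1 (ln_zero h4.symm))
    rw [hs ξ h2, zero_mul]
  have e2 : ∀ j, Kx ((Ann p (rd R j)).indicator f) x t =
      ∫ ξ in Ann p (rd R j), f ξ * ph x t ξ := by
    intro j
    unfold Kx
    rw [← integral_indicator (Ann_meas p _)]
    apply integral_congr_ae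
    refine ae_of_all _ fun ξ => ?_
    simp only
    by_cases h : ξ ∈ Ann p (rd R j)
    · rw [indicator_of_mem h, indicator_of_mem h]
    · rw [indicator_of_notMem h, indicator_of_notMem h, zero_mul]
  simp only [e2]
  rw [e1, integral_iUnion (fun j => Ann_meas p _) (ann_disj hR p) hi]
  exact enorm_tsum_le_tsum_enorm

/-- weighted Hölder for series -/
lemma series_holder {q ε : ℝ} (hq : 1 < q) (hε : 0 < ε) :
    ∃ C : ℝ≥0∞, C < ⊤ ∧ ∀ a : ℕ → ℝ≥0∞, (∑' j, a j) ^ q ≤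
      C * ∑' j : ℕ, ENNReal.ofReal (2 ^ (ε * j)) * a j ^ q := by
  have hq1 : 0 < q - 1 := by linarith
  set r : ℝ := (2 : ℝ) ^ (-(ε / (q - 1))) with hr
  have hr0 : 0 < r := by positivity
  have hr1 : r < 1 := Real.rpow_lt_one_of_one_lt_of_neg (by norm_num) (by
    have : 0 < ε / (q - 1) := by positivity
    linarith)
  set w : ℕ → ℝ≥0∞ := fun j => ENNReal.ofReal (r ^ j) with hw
  have hws : ∑' j, w j < ⊤ := by
    rw [hw]
    have h1 : Summable fun j : ℕ => r ^ j := summable_geometric_of_lt_one hr0.le hr1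
    rw [← ENNReal.ofReal_tsum_of_nonneg (fun j => by positivity) h1]
    exact ENNReal.ofReal_lt_top
  refine ⟨(∑' j, w j) ^ (q - 1), ENNReal.rpow_lt_top_of_nonneg hq1.le hws.ne, ?_⟩
  intro a
  have h := wh (μ := (Measure.count : Measure ℕ)) (w := w)
    (h := fun j => ENNReal.ofReal (r ^ j)⁻¹ * a j)
    (measurable_of_countable _).aemeasurable (measurable_of_countable _).aemeasurable hq
  rw [lintegral_count, lintegral_count, lintegral_count] at h
  have e1 : ∀ j : ℕ, w j * (ENNReal.ofReal (r ^ j)⁻¹ * a j) = a j := by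
    intro j
    have h2 : 0 < r ^ j := by positivity
    simp only [hw]
    rw [← mul_assoc, ← ENNReal.ofReal_mul h2.le, mul_inv_cancel₀ h2.ne', ENNReal.ofReal_one, one_mul]
  have e2 : ∀ j : ℕ, w j * (ENNReal.ofReal (r ^ j)⁻¹ * a j) ^ q =
      ENNReal.ofReal (2 ^ (ε * j)) * a j ^ q := by
    intro j
    have h2 : 0 < r ^ j := by positivity
    simp only [hw]
    rw [ENNReal.mul_rpow_of_nonneg _ _ (by linarith), ENNReal.ofReal_rpow_of_pos (by positivity),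
      ← mul_assoc, ← ENNReal.ofReal_mul h2.le]
    congr 2
    rw [Real.inv_rpow h2.le, ← Real.rpow_neg h2.le]
    nth_rewrite 1 [← Real.rpow_one (r ^ j)]
    rw [← Real.rpow_add h2, hr, ← Real.rpow_natCast, ← Real.rpow_mul (by positivity),
      ← Real.rpow_mul (by positivity)]
    congr 1
    field_simp
    ring
  simp only [e1, e2] at h
  exact h

/-- **The sum over the annuli.** -/
theorem Kx_sum {q a ε : ℝ} (hq : 2 < q) (ha0 : 0 ≤ a) (ha : a < q - 2) (ha2 : a < 2)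
    (hε : 0 < ε) :
    ∃ K : ℝ≥0∞, K < ⊤ ∧ ∀ f : ℝ × ℝ → ℂ, Measurable f → ∀ B : ℝ, (∀ η, ‖f η‖ ≤ B) →
      ∀ p : ℝ × ℝ, ∀ R : ℝ, 0 < R → (∀ ξ, R < ln (ξ - p) → f ξ = 0) →
      ∀ V : ℕ → ℝ → ℝ≥0∞, (∀ j, Measurable (V j)) →
      (∀ j θ, ∀ s ∈ Jr, ‖f (pt p (rd R j * s) θ)‖ₑ ≤ V j θ) →
      (∀ j θ, eVariationOn (fun s => f (pt p (rd R j * s) θ)) Jr ≤ V j θ) → ∀ t : ℝ,
      ∫⁻ x : ℝ × ℝ, ‖Kx f x t‖ₑ ^ q ≤
        K * ∑' j : ℕ, ENNReal.ofReal (2 ^ (ε * j) * (rd R j ^ (2 * q - 2) *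
          Mt (rd R j ^ 2 * t) ^ (-a))) * ∫⁻ θ in An, V j θ ^ q := by
  have hq0 : 0 < q := by linarith
  obtain ⟨K, hK, HK⟩ := Kx_ann_Lq hq ha0 ha ha2
  obtain ⟨C, hC, HC⟩ := series_holder (q := q) (ε := ε) (by linarith) hε
  refine ⟨C * K, ENNReal.mul_lt_top hC hK, ?_⟩
  intro f hf B hB p R hR hs V hV hb hv t
  have hm : ∀ j, Measurable fun x : ℝ × ℝ => ‖Kx ((Ann p (rd R j)).indicator f) x t‖ₑ ^ q := by
    intro j
    have h1 : Measurable fun x : ℝ × ℝ => Kx ((Ann p (rd R j)).indicator f) x t :=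
      (Kx_meas (hf.indicator (Ann_meas p _))).comp (by fun_prop : Measurable fun x : ℝ × ℝ => (x, t))
    exact h1.enorm.pow_const q
  calc ∫⁻ x : ℝ × ℝ, ‖Kx f x t‖ₑ ^ q
      ≤ ∫⁻ x : ℝ × ℝ, C * ∑' j : ℕ, ENNReal.ofReal (2 ^ (ε * j)) *
          ‖Kx ((Ann p (rd R j)).indicator f) x t‖ₑ ^ q := by
        apply lintegral_mono
        intro x
        simp only
        refine le_trans ?_ (HC _)
        gcongr
        exact Kx_le_tsum hf hB p hR hs x t
    _ = C * ∑' j : ℕ, ENNReal.ofReal (2 ^ (ε * j)) *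
          ∫⁻ x : ℝ × ℝ, ‖Kx ((Ann p (rd R j)).indicator f) x t‖ₑ ^ q := by
        rw [lintegral_const_mul' _ _ hC.ne, lintegral_tsum fun j => ((hm j).const_mul _).aemeasurable]
        congr 2
        ext j
        rw [lintegral_const_mul' _ _ ENNReal.ofReal_ne_top]
    _ ≤ C * ∑' j : ℕ, ENNReal.ofReal (2 ^ (ε * j)) *
          (K * ENNReal.ofReal (rd R j ^ (2 * q - 2) * Mt (rd R j ^ 2 * t) ^ (-a)) *
            ∫⁻ θ in An, V j θ ^ q) := by
        refine mul_le_mul' le_rfl (ENNReal.tsum_le_tsum fun j => mul_le_mul' le_rfl ?_)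
        exact HK f hf B hB p (rd R j) (rd_pos hR j) (V j) (hV j) (hb j) (hv j) t
    _ = C * (K * ∑' j : ℕ, ENNReal.ofReal (2 ^ (ε * j) * (rd R j ^ (2 * q - 2) *
          Mt (rd R j ^ 2 * t) ^ (-a))) * ∫⁻ θ in An, V j θ ^ q) := by
        rw [← ENNReal.tsum_mul_left (a := K)]
        congr 1
        apply tsum_congr
        intro j
        have h1 : (0 : ℝ) ≤ 2 ^ (ε * j) := by positivity
        rw [ENNReal.ofReal_mul h1]
        ring
    _ = _ := by ring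

end Pool.Agent.U506.RR
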