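import Mathlib
import Pool.Agent.U506.RR.G4
set_option autoImplicit false

/-! The estimate in space and time. -/

namespace Pool.Agent.U506.RR

open MeasureTheory Set Complex Filter Topology
open scoped ENNReal NNReal

/-- the time integral -/
noncomputable def It (a : ℝ) : ℝ≥0∞ := ∫⁻ t, ENNReal.ofReal (Mt t ^ (-a))

lemma It_lt {a : ℝ} (ha : 1 < a) : It a < ⊤ := by
  have hI : Integrable fun σ : ℝ => (1 + ‖σ‖) ^ (-a) := integrable_one_add_norm (by simpa using ha)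
  have hI2 := hI.const_mul (2 ^ a)
  refine lt_of_le_of_lt ?_ hI2.2
  unfold It
  apply lintegral_mono
  intro t
  simp only
  rw [← ofReal_norm]
  apply ENNReal.ofReal_le_ofReal
  have hb0 := Mt_pos t
  rw [Real.norm_of_nonneg (by positivity)]
  have h10 : 1 + ‖t‖ ≤ 2 * Mt t := by
    have := Mt_one t
    have h4 : |t| ≤ Mt t := le_max_right _ _
    rw [Real.norm_eq_abs]
    linarith
  have h11 : (2 * Mt t) ^ (-a) ≤ (1 + ‖t‖) ^ (-a) :=
    Real.rpow_le_rpow_of_nonpos (by positivity) h10 (by linarith)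
  rw [Real.mul_rpow (by norm_num) hb0.le] at h11
  have h12 : (2 : ℝ) ^ a * (2 ^ (-a) * Mt t ^ (-a)) ≤ 2 ^ a * (1 + ‖t‖) ^ (-a) := by gcongr
  rw [← mul_assoc, ← Real.rpow_add (by norm_num), add_neg_cancel, Real.rpow_zero, one_mul] at h12
  exact h12

lemma Mtp_meas (a : ℝ) : Measurable fun t : ℝ => ENNReal.ofReal (Mt t ^ (-a)) :=
  (Mt_meas.pow_const _).ennreal_ofReal

lemma It_scale (a : ℝ) {c : ℝ} (hc : 0 < c) :
    ∫⁻ t, ENNReal.ofReal (Mt (c * t) ^ (-a)) = ENNReal.ofReal c⁻¹ * It a := by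
  have h := Real.map_volume_mul_left (a := c) hc.ne'
  rw [abs_of_pos (by positivity)] at h
  have h2 := lintegral_map (μ := (volume : Measure ℝ)) (Mtp_meas a)
    (by fun_prop : Measurable fun t : ℝ => c * t)
  rw [← h2, h, lintegral_smul_measure]
  rfl

/-- **Space-time, bounded functions.** -/
theorem Kx_all {q ε : ℝ} (hq : 3 < q) (hε : 0 < ε) :
    ∃ K : ℝ≥0∞, K < ⊤ ∧ ∀ f : ℝ × ℝ → ℂ, Measurable f → ∀ B : ℝ, (∀ η, ‖f η‖ ≤ B) →
      ∀ p : ℝ × ℝ, ∀ R : ℝ, 0 < R → (∀ ξ, R < ln (ξ - p) → f ξ = 0) →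
      ∀ V : ℕ → ℝ → ℝ≥0∞, (∀ j, Measurable (V j)) →
      (∀ j θ, ∀ s ∈ Jr, ‖f (pt p (rd R j * s) θ)‖ₑ ≤ V j θ) →
      (∀ j θ, eVariationOn (fun s => f (pt p (rd R j * s) θ)) Jr ≤ V j θ) →
      ∫⁻ t, ∫⁻ x : ℝ × ℝ, ‖Kx f x t‖ₑ ^ q ≤
        K * ∑' j : ℕ, ENNReal.ofReal (2 ^ (ε * j) * rd R j ^ (2 * q - 4)) *
          ∫⁻ θ in An, V j θ ^ q := by
  have hq0 : 0 < q := by linarith
  set a : ℝ := min (q - 2) 2 / 2 + 1 / 2 with ha
  have hm1 : 1 < min (q - 2) 2 := lt_min (by linarith) (by norm_num)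
  have ha1 : 1 < a := by rw [ha]; linarith
  have ham : a < min (q - 2) 2 := by rw [ha]; linarith
  obtain ⟨K, hK, HK⟩ := Kx_sum (q := q) (a := a) (ε := ε) (by linarith) (by linarith)
    (lt_of_lt_of_le ham (min_le_left _ _)) (lt_of_lt_of_le ham (min_le_right _ _)) hε
  refine ⟨K * It a, ENNReal.mul_lt_top hK (It_lt ha1), ?_⟩
  intro f hf B hB p R hR hs V hV hb hv
  have hm : ∀ j : ℕ, Measurable fun t : ℝ => ENNReal.ofReal (2 ^ (ε * j) * (rd R j ^ (2 * q - 2) *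
          Mt (rd R j ^ 2 * t) ^ (-a))) := by
    intro j
    have h1 : Measurable fun t : ℝ => Mt (rd R j ^ 2 * t) ^ (-a) :=
      (Mt_meas.comp (by fun_prop : Measurable fun t : ℝ => rd R j ^ 2 * t)).pow_const _
    exact ((h1.const_mul _).const_mul _).ennreal_ofReal
  calc ∫⁻ t, ∫⁻ x : ℝ × ℝ, ‖Kx f x t‖ₑ ^ q
      ≤ ∫⁻ t, K * ∑' j : ℕ, ENNReal.ofReal (2 ^ (ε * j) * (rd R j ^ (2 * q - 2) *
          Mt (rd R j ^ 2 * t) ^ (-a))) * ∫⁻ θ in An, V j θ ^ q :=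
        lintegral_mono fun t => HK f hf B hB p R hR hs V hV hb hv t
    _ = K * ∑' j : ℕ, (∫⁻ t, ENNReal.ofReal (2 ^ (ε * j) * (rd R j ^ (2 * q - 2) *
          Mt (rd R j ^ 2 * t) ^ (-a)))) * ∫⁻ θ in An, V j θ ^ q := by
        rw [lintegral_const_mul' _ _ hK.ne,
          lintegral_tsum fun j => ((hm j).mul_const _).aemeasurable]
        congr 1
        apply tsum_congr
        intro j
        rw [lintegral_mul_const _ (hm j)]
    _ = K * ∑' j : ℕ, It a * (ENNReal.ofReal (2 ^ (ε * j) * rd R j ^ (2 * q - 4)) *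
          ∫⁻ θ in An, V j θ ^ q) := by
        congr 1
        apply tsum_congr
        intro j
        have hr := rd_pos hR j
        have e1 : ∀ t : ℝ, ENNReal.ofReal (2 ^ (ε * j) * (rd R j ^ (2 * q - 2) *
          Mt (rd R j ^ 2 * t) ^ (-a))) = ENNReal.ofReal (2 ^ (ε * j) * rd R j ^ (2 * q - 2)) *
            ENNReal.ofReal (Mt (rd R j ^ 2 * t) ^ (-a)) := by
          intro t
          rw [← ENNReal.ofReal_mul (by positivity), mul_assoc]
        simp only [e1]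
        rw [lintegral_const_mul' _ _ ENNReal.ofReal_ne_top, It_scale a (by positivity),
          ← mul_assoc (ENNReal.ofReal _) (ENNReal.ofReal _) (It a),
          ← ENNReal.ofReal_mul (by positivity)]
        have e2 : 2 ^ (ε * (j : ℝ)) * rd R j ^ (2 * q - 2) * (rd R j ^ 2)⁻¹ =
            2 ^ (ε * (j : ℝ)) * rd R j ^ (2 * q - 4) := by
          rw [mul_assoc]
          congr 1
          rw [← Real.rpow_natCast (rd R j) 2, ← Real.rpow_neg hr.le, ← Real.rpow_add hr]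
          congr 1
          push_cast
          ring
        rw [e2]
        ring
    _ = _ := by
        rw [ENNReal.tsum_mul_left]
        ring

/-- the clamp -/
noncomputable def cl (n : ℝ) (x : ℝ) : ℝ := max (min x n) (-n)

lemma cl_lip (n x y : ℝ) : |cl n x - cl n y| ≤ |x - y| := by
  unfold cl
  refine (abs_max_sub_max_le_abs _ _ _).trans ?_
  exact abs_inf_sub_inf_le_abs x y n

lemma cl_abs {n : ℝ} (hn : 0 ≤ n) (x : ℝ) : |cl n x| ≤ n := by
  unfold cl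
  rw [abs_le]
  exact ⟨le_max_right _ _, max_le (min_le_right _ _) (by linarith)⟩

lemma cl_abs' {n : ℝ} (hn : 0 ≤ n) (x : ℝ) : |cl n x| ≤ |x| := by
  have h := cl_lip n x 0
  have h0 : cl n 0 = 0 := by
    unfold cl
    rw [min_eq_left hn, max_eq_left (by linarith)]
  rw [h0, sub_zero, sub_zero] at h
  exact h

lemma cl_eq {n x : ℝ} (h : |x| ≤ n) : cl n x = x := by
  have := abs_le.1 h
  unfold cl
  rw [min_eq_left this.2, max_eq_left this.1]

/-- the clamp in the complex plane -/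
noncomputable def cz (n : ℝ) (z : ℂ) : ℂ := ⟨cl n z.re, cl n z.im⟩

lemma cz_lip (n : ℝ) : LipschitzWith 1 (cz n) := by
  apply LipschitzWith.of_dist_le_mul
  intro z w
  rw [Complex.dist_eq, Complex.dist_eq, NNReal.coe_one, one_mul]
  rw [Complex.norm_def, Complex.norm_def]
  apply Real.sqrt_le_sqrt
  rw [normSq_apply, normSq_apply]
  have h1 := cl_lip n z.re w.re
  have h2 := cl_lip n z.im w.im
  have h3 := sq_le_sq.2 h1
  have h4 := sq_le_sq.2 h2
  simp only [sub_re, sub_im, cz]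
  nlinarith

lemma cz_meas (n : ℝ) : Measurable (cz n) := (cz_lip n).continuous.measurable

lemma cz_bd {n : ℝ} (hn : 0 ≤ n) (z : ℂ) : ‖cz n z‖ ≤ 2 * n := by
  refine (Complex.norm_le_abs_re_add_abs_im _).trans ?_
  have h1 := cl_abs hn z.re
  have h2 := cl_abs hn z.im
  simp only [cz]
  linarith

lemma cz_le {n : ℝ} (hn : 0 ≤ n) (z : ℂ) : ‖cz n z‖ ≤ ‖z‖ := by
  rw [Complex.norm_def, Complex.norm_def]
  apply Real.sqrt_le_sqrt
  rw [normSq_apply, normSq_apply]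
  have h3 := sq_le_sq.2 (cl_abs' hn z.re)
  have h4 := sq_le_sq.2 (cl_abs' hn z.im)
  simp only [cz]
  nlinarith

lemma cz_eq {n : ℝ} {z : ℂ} (h : ‖z‖ ≤ n) : cz n z = z := by
  unfold cz
  rw [cl_eq ((Complex.abs_re_le_norm z).trans h), cl_eq ((Complex.abs_im_le_norm z).trans h)]

/-- **Space-time, all functions.** -/
theorem Kx_all' {q ε : ℝ} (hq : 3 < q) (hε : 0 < ε) :
    ∃ K : ℝ≥0∞, K < ⊤ ∧ ∀ f : ℝ × ℝ → ℂ, Measurable f →
      ∀ p : ℝ × ℝ, ∀ R : ℝ, 0 < R → (∀ ξ, R < ln (ξ - p) → f ξ = 0) →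
      ∀ V : ℕ → ℝ → ℝ≥0∞, (∀ j, Measurable (V j)) →
      (∀ j, ∀ θ ∈ An, ∀ s ∈ Jr, ‖f (pt p (rd R j * s) θ)‖ₑ ≤ V j θ) →
      (∀ j, ∀ θ ∈ An, eVariationOn (fun s => f (pt p (rd R j * s) θ)) Jr ≤ V j θ) →
      ∫⁻ t, ∫⁻ x : ℝ × ℝ, ‖Kx f x t‖ₑ ^ q ≤
        K * ∑' j : ℕ, ENNReal.ofReal (2 ^ (ε * j) * rd R j ^ (2 * q - 4)) *
          ∫⁻ θ in An, V j θ ^ q := by
  have hq0 : 0 < q := by linarith
  obtain ⟨K, hK, HK⟩ := Kx_all hq hε
  refine ⟨K, hK, ?_⟩
  intro f hf p R hR hs V hV hb hv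
  by_cases hfi : Integrable f
  swap
  · have h0 : ∀ x t, Kx f x t = 0 := by
      intro x t
      unfold Kx
      apply integral_undef
      intro h
      apply hfi
      have h1 := h.norm
      refine (integrable_norm_iff hf.aestronglyMeasurable).1 (h1.congr (ae_of_all _ fun ξ => ?_))
      simp only
      rw [norm_mul, ph_norm, mul_one]
    simp only [h0, enorm_zero, ENNReal.zero_rpow_of_pos hq0, lintegral_zero]
    exact bot_le
  set W : ℕ → ℝ → ℝ≥0∞ := fun j θ => An.indicator (V j) θ + Anᶜ.indicator (fun _ => ⊤) θ with hW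
  have hWA : ∀ j, ∀ θ ∈ An, W j θ = V j θ := by
    intro j θ hθ
    simp only [hW]
    rw [indicator_of_mem hθ, indicator_of_notMem (by simpa using hθ), add_zero]
  have hWC : ∀ j, ∀ θ, θ ∉ An → W j θ = ⊤ := by
    intro j θ hθ
    simp only [hW]
    rw [indicator_of_notMem hθ, indicator_of_mem (by simpa using hθ), zero_add]
  have hWm : ∀ j, Measurable (W j) := fun j =>
    ((hV j).indicator An_meas).add (measurable_const.indicator An_meas.compl)
  have hWI : ∀ j, ∫⁻ θ in An, W j θ ^ q = ∫⁻ θ in An, V j θ ^ q := by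
    intro j
    apply setLIntegral_congr_fun An_meas
    intro θ hθ
    simp only
    rw [hWA j θ hθ]
  have key : ∀ n : ℕ, ∫⁻ t, ∫⁻ x : ℝ × ℝ, ‖Kx (fun ξ => cz n (f ξ)) x t‖ₑ ^ q ≤
        K * ∑' j : ℕ, ENNReal.ofReal (2 ^ (ε * j) * rd R j ^ (2 * q - 4)) *
          ∫⁻ θ in An, V j θ ^ q := by
    intro n
    have h := HK (fun ξ => cz n (f ξ)) ((cz_meas n).comp hf) (2 * n)
      (fun ξ => cz_bd (Nat.cast_nonneg n) _) p R hR (fun ξ hξ => by
        rw [hs ξ hξ]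
        exact norm_le_zero_iff.1 ((cz_le (Nat.cast_nonneg n) 0).trans (by simp))) W hWm ?_ ?_
    · simp only [hWI] at h
      exact h
    · intro j θ s hs'
      by_cases hθ : θ ∈ An
      · rw [hWA j θ hθ]
        refine le_trans ?_ (hb j θ hθ s hs')
        rw [← ofReal_norm, ← ofReal_norm]
        exact ENNReal.ofReal_le_ofReal (cz_le (Nat.cast_nonneg n) _)
      · rw [hWC j θ hθ]
        exact le_top
    · intro j θ
      by_cases hθ : θ ∈ An
      · rw [hWA j θ hθ]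
        refine le_trans ?_ (hv j θ hθ)
        have h1 := ((cz_lip (n : ℝ)).lipschitzOnWith (s := univ)).comp_eVariationOn_le
          (g := fun s => f (pt p (rd R j * s) θ)) (s := Jr) (mapsTo_univ _ _)
        rw [ENNReal.coe_one, one_mul] at h1
        exact h1
      · rw [hWC j θ hθ]
        exact le_top
  have hKm : ∀ n : ℕ, Measurable fun q' : ℝ × ℝ × ℝ =>
      ‖Kx (fun ξ => cz n (f ξ)) q'.2 q'.1‖ₑ ^ q := by
    intro n
    exact ((Kx_meas ((cz_meas n).comp hf)).comp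
      (by fun_prop : Measurable fun q' : ℝ × ℝ × ℝ => (q'.2, q'.1))).enorm.pow_const q
  have hlim : ∀ x t, Tendsto (fun n : ℕ => ‖Kx (fun ξ => cz n (f ξ)) x t‖ₑ ^ q) atTop
      (𝓝 (‖Kx f x t‖ₑ ^ q)) := by
    intro x t
    have h1 : Tendsto (fun n : ℕ => Kx (fun ξ => cz n (f ξ)) x t) atTop (𝓝 (Kx f x t)) := by
      unfold Kx
      have hpm : Measurable fun ξ : ℝ × ℝ => ph x t ξ :=
        ph_meas.comp (by fun_prop : Measurable fun ξ : ℝ × ℝ => ((x, t), ξ))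
      refine tendsto_integral_of_dominated_convergence (fun ξ => ‖f ξ‖) ?_ hfi.norm ?_ ?_
      · intro n
        exact (((cz_meas n).comp hf).mul hpm).aestronglyMeasurable
      · intro n
        refine ae_of_all _ fun ξ => ?_
        rw [norm_mul, ph_norm, mul_one]
        exact cz_le (Nat.cast_nonneg n) _
      · refine ae_of_all _ fun ξ => ?_
        obtain ⟨N, hN⟩ := exists_nat_ge ‖f ξ‖
        refine tendsto_const_nhds.congr' ?_
        filter_upwards [eventually_ge_atTop N] with n hn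
        rw [cz_eq (hN.trans (by exact_mod_cast hn))]
    exact (ENNReal.continuous_rpow_const.tendsto _).comp
      ((continuous_enorm.tendsto _).comp h1)
  have hI : ∀ n : ℕ, ∫⁻ t, ∫⁻ x : ℝ × ℝ, ‖Kx (fun ξ => cz n (f ξ)) x t‖ₑ ^ q =
      ∫⁻ q' : ℝ × ℝ × ℝ, ‖Kx (fun ξ => cz n (f ξ)) q'.2 q'.1‖ₑ ^ q := by
    intro n
    exact (lintegral_prod (μ := (volume : Measure ℝ)) (ν := (volume : Measure (ℝ × ℝ))) _
      (hKm n).aemeasurable).symm
  have hI2 : ∫⁻ t, ∫⁻ x : ℝ × ℝ, ‖Kx f x t‖ₑ ^ q = ∫⁻ q' : ℝ × ℝ × ℝ, ‖Kx f q'.2 q'.1‖ₑ ^ q := by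
    have hm : Measurable fun q' : ℝ × ℝ × ℝ => ‖Kx f q'.2 q'.1‖ₑ ^ q :=
      ((Kx_meas hf).comp (by fun_prop : Measurable fun q' : ℝ × ℝ × ℝ =>
        (q'.2, q'.1))).enorm.pow_const q
    exact (lintegral_prod (μ := (volume : Measure ℝ)) (ν := (volume : Measure (ℝ × ℝ))) _
      hm.aemeasurable).symm
  rw [hI2]
  calc ∫⁻ q' : ℝ × ℝ × ℝ, ‖Kx f q'.2 q'.1‖ₑ ^ q
      = ∫⁻ q' : ℝ × ℝ × ℝ, liminf (fun n : ℕ => ‖Kx (fun ξ => cz n (f ξ)) q'.2 q'.1‖ₑ ^ q) atTop := by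
        apply lintegral_congr
        intro q'
        exact ((hlim q'.2 q'.1).liminf_eq).symm
    _ ≤ liminf (fun n : ℕ => ∫⁻ q' : ℝ × ℝ × ℝ,
          ‖Kx (fun ξ => cz n (f ξ)) q'.2 q'.1‖ₑ ^ q) atTop := lintegral_liminf_le hKm
    _ ≤ _ := by
        refine liminf_le_of_frequently_le' (Frequently.of_forall fun n => ?_)
        rw [← hI n]
        exact key n

end Pool.Agent.U506.RR
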