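import Mathlib
import Pool.Agent.U506.RR.G5
set_option autoImplicit false

/-! Functions whose variation along the rays is controlled. -/

namespace Pool.Agent.U506.RR

open MeasureTheory Set Complex Filter Topology
open scoped ENNReal NNReal

lemma dyad_sum {ε e : ℝ} (h : ε < e) : ∃ C : ℝ≥0∞, C < ⊤ ∧ ∀ R : ℝ, 0 < R →
    ∑' j : ℕ, ENNReal.ofReal (2 ^ (ε * j) * rd R j ^ e) ≤ C * ENNReal.ofReal (R ^ e) := by
  set r : ℝ := (2 : ℝ) ^ (ε - e) with hr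
  have hr0 : 0 < r := by positivity
  have hr1 : r < 1 := Real.rpow_lt_one_of_one_lt_of_neg (by norm_num) (by linarith)
  have h1 : Summable fun j : ℕ => r ^ j := summable_geometric_of_lt_one hr0.le hr1
  refine ⟨ENNReal.ofReal (∑' j : ℕ, r ^ j), ENNReal.ofReal_lt_top, ?_⟩
  intro R hR
  rw [ENNReal.ofReal_tsum_of_nonneg (fun j => by positivity) h1, ← ENNReal.tsum_mul_right]
  apply ENNReal.tsum_le_tsum
  intro j
  rw [← ENNReal.ofReal_mul (by positivity)]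
  apply ENNReal.ofReal_le_ofReal
  apply le_of_eq
  unfold rd
  rw [Real.mul_rpow hR.le (by positivity), hr, ← Real.rpow_natCast ((2 : ℝ) ^ (ε - e)),
    ← Real.rpow_natCast (1 / 2 : ℝ), ← Real.rpow_mul (by positivity), ← Real.rpow_mul (by positivity),
    one_div, Real.inv_rpow (by norm_num), ← Real.rpow_neg (by norm_num)]
  have e1 : (2 : ℝ) ^ (ε * (j : ℝ)) * (R ^ e * 2 ^ (-((j : ℝ) * e))) =
      (2 ^ (ε * (j : ℝ)) * 2 ^ (-((j : ℝ) * e))) * R ^ e := by ring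
  rw [e1, ← Real.rpow_add (by norm_num)]
  congr 2
  ring

lemma var_scale (f : ℝ × ℝ → ℂ) (p : ℝ × ℝ) {ρ : ℝ} (hρ : 0 < ρ) (θ : ℝ) :
    eVariationOn (fun s => f (pt p (ρ * s) θ)) Jr ≤
      eVariationOn (fun r => f (pt p r θ)) (Ioc (ρ / 2) ρ) := by
  have h := eVariationOn.comp_le_of_monotoneOn (fun r => f (pt p r θ)) (s := Ioc (ρ / 2) ρ)
    (t := Jr) (fun s => ρ * s) (fun s _ s' _ hss => by
      simp only
      gcongr) (fun s hs => by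
      refine ⟨?_, ?_⟩
      · have := hs.1
        nlinarith
      · have := hs.2
        nlinarith)
  exact h

/-- **Bounded variation along the rays.** -/
theorem Kx_var {q : ℝ} (hq : 3 < q) :
    ∃ K : ℝ≥0∞, K < ⊤ ∧ ∀ f : ℝ × ℝ → ℂ, Measurable f →
      ∀ p : ℝ × ℝ, ∀ R : ℝ, 0 < R → (∀ ξ, R < ln (ξ - p) → f ξ = 0) →
      ∀ V : ℝ → ℝ≥0∞, Measurable V →
      (∀ θ ∈ An, eVariationOn (fun r => f (pt p r θ)) (Ioi 0) ≤ V θ) →
      ∫⁻ t, ∫⁻ x : ℝ × ℝ, ‖Kx f x t‖ₑ ^ q ≤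
        K * ENNReal.ofReal (R ^ (2 * q - 4)) * ∫⁻ θ in An, V θ ^ q := by
  obtain ⟨K, hK, HK⟩ := Kx_all' hq (ε := 1) one_pos
  obtain ⟨C, hC, HC⟩ := dyad_sum (ε := 1) (e := 2 * q - 4) (by linarith)
  refine ⟨K * C, ENNReal.mul_lt_top hK hC, ?_⟩
  intro f hf p R hR hs V hV hv
  have hsup : ∀ θ ∈ An, ∀ r : ℝ, 0 < r → ‖f (pt p r θ)‖ₑ ≤ V θ := by
    intro θ hθ r hr
    have h0 : f (pt p (R + 1) θ) = 0 := by
      apply hs
      have : pt p (R + 1) θ - p = ((R + 1) * Real.cos θ, (R + 1) * Real.sin θ) := by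
        unfold pt
        ext <;> simp
      rw [this, ln_polar (by linarith)]
      linarith
    have h1 := eVariationOn.edist_le (fun r => f (pt p r θ)) (s := Ioi 0) (x := r) (y := R + 1)
      hr (by simp only [mem_Ioi]; linarith)
    rw [h0, edist_zero_right] at h1
    exact h1.trans (hv θ hθ)
  have h := HK f hf p R hR hs (fun _ => V) (fun _ => hV) (fun j θ hθ s hs' => by
      apply hsup θ hθ
      have := rd_pos hR j
      have hs0 : 0 < s := lt_trans (by norm_num) hs'.1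
      positivity) (fun j θ hθ => by
      refine (var_scale f p (rd_pos hR j) θ).trans ?_
      refine (eVariationOn.mono _ ?_).trans (hv θ hθ)
      intro r hr
      have := rd_pos hR j
      exact lt_trans (by positivity) hr.1)
  refine h.trans ?_
  rw [ENNReal.tsum_mul_right, mul_assoc K, mul_assoc K]
  exact mul_le_mul' le_rfl (mul_le_mul' (HC R hR) le_rfl)

lemma polar_le {G : ℝ × ℝ → ℝ≥0∞} (hG : Measurable G) (p : ℝ × ℝ) {a b : ℝ} (ha : 0 ≤ a) :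
    ∫⁻ θ in An, ∫⁻ r in Ioc a b, ENNReal.ofReal r * G (pt p r θ) ≤ ∫⁻ x, G x := by
  rw [← lintegral_add_left_eq_self G p, ← lintegral_comp_polarCoord_symm]
  have htar : polarCoord.target = Ioi (0 : ℝ) ×ˢ Ioo (-Real.pi) Real.pi := rfl
  have hpt : ∀ z : ℝ × ℝ, p + polarCoord.symm z = pt p z.1 z.2 := by
    intro z
    change p + (z.1 * Real.cos z.2, z.1 * Real.sin z.2) = _
    unfold pt
    ext <;> simp
  simp only [hpt, smul_eq_mul]
  rw [htar, Measure.volume_eq_prod, ← Measure.prod_restrict]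
  have hm : Measurable fun z : ℝ × ℝ => ENNReal.ofReal z.1 * G (pt p z.1 z.2) := by
    apply Measurable.mul (by fun_prop)
    exact hG.comp (pt_meas.comp (by fun_prop : Measurable fun z : ℝ × ℝ => (p, z.1, z.2)))
  rw [lintegral_prod_symm _ hm.aemeasurable, setLIntegral_congr Ioo_ae_eq_Ioc]
  unfold An
  apply lintegral_mono
  intro θ
  apply lintegral_mono_set
  intro r hr
  exact lt_of_le_of_lt ha hr.1

lemma S_meas {G : ℝ × ℝ → ℝ≥0∞} (hG : Measurable G) (p : ℝ × ℝ) (a b : ℝ) :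
    Measurable fun θ => ∫⁻ r in Ioc a b, ENNReal.ofReal r * G (pt p r θ) := by
  have hm : Measurable fun z : ℝ × ℝ => ENNReal.ofReal z.2 * G (pt p z.2 z.1) := by
    apply Measurable.mul (by fun_prop)
    exact hG.comp (pt_meas.comp (by fun_prop : Measurable fun z : ℝ × ℝ => (p, z.2, z.1)))
  exact hm.lintegral_prod_right'

lemma ofr_low {ρ : ℝ} (hρ : 0 < ρ) :
    ENNReal.ofReal (ρ ^ 2 / 4) ≤ ∫⁻ r in Ioc (ρ / 2) ρ, ENNReal.ofReal r := by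
  calc ENNReal.ofReal (ρ ^ 2 / 4) = ∫⁻ r in Ioc (ρ / 2) ρ, ENNReal.ofReal (ρ / 2) := by
        rw [setLIntegral_const, Real.volume_Ioc, ← ENNReal.ofReal_mul (by positivity)]
        congr 1
        ring
    _ ≤ _ := by
        apply setLIntegral_mono' measurableSet_Ioc
        intro r hr
        exact ENNReal.ofReal_le_ofReal hr.1.le

lemma ofr_up {ρ : ℝ} (hρ : 0 < ρ) :
    ∫⁻ r in Ioc (ρ / 2) ρ, ENNReal.ofReal r ≤ ENNReal.ofReal (ρ ^ 2 / 2) := by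
  calc ∫⁻ r in Ioc (ρ / 2) ρ, ENNReal.ofReal r ≤ ∫⁻ r in Ioc (ρ / 2) ρ, ENNReal.ofReal ρ := by
        apply setLIntegral_mono' measurableSet_Ioc
        intro r hr
        exact ENNReal.ofReal_le_ofReal hr.2
    _ = _ := by
        rw [setLIntegral_const, Real.volume_Ioc, ← ENNReal.ofReal_mul (by positivity)]
        congr 1
        ring

/-- the supremum is controlled by the variation and the mean -/
lemma sup_mean {h : ℝ → ℂ} (hm : Measurable h) {q ρ : ℝ} (hq : 1 ≤ q) (hρ : 0 < ρ) {A : ℝ≥0∞}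
    {S : ℝ≥0∞} (hS : ∫⁻ r in Ioc (ρ / 2) ρ, ENNReal.ofReal r * ‖h r‖ₑ ^ q ≤ S)
    (hv : eVariationOn h (Ioc (ρ / 2) ρ) ^ q ≤ A * ENNReal.ofReal ((ρ ^ 2)⁻¹) * S)
    {r : ℝ} (hr : r ∈ Ioc (ρ / 2) ρ) :
    ‖h r‖ₑ ^ q ≤ 2 ^ (q - 1) * ((4 + 2 * A) * ENNReal.ofReal ((ρ ^ 2)⁻¹) * S) := by
  set W : ℝ≥0∞ := eVariationOn h (Ioc (ρ / 2) ρ) with hW
  have h1 : ∀ r' ∈ Ioc (ρ / 2) ρ, ‖h r‖ₑ ^ q ≤ 2 ^ (q - 1) * (‖h r'‖ₑ ^ q + W ^ q) := by
    intro r' hr'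
    refine le_trans ?_ (two_rpow hq _ _)
    have h2 := eVariationOn.edist_le h hr hr'
    rw [edist_eq_enorm_sub] at h2
    have h3 : ‖h r‖ₑ ≤ ‖h r'‖ₑ + W := by
      calc ‖h r‖ₑ = ‖h r' + (h r - h r')‖ₑ := by
            congr 1
            ring
        _ ≤ ‖h r'‖ₑ + ‖h r - h r'‖ₑ := enorm_add_le _ _
        _ ≤ _ := by gcongr
    gcongr
  have h2t : (2 : ℝ≥0∞) ^ (q - 1) ≠ ⊤ := ENNReal.rpow_ne_top_of_nonneg (by linarith) (by norm_num)
  have hmr : Measurable fun r' : ℝ => ENNReal.ofReal r' := by fun_prop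
  have hm2 : Measurable fun r' : ℝ => ENNReal.ofReal r' * ‖h r'‖ₑ ^ q :=
    hmr.mul (hm.enorm.pow_const q)
  have h4 : ENNReal.ofReal (ρ ^ 2 / 4) * ‖h r‖ₑ ^ q ≤
      2 ^ (q - 1) * (S + ENNReal.ofReal (ρ ^ 2 / 2) * W ^ q) := by
    calc ENNReal.ofReal (ρ ^ 2 / 4) * ‖h r‖ₑ ^ q
        ≤ (∫⁻ r' in Ioc (ρ / 2) ρ, ENNReal.ofReal r') * ‖h r‖ₑ ^ q :=
          mul_le_mul' (ofr_low hρ) le_rfl
      _ = ∫⁻ r' in Ioc (ρ / 2) ρ, ENNReal.ofReal r' * ‖h r‖ₑ ^ q := by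
          rw [lintegral_mul_const _ hmr]
      _ ≤ ∫⁻ r' in Ioc (ρ / 2) ρ, 2 ^ (q - 1) * (ENNReal.ofReal r' * ‖h r'‖ₑ ^ q +
            ENNReal.ofReal r' * W ^ q) := by
          apply setLIntegral_mono' measurableSet_Ioc
          intro r' hr'
          calc ENNReal.ofReal r' * ‖h r‖ₑ ^ q
              ≤ ENNReal.ofReal r' * (2 ^ (q - 1) * (‖h r'‖ₑ ^ q + W ^ q)) :=
                mul_le_mul' le_rfl (h1 r' hr')
            _ = _ := by ring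
      _ = 2 ^ (q - 1) * ((∫⁻ r' in Ioc (ρ / 2) ρ, ENNReal.ofReal r' * ‖h r'‖ₑ ^ q) +
            (∫⁻ r' in Ioc (ρ / 2) ρ, ENNReal.ofReal r') * W ^ q) := by
          rw [lintegral_const_mul' _ _ h2t, lintegral_add_left hm2, lintegral_mul_const _ hmr]
      _ ≤ _ := mul_le_mul' le_rfl (add_le_add hS (mul_le_mul' (ofr_up hρ) le_rfl))
  have h5 : ENNReal.ofReal (4 * (ρ ^ 2)⁻¹) * ENNReal.ofReal (ρ ^ 2 / 4) = 1 := by
    rw [← ENNReal.ofReal_mul (by positivity), ← ENNReal.ofReal_one]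
    congr 1
    field_simp
  have h6 : ENNReal.ofReal (4 * (ρ ^ 2)⁻¹) * ENNReal.ofReal (ρ ^ 2 / 2) = 2 := by
    rw [← ENNReal.ofReal_mul (by positivity)]
    have : 4 * (ρ ^ 2)⁻¹ * (ρ ^ 2 / 2) = 2 := by
      field_simp
      norm_num
    rw [this]
    simp
  calc ‖h r‖ₑ ^ q = ENNReal.ofReal (4 * (ρ ^ 2)⁻¹) * (ENNReal.ofReal (ρ ^ 2 / 4) * ‖h r‖ₑ ^ q) := by
        rw [← mul_assoc, h5, one_mul]
    _ ≤ ENNReal.ofReal (4 * (ρ ^ 2)⁻¹) *
          (2 ^ (q - 1) * (S + ENNReal.ofReal (ρ ^ 2 / 2) * W ^ q)) := mul_le_mul' le_rfl h4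
    _ = 2 ^ (q - 1) * (ENNReal.ofReal (4 * (ρ ^ 2)⁻¹) * S +
          (ENNReal.ofReal (4 * (ρ ^ 2)⁻¹) * ENNReal.ofReal (ρ ^ 2 / 2)) * W ^ q) := by ring
    _ ≤ 2 ^ (q - 1) * (4 * ENNReal.ofReal ((ρ ^ 2)⁻¹) * S +
          2 * (A * ENNReal.ofReal ((ρ ^ 2)⁻¹) * S)) := by
        rw [h6]
        refine mul_le_mul' le_rfl (add_le_add (mul_le_mul' (le_of_eq ?_) le_rfl)
          (mul_le_mul' le_rfl hv))
        rw [ENNReal.ofReal_mul (by norm_num)]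
        norm_num
    _ = _ := by ring

lemma le_of_rpow {x y : ℝ≥0∞} {q : ℝ} (hq : 0 < q) (h : x ^ q ≤ y) : x ≤ y ^ (1 / q) := by
  have h1 := ENNReal.rpow_le_rpow h (z := 1 / q) (by positivity)
  rw [← ENNReal.rpow_mul, mul_one_div_cancel hq.ne', ENNReal.rpow_one] at h1
  exact h1

/-- **Variation controlled by the mean.** -/
theorem Kx_mean {q : ℝ} (hq : 3 < q) :
    ∃ K : ℝ≥0∞, K < ⊤ ∧ ∀ f : ℝ × ℝ → ℂ, Measurable f →
      ∀ p : ℝ × ℝ, ∀ R : ℝ, 0 < R → (∀ ξ, R < ln (ξ - p) → f ξ = 0) → ∀ A : ℝ≥0∞,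
      (∀ θ ∈ An, ∀ ρ : ℝ, 0 < ρ → eVariationOn (fun r => f (pt p r θ)) (Ioc (ρ / 2) ρ) ^ q ≤
        A * ENNReal.ofReal ((ρ ^ 2)⁻¹) *
          ∫⁻ r in Ioc (ρ / 4) ρ, ENNReal.ofReal r * ‖f (pt p r θ)‖ₑ ^ q) →
      ∫⁻ t, ∫⁻ x : ℝ × ℝ, ‖Kx f x t‖ₑ ^ q ≤
        K * ((4 + 2 * A) * (ENNReal.ofReal (R ^ (2 * q - 6)) * ∫⁻ ξ, ‖f ξ‖ₑ ^ q)) := by
  have hq0 : 0 < q := by linarith
  have hq1 : 1 ≤ q := by linarith
  obtain ⟨K, hK, HK⟩ := Kx_all' hq (ε := q - 3) (by linarith)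
  obtain ⟨C, hC, HC⟩ := dyad_sum (ε := q - 3) (e := 2 * q - 6) (by linarith)
  set T : ℝ≥0∞ := 2 ^ (q - 1) with hT
  have hTt : T < ⊤ := ENNReal.rpow_lt_top_of_nonneg (by linarith) (by norm_num)
  have hT1 : 1 ≤ T := ENNReal.one_le_rpow (by norm_num) (by linarith)
  refine ⟨K * (T * C), ENNReal.mul_lt_top hK (ENNReal.mul_lt_top hTt hC), ?_⟩
  intro f hf p R hR hs A hv
  have hG : Measurable fun ξ => ‖f ξ‖ₑ ^ q := hf.enorm.pow_const q
  set S : ℕ → ℝ → ℝ≥0∞ := fun j θ => ∫⁻ r in Ioc (rd R j / 4) (rd R j),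
    ENNReal.ofReal r * ‖f (pt p r θ)‖ₑ ^ q with hS
  have hSm : ∀ j, Measurable (S j) := fun j => S_meas hG p _ _
  set V : ℕ → ℝ → ℝ≥0∞ := fun j θ => (T * ((4 + 2 * A) * ENNReal.ofReal ((rd R j ^ 2)⁻¹) *
    S j θ)) ^ (1 / q) with hV
  have hVm : ∀ j, Measurable (V j) := fun j => (((hSm j).const_mul _).const_mul _).pow_const _
  have hVq : ∀ j θ, V j θ ^ q = T * ((4 + 2 * A) * ENNReal.ofReal ((rd R j ^ 2)⁻¹) * S j θ) := by
    intro j θ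
    simp only [hV]
    rw [← ENNReal.rpow_mul, one_div_mul_cancel hq0.ne', ENNReal.rpow_one]
  have hfr : ∀ θ, Measurable fun r => f (pt p r θ) := fun θ =>
    hf.comp (pt_meas.comp (by fun_prop : Measurable fun r : ℝ => (p, r, θ)))
  have hSs : ∀ j θ, ∫⁻ r in Ioc (rd R j / 2) (rd R j), ENNReal.ofReal r * ‖f (pt p r θ)‖ₑ ^ q ≤
      S j θ := by
    intro j θ
    apply lintegral_mono_set
    intro r hr
    have := rd_pos hR j
    exact ⟨by linarith [hr.1], hr.2⟩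
  have h := HK f hf p R hR hs V hVm (fun j θ hθ s hs' => by
      have hr0 := rd_pos hR j
      apply le_of_rpow hq0
      refine sup_mean (hfr θ) hq1 hr0 (hSs j θ) (hv θ hθ _ hr0) (r := rd R j * s) ?_
      refine ⟨?_, ?_⟩
      · have := hs'.1
        nlinarith
      · have := hs'.2
        nlinarith) (fun j θ hθ => by
      have hr0 := rd_pos hR j
      apply le_of_rpow hq0
      have h3 : eVariationOn (fun s => f (pt p (rd R j * s) θ)) Jr ^ q ≤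
          A * ENNReal.ofReal ((rd R j ^ 2)⁻¹) * S j θ := by
        refine le_trans ?_ (hv θ hθ _ hr0)
        gcongr
        exact var_scale f p hr0 θ
      refine h3.trans ?_
      calc A * ENNReal.ofReal ((rd R j ^ 2)⁻¹) * S j θ
          ≤ (4 + 2 * A) * ENNReal.ofReal ((rd R j ^ 2)⁻¹) * S j θ := by
            gcongr
            calc A ≤ 2 * A := by
                  rw [two_mul]
                  exact le_self_add
              _ ≤ _ := le_add_self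
        _ ≤ T * ((4 + 2 * A) * ENNReal.ofReal ((rd R j ^ 2)⁻¹) * S j θ) :=
            le_mul_of_one_le_left bot_le hT1)
  refine h.trans ?_
  have hmain : ∀ j : ℕ, ENNReal.ofReal (2 ^ ((q - 3) * j) * rd R j ^ (2 * q - 4)) *
      ∫⁻ θ in An, V j θ ^ q ≤ ENNReal.ofReal (2 ^ ((q - 3) * j) * rd R j ^ (2 * q - 6)) *
        (T * ((4 + 2 * A) * ∫⁻ ξ, ‖f ξ‖ₑ ^ q)) := by
    intro j
    have hr0 := rd_pos hR j
    have e1 : ∫⁻ θ in An, V j θ ^ q = T * ((4 + 2 * A) * ENNReal.ofReal ((rd R j ^ 2)⁻¹)) *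
        ∫⁻ θ in An, S j θ := by
      rw [← lintegral_const_mul _ (hSm j)]
      apply lintegral_congr
      intro θ
      rw [hVq j θ, mul_assoc, mul_assoc, mul_assoc]
    have e2 : ∫⁻ θ in An, S j θ ≤ ∫⁻ ξ, ‖f ξ‖ₑ ^ q := polar_le hG p (by positivity)
    have e3 : ENNReal.ofReal (2 ^ ((q - 3) * (j : ℝ)) * rd R j ^ (2 * q - 4)) *
        ENNReal.ofReal ((rd R j ^ 2)⁻¹) =
        ENNReal.ofReal (2 ^ ((q - 3) * (j : ℝ)) * rd R j ^ (2 * q - 6)) := by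
      rw [← ENNReal.ofReal_mul (by positivity), mul_assoc]
      congr 2
      rw [← Real.rpow_natCast (rd R j) 2, ← Real.rpow_neg hr0.le, ← Real.rpow_add hr0]
      congr 1
      push_cast
      ring
    calc ENNReal.ofReal (2 ^ ((q - 3) * (j : ℝ)) * rd R j ^ (2 * q - 4)) *
          ∫⁻ θ in An, V j θ ^ q = (ENNReal.ofReal (2 ^ ((q - 3) * (j : ℝ)) * rd R j ^ (2 * q - 4)) *
        ENNReal.ofReal ((rd R j ^ 2)⁻¹)) * (T * ((4 + 2 * A) * ∫⁻ θ in An, S j θ)) := by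
          rw [e1]
          ring
      _ ≤ _ := by
          rw [e3]
          gcongr
  calc K * ∑' j : ℕ, ENNReal.ofReal (2 ^ ((q - 3) * j) * rd R j ^ (2 * q - 4)) *
      ∫⁻ θ in An, V j θ ^ q
      ≤ K * ∑' j : ℕ, ENNReal.ofReal (2 ^ ((q - 3) * j) * rd R j ^ (2 * q - 6)) *
        (T * ((4 + 2 * A) * ∫⁻ ξ, ‖f ξ‖ₑ ^ q)) :=
        mul_le_mul' le_rfl (ENNReal.tsum_le_tsum hmain)
    _ ≤ K * ((C * ENNReal.ofReal (R ^ (2 * q - 6))) * (T * ((4 + 2 * A) * ∫⁻ ξ, ‖f ξ‖ₑ ^ q))) := by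
        rw [ENNReal.tsum_mul_right]
        exact mul_le_mul' le_rfl (mul_le_mul' (HC R hR) le_rfl)
    _ = _ := by ring

end Pool.Agent.U506.RR
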