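import Mathlib
import Pool.Agent.U506.RR.G6
set_option autoImplicit false

/-! Functions which are nonincreasing along the rays, and star-shaped sets. -/

namespace Pool.Agent.U506.RR

open MeasureTheory Set Complex Filter Topology
open scoped ENNReal NNReal

lemma anti_var {h : ℝ → ℝ} (h0 : ∀ r, 0 ≤ h r) (ha : AntitoneOn h (Ioi 0)) {ρ : ℝ} (hρ : 0 < ρ) :
    eVariationOn (fun r => ((h r : ℝ) : ℂ)) (Ioc (ρ / 2) ρ) ≤ ENNReal.ofReal (h (ρ / 2)) := by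
  have hL : LipschitzWith 1 (fun x : ℝ => ((-x : ℝ) : ℂ)) := by
    apply LipschitzWith.of_dist_le_mul
    intro x y
    rw [Complex.dist_eq, Real.dist_eq, ← ofReal_sub, norm_real, Real.norm_eq_abs, NNReal.coe_one,
      one_mul, neg_sub_neg, abs_sub_comm]
  have h1 := (hL.lipschitzOnWith (s := univ)).comp_eVariationOn_le
    (g := fun r => -h r) (s := Ioc (ρ / 2) ρ) (mapsTo_univ _ _)
  rw [ENNReal.coe_one, one_mul] at h1
  have e1 : (fun x : ℝ => ((-x : ℝ) : ℂ)) ∘ (fun r => -h r) = fun r => ((h r : ℝ) : ℂ) := by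
    ext r
    simp
  rw [e1] at h1
  refine h1.trans ?_
  have hm : MonotoneOn (fun r => -h r) (Icc (ρ / 2) ρ) := by
    intro x hx y hy hxy
    simp only
    exact neg_le_neg (ha (lt_of_lt_of_le (by positivity) hx.1) (lt_of_lt_of_le (by positivity) hy.1)
      hxy)
  have h2 := hm.eVariationOn_eq (a := ρ / 2) (b := ρ) ⟨le_rfl, by linarith⟩ ⟨by linarith, le_rfl⟩
  rw [inter_self] at h2
  refine (eVariationOn.mono _ Ioc_subset_Icc_self).trans ?_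
  rw [h2]
  apply ENNReal.ofReal_le_ofReal
  have := h0 ρ
  linarith

lemma anti_mean {h : ℝ → ℝ} (h0 : ∀ r, 0 ≤ h r) (ha : AntitoneOn h (Ioi 0)) {q ρ : ℝ} (hq : 0 < q)
    (hρ : 0 < ρ) : eVariationOn (fun r => ((h r : ℝ) : ℂ)) (Ioc (ρ / 2) ρ) ^ q ≤
      ((16 : ℝ≥0) : ℝ≥0∞) * ENNReal.ofReal ((ρ ^ 2)⁻¹) *
        ∫⁻ r in Ioc (ρ / 4) ρ, ENNReal.ofReal r * ‖((h r : ℝ) : ℂ)‖ₑ ^ q := by
  have h1 : eVariationOn (fun r => ((h r : ℝ) : ℂ)) (Ioc (ρ / 2) ρ) ^ q ≤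
      ENNReal.ofReal (h (ρ / 2)) ^ q := by
    gcongr
    exact anti_var h0 ha hρ
  refine h1.trans ?_
  have h2 : ENNReal.ofReal (ρ ^ 2 / 16) * ENNReal.ofReal (h (ρ / 2)) ^ q ≤
      ∫⁻ r in Ioc (ρ / 4) ρ, ENNReal.ofReal r * ‖((h r : ℝ) : ℂ)‖ₑ ^ q := by
    calc ENNReal.ofReal (ρ ^ 2 / 16) * ENNReal.ofReal (h (ρ / 2)) ^ q
        = ∫⁻ r in Ioc (ρ / 4) (ρ / 2), ENNReal.ofReal (ρ / 4) * ENNReal.ofReal (h (ρ / 2)) ^ q := by
          rw [setLIntegral_const, Real.volume_Ioc]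
          have : ENNReal.ofReal (ρ ^ 2 / 16) = ENNReal.ofReal (ρ / 4) * ENNReal.ofReal (ρ / 2 - ρ / 4) := by
            rw [← ENNReal.ofReal_mul (by positivity)]
            congr 1
            ring
          rw [this]
          ring
      _ ≤ ∫⁻ r in Ioc (ρ / 4) (ρ / 2), ENNReal.ofReal r * ‖((h r : ℝ) : ℂ)‖ₑ ^ q := by
          apply setLIntegral_mono' measurableSet_Ioc
          intro r hr
          have hr0 : 0 < r := lt_trans (by positivity) hr.1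
          have h3 : h (ρ / 2) ≤ h r := ha hr0 (by simp only [mem_Ioi]; positivity) hr.2
          refine mul_le_mul' (ENNReal.ofReal_le_ofReal hr.1.le) ?_
          gcongr
          rw [← ofReal_norm, norm_real, Real.norm_of_nonneg (h0 r)]
          exact ENNReal.ofReal_le_ofReal h3
      _ ≤ _ := by
          apply lintegral_mono_set
          intro r hr
          exact ⟨hr.1, by linarith [hr.2]⟩
  have h5 : ((16 : ℝ≥0) : ℝ≥0∞) * ENNReal.ofReal ((ρ ^ 2)⁻¹) * ENNReal.ofReal (ρ ^ 2 / 16) = 1 := by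
    rw [mul_assoc, ← ENNReal.ofReal_mul (by positivity)]
    have : (ρ ^ 2)⁻¹ * (ρ ^ 2 / 16) = 1 / 16 := by
      field_simp
    rw [this]
    have h16 : ((16 : ℝ≥0) : ℝ≥0∞) = ENNReal.ofReal 16 := by
      rw [ENNReal.ofReal]
      norm_num
    rw [h16, ← ENNReal.ofReal_mul (by norm_num)]
    norm_num
  calc ENNReal.ofReal (h (ρ / 2)) ^ q = (((16 : ℝ≥0) : ℝ≥0∞) * ENNReal.ofReal ((ρ ^ 2)⁻¹) *
        ENNReal.ofReal (ρ ^ 2 / 16)) * ENNReal.ofReal (h (ρ / 2)) ^ q := by rw [h5, one_mul]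
    _ = ((16 : ℝ≥0) : ℝ≥0∞) * ENNReal.ofReal ((ρ ^ 2)⁻¹) *
        (ENNReal.ofReal (ρ ^ 2 / 16) * ENNReal.ofReal (h (ρ / 2)) ^ q) := by ring
    _ ≤ _ := mul_le_mul' le_rfl h2

/-- **Functions nonincreasing along the rays.** -/
theorem Kx_anti {q : ℝ} (hq : 3 < q) :
    ∃ K : ℝ≥0∞, K < ⊤ ∧ ∀ f : ℝ × ℝ → ℝ, Measurable f → (∀ x, 0 ≤ f x) →
      ∀ p : ℝ × ℝ, ∀ R : ℝ, 0 < R → (∀ ξ, R < ln (ξ - p) → f ξ = 0) →
      (∀ θ ∈ An, AntitoneOn (fun r => f (pt p r θ)) (Ioi 0)) →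
      ∫⁻ t, ∫⁻ x : ℝ × ℝ, ‖Kx (fun ξ => ((f ξ : ℝ) : ℂ)) x t‖ₑ ^ q ≤
        K * (ENNReal.ofReal (R ^ (2 * q - 6)) * ∫⁻ ξ, ‖f ξ‖ₑ ^ q) := by
  obtain ⟨K, hK, HK⟩ := Kx_mean hq
  refine ⟨K * (4 + 2 * ((16 : ℝ≥0) : ℝ≥0∞)), ENNReal.mul_lt_top hK ?_, ?_⟩
  · exact ENNReal.add_lt_top.2 ⟨by norm_num, ENNReal.mul_lt_top (by norm_num) ENNReal.coe_lt_top⟩
  intro f hf h0 p R hR hs ha
  have h := HK (fun ξ => ((f ξ : ℝ) : ℂ)) (Complex.measurable_ofReal.comp hf) p R hR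
    (fun ξ hξ => by rw [hs ξ hξ, ofReal_zero]) 16 (fun θ hθ ρ hρ =>
      anti_mean (h := fun r => f (pt p r θ)) (fun _ => h0 _) (ha θ hθ) (by linarith) hρ)
  have e : ∀ ξ, ‖((f ξ : ℝ) : ℂ)‖ₑ = ‖f ξ‖ₑ := by
    intro ξ
    rw [← ofReal_norm, ← ofReal_norm, norm_real]
  simp only [e] at h
  rw [mul_assoc K]
  exact h

/-- the integral over the frequencies -/
lemma freq_int {F : ℝ × ℝ → ℝ → ℝ≥0∞} (hF : Measurable fun q : (ℝ × ℝ) × ℝ => F q.1 q.2) :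
    ∫⁻ z : ℝ × ℝ × ℝ, F (-(z.1, z.2.1)) (-z.2.2) = ∫⁻ t, ∫⁻ x : ℝ × ℝ, F x t := by
  have hm : Measurable fun q : (ℝ × ℝ) × ℝ => F (-q.1) (-q.2) :=
    hF.comp (by fun_prop : Measurable fun q : (ℝ × ℝ) × ℝ => (-q.1, -q.2))
  have h1 := (volume_preserving_prodAssoc (α₁ := ℝ) (β₁ := ℝ) (γ₁ := ℝ)).lintegral_comp
    (f := fun z : ℝ × ℝ × ℝ => F (-(z.1, z.2.1)) (-z.2.2))
    (hm.comp (by fun_prop : Measurable fun z : ℝ × ℝ × ℝ => ((z.1, z.2.1), z.2.2)))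
  rw [← h1]
  have e1 : ∀ w : (ℝ × ℝ) × ℝ, F (-((MeasurableEquiv.prodAssoc w).1, (MeasurableEquiv.prodAssoc w).2.1))
      (-(MeasurableEquiv.prodAssoc w).2.2) = F (-w.1) (-w.2) := fun w => rfl
  simp only [e1]
  rw [Measure.volume_eq_prod, lintegral_prod_symm _ hm.aemeasurable,
    ← lintegral_neg_eq_self (fun t : ℝ => ∫⁻ x : ℝ × ℝ, F x t)]
  apply lintegral_congr
  intro t
  rw [← lintegral_neg_eq_self (fun x : ℝ × ℝ => F x (-t))]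

end Pool.Agent.U506.RR
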