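import Mathlib
import Pool.Agent.U506.RR.G6
import Pool.Agent.TH277.CB.C
set_option autoImplicit false

/-! The bound at a fixed time, for a block of two coordinates. -/

namespace Pool.Agent.U506.RR

open MeasureTheory Set Complex Filter Topology
open scoped ENNReal NNReal

lemma Mt_scale {a ρ : ℝ} (ha : 0 ≤ a) (hρ : 0 < ρ) (t : ℝ) :
    Mt (ρ ^ 2 * t) ^ (-a) ≤ (1 + ρ ^ (-(2 * a))) * Mt t ^ (-a) := by
  have h1 := Mt_pos t
  have h2 := Mt_pos (ρ ^ 2 * t)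
  have h3 : 0 < ρ ^ (-(2 * a)) := by positivity
  have h4 : 0 < Mt t ^ (-a) := by positivity
  have habs : |ρ ^ 2 * t| = ρ ^ 2 * |t| := by
    rw [abs_mul, abs_of_pos (a := ρ ^ 2) (by positivity)]
  rcases le_total 1 ρ with h | h
  · have h5 : Mt t ≤ Mt (ρ ^ 2 * t) := by
      unfold Mt
      apply max_le_max le_rfl
      rw [habs]
      have : 1 ≤ ρ ^ 2 := one_le_pow₀ h
      nlinarith [abs_nonneg t]
    have h6 : Mt (ρ ^ 2 * t) ^ (-a) ≤ Mt t ^ (-a) :=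
      Real.rpow_le_rpow_of_nonpos h1 h5 (by linarith)
    nlinarith
  · have h5 : ρ ^ 2 * Mt t ≤ Mt (ρ ^ 2 * t) := by
      have h7 : ρ ^ 2 ≤ 1 := pow_le_one₀ hρ.le h
      unfold Mt
      rcases le_total 1 |t| with h8 | h8
      · rw [max_eq_right h8]
        refine le_max_of_le_right ?_
        rw [habs]
      · rw [max_eq_left h8]
        refine le_max_of_le_left ?_
        linarith
    have h6 : Mt (ρ ^ 2 * t) ^ (-a) ≤ (ρ ^ 2 * Mt t) ^ (-a) :=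
      Real.rpow_le_rpow_of_nonpos (by positivity) h5 (by linarith)
    have h7 : (ρ ^ 2 * Mt t) ^ (-a) = ρ ^ (-(2 * a)) * Mt t ^ (-a) := by
      rw [Real.mul_rpow (by positivity) h1.le, ← Real.rpow_natCast, ← Real.rpow_mul hρ.le]
      congr 2
      push_cast
      ring
    rw [h7] at h6
    nlinarith

/-- **The bound at a fixed time.** -/
theorem Kx_fix {q a R : ℝ} (hq : 2 < q) (ha0 : 0 ≤ a) (ha : a < q - 2) (ha2 : a < 2)
    (hR : 0 < R) :
    ∃ K : ℝ≥0∞, K < ⊤ ∧ ∀ f : ℝ × ℝ → ℂ, Measurable f → ∀ B : ℝ, (∀ η, ‖f η‖ ≤ B) →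
      ∀ p : ℝ × ℝ, (∀ ξ, R < ln (ξ - p) → f ξ = 0) →
      ∀ V : ℝ → ℝ≥0∞, Measurable V →
      (∀ θ, eVariationOn (fun r => f (pt p r θ)) (Ioi 0) ≤ V θ) → ∀ t : ℝ,
      ∫⁻ x : ℝ × ℝ, ‖Kx f x t‖ₑ ^ q ≤
        K * ENNReal.ofReal (Mt t ^ (-a)) * ∫⁻ θ in An, V θ ^ q := by
  obtain ⟨K, hK, HK⟩ := Kx_sum hq ha0 ha ha2 (ε := 1) one_pos
  obtain ⟨C1, hC1, HC1⟩ := dyad_sum (ε := 1) (e := 2 * q - 2) (by linarith)
  obtain ⟨C2, hC2, HC2⟩ := dyad_sum (ε := 1) (e := 2 * q - 2 - 2 * a) (by linarith)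
  refine ⟨K * (C1 * ENNReal.ofReal (R ^ (2 * q - 2)) + C2 * ENNReal.ofReal (R ^ (2 * q - 2 - 2 * a))),
    ?_, ?_⟩
  · exact ENNReal.mul_lt_top hK (ENNReal.add_lt_top.2 ⟨ENNReal.mul_lt_top hC1 ENNReal.ofReal_lt_top,
      ENNReal.mul_lt_top hC2 ENNReal.ofReal_lt_top⟩)
  intro f hf B hB p hs V hV hv t
  have hsup : ∀ θ, ∀ r : ℝ, 0 < r → ‖f (pt p r θ)‖ₑ ≤ V θ := by
    intro θ r hr
    have h0 : f (pt p (R + 1) θ) = 0 := by
      apply hs
      have : pt p (R + 1) θ - p = ((R + 1) * Real.cos θ, (R + 1) * Real.sin θ) := by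
        unfold pt
        ext <;> simp
      rw [this, ln_polar (by linarith)]
      linarith
    have h1 := eVariationOn.edist_le (fun r => f (pt p r θ)) (s := Ioi 0) (x := r) (y := R + 1)
      hr (by simp only [mem_Ioi]; linarith)
    rw [h0, edist_zero_right] at h1
    exact h1.trans (hv θ)
  have h := HK f hf B hB p R hR hs (fun _ => V) (fun _ => hV) (fun j θ s hs' => by
      apply hsup θ
      have := rd_pos hR j
      have hs0 : 0 < s := lt_trans (by norm_num) hs'.1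
      positivity) (fun j θ => by
      refine (var_scale f p (rd_pos hR j) θ).trans ?_
      refine (eVariationOn.mono _ ?_).trans (hv θ)
      intro r hr
      have := rd_pos hR j
      exact lt_trans (by positivity) hr.1) t
  refine h.trans ?_
  rw [ENNReal.tsum_mul_right, ← mul_assoc]
  refine mul_le_mul' ?_ le_rfl
  rw [mul_assoc]
  refine mul_le_mul' le_rfl ?_
  have hM := Mt_pos t
  calc ∑' j : ℕ, ENNReal.ofReal (2 ^ (1 * (j : ℝ)) * (rd R j ^ (2 * q - 2) *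
          Mt (rd R j ^ 2 * t) ^ (-a)))
      ≤ ∑' j : ℕ, (ENNReal.ofReal (2 ^ (1 * (j : ℝ)) * rd R j ^ (2 * q - 2)) +
          ENNReal.ofReal (2 ^ (1 * (j : ℝ)) * rd R j ^ (2 * q - 2 - 2 * a))) *
            ENNReal.ofReal (Mt t ^ (-a)) := by
        apply ENNReal.tsum_le_tsum
        intro j
        have hr := rd_pos hR j
        rw [← ENNReal.ofReal_add (by positivity) (by positivity),
          ← ENNReal.ofReal_mul (by positivity)]
        apply ENNReal.ofReal_le_ofReal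
        have h1 := Mt_scale ha0 hr t
        have e1 : rd R j ^ (2 * q - 2 - 2 * a) = rd R j ^ (2 * q - 2) * rd R j ^ (-(2 * a)) := by
          rw [← Real.rpow_add hr]
          congr 1
        calc 2 ^ (1 * (j : ℝ)) * (rd R j ^ (2 * q - 2) * Mt (rd R j ^ 2 * t) ^ (-a))
            ≤ 2 ^ (1 * (j : ℝ)) * (rd R j ^ (2 * q - 2) *
              ((1 + rd R j ^ (-(2 * a))) * Mt t ^ (-a))) := by gcongr
          _ = _ := by
              rw [e1]
              ring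
    _ = ((∑' j : ℕ, ENNReal.ofReal (2 ^ (1 * (j : ℝ)) * rd R j ^ (2 * q - 2))) +
          ∑' j : ℕ, ENNReal.ofReal (2 ^ (1 * (j : ℝ)) * rd R j ^ (2 * q - 2 - 2 * a))) *
            ENNReal.ofReal (Mt t ^ (-a)) := by
        rw [ENNReal.tsum_mul_right, ENNReal.tsum_add]
    _ ≤ _ := mul_le_mul' (add_le_add (HC1 R hR) (HC2 R hR)) le_rfl

open Pool.Agent.TH277.CB (E2 pq)

lemma E2_eq (f : ℝ × ℝ → ℂ) (y : ℝ × ℝ) (t : ℝ) :
    E2 f y t = Kx f ((2 * Real.pi) • (y + 0)) (2 * Real.pi * t) := by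
  unfold E2 Kx
  apply integral_congr_ae
  refine ae_of_all _ fun x => ?_
  simp only
  rw [mul_comm]
  congr 1
  unfold pq ph Pool.Agent.TH277.HT.ch
  congr 1
  simp only [add_zero, Prod.smul_fst, Prod.smul_snd, smul_eq_mul, Pool.Agent.TH277.CS.s2,
    Pool.Agent.TH277.CP.sq]
  push_cast
  ring

/-- **The bound at a fixed time, with `2π`.** -/
theorem E2_fix {q a R : ℝ} (hq : 2 < q) (ha0 : 0 ≤ a) (ha : a < q - 2) (ha2 : a < 2)
    (hR : 0 < R) :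
    ∃ K : ℝ≥0∞, K < ⊤ ∧ ∀ f : ℝ × ℝ → ℂ, Measurable f → ∀ B : ℝ, (∀ η, ‖f η‖ ≤ B) →
      ∀ p : ℝ × ℝ, (∀ ξ, R < ln (ξ - p) → f ξ = 0) →
      ∀ V : ℝ → ℝ≥0∞, Measurable V →
      (∀ θ, eVariationOn (fun r => f (pt p r θ)) (Ioi 0) ≤ V θ) → ∀ t : ℝ,
      ∫⁻ y : ℝ × ℝ, ‖E2 f y t‖ₑ ^ q ≤
        K * ENNReal.ofReal (Mt t ^ (-a)) * ∫⁻ θ in An, V θ ^ q := by
  obtain ⟨K, hK, HK⟩ := Kx_fix hq ha0 ha ha2 hR
  refine ⟨K, hK, ?_⟩
  intro f hf B hB p hs V hV hv t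
  have hpi : 1 ≤ 2 * Real.pi := by linarith [Real.pi_gt_three]
  have hm : Measurable fun y : ℝ × ℝ => ‖Kx f y (2 * Real.pi * t)‖ₑ ^ q :=
    ((Kx_meas hf).comp (by fun_prop : Measurable fun y : ℝ × ℝ =>
      (y, 2 * Real.pi * t))).enorm.pow_const q
  simp only [E2_eq]
  rw [lint_scale hm (by positivity) 0]
  calc ENNReal.ofReal ((2 * Real.pi) ^ 2)⁻¹ * ∫⁻ y : ℝ × ℝ, ‖Kx f y (2 * Real.pi * t)‖ₑ ^ q
      ≤ 1 * (K * ENNReal.ofReal (Mt (2 * Real.pi * t) ^ (-a)) * ∫⁻ θ in An, V θ ^ q) := by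
        refine mul_le_mul' ?_ (HK f hf B hB p hs V hV hv _)
        rw [ENNReal.ofReal_le_one]
        apply inv_le_one_of_one_le₀
        exact one_le_pow₀ hpi
    _ ≤ _ := by
        rw [one_mul]
        refine mul_le_mul' (mul_le_mul' le_rfl (ENNReal.ofReal_le_ofReal ?_)) le_rfl
        apply Real.rpow_le_rpow_of_nonpos (Mt_pos t) _ (by linarith)
        unfold Mt
        apply max_le_max le_rfl
        rw [abs_mul, abs_of_pos (a := 2 * Real.pi) (by positivity)]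
        nlinarith [abs_nonneg t]

end Pool.Agent.U506.RR
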