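import Mathlib
import Pool.Agent.U506.RR.H1
set_option autoImplicit false

/-! Products over blocks of coordinates. -/

namespace Pool.Agent.U506.RR

open MeasureTheory Set Complex
open scoped ENNReal NNReal
open Pool.Agent.TH277.CS (s2)
open Pool.Agent.TH277.HT (ch ch_norm ch_cont ch_add EE EE_meas Sch Adm E1 E1_meas mix)
open Pool.Agent.TH277.CB (E2 pq Q2 EE_blk lint_pi2 Phi Phi_mp sch_time E2t_meas E2_meas)

attribute [local irreducible] E1 E2

variable {m₁ m₂ n : ℕ}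

/-- the modulated function -/
noncomputable def md (α : ℝ × ℝ) (β : ℝ) (F : ℝ × ℝ → ℂ) (x : ℝ × ℝ) : ℂ :=
  ch (x.1 * α.1 + x.2 * α.2 + s2 x * β) * F x

lemma s2_cont' : Continuous s2 := Pool.Agent.TH277.CP.sq_cont

lemma md_meas (α : ℝ × ℝ) (β : ℝ) {F : ℝ × ℝ → ℂ} (hF : Measurable F) :
    StronglyMeasurable (md α β F) := by
  have h := s2_cont'
  have h1 : Continuous fun x : ℝ × ℝ => ch (x.1 * α.1 + x.2 * α.2 + s2 x * β) :=
    ch_cont.comp (by fun_prop)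
  exact (h1.measurable.mul hF).stronglyMeasurable

lemma E2_md (α : ℝ × ℝ) (β : ℝ) (F : ℝ × ℝ → ℂ) (y : ℝ × ℝ) (t : ℝ) :
    E2 (md α β F) y t = E2 F (y + α) (t + β) := by
  unfold E2
  apply integral_congr_ae
  refine ae_of_all _ fun x => ?_
  simp only
  unfold md pq
  rw [← mul_assoc, ← ch_add]
  congr 2
  simp only [Prod.fst_add, Prod.snd_add]
  ring

/-- The estimate. -/
theorem main (m₁ m₂ n : ℕ) (hm₂ : 1 ≤ m₂) (hn : n = m₁ + 2 * m₂) (q : ℝ)
    (hq : 2 * ((n : ℝ) + 1) / n < q) (R : ℝ) (hR : 0 < R) :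
    ∃ C : ℝ≥0, ∀ (e : Fin m₁ ⊕ (Fin m₂ ⊕ Fin m₂) ≃ Fin n) (H : Type) [NormedAddCommGroup H]
      [InnerProductSpace ℂ H] [CompleteSpace H]
      (M : ContinuousMultilinearMap ℂ (fun _ : Fin m₁ => H) ℂ) (a : Fin m₁ → ℝ → H),
      ‖M‖ ≤ 1 → (∀ j, Adm (a j)) → ∀ (α : Fin m₂ → ℝ × ℝ) (β : Fin m₂ → ℝ) (p : Fin m₂ → ℝ × ℝ)
        (F : Fin m₂ → ℝ × ℝ → ℂ) (B : ℝ) (V : Fin m₂ → ℝ → ℝ≥0∞),
        (∀ j, Measurable (F j)) → (∀ j x, ‖F j x‖ ≤ B) → (∀ j x, x ∉ Q2 → F j x = 0) →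
        (∀ j, ∀ x ∈ Q2, ln (x - p j) ≤ R) → (∀ j, Measurable (V j)) →
        (∀ j θ, eVariationOn (fun r => F j (pt (p j) r θ)) (Ioi 0) ≤ V j θ) →
        ∫⁻ y : (Fin n → ℝ) × ℝ, ‖EE (fun ξ => M (fun j => a j ((Phi e ξ).1 j)) *
            ∏ j, md (α j) (β j) (F j) ((Phi e ξ).2 j)) y‖ₑ ^ q ≤
          C * ∏ j, ∫⁻ θ in An, V j θ ^ q := by
  have hn2 : 2 ≤ n := by omega
  have hn0' : 0 < n := by omega
  have hn0 : (0 : ℝ) < n := by exact_mod_cast hn0'
  have hn2' : (2 : ℝ) ≤ n := by exact_mod_cast hn2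
  have hq2' : 2 / (n : ℝ) < q - 2 := by
    rw [div_lt_iff₀ hn0] at hq ⊢
    linarith
  have hq2 : 2 < q := by
    have : 0 < 2 / (n : ℝ) := by positivity
    linarith
  have hq0 : 0 < q := by linarith
  -- the exponent
  set b : ℝ := (2 / (n : ℝ) + min (q - 2) 2) / 2 with hb
  have hmin : 2 / (n : ℝ) < min (q - 2) 2 := lt_min hq2' (by
    rw [div_lt_iff₀ hn0]
    linarith)
  have hb1 : 2 / (n : ℝ) < b := by rw [hb]; linarith
  have hb2 : b < min (q - 2) 2 := by rw [hb]; linarith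
  have hb0 : 0 ≤ b := by
    have : 0 < 2 / (n : ℝ) := by positivity
    linarith
  have hbn : 1 < b * n / 2 := by
    rw [div_lt_iff₀ hn0] at hb1
    linarith
  obtain ⟨K, hK, HK⟩ := E2_fix (q := q) (a := b) (R := R) hq2 hb0
    (lt_of_lt_of_le hb2 (min_le_left _ _)) (lt_of_lt_of_le hb2 (min_le_right _ _)) hR
  obtain ⟨C, hC⟩ := mix n hn2 q hq
  have hIt := It_lt hbn
  have hsum : ∑ k : Fin m₂ ⊕ Fin m₁, Sum.elim (fun _ => 2 / (n : ℝ)) (fun _ => 1 / (n : ℝ)) k = 1 := by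
    rw [Fintype.sum_sum_type]
    simp only [Sum.elim_inl, Sum.elim_inr, Finset.sum_const, Finset.card_univ, Fintype.card_fin,
      nsmul_eq_mul]
    have h1 : (n : ℝ) = m₁ + 2 * m₂ := by exact_mod_cast hn
    field_simp
    rw [h1]
    ring
  set K' : ℝ≥0∞ := K ^ m₂ * ((It (b * n / 2) ^ (2 / (n : ℝ))) ^ m₂ *
    ((C : ℝ≥0∞) ^ (1 / (n : ℝ))) ^ m₁) with hK'
  have hKt : K' ≠ ⊤ := by
    rw [hK']
    apply ENNReal.mul_ne_top (ENNReal.pow_ne_top hK.ne)
    apply ENNReal.mul_ne_top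
    · exact ENNReal.pow_ne_top (ENNReal.rpow_ne_top_of_nonneg (by positivity) hIt.ne)
    · exact ENNReal.pow_ne_top (ENNReal.rpow_ne_top_of_nonneg (by positivity) ENNReal.coe_ne_top)
  refine ⟨K'.toNNReal, ?_⟩
  intro e H _ _ _ M a hM ha α β p F B V hF hFB hF0 hFp hV hv
  rw [ENNReal.coe_toNNReal hKt]
  set s : (Fin m₁ → ℝ) → ℂ := fun ξ => M (fun j => a j (ξ j)) with hs
  have hSch : Sch m₁ s := ⟨H, inferInstance, inferInstance, inferInstance, M, a, hM, ha,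
    fun ξ => rfl⟩
  have hsm : StronglyMeasurable s := hSch.meas
  set G : Fin m₂ → ℝ × ℝ → ℂ := fun j => md (α j) (β j) (F j) with hG
  have hGm : ∀ j, StronglyMeasurable (G j) := fun j => md_meas _ _ (hF j)
  have hG0 : ∀ j x, x ∉ Q2 → G j x = 0 := fun j x hx => by
    simp only [hG, md, hF0 j x hx, mul_zero]
  set f : (Fin n → ℝ) → ℂ := fun ξ => s (Phi e ξ).1 * ∏ j, G j ((Phi e ξ).2 j) with hf
  have hfm : StronglyMeasurable f := by
    apply StronglyMeasurable.mul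
    · exact hsm.comp_measurable (measurable_fst.comp (Phi_mp e).measurable)
    · apply Finset.stronglyMeasurable_fun_prod
      intro j _
      exact (hGm j).comp_measurable ((measurable_pi_apply j).comp
        (measurable_snd.comp (Phi_mp e).measurable))
  have hEm : Measurable fun y : (Fin n → ℝ) × ℝ => ‖EE f y‖ₑ ^ q :=
    (EE_meas hfm).enorm.pow_const q
  set Bj : Fin m₁ → ℝ → ℝ≥0∞ := fun j t => ∫⁻ x : ℝ, ‖E1 (a j) x t‖ₑ ^ q with hBj
  have hBm : ∀ j, Measurable (Bj j) := fun j =>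
    ((E1_meas (ha j)).enorm.pow_const q).lintegral_prod_left'
  -- the functions of time
  set W : Fin m₂ ⊕ Fin m₁ → ℝ → ℝ≥0∞ := Sum.elim
    (fun j t => ENNReal.ofReal (Mt (t + β j) ^ (-(b * n / 2)))) (fun j t => Bj j t ^ (n : ℝ)) with hW
  have hWm : ∀ k, Measurable (W k) := by
    intro k
    rcases k with j | j
    · exact (Mtp_meas _).comp (by fun_prop : Measurable fun t : ℝ => t + β j)
    · exact (hBm j).pow_const _
  -- the bound at a fixed time
  have hfix : ∀ t : ℝ, ∫⁻ x : Fin n → ℝ, ‖EE f (x, t)‖ₑ ^ q ≤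
      (K ^ m₂ * ∏ j, ∫⁻ θ in An, V j θ ^ q) *
        ∏ k, W k t ^ (Sum.elim (fun _ => 2 / (n : ℝ)) (fun _ => 1 / (n : ℝ)) k : ℝ) := by
    intro t
    set Z : (Fin m₁ → ℝ) × (Fin m₂ → ℝ × ℝ) → ℝ≥0∞ := fun z =>
      ‖EE s (z.1, t)‖ₑ ^ q * ∏ j, ‖E2 (G j) (z.2 j) t‖ₑ ^ q with hZ
    have hEs : Measurable fun x : Fin m₁ → ℝ => ‖EE s (x, t)‖ₑ ^ q :=
      ((EE_meas hsm).enorm.pow_const q).comp
        (by fun_prop : Measurable fun x : Fin m₁ → ℝ => ((x, t) : (Fin m₁ → ℝ) × ℝ))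
    have hEg : ∀ j, Measurable fun y : ℝ × ℝ => ‖E2 (G j) y t‖ₑ ^ q := fun j =>
      (E2t_meas (G j) (hGm j) t).pow_const q
    have hEgp : Measurable fun z : Fin m₂ → ℝ × ℝ => ∏ j, ‖E2 (G j) (z j) t‖ₑ ^ q :=
      Finset.measurable_prod _ fun j _ => (hEg j).comp (measurable_pi_apply j)
    have hZm : Measurable Z :=
      (hEs.comp measurable_fst).mul (hEgp.comp measurable_snd)
    calc ∫⁻ x : Fin n → ℝ, ‖EE f (x, t)‖ₑ ^ q = ∫⁻ x : Fin n → ℝ, Z (Phi e x) := by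
          apply lintegral_congr
          intro x
          rw [hf, EE_blk e hsm hGm hG0 x t, enorm_mul, ENNReal.mul_rpow_of_nonneg _ _ hq0.le]
          simp only [hZ]
          congr 1
          rw [ENNReal.prod_rpow_of_nonneg hq0.le]
          congr 1
          rw [← ofReal_norm, norm_prod, ENNReal.ofReal_prod_of_nonneg fun j _ => norm_nonneg _]
          apply Finset.prod_congr rfl
          intro j _
          rw [ofReal_norm]
      _ = ∫⁻ z, Z z := (Phi_mp e).lintegral_comp hZm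
      _ = (∫⁻ x : Fin m₁ → ℝ, ‖EE s (x, t)‖ₑ ^ q) *
            ∫⁻ z : Fin m₂ → ℝ × ℝ, ∏ j, ‖E2 (G j) (z j) t‖ₑ ^ q := by
          rw [Measure.volume_eq_prod]
          exact lintegral_prod_mul hEs.aemeasurable hEgp.aemeasurable
      _ = (∫⁻ x : Fin m₁ → ℝ, ‖EE s (x, t)‖ₑ ^ q) * ∏ j, ∫⁻ y, ‖E2 (G j) y t‖ₑ ^ q := by
          rw [lint_pi2 (fun j y => ‖E2 (G j) y t‖ₑ ^ q) hEg]
      _ ≤ (∏ j, Bj j t) * ∏ j, (K * ENNReal.ofReal (Mt (t + β j) ^ (-b)) *
            ∫⁻ θ in An, V j θ ^ q) := by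
          refine mul_le_mul' (sch_time hq0 M hM ha t) (Finset.prod_le_prod' fun j _ => ?_)
          simp only [hG, E2_md]
          have hm : Measurable fun y : ℝ × ℝ => ‖E2 (F j) y (t + β j)‖ₑ ^ q :=
            (E2t_meas (F j) (hF j).stronglyMeasurable _).pow_const q
          rw [lintegral_add_right_eq_self (fun y : ℝ × ℝ => ‖E2 (F j) y (t + β j)‖ₑ ^ q) (α j)]
          refine HK (F j) (hF j) B (hFB j) (p j) ?_ (V j) (hV j) (hv j) (t + β j)
          intro ξ hξ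
          apply hF0 j
          intro hin
          exact absurd (hFp j ξ hin) (not_le.2 hξ)
      _ = _ := by
          rw [Finset.prod_mul_distrib, Finset.prod_mul_distrib, Finset.prod_const,
            Finset.card_univ, Fintype.card_fin, Fintype.prod_sum_type]
          simp only [hW, Sum.elim_inl, Sum.elim_inr]
          have h1 : ∀ j, (Bj j t ^ (n : ℝ)) ^ (1 / (n : ℝ)) = Bj j t := by
            intro j
            rw [← ENNReal.rpow_mul, mul_one_div_cancel hn0.ne', ENNReal.rpow_one]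
          have h2 : ∀ j, ENNReal.ofReal (Mt (t + β j) ^ (-(b * n / 2))) ^ (2 / (n : ℝ)) =
              ENNReal.ofReal (Mt (t + β j) ^ (-b)) := by
            intro j
            have hM := Mt_pos (t + β j)
            rw [ENNReal.ofReal_rpow_of_pos (by positivity), ← Real.rpow_mul hM.le]
            congr 2
            field_simp
          simp only [h1, h2]
          ring
  rw [Measure.volume_eq_prod, lintegral_prod_symm _ hEm.aemeasurable]
  calc ∫⁻ t, ∫⁻ x : Fin n → ℝ, ‖EE f (x, t)‖ₑ ^ q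
      ≤ ∫⁻ t, (K ^ m₂ * ∏ j, ∫⁻ θ in An, V j θ ^ q) *
        ∏ k, W k t ^ (Sum.elim (fun _ => 2 / (n : ℝ)) (fun _ => 1 / (n : ℝ)) k : ℝ) :=
        lintegral_mono hfix
    _ = (K ^ m₂ * ∏ j, ∫⁻ θ in An, V j θ ^ q) *
        ∫⁻ t, ∏ k, W k t ^ (Sum.elim (fun _ => 2 / (n : ℝ)) (fun _ => 1 / (n : ℝ)) k : ℝ) := by
        apply lintegral_const_mul
        exact Finset.measurable_prod _ fun k _ => (hWm k).pow_const _
    _ ≤ (K ^ m₂ * ∏ j, ∫⁻ θ in An, V j θ ^ q) *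
        ∏ k, (∫⁻ t, W k t) ^ (Sum.elim (fun _ => 2 / (n : ℝ)) (fun _ => 1 / (n : ℝ)) k : ℝ) := by
        refine mul_le_mul' le_rfl ?_
        apply ENNReal.lintegral_prod_norm_pow_le _ (fun k _ => (hWm k).aemeasurable) hsum
        intro k _
        rcases k with j | j
        · simp only [Sum.elim_inl]
          positivity
        · simp only [Sum.elim_inr]
          positivity
    _ ≤ (K ^ m₂ * ∏ j, ∫⁻ θ in An, V j θ ^ q) *
        ((∏ _j : Fin m₂, It (b * n / 2) ^ (2 / (n : ℝ))) *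
          ∏ _j : Fin m₁, (C : ℝ≥0∞) ^ (1 / (n : ℝ))) := by
        rw [Fintype.prod_sum_type]
        simp only [hW, Sum.elim_inl, Sum.elim_inr]
        refine mul_le_mul' le_rfl (mul_le_mul' (Finset.prod_le_prod' fun j _ => ?_)
          (Finset.prod_le_prod' fun j _ => ?_))
        · refine ENNReal.rpow_le_rpow (le_of_eq ?_) (by positivity)
          rw [lintegral_add_right_eq_self (fun t : ℝ =>
            ENNReal.ofReal (Mt t ^ (-(b * n / 2)))) (β j)]
          rfl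
        · exact ENNReal.rpow_le_rpow (hC H (a j) (ha j)) (by positivity)
    _ = K' * ∏ j, ∫⁻ θ in An, V j θ ^ q := by
        rw [Finset.prod_const, Finset.prod_const, Finset.card_univ, Fintype.card_fin,
          Finset.card_univ, Fintype.card_fin, hK']
        ring

end Pool.Agent.U506.RR
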